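import Pool.Agent.Work.MP_54723a_co.TransFin

/-!
# Block rainbow paths

Monotone paths in which every colour occurs in a single block of at most two consecutive edges.
-/

set_option autoImplicit false

namespace FlashRainbow

/-- `BF c V x v D`: from `x` to `v` there is a sequence of links in `V` whose colours are different
and form the set `D`. -/
inductive BF (c : ℕ → ℕ → ℕ) (V : Finset ℕ) (x : ℕ) : ℕ → Finset ℕ → Prop
  | single : x ∈ V → BF c V x x ∅
  | link {u v γ : ℕ} {D : Finset ℕ} : BF c V x u D → Link c V u v γ → γ ∉ D →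
      BF c V x v (insert γ D)

theorem BF.mem {c : ℕ → ℕ → ℕ} {V : Finset ℕ} {x v : ℕ} {D : Finset ℕ} (h : BF c V x v D) :
    v ∈ V := by
  cases h with
  | single hx => exact hx
  | link _ h _ => exact h.1

theorem BF.toFun {c : ℕ → ℕ → ℕ} {V : Finset ℕ} {x v : ℕ} {D : Finset ℕ} (h : BF c V x v D) :
    ∃ y g : ℕ → ℕ, y 0 = x ∧ y D.card = v ∧ (∀ i ≤ D.card, y i ∈ V) ∧
      (∀ i < D.card, Link c V (y i) (y (i + 1)) (g i)) ∧
      (∀ i < D.card, ∀ j < D.card, g i = g j → i = j) ∧
      D = (Finset.range D.card).image g := by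
  induction h with
  | single hx =>
    exact ⟨fun _ => x, fun _ => 0, rfl, rfl, fun _ _ => hx, by simp, by simp, by simp⟩
  | @link u z γ D h hl hc ih =>
    obtain ⟨y, g, hx, h0, h1, h2, h4, h5⟩ := ih
    rw [Finset.card_insert_of_notMem hc]
    set j := D.card with hj
    have hupd : ∀ i ≤ j, Function.update y (j + 1) z i = y i := fun i hi =>
      Function.update_of_ne (by omega) _ _
    have hlast : Function.update y (j + 1) z (j + 1) = z := Function.update_self _ _ _
    have gupd : ∀ i < j, Function.update g j γ i = g i := fun i hi =>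
      Function.update_of_ne (by omega) _ _
    have glast : Function.update g j γ j = γ := Function.update_self _ _ _
    have hmem : ∀ i < j, g i ∈ D := by
      intro i hi
      rw [h5]
      exact Finset.mem_image_of_mem _ (Finset.mem_range.mpr hi)
    refine ⟨Function.update y (j + 1) z, Function.update g j γ, ?_, hlast, ?_, ?_, ?_, ?_⟩
    · rw [hupd 0 (Nat.zero_le _)]; exact hx
    · intro i hi
      rcases Nat.lt_or_ge j i with h' | h'
      · have : i = j + 1 := by omega
        subst this
        rw [hlast]; exact hl.1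
      · rw [hupd i h']; exact h1 i h'
    · intro i hi
      rw [hupd i (by omega)]
      rcases Nat.lt_or_ge i j with h' | h'
      · rw [hupd (i + 1) (by omega), gupd i h']; exact h2 i h'
      · have : i = j := by omega
        subst this
        rw [hlast, h0, glast]; exact hl
    · intro i hi i' hi' heq
      rcases Nat.lt_or_ge i j with h' | h'
      · rw [gupd i h'] at heq
        rcases Nat.lt_or_ge i' j with h'' | h''
        · rw [gupd i' h''] at heq
          exact h4 i h' i' h'' heq
        · have : i' = j := by omega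
          subst this
          rw [glast] at heq
          exact absurd (heq ▸ hmem i h') hc
      · have : i = j := by omega
        subst this
        rw [glast] at heq
        rcases Nat.lt_or_ge i' j with h'' | h''
        · rw [gupd i' h''] at heq
          exact absurd (heq.symm ▸ hmem i' h'') hc
        · omega
    · rw [Finset.range_add_one, Finset.image_insert, glast]
      congr 1
      conv_lhs => rw [h5]
      refine Finset.image_congr ?_
      intro i hi
      have hi' : i < j := Finset.mem_range.mp (Finset.mem_coe.mp hi)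
      exact (gupd i hi').symm

/-- The anchored block theorem for a finite set of natural numbers. -/
theorem block_set {c : ℕ → ℕ → ℕ} {V : Finset ℕ} {L : ℕ → ℕ}
    (hL : ∀ γ v, ¬ MP c V γ v (L γ)) {x : ℕ} (hx : x ∈ V) (hmin : ∀ v ∈ V, x ≤ v) :
    ∃ v D, BF c V x v D ∧ V.card ≤ ∏ γ ∈ D, L γ := by
  classical
  by_contra hcon
  push Not at hcon
  have hcard : (V.erase x).card + 1 = V.card := Finset.card_erase_add_one hx
  have h := block_core (E := BF c V x) ∅ (fun u D h => h.mem)
    (fun u D v γ _ h hl hc => BF.link h hl hc) hL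
    (V.erase x).card (V.erase x) (le_refl _) ∅ (fun _ => x) (V.card - 1)
    (Finset.empty_subset _) (Finset.erase_subset _ _) ⟨x, BF.single hx⟩
    (fun _ _ _ _ _ => Finset.notMem_empty _)
    (fun q hq => ⟨BF.single hx, lt_of_le_of_ne (hmin q (Finset.mem_of_mem_erase hq))
      (Ne.symm (Finset.ne_of_mem_erase hq)), Finset.notMem_empty _⟩)
    (fun v D' hv _ => by
      have := hcon v D' hv
      rw [Finset.sdiff_empty]
      omega)
  omega

/-- The block theorem for colourings of the pairs of `Fin n`. -/
theorem block_fin (n : ℕ) (c : Fin n → Fin n → ℕ) (L : ℕ → ℕ)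
    (hflash : ∀ γ : ℕ, ¬ ∃ x : Fin (L γ + 1) → Fin n, StrictMono x ∧
        ∀ i : Fin (L γ), c (x i.castSucc) (x i.succ) = γ) (hn : 0 < n) :
    ∃ (m : ℕ) (y : Fin (m + 1) → Fin n) (g : Fin m → ℕ), StrictMono y ∧ (y 0 : ℕ) = 0 ∧
      Function.Injective g ∧ n ≤ ∏ i : Fin m, L (g i) ∧
      ∀ i : Fin m, c (y i.castSucc) (y i.succ) = g i ∨
        ∃ v : Fin n, y i.castSucc < v ∧ v < y i.succ ∧ c (y i.castSucc) v = g i ∧
          c v (y i.succ) = g i := by
  classical
  set C : ℕ → ℕ → ℕ := fun a b => if h : a < n ∧ b < n then c ⟨a, h.1⟩ ⟨b, h.2⟩ else 0 with hC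
  have hCeq : ∀ (a b : ℕ) (ha : a < n) (hb : b < n), C a b = c ⟨a, ha⟩ ⟨b, hb⟩ := by
    intro a b ha hb
    rw [hC]
    simp only [ha, hb, and_self, dite_true]
  set V := Finset.range n with hV
  have hnoflash : ∀ γ v, ¬ MP C V γ v (L γ) := by
    intro γ v hmp
    obtain ⟨y, _, h1, h2, h3⟩ := hmp.toFun
    have h1' : ∀ i ≤ L γ, y i < n := fun i hi => Finset.mem_range.mp (h1 i hi)
    apply hflash γ
    refine ⟨_, strictMono_of_lt_succ y h1' h2, fun i => ?_⟩
    have := h3 i i.2
    rw [hCeq _ _ (h1' i (by omega)) (h1' (i + 1) (by omega))] at this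
    simpa using this
  obtain ⟨v, D, hBF, hcard⟩ := block_set hnoflash (x := 0) (Finset.mem_range.mpr hn)
    (fun _ _ => Nat.zero_le _)
  obtain ⟨y, g, hx, _, h1, h2, h4, h5⟩ := hBF.toFun
  have h1' : ∀ i ≤ D.card, y i < n := fun i hi => Finset.mem_range.mp (h1 i hi)
  refine ⟨D.card, _, fun i => g i, strictMono_of_lt_succ y h1' (fun i hi => (h2 i hi).2.1),
    ?_, ?_, ?_, ?_⟩
  · simpa using hx
  · intro i j hij
    apply Fin.ext
    exact h4 i i.2 j j.2 hij
  · rw [hV, Finset.card_range] at hcard
    refine hcard.trans (le_of_eq ?_)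
    conv_lhs => rw [h5]
    rw [Finset.prod_image (fun i hi j hj hij => h4 i (Finset.mem_range.mp hi) j
      (Finset.mem_range.mp hj) hij), Finset.prod_range]
  · intro i
    obtain ⟨_, _, h⟩ := h2 i i.2
    rcases h with h | ⟨w, hw, hyw, hwy, h3, h6⟩
    · left
      rw [hCeq _ _ (h1' i (by omega)) (h1' (i + 1) (by omega))] at h
      simpa using h
    · right
      have hwn := Finset.mem_range.mp hw
      rw [hCeq _ _ (h1' i (by omega)) hwn] at h3
      rw [hCeq _ _ hwn (h1' (i + 1) (by omega))] at h6
      refine ⟨⟨w, hwn⟩, ?_, ?_, ?_, ?_⟩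
      · rw [Fin.lt_def]; simpa using hyw
      · rw [Fin.lt_def]; simpa using hwy
      · simpa using h3
      · simpa using h6

end FlashRainbow
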