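import Pool.Agent.Work.MP_54723a_co.Step
import Mathlib.Analysis.SpecificLimits.Normed
import Mathlib.Data.Nat.Log

/-!
# The polynomially tight bound
-/

set_option autoImplicit false

namespace FlashRainbow

theorem exists_L0 : ∃ L₀ : ℕ, ∀ L ≥ L₀, 160000000 * L ^ 7 ≤ 2 ^ L := by
  have h := tendsto_pow_const_div_const_pow_of_one_lt 7 (show (1 : ℝ) < 2 by norm_num)
  have h2 := h.eventually (gt_mem_nhds (show (0 : ℝ) < 1 / 160000000 by norm_num))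
  obtain ⟨L₀, hL₀⟩ := Filter.eventually_atTop.mp h2
  refine ⟨L₀, fun L hL => ?_⟩
  have h3 := hL₀ L hL
  have h4 : (0 : ℝ) < 2 ^ L := by positivity
  rw [div_lt_div_iff₀ h4 (by norm_num)] at h3
  have h5 : ((160000000 * L ^ 7 : ℕ) : ℝ) ≤ ((2 ^ L : ℕ) : ℝ) := by
    push_cast
    linarith
  exact_mod_cast h5

/-- the numerical conditions for large `R` -/
theorem exists_R0 : ∃ R₀ : ℕ, ∀ R ≥ R₀, ∃ d, 1 ≤ d ∧ d < R ∧
    32 * (R + 2) ^ 4 * d ^ 7 ≤ (R + 1) ^ 5 ∧ 16 * (R + 2) ^ 4 * d ^ 2 ≤ 2 ^ d := by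
  obtain ⟨L₀, hL₀⟩ := exists_L0
  refine ⟨2 ^ (L₀ + 1), fun R hR => ?_⟩
  set L := Nat.log 2 (R + 2) + 1 with hLdef
  have hR2 : R + 2 ≠ 0 := by omega
  have h1 : 2 ^ (L - 1) ≤ R + 2 := by
    rw [hLdef, Nat.add_sub_cancel]; exact Nat.pow_log_le_self 2 hR2
  have h2 : R + 2 < 2 ^ L := by
    rw [hLdef]; exact Nat.lt_pow_succ_log_self (by norm_num) _
  have hLL : L₀ ≤ L := by
    have h3 : 2 ^ (L₀ + 1) < 2 ^ L := lt_of_le_of_lt hR (by omega)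
    have := (Nat.pow_lt_pow_iff_right (show 1 < 2 by norm_num)).mp h3
    omega
  have hL1 : 1 ≤ L := by omega
  have h4 := hL₀ L hLL
  have h5 : 2 ^ L = 2 * 2 ^ (L - 1) := by
    conv_lhs => rw [show L = (L - 1) + 1 by omega]
    rw [pow_succ]; ring
  have hL7 : 1 ≤ L ^ 7 := Nat.one_le_pow _ _ hL1
  have hL27 : L ^ 2 ≤ L ^ 7 := Nat.pow_le_pow_right hL1 (by norm_num)
  have hL17 : L ≤ L ^ 7 := by
    calc L = L ^ 1 := (pow_one L).symm
      _ ≤ L ^ 7 := Nat.pow_le_pow_right hL1 (by norm_num)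
  have h6 : 80000000 * L ^ 7 ≤ R + 2 := by omega
  have h7 : 40000000 * L ^ 7 ≤ R + 1 := by omega
  refine ⟨5 * L, by omega, by omega, ?_, ?_⟩
  · have h8 : (R + 2) ^ 4 ≤ (2 * (R + 1)) ^ 4 := Nat.pow_le_pow_left (by omega) _
    calc 32 * (R + 2) ^ 4 * (5 * L) ^ 7 ≤ 32 * (2 * (R + 1)) ^ 4 * (5 * L) ^ 7 :=
          Nat.mul_le_mul_right _ (Nat.mul_le_mul_left _ h8)
      _ = (R + 1) ^ 4 * (40000000 * L ^ 7) := by ring
      _ ≤ (R + 1) ^ 4 * (R + 1) := Nat.mul_le_mul_left _ h7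
      _ = (R + 1) ^ 5 := by ring
  · have h9 : 400 * L ^ 2 ≤ R + 2 := by
      have : 400 * L ^ 2 ≤ 80000000 * L ^ 7 := by
        calc 400 * L ^ 2 ≤ 400 * L ^ 7 := Nat.mul_le_mul_left _ hL27
          _ ≤ 80000000 * L ^ 7 := Nat.mul_le_mul_right _ (by norm_num)
      omega
    calc 16 * (R + 2) ^ 4 * (5 * L) ^ 2 = (R + 2) ^ 4 * (400 * L ^ 2) := by ring
      _ ≤ (R + 2) ^ 4 * (R + 2) := Nat.mul_le_mul_left _ h9
      _ = (R + 2) ^ 5 := by ring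
      _ ≤ (2 ^ L) ^ 5 := Nat.pow_le_pow_left h2.le _
      _ = 2 ^ (5 * L) := by rw [← pow_mul, Nat.mul_comm]

theorem num1 (R d : ℕ) (hd : 1 ≤ d) :
    (R + 1) * ((R + 2) * d + 1) + 1 ≤ 2 * (R + 2) ^ 2 * d := by
  obtain ⟨e, rfl⟩ : ∃ e, d = e + 1 := ⟨d - 1, by omega⟩
  refine Nat.le.intro (k := R ^ 2 * e + 5 * R * e + 6 * e + R ^ 2 + 4 * R + 4) ?_
  ring

theorem num2 (R d : ℕ) (hd : 1 ≤ d) :
    2 * R + (R + 1) * d * R + 1 ≤ 4 * (R + 2) ^ 2 * d := by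
  obtain ⟨e, rfl⟩ : ∃ e, d = e + 1 := ⟨d - 1, by omega⟩
  refine Nat.le.intro (k := 3 * R ^ 2 * e + 15 * R * e + 16 * e + 3 * R ^ 2 + 13 * R + 15) ?_
  ring

theorem num3 (R d : ℕ) (hd : 1 ≤ d) :
    (R + 1) * d + 3 * R + 1 ≤ 4 * (R + 2) ^ 2 * d := by
  obtain ⟨e, rfl⟩ : ∃ e, d = e + 1 := ⟨d - 1, by omega⟩
  refine Nat.le.intro (k := 4 * R ^ 2 * e + 15 * R * e + 15 * e + 4 * R ^ 2 + 12 * R + 14) ?_
  ring

theorem num4 (R d Λ Q F₂ : ℕ) (hd : 1 ≤ d) (hΛ1 : 1 ≤ Λ) (hF₂Q : F₂ ≤ Q) :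
    2 * (R * Λ) + (R + 1) * d * (R * Λ + Q) + 3 * (R * Q) + F₂ + 1 ≤
      4 * (R + 2) ^ 2 * d * (Λ + Q) := by
  have g1 : 2 * (R * Λ) + (R + 1) * d * (R * Λ) + 1 ≤ 4 * (R + 2) ^ 2 * d * Λ := by
    calc 2 * (R * Λ) + (R + 1) * d * (R * Λ) + 1
        ≤ 2 * (R * Λ) + (R + 1) * d * (R * Λ) + Λ := by omega
      _ = (2 * R + (R + 1) * d * R + 1) * Λ := by ring
      _ ≤ 4 * (R + 2) ^ 2 * d * Λ := Nat.mul_le_mul_right _ (num2 R d hd)
  have g3 : (R + 1) * d * Q + 3 * (R * Q) + F₂ ≤ 4 * (R + 2) ^ 2 * d * Q := by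
    calc (R + 1) * d * Q + 3 * (R * Q) + F₂
        ≤ (R + 1) * d * Q + 3 * (R * Q) + Q := by omega
      _ = ((R + 1) * d + 3 * R + 1) * Q := by ring
      _ ≤ 4 * (R + 2) ^ 2 * d * Q := Nat.mul_le_mul_right _ (num3 R d hd)
  calc 2 * (R * Λ) + (R + 1) * d * (R * Λ + Q) + 3 * (R * Q) + F₂ + 1
      = (2 * (R * Λ) + (R + 1) * d * (R * Λ) + 1) +
          ((R + 1) * d * Q + 3 * (R * Q) + F₂) := by ring
    _ ≤ 4 * (R + 2) ^ 2 * d * Λ + 4 * (R + 2) ^ 2 * d * Q := Nat.add_le_add g1 g3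
    _ = 4 * (R + 2) ^ 2 * d * (Λ + Q) := by ring

/-- The bound in terms of level functions and rainbow paths. -/
theorem poly_bound : ∃ K : ℕ, ∀ l ≥ 2, ∀ (c : ℕ → ℕ → ℕ) (lev : ℕ → ℕ → ℕ) (R : ℕ)
    (V : Finset ℕ), Lev c V l lev → (∀ x D, RP c V x D → D.card ≤ R) →
      V.card ≤ K * (R + 1) ^ 5 * l ^ R := by
  obtain ⟨R₀, hR₀⟩ := exists_R0
  refine ⟨2 ^ R₀ * (R₀ + 2) ^ (2 * R₀) + 1, ?_⟩
  intro l hl c lev R
  set K := 2 ^ R₀ * (R₀ + 2) ^ (2 * R₀) + 1 with hK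
  induction R using Nat.strong_induction_on with
  | _ R ih =>
    intro V hL hR
    rcases le_total R R₀ with hle | hge
    · -- small `R`
      refine (crude R V hL hR).trans ?_
      have h1 : (l + 1) ^ R ≤ 2 ^ R₀ * l ^ R := by
        calc (l + 1) ^ R ≤ (2 * l) ^ R := Nat.pow_le_pow_left (by omega) _
          _ = 2 ^ R * l ^ R := by rw [mul_pow]
          _ ≤ 2 ^ R₀ * l ^ R :=
            Nat.mul_le_mul_right _ (Nat.pow_le_pow_right (by norm_num) hle)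
      have h2 : (R + 2) ^ (2 * R) ≤ (R₀ + 2) ^ (2 * R₀) :=
        (Nat.pow_le_pow_left (by omega) _).trans (Nat.pow_le_pow_right (by omega) (by omega))
      have h3 : 1 ≤ (R + 1) ^ 5 := Nat.one_le_pow _ _ (by omega)
      calc (l + 1) ^ R * (R + 2) ^ (2 * R)
          ≤ (2 ^ R₀ * l ^ R) * (R₀ + 2) ^ (2 * R₀) := Nat.mul_le_mul h1 h2
        _ = (2 ^ R₀ * (R₀ + 2) ^ (2 * R₀)) * 1 * l ^ R := by ring
        _ ≤ K * (R + 1) ^ 5 * l ^ R :=
          Nat.mul_le_mul_right _ (Nat.mul_le_mul (Nat.le_succ _) h3)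
    · -- large `R`
      obtain ⟨d, hd1, hdR, hA, hB⟩ := hR₀ R hge
      set s := R - d with hs
      have hs1 : 1 ≤ s := by omega
      have hsR : s < R := by omega
      have hRs : R - s = d := by omega
      have hlevsub : ∀ T ⊆ V, Lev c T l lev := fun T hT =>
        ⟨fun γ v hv => hL.lt γ v (hT hv), fun u hu v hv => hL.up u (hT hu) v (hT hv)⟩
      have hrec := recursion hL hR hs1 hsR (F₁ := K * d ^ 5 * l ^ (d - 1))
        (F₂ := K * s ^ 5 * l ^ (s - 1))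
        (fun T hT h => by
          have := ih (d - 1) (by omega) T (hlevsub T hT) (fun x D hD => by
            have := h x D hD; omega)
          rwa [Nat.sub_add_cancel hd1] at this)
        (fun T hT h => by
          have := ih (s - 1) (by omega) T (hlevsub T hT) h
          rwa [Nat.sub_add_cancel hs1] at this)
      rw [hRs] at hrec
      have e1 : l ^ (s + 1) * (K * d ^ 5 * l ^ (d - 1)) = K * d ^ 5 * l ^ R := by
        have : l ^ R = l ^ (s + 1) * l ^ (d - 1) := by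
          rw [← pow_add]; congr 1; omega
        rw [this]; ring
      have e2 : l * (K * s ^ 5 * l ^ (s - 1)) = K * s ^ 5 * l ^ s := by
        have : l ^ s = l * l ^ (s - 1) := by
          rw [← pow_succ']; congr 1; omega
        rw [this]; ring
      rw [e1, e2] at hrec
      set P := l ^ R with hP
      set Λ := K * d ^ 5 * P + 1 with hΛ
      set Q := K * s ^ 5 * l ^ s with hQ
      set F₂ := K * s ^ 5 * l ^ (s - 1) with hF₂
      have hPpos : 1 ≤ P := Nat.one_le_pow _ _ (by omega)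
      have hKpos : 1 ≤ K := by omega
      have hF₂Q : F₂ ≤ Q := by
        rw [hF₂, hQ]
        exact Nat.mul_le_mul_left _ (Nat.pow_le_pow_right (by omega) (by omega))
      have hΛle : Λ ≤ 2 * (K * d ^ 5 * P) := by
        have : 1 ≤ K * d ^ 5 * P := Nat.one_le_iff_ne_zero.mpr (by positivity)
        omega
      -- size of the product
      have hM := num1 R d hd1
      have hI := num4 R d Λ Q F₂ hd1 (by omega) hF₂Q
      have hV : V.card ≤ 8 * (R + 2) ^ 4 * d ^ 2 * (Λ + Q) := by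
        refine hrec.le.trans ?_
        calc ((R + 1) * ((R + 2) * d + 1) + 1) *
              (2 * (R * Λ) + (R + 1) * d * (R * Λ + Q) + 3 * (R * Q) + F₂ + 1)
            ≤ (2 * (R + 2) ^ 2 * d) * (4 * (R + 2) ^ 2 * d * (Λ + Q)) := Nat.mul_le_mul hM hI
          _ = 8 * (R + 2) ^ 4 * d ^ 2 * (Λ + Q) := by ring
      have hT1 : 2 * (8 * (R + 2) ^ 4 * d ^ 2 * Λ) ≤ K * (R + 1) ^ 5 * P := by
        calc 2 * (8 * (R + 2) ^ 4 * d ^ 2 * Λ)
            ≤ 2 * (8 * (R + 2) ^ 4 * d ^ 2 * (2 * (K * d ^ 5 * P))) :=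
              Nat.mul_le_mul_left _ (Nat.mul_le_mul_left _ hΛle)
          _ = (32 * (R + 2) ^ 4 * d ^ 7) * (K * P) := by ring
          _ ≤ (R + 1) ^ 5 * (K * P) := Nat.mul_le_mul_right _ hA
          _ = K * (R + 1) ^ 5 * P := by ring
      have hT2 : 2 * (8 * (R + 2) ^ 4 * d ^ 2 * Q) ≤ K * (R + 1) ^ 5 * P := by
        have hs5 : s ^ 5 ≤ (R + 1) ^ 5 := Nat.pow_le_pow_left (by omega) _
        have h2d : 2 ^ d ≤ l ^ d := Nat.pow_le_pow_left hl _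
        have hPsplit : P = l ^ d * l ^ s := by
          rw [hP, ← pow_add]; congr 1; omega
        calc 2 * (8 * (R + 2) ^ 4 * d ^ 2 * Q) = (16 * (R + 2) ^ 4 * d ^ 2) * Q := by ring
          _ ≤ l ^ d * Q := Nat.mul_le_mul_right _ (hB.trans h2d)
          _ = K * s ^ 5 * (l ^ d * l ^ s) := by rw [hQ]; ring
          _ = K * s ^ 5 * P := by rw [hPsplit]
          _ ≤ K * (R + 1) ^ 5 * P := Nat.mul_le_mul_right _ (Nat.mul_le_mul_left _ hs5)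
      have hexp : 8 * (R + 2) ^ 4 * d ^ 2 * (Λ + Q) =
          8 * (R + 2) ^ 4 * d ^ 2 * Λ + 8 * (R + 2) ^ 4 * d ^ 2 * Q := by ring
      omega

end FlashRainbow
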