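import Pool.Agent.Work.MP_54723a_co.Bound
import Mathlib.Order.Fin.Basic
import Mathlib.Data.Fin.Basic

/-!
# Translation to colourings of the pairs of `Fin n`
-/

set_option autoImplicit false

namespace FlashRainbow

/-- a monochromatic monotone path of colour `γ` with `j` edges ending at `x` -/
inductive MP (c : ℕ → ℕ → ℕ) (V : Finset ℕ) (γ : ℕ) : ℕ → ℕ → Prop
  | single {x : ℕ} : x ∈ V → MP c V γ x 0
  | step {x y j : ℕ} : MP c V γ x j → y ∈ V → x < y → c x y = γ → MP c V γ y (j + 1)

theorem MP.toFun {c : ℕ → ℕ → ℕ} {V : Finset ℕ} {γ x j : ℕ} (h : MP c V γ x j) :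
    ∃ y : ℕ → ℕ, y j = x ∧ (∀ i ≤ j, y i ∈ V) ∧ (∀ i < j, y i < y (i + 1)) ∧
      ∀ i < j, c (y i) (y (i + 1)) = γ := by
  induction h with
  | @single x hx => exact ⟨fun _ => x, rfl, fun _ _ => hx, by simp, by simp⟩
  | @step x z j h hz hlt hc ih =>
    obtain ⟨y, h0, h1, h2, h3⟩ := ih
    have hne : ∀ i ≤ j, i ≠ j + 1 := fun i hi => by omega
    refine ⟨Function.update y (j + 1) z, Function.update_self _ _ _, ?_, ?_, ?_⟩
    · intro i hi
      rcases Nat.lt_or_ge j i with h' | h'
      · have : i = j + 1 := by omega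
        subst this
        rw [Function.update_self]; exact hz
      · rw [Function.update_of_ne (hne i h')]; exact h1 i h'
    · intro i hi
      rw [Function.update_of_ne (hne i (by omega))]
      rcases Nat.lt_or_ge i j with h' | h'
      · rw [Function.update_of_ne (by omega)]; exact h2 i h'
      · have : i = j := by omega
        subst this
        rw [Function.update_self, h0]; exact hlt
    · intro i hi
      rw [Function.update_of_ne (hne i (by omega))]
      rcases Nat.lt_or_ge i j with h' | h'
      · rw [Function.update_of_ne (by omega)]; exact h3 i h'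
      · have : i = j := by omega
        subst this
        rw [Function.update_self, h0]; exact hc

theorem RP.toFun {c : ℕ → ℕ → ℕ} {V : Finset ℕ} {x : ℕ} {D : Finset ℕ} (h : RP c V x D) :
    ∃ y : ℕ → ℕ, y D.card = x ∧ (∀ i ≤ D.card, y i ∈ V) ∧ (∀ i < D.card, y i < y (i + 1)) ∧
      (∀ i < D.card, c (y i) (y (i + 1)) ∈ D) ∧
      ∀ i < D.card, ∀ j < D.card, c (y i) (y (i + 1)) = c (y j) (y (j + 1)) → i = j := by
  induction h with
  | @single x hx =>
    exact ⟨fun _ => x, rfl, fun _ _ => hx, by simp, by simp, by simp⟩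
  | @step x z D h hz hlt hc ih =>
    obtain ⟨y, h0, h1, h2, h3, h4⟩ := ih
    rw [Finset.card_insert_of_notMem hc]
    set j := D.card with hj
    have hupd : ∀ i ≤ j, Function.update y (j + 1) z i = y i := fun i hi =>
      Function.update_of_ne (by omega) _ _
    have hlast : Function.update y (j + 1) z (j + 1) = z := Function.update_self _ _ _
    refine ⟨Function.update y (j + 1) z, hlast, ?_, ?_, ?_, ?_⟩
    · intro i hi
      rcases Nat.lt_or_ge j i with h' | h'
      · have : i = j + 1 := by omega
        subst this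
        rw [hlast]; exact hz
      · rw [hupd i h']; exact h1 i h'
    · intro i hi
      rw [hupd i (by omega)]
      rcases Nat.lt_or_ge i j with h' | h'
      · rw [hupd (i + 1) (by omega)]; exact h2 i h'
      · have : i = j := by omega
        subst this
        rw [hlast, h0]; exact hlt
    · intro i hi
      rw [hupd i (by omega)]
      rcases Nat.lt_or_ge i j with h' | h'
      · rw [hupd (i + 1) (by omega)]; exact Finset.mem_insert_of_mem (h3 i h')
      · have : i = j := by omega
        subst this
        rw [hlast, h0]; exact Finset.mem_insert_self _ _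
    · intro i hi i' hi' heq
      rw [hupd i (by omega), hupd i' (by omega)] at heq
      rcases Nat.lt_or_ge i j with h' | h'
      · rw [hupd (i + 1) (by omega)] at heq
        rcases Nat.lt_or_ge i' j with h'' | h''
        · rw [hupd (i' + 1) (by omega)] at heq
          exact h4 i h' i' h'' heq
        · have : i' = j := by omega
          subst this
          rw [hlast, h0] at heq
          exact absurd (heq ▸ h3 i h') hc
      · have : i = j := by omega
        subst this
        rw [hlast, h0] at heq
        rcases Nat.lt_or_ge i' j with h'' | h''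
        · rw [hupd (i' + 1) (by omega)] at heq
          exact absurd (heq.symm ▸ h3 i' h'') hc
        · omega

theorem strictMono_of_lt_succ {n j : ℕ} (y : ℕ → ℕ) (hmem : ∀ i ≤ j, y i < n)
    (hlt : ∀ i < j, y i < y (i + 1)) :
    StrictMono (fun i : Fin (j + 1) => (⟨y i, hmem i (Nat.lt_succ_iff.mp i.2)⟩ : Fin n)) := by
  rw [Fin.strictMono_iff_lt_succ]
  intro i
  rw [Fin.lt_def]
  simpa using hlt i i.2

/-- Main theorem. -/
theorem main : ∃ K : ℕ, ∀ l k n : ℕ, 1 ≤ k → K * k ^ 5 * l ^ (k - 1) < n →
    ∀ c : Fin n → Fin n → ℕ,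
      (∃ x : Fin (l + 1) → Fin n, StrictMono x ∧
        ∃ col : ℕ, ∀ i : Fin l, c (x i.castSucc) (x i.succ) = col) ∨
      (∃ y : Fin (k + 1) → Fin n, StrictMono y ∧
        Function.Injective (fun i : Fin k => c (y i.castSucc) (y i.succ))) := by
  obtain ⟨K, hK⟩ := poly_bound
  refine ⟨K + 1, ?_⟩
  intro l k n hk hn c
  rcases Nat.lt_or_ge l 2 with hl | hl
  · -- `l ≤ 1`
    left
    rcases Nat.lt_or_ge l 1 with hl0 | hl1
    · have : l = 0 := by omega
      subst this
      have hn0 : 0 < n := lt_of_le_of_lt (Nat.zero_le _) hn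
      refine ⟨fun _ => ⟨0, hn0⟩, ?_, 0, fun i => i.elim0⟩
      intro a b hab
      have h1 := a.2
      have h2 := b.2
      rw [Fin.lt_def] at hab
      omega
    · have : l = 1 := by omega
      subst this
      have hn1 : 1 < n := by
        have h1 : 1 ≤ (K + 1) * k ^ 5 * 1 ^ (k - 1) := by
          rw [one_pow, Nat.mul_one]
          exact Nat.one_le_iff_ne_zero.mpr (by positivity)
        omega
      refine ⟨fun i => ⟨i, by have := i.2; omega⟩, ?_, c ⟨0, by omega⟩ ⟨1, hn1⟩, ?_⟩
      · intro a b hab
        exact hab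
      · intro i
        have : i = 0 := Subsingleton.elim _ _
        subst this
        rfl
  · by_contra hcon
    rw [not_or] at hcon
    obtain ⟨hflash, hrain⟩ := hcon
    set C : ℕ → ℕ → ℕ := fun a b => if h : a < n ∧ b < n then c ⟨a, h.1⟩ ⟨b, h.2⟩ else 0 with hC
    have hCeq : ∀ (a b : ℕ) (ha : a < n) (hb : b < n), C a b = c ⟨a, ha⟩ ⟨b, hb⟩ := by
      intro a b ha hb
      rw [hC]
      simp only [ha, hb, and_self, dite_true]
    classical
    set V := Finset.range n with hV
    have hnoflash : ∀ γ v, ¬ MP C V γ v l := by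
      intro γ v hmp
      obtain ⟨y, _, h1, h2, h3⟩ := hmp.toFun
      have h1' : ∀ i ≤ l, y i < n := fun i hi => Finset.mem_range.mp (h1 i hi)
      apply hflash
      refine ⟨_, strictMono_of_lt_succ y h1' h2, γ, fun i => ?_⟩
      have := h3 i i.2
      rw [hCeq _ _ (h1' i (by omega)) (h1' (i + 1) (by omega))] at this
      simpa using this
    have hR : ∀ x D, RP C V x D → D.card ≤ k - 1 := by
      intro x D hD
      by_contra hlt
      obtain ⟨D', _, hcard, hD'⟩ := hD.suffix k (by omega)
      obtain ⟨y, _, h1, h2, _, h4⟩ := hD'.toFun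
      rw [hcard] at h1 h2 h4
      have h1' : ∀ i ≤ k, y i < n := fun i hi => Finset.mem_range.mp (h1 i hi)
      apply hrain
      refine ⟨_, strictMono_of_lt_succ y h1' h2, ?_⟩
      intro i j hij
      apply Fin.ext
      apply h4 i i.2 j j.2
      rw [hCeq _ _ (h1' i (by omega)) (h1' (i + 1) (by omega)),
        hCeq _ _ (h1' j (by omega)) (h1' (j + 1) (by omega))]
      simpa using hij
    set lev : ℕ → ℕ → ℕ := fun γ v => Nat.findGreatest (fun j => MP C V γ v j) l with hlev
    have hspec : ∀ γ, ∀ v ∈ V, MP C V γ v (lev γ v) := fun γ v hv =>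
      Nat.findGreatest_spec (P := fun j => MP C V γ v j) (Nat.zero_le l) (MP.single hv)
    have hlevlt : ∀ γ, ∀ v ∈ V, lev γ v < l := by
      intro γ v hv
      refine lt_of_le_of_ne (Nat.findGreatest_le _) ?_
      intro heq
      have := hspec γ v hv
      rw [heq] at this
      exact hnoflash γ v this
    have hL : Lev C V l lev := by
      refine ⟨hlevlt, ?_⟩
      intro u hu v hv huv
      have h1 := MP.step (hspec (C u v) u hu) hv huv rfl
      exact Nat.le_findGreatest (hlevlt (C u v) u hu) h1
    have := hK l hl C lev (k - 1) V hL hR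
    rw [hV, Finset.card_range, Nat.sub_add_cancel hk] at this
    have h2 : K * k ^ 5 * l ^ (k - 1) ≤ (K + 1) * k ^ 5 * l ^ (k - 1) :=
      Nat.mul_le_mul_right _ (Nat.mul_le_mul_right _ (Nat.le_succ _))
    omega

end FlashRainbow
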