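import Pool.Agent.Work.MP_54723a_co.TransDegree

/-!
# One exceptional colour

If all colours but one are transitive then the bound of the conjecture holds.
-/

set_option autoImplicit false

namespace FlashRainbow

/-! ### Reversal -/

/-- the colouring read from right to left -/
def revc (c : ℕ → ℕ → ℕ) (N : ℕ) (a b : ℕ) : ℕ := c (N - b) (N - a)

theorem RF.cons {c : ℕ → ℕ → ℕ} {V : Finset ℕ} {x y w : ℕ} {D : Finset ℕ} (h : RF c V x w D)
    (hy : y ∈ V) (hyx : y < x) (hc : c y x ∉ D) : RF c V y w (insert (c y x) D) := by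
  induction h with
  | single hx =>
    exact RF.step (RF.single hy) hx hyx (Finset.notMem_empty _)
  | @step u v D h hv hlt hc' ih =>
    rw [Finset.mem_insert, not_or] at hc
    rw [Finset.insert_comm]
    refine RF.step (ih hc.2) hv hlt ?_
    rw [Finset.mem_insert, not_or]
    exact ⟨fun h => hc.1 h.symm, hc'⟩

theorem RP.rev {c : ℕ → ℕ → ℕ} {V : Finset ℕ} {N : ℕ} (hN : ∀ v ∈ V, v ≤ N) {x' : ℕ}
    {D : Finset ℕ} (h : RP (revc c N) (V.image (fun v => N - v)) x' D) :
    ∃ w, RF c V (N - x') w D := by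
  induction h with
  | @single x hx =>
    obtain ⟨v, hv, rfl⟩ := Finset.mem_image.mp hx
    have := hN v hv
    have h2 : N - (N - v) = v := by omega
    rw [h2]
    exact ⟨v, RF.single hv⟩
  | @step x y D h hy hlt hc ih =>
    obtain ⟨w, hw⟩ := ih
    obtain ⟨v, hv, rfl⟩ := Finset.mem_image.mp hy
    have hvN := hN v hv
    have h2 : N - (N - v) = v := by omega
    obtain ⟨u, hu, rfl⟩ := Finset.mem_image.mp h.mem
    have huN := hN u hu
    have h3 : N - (N - u) = u := by omega
    rw [h3] at hw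
    unfold revc at hc ⊢
    rw [h2, h3] at hc ⊢
    refine ⟨w, hw.cons hv (by omega) hc⟩

/-- a monochromatic monotone path of colour `γ` with `j` edges starting at `x` -/
inductive MS (c : ℕ → ℕ → ℕ) (V : Finset ℕ) (γ : ℕ) (x : ℕ) : ℕ → ℕ → Prop
  | single : x ∈ V → MS c V γ x x 0
  | step {u v j : ℕ} : MS c V γ x u j → v ∈ V → u < v → c u v = γ → MS c V γ x v (j + 1)

theorem MS.toMP {c : ℕ → ℕ → ℕ} {V : Finset ℕ} {γ x v j : ℕ} (h : MS c V γ x v j) :
    MP c V γ v j := by
  induction h with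
  | single hx => exact MP.single hx
  | step _ hv hlt hc ih => exact MP.step ih hv hlt hc

theorem MS.cons {c : ℕ → ℕ → ℕ} {V : Finset ℕ} {γ x y v j : ℕ} (h : MS c V γ x v j)
    (hy : y ∈ V) (hyx : y < x) (hc : c y x = γ) : MS c V γ y v (j + 1) := by
  induction h with
  | single hx => exact MS.step (MS.single hy) hx hyx hc
  | step _ hv hlt hc' ih => exact MS.step ih hv hlt hc'

theorem MP.rev {c : ℕ → ℕ → ℕ} {V : Finset ℕ} {N γ : ℕ} (hN : ∀ v ∈ V, v ≤ N) {x' j : ℕ}
    (h : MP (revc c N) (V.image (fun v => N - v)) γ x' j) :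
    x' ∈ V.image (fun v => N - v) ∧ ∃ w, MS c V γ (N - x') w j := by
  induction h with
  | @single x hx =>
    refine ⟨hx, ?_⟩
    obtain ⟨v, hv, rfl⟩ := Finset.mem_image.mp hx
    have := hN v hv
    have h2 : N - (N - v) = v := by omega
    rw [h2]
    exact ⟨v, MS.single hv⟩
  | @step x y j h hy hlt hc ih =>
    refine ⟨hy, ?_⟩
    obtain ⟨hx, w, hw⟩ := ih
    obtain ⟨v, hv, rfl⟩ := Finset.mem_image.mp hy
    have hvN := hN v hv
    have h2 : N - (N - v) = v := by omega
    obtain ⟨u, hu, rfl⟩ := Finset.mem_image.mp hx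
    have huN := hN u hu
    have h3 : N - (N - u) = u := by omega
    rw [h3] at hw
    unfold revc at hc
    rw [h2, h3] at hc
    rw [h2]
    exact ⟨w, hw.cons hv (by omega) hc⟩

/-! ### Classes -/

theorem left_class {c : ℕ → ℕ → ℕ} {V : Finset ℕ} {l r : ℕ} (hl : 1 ≤ l)
    (hMP : ∀ γ v, ¬ MP c V γ v l) (hR : ∀ x D, RP c V x D → D.card ≤ r) (γ₀ : ℕ)
    (htr : ∀ u ∈ V, ∀ v ∈ V, ∀ w ∈ V, u < v → v < w → c u v ≠ γ₀ → c v w = c u v →
      c u w = c u v) {T : Finset ℕ} (hTV : T ⊆ V)
    (hfree : ∀ p ∈ T, ∀ q ∈ T, p < q → c p q ≠ γ₀) {κ : ℕ} (hκ : κ ∈ T)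
    (hex : ∃ v, RP c V v {γ₀}) (s : ℕ → ℕ)
    (hs : ∀ q ∈ T.erase κ, RP c V (s q) {γ₀} ∧ s q < q ∧ c (s q) q ≠ γ₀) :
    T.card ≤ l ^ (r - 1) := by
  classical
  rw [← Finset.card_erase_add_one hκ]
  refine transitive_core (E := RP c V) (L := fun _ => l) (fun u D h => h.mem)
    (fun u D v h hv hlt hc => RP.step h hv hlt hc) hMP {γ₀}
    (fun u hu v hv w hw huv hvw h1 h2 => htr u hu v hv w hw huv hvw
      (fun h => h1 (Finset.mem_singleton.mpr h)) h2)
    (T.erase κ).card (T.erase κ) (le_refl _) {γ₀} s _ (Finset.Subset.refl _)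
    ((Finset.erase_subset _ _).trans hTV) hex ?_ ?_ ?_
  · intro p hp q hq hpq h
    exact hfree p (Finset.mem_of_mem_erase hp) q (Finset.mem_of_mem_erase hq) hpq
      (Finset.mem_singleton.mp h)
  · intro q hq
    obtain ⟨h1, h2, h3⟩ := hs q hq
    exact ⟨h1, h2, fun h => h3 (Finset.mem_singleton.mp h)⟩
  · intro v D' hv hD'
    rw [Finset.prod_const]
    refine Nat.pow_le_pow_right hl ?_
    rw [Finset.card_sdiff_of_subset hD', Finset.card_singleton]
    exact Nat.sub_le_sub_right (hR v D' hv) 1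

theorem right_class {c : ℕ → ℕ → ℕ} {V : Finset ℕ} {l r : ℕ} (hl : 1 ≤ l)
    (hMP : ∀ γ v, ¬ MP c V γ v l) (hR : ∀ x D, RP c V x D → D.card ≤ r) (γ₀ : ℕ)
    (htr : ∀ u ∈ V, ∀ v ∈ V, ∀ w ∈ V, u < v → v < w → c u v ≠ γ₀ → c v w = c u v →
      c u w = c u v) {T : Finset ℕ} (hTV : T ⊆ V)
    (hfree : ∀ p ∈ T, ∀ q ∈ T, p < q → c p q ≠ γ₀) {κ : ℕ} (hκ : κ ∈ T)
    (t : ℕ → ℕ)
    (hex : ∃ v ∈ V, ∃ w ∈ V, v < w ∧ c v w = γ₀)
    (ht : ∀ q ∈ T.erase κ, (t q ∈ V ∧ ∃ w ∈ V, t q < w ∧ c (t q) w = γ₀) ∧ q < t q ∧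
      c q (t q) ≠ γ₀) :
    T.card ≤ l ^ (r - 1) := by
  classical
  obtain ⟨N, hN⟩ : ∃ N, ∀ v ∈ V, v ≤ N := ⟨V.sup id, fun v hv => Finset.le_sup (f := id) hv⟩
  set c' := revc c N with hc'
  set V' := V.image (fun v => N - v) with hV'
  have hmemV' : ∀ v ∈ V, N - v ∈ V' := fun v hv => Finset.mem_image_of_mem _ hv
  have hback : ∀ v ∈ V, N - (N - v) = v := fun v hv => by
    have := hN v hv
    omega
  have hcc : ∀ u ∈ V, ∀ v ∈ V, c' (N - v) (N - u) = c u v := by
    intro u hu v hv
    rw [hc']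
    unfold revc
    rw [hback u hu, hback v hv]
  have hMP' : ∀ γ v, ¬ MP c' V' γ v l := by
    intro γ v h
    obtain ⟨_, w, hw⟩ := MP.rev hN h
    exact hMP γ w hw.toMP
  have hR' : ∀ x D, RP c' V' x D → D.card ≤ r := by
    intro x D h
    obtain ⟨w, hw⟩ := RP.rev hN h
    exact hR w D (hw.toRP (Finset.Subset.refl _))
  have hstart : ∀ v ∈ V, ∀ w ∈ V, v < w → c v w = γ₀ → RP c' V' (N - v) {γ₀} := by
    intro v hv w hw hvw hcv
    have hwN := hN w hw
    have := RP.step (c := c') (V := V') (RP.single (hmemV' w hw)) (hmemV' v hv)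
      (by omega) (Finset.notMem_empty (c' (N - w) (N - v)))
    rw [hcc v hv w hw, hcv] at this
    simpa using this
  have hinj : ∀ u ∈ V, ∀ v ∈ V, N - u = N - v → u = v := by
    intro u hu v hv h
    have := hN u hu
    have := hN v hv
    omega
  have hTcard : (T.image (fun v => N - v)).card = T.card := by
    apply Finset.card_image_of_injOn
    intro u hu v hv h
    exact hinj u (hTV hu) v (hTV hv) h
  rw [← hTcard]
  refine left_class (c := c') (V := V') hl hMP' hR' γ₀ ?_ (Finset.image_subset_image hTV) ?_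
    (κ := N - κ) (Finset.mem_image_of_mem _ hκ) ?_ (fun q' => N - t (N - q')) ?_
  · intro u' hu' v' hv' w' hw' huv hvw h1 h2
    obtain ⟨u, hu, rfl⟩ := Finset.mem_image.mp hu'
    obtain ⟨v, hv, rfl⟩ := Finset.mem_image.mp hv'
    obtain ⟨w, hw, rfl⟩ := Finset.mem_image.mp hw'
    have := hN u hu
    have := hN v hv
    have := hN w hw
    rw [hcc v hv u hu] at h1 h2 ⊢
    rw [hcc w hw v hv] at h2
    rw [hcc w hw u hu]
    rw [← h2]
    exact htr w hw v hv u hu (by omega) (by omega) (by rw [h2]; exact h1) h2.symm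
  · intro p' hp' q' hq' hpq
    obtain ⟨p, hp, rfl⟩ := Finset.mem_image.mp hp'
    obtain ⟨q, hq, rfl⟩ := Finset.mem_image.mp hq'
    have := hN p (hTV hp)
    have := hN q (hTV hq)
    rw [hcc q (hTV hq) p (hTV hp)]
    exact hfree q hq p hp (by omega)
  · obtain ⟨v, hv, w, hw, hvw, hcv⟩ := hex
    exact ⟨N - v, hstart v hv w hw hvw hcv⟩
  · intro q' hq'
    obtain ⟨hne, hq''⟩ := Finset.mem_erase.mp hq'
    obtain ⟨q, hq, rfl⟩ := Finset.mem_image.mp hq''
    have hqκ : q ≠ κ := fun h => hne (by rw [h])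
    obtain ⟨⟨htV, w, hw, htw, hcw⟩, hlt, hne'⟩ := ht q (Finset.mem_erase.mpr ⟨hqκ, hq⟩)
    have hqV := hTV hq
    have h1 := hN _ htV
    have h2 := hN q hqV
    rw [hback q hqV]
    refine ⟨hstart _ htV w hw htw hcw, by omega, ?_⟩
    rw [hcc q hqV _ htV]
    exact hne'

/-- The case in which all colours but one are transitive. -/
theorem one_exception {c : ℕ → ℕ → ℕ} {V : Finset ℕ} {l r : ℕ} (hl : 1 ≤ l)
    (hMP : ∀ γ v, ¬ MP c V γ v l) (hR : ∀ x D, RP c V x D → D.card ≤ r) (γ₀ : ℕ)
    (htr : ∀ u ∈ V, ∀ v ∈ V, ∀ w ∈ V, u < v → v < w → c u v ≠ γ₀ → c v w = c u v →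
      c u w = c u v) : V.card ≤ l ^ r := by
  classical
  by_cases hflash : ∃ a ∈ V, ∃ b ∈ V, ∃ d ∈ V, a < b ∧ b < d ∧ c a b = γ₀ ∧ c b d = γ₀
  · obtain ⟨a, ha, b, hb, d, hd, hab, hbd, hcab, hcbd⟩ := hflash
    -- heads and tails
    set H : ℕ → Prop := fun v => ∃ u ∈ V, u < v ∧ c u v = γ₀ with hH
    set O : ℕ → Prop := fun v => ∃ w ∈ V, v < w ∧ c v w = γ₀ with hO
    have hHb : H b := ⟨a, ha, hab, hcab⟩
    have hOb : O b := ⟨d, hd, hbd, hcbd⟩
    -- first head and last tail
    have hneH : (V.filter H).Nonempty := ⟨b, Finset.mem_filter.mpr ⟨hb, hHb⟩⟩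
    have hneO : (V.filter O).Nonempty := ⟨b, Finset.mem_filter.mpr ⟨hb, hOb⟩⟩
    set h₁ := (V.filter H).min' hneH with hh₁
    set o₁ := (V.filter O).max' hneO with ho₁
    have hh₁m := Finset.min'_mem _ hneH
    rw [← hh₁] at hh₁m
    obtain ⟨hh₁V, hHh₁⟩ := Finset.mem_filter.mp hh₁m
    have ho₁m := Finset.max'_mem _ hneO
    rw [← ho₁] at ho₁m
    obtain ⟨ho₁V, hOo₁⟩ := Finset.mem_filter.mp ho₁m
    have hh₁b : h₁ ≤ b := Finset.min'_le _ _ (Finset.mem_filter.mpr ⟨hb, hHb⟩)
    have hbo₁ : b ≤ o₁ := Finset.le_max' _ _ (Finset.mem_filter.mpr ⟨hb, hOb⟩)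
    have hRPH : ∀ v ∈ V, H v → RP c V v {γ₀} := by
      rintro v hv ⟨u, hu, huv, hcu⟩
      have := RP.step (RP.single hu) hv huv (Finset.notMem_empty (c u v))
      rw [hcu] at this
      simpa using this
    have hex : ∃ v, RP c V v {γ₀} := ⟨b, hRPH b hb hHb⟩
    have hex' : ∃ v ∈ V, ∃ w ∈ V, v < w ∧ c v w = γ₀ := ⟨a, ha, b, hb, hab, hcab⟩
    -- levels
    set dep : ℕ → ℕ := fun q => Nat.findGreatest (fun j => MP c V γ₀ q j) l with hdep
    have hspec : ∀ q ∈ V, MP c V γ₀ q (dep q) := fun q hq =>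
      Nat.findGreatest_spec (P := fun j => MP c V γ₀ q j) (Nat.zero_le _) (MP.single hq)
    have hdeplt : ∀ q ∈ V, dep q < l := by
      intro q hq
      refine lt_of_le_of_ne (Nat.findGreatest_le _) ?_
      intro heq
      have := hspec q hq
      rw [heq] at this
      exact hMP _ _ this
    have hle : ∀ q j, MP c V γ₀ q j → j ≤ l → j ≤ dep q := fun q j h hj =>
      Nat.le_findGreatest hj h
    have hup : ∀ p ∈ V, ∀ q ∈ V, p < q → c p q = γ₀ → dep p < dep q := by
      intro p hp q hq hpq hc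
      exact hle q _ (MP.step (hspec p hp) hq hpq hc) (hdeplt p hp)
    have hdepH : ∀ v ∈ V, dep v ≠ 0 → H v := by
      intro v hv hne
      have h1 := hspec v hv
      generalize hj : dep v = j at h1 hne
      cases h1 with
      | single _ => exact absurd rfl hne
      | @step x _ _ h2 _ hlt hc =>
        have hx : x ∈ V := by
          cases h2 with
          | single h => exact h
          | step _ h _ _ => exact h
        exact ⟨x, hx, hlt, hc⟩
    have hHdep : ∀ v ∈ V, H v → 1 ≤ dep v := by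
      rintro v hv ⟨u, hu, huv, hcu⟩
      have := hup u hu v hv huv hcu
      omega
    have hOdep : ∀ v ∈ V, O v → dep v + 1 < l := by
      rintro v hv ⟨w, hw, hvw, hcw⟩
      have := hup v hv w hw hvw hcw
      have := hdeplt w hw
      omega
    have hl3 : 3 ≤ l := by
      have h1 := hHdep b hb hHb
      have h2 := hOdep b hb hOb
      omega
    have hr1 : 1 ≤ r := by
      obtain ⟨v, hv⟩ := hex
      have := hR v _ hv
      simpa using this
    -- the classes
    set TS := V.filter (fun v => ¬ H v ∧ (O v ∨ v < o₁)) with hTS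
    set TK := V.filter (fun v => ¬ O v ∧ (H v ∨ ¬ v < o₁)) with hTK
    set TM : ℕ → Finset ℕ := fun j => V.filter (fun v => H v ∧ O v ∧ dep v = j) with hTM
    have hcover : V ⊆ TS ∪ (TK ∪ (Finset.Ico 1 (l - 1)).biUnion TM) := by
      intro v hv
      rw [Finset.mem_union, Finset.mem_union, Finset.mem_biUnion]
      by_cases h1 : H v
      · by_cases h2 : O v
        · right; right
          refine ⟨dep v, Finset.mem_Ico.mpr ⟨hHdep v hv h1, ?_⟩,
            Finset.mem_filter.mpr ⟨hv, h1, h2, rfl⟩⟩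
          have := hOdep v hv h2
          omega
        · right; left
          exact Finset.mem_filter.mpr ⟨hv, h2, Or.inl h1⟩
      · by_cases h2 : O v ∨ v < o₁
        · left
          exact Finset.mem_filter.mpr ⟨hv, h1, h2⟩
        · push Not at h2
          right; left
          exact Finset.mem_filter.mpr ⟨hv, h2.1, Or.inr (not_lt.mpr h2.2)⟩
    -- the class of the sources
    have hTSle : TS.card ≤ l ^ (r - 1) := by
      rcases Finset.eq_empty_or_nonempty (TS.filter O) with hemp | hne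
      · -- no sources: all elements are isolated and lie before `o₁`
        rcases TS.eq_empty_or_nonempty with h0 | hne'
        · rw [h0, Finset.card_empty]; exact Nat.zero_le _
        · obtain ⟨κ, hκ⟩ := hne'
          refine right_class hl hMP hR γ₀ htr (Finset.filter_subset _ _) ?_ hκ (fun _ => o₁)
            hex' ?_
          · intro p hp q hq hpq hc
            obtain ⟨hpV, hp1, hp2⟩ := Finset.mem_filter.mp hp
            obtain ⟨hqV, hq1, hq2⟩ := Finset.mem_filter.mp hq
            exact hq1 ⟨p, hpV, hpq, hc⟩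
          · intro q hq
            obtain ⟨hqV, hq1, hq2⟩ := Finset.mem_filter.mp (Finset.mem_of_mem_erase hq)
            have hqO : ¬ O q := by
              intro h
              have : q ∈ TS.filter O := Finset.mem_filter.mpr ⟨Finset.mem_of_mem_erase hq, h⟩
              rw [hemp] at this
              exact absurd this (Finset.notMem_empty _)
            have hqo : q < o₁ := hq2.resolve_left hqO
            exact ⟨⟨ho₁V, hOo₁⟩, hqo, fun h => hqO ⟨o₁, ho₁V, hqo, h⟩⟩
      · set κ := (TS.filter O).max' hne with hκdef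
        have hκm := Finset.max'_mem _ hne
        rw [← hκdef] at hκm
        obtain ⟨hκT, hOκ⟩ := Finset.mem_filter.mp hκm
        obtain ⟨hκV, hHκ, _⟩ := Finset.mem_filter.mp hκT
        refine right_class hl hMP hR γ₀ htr (Finset.filter_subset _ _) ?_ hκT
          (fun q => if O q then κ else o₁) hex' ?_
        · intro p hp q hq hpq hc
          obtain ⟨hpV, hp1, hp2⟩ := Finset.mem_filter.mp hp
          obtain ⟨hqV, hq1, hq2⟩ := Finset.mem_filter.mp hq
          exact hq1 ⟨p, hpV, hpq, hc⟩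
        · intro q hq
          obtain ⟨hqne, hqT⟩ := Finset.mem_erase.mp hq
          obtain ⟨hqV, hq1, hq2⟩ := Finset.mem_filter.mp hqT
          by_cases hqO : O q
          · simp only [hqO, if_true]
            have hlt : q < κ := lt_of_le_of_ne
              (Finset.le_max' _ _ (Finset.mem_filter.mpr ⟨hqT, hqO⟩)) hqne
            exact ⟨⟨hκV, hOκ⟩, hlt, fun h => hHκ ⟨q, hqV, hlt, h⟩⟩
          · simp only [hqO, if_false]
            have hqo : q < o₁ := hq2.resolve_left hqO
            exact ⟨⟨ho₁V, hOo₁⟩, hqo, fun h => hqO ⟨o₁, ho₁V, hqo, h⟩⟩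
    -- the class of the sinks
    have hTKle : TK.card ≤ l ^ (r - 1) := by
      rcases Finset.eq_empty_or_nonempty (TK.filter H) with hemp | hne
      · rcases TK.eq_empty_or_nonempty with h0 | hne'
        · rw [h0, Finset.card_empty]; exact Nat.zero_le _
        · obtain ⟨κ, hκ⟩ := hne'
          refine left_class hl hMP hR γ₀ htr (Finset.filter_subset _ _) ?_ hκ hex (fun _ => h₁) ?_
          · intro p hp q hq hpq hc
            obtain ⟨hpV, hp1, hp2⟩ := Finset.mem_filter.mp hp
            obtain ⟨hqV, hq1, hq2⟩ := Finset.mem_filter.mp hq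
            exact hp1 ⟨q, hqV, hpq, hc⟩
          · intro q hq
            obtain ⟨hqV, hq1, hq2⟩ := Finset.mem_filter.mp (Finset.mem_of_mem_erase hq)
            have hqH : ¬ H q := by
              intro h
              have : q ∈ TK.filter H := Finset.mem_filter.mpr ⟨Finset.mem_of_mem_erase hq, h⟩
              rw [hemp] at this
              exact absurd this (Finset.notMem_empty _)
            have hqo : ¬ q < o₁ := hq2.resolve_left hqH
            have hne2 : q ≠ h₁ := fun h => hqH (h ▸ hHh₁)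
            have hlt : h₁ < q := by omega
            exact ⟨hRPH h₁ hh₁V hHh₁, hlt, fun h => hqH ⟨h₁, hh₁V, hlt, h⟩⟩
      · set κ := (TK.filter H).min' hne with hκdef
        have hκm := Finset.min'_mem _ hne
        rw [← hκdef] at hκm
        obtain ⟨hκT, hHκ⟩ := Finset.mem_filter.mp hκm
        obtain ⟨hκV, hOκ, _⟩ := Finset.mem_filter.mp hκT
        refine left_class hl hMP hR γ₀ htr (Finset.filter_subset _ _) ?_ hκT hex
          (fun q => if H q then κ else h₁) ?_
        · intro p hp q hq hpq hc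
          obtain ⟨hpV, hp1, hp2⟩ := Finset.mem_filter.mp hp
          obtain ⟨hqV, hq1, hq2⟩ := Finset.mem_filter.mp hq
          exact hp1 ⟨q, hqV, hpq, hc⟩
        · intro q hq
          obtain ⟨hqne, hqT⟩ := Finset.mem_erase.mp hq
          obtain ⟨hqV, hq1, hq2⟩ := Finset.mem_filter.mp hqT
          by_cases hqH : H q
          · simp only [hqH, if_true]
            have hlt : κ < q := lt_of_le_of_ne
              (Finset.min'_le _ _ (Finset.mem_filter.mpr ⟨hqT, hqH⟩)) (Ne.symm hqne)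
            exact ⟨hRPH κ hκV hHκ, hlt, fun h => hOκ ⟨q, hqV, hlt, h⟩⟩
          · simp only [hqH, if_false]
            have hqo : ¬ q < o₁ := hq2.resolve_left hqH
            have hne2 : q ≠ h₁ := fun h => hqH (h ▸ hHh₁)
            have hlt : h₁ < q := by omega
            exact ⟨hRPH h₁ hh₁V hHh₁, hlt, fun h => hqH ⟨h₁, hh₁V, hlt, h⟩⟩
    -- the classes in the middle
    have hTMle : ∀ j, (TM j).card ≤ l ^ (r - 1) := by
      intro j
      rcases (TM j).eq_empty_or_nonempty with h0 | hne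
      · rw [h0, Finset.card_empty]; exact Nat.zero_le _
      · set κ := (TM j).min' hne with hκdef
        have hκT := Finset.min'_mem _ hne
        rw [← hκdef] at hκT
        obtain ⟨hκV, hHκ, _, hκj⟩ := Finset.mem_filter.mp hκT
        have hfree : ∀ p ∈ TM j, ∀ q ∈ TM j, p < q → c p q ≠ γ₀ := by
          intro p hp q hq hpq hc
          obtain ⟨hpV, _, _, hp2⟩ := Finset.mem_filter.mp hp
          obtain ⟨hqV, _, _, hq2⟩ := Finset.mem_filter.mp hq
          have := hup p hpV q hqV hpq hc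
          omega
        refine left_class hl hMP hR γ₀ htr (Finset.filter_subset _ _) hfree hκT hex
          (fun _ => κ) ?_
        intro q hq
        obtain ⟨hqne, hqT⟩ := Finset.mem_erase.mp hq
        have hlt : κ < q := lt_of_le_of_ne (Finset.min'_le _ _ hqT) (Ne.symm hqne)
        exact ⟨hRPH κ hκV hHκ, hlt, hfree κ hκT q hqT hlt⟩
    have hMsum : ((Finset.Ico 1 (l - 1)).biUnion TM).card ≤ (l - 2) * l ^ (r - 1) := by
      refine (Finset.card_biUnion_le_card_mul _ _ _ (fun j _ => hTMle j)).trans ?_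
      rw [Nat.card_Ico]
      exact Nat.mul_le_mul_right _ (by omega)
    calc V.card ≤ (TS ∪ (TK ∪ (Finset.Ico 1 (l - 1)).biUnion TM)).card :=
          Finset.card_le_card hcover
      _ ≤ TS.card + (TK.card + ((Finset.Ico 1 (l - 1)).biUnion TM).card) :=
          (Finset.card_union_le _ _).trans (Nat.add_le_add_left (Finset.card_union_le _ _) _)
      _ ≤ l ^ (r - 1) + (l ^ (r - 1) + (l - 2) * l ^ (r - 1)) := by omega
      _ = l ^ r := by
          obtain ⟨l', rfl⟩ : ∃ l', l = l' + 2 := ⟨l - 2, by omega⟩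
          obtain ⟨r', rfl⟩ : ∃ r', r = r' + 1 := ⟨r - 1, by omega⟩
          simp only [Nat.add_sub_cancel]
          ring
  · -- the exceptional colour is transitive for trivial reasons
    push Not at hflash
    rcases V.eq_empty_or_nonempty with rfl | hne
    · simp
    · obtain ⟨v, D, hRF, hcard⟩ := transitive_set (c := c) (V := V) (L := fun _ => l) hMP (by
          intro u hu v hv w hw huv hvw h
          by_cases hγ : c u v = γ₀
          · exact absurd (h.trans hγ) (hflash u hu v hv w hw huv hvw hγ)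
          · exact htr u hu v hv w hw huv hvw hγ h) (V.min'_mem hne) (fun v hv => V.min'_le v hv)
      rw [Finset.prod_const] at hcard
      exact hcard.trans (Nat.pow_le_pow_right hl (hR v D (hRF.toRP (Finset.Subset.refl _))))

end FlashRainbow
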