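import Pool.Agent.Work.MP_54723a_co.PowBasic

/-!
# One blocking colour (Lemma S of helper23, note 3103, out-path version) (helper87)
-/

set_option autoImplicit false

namespace FlashRainbow

open Classical

variable {c : ℕ → ℕ → ℕ} {V T : Finset ℕ} {l : ℕ} {lev : ℕ → ℕ → ℕ}

theorem RS.mono {D : Finset ℕ} {x : ℕ} (h : RS c T x D) (hTV : T ⊆ V) : RS c V x D := by
  induction h with
  | single hx => exact RS.single (hTV hx)
  | step _ hx hlt hc ih => exact RS.step ih (hTV hx) hlt hc

/-- colours that do not occur in `T` do not occur on paths in `T` -/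
theorem RS.notMem_of_free {γ x : ℕ} {D : Finset ℕ} (h : RS c T x D)
    (hfree : ∀ u ∈ T, ∀ v ∈ T, u < v → c u v ≠ γ) : γ ∉ D := by
  induction h with
  | single _ => simp
  | @step x y D h hx hlt hc ih =>
    rw [Finset.mem_insert, not_or]
    exact ⟨fun h' => hfree x hx y h.mem hlt h'.symm, ih⟩

/-- initial parts of rainbow paths -/
theorem RS.initial {D : Finset ℕ} {x : ℕ} (h : RS c V x D) :
    ∀ k ≤ D.card, ∃ D' ⊆ D, D'.card = k ∧ RS c V x D' := by
  induction h with
  | single hx =>
    intro k hk
    refine ⟨∅, Finset.empty_subset _, ?_, RS.single hx⟩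
    simp at hk ⊢
    exact hk.symm
  | @step x y D h hx hlt hc ih =>
    intro k hk
    rcases k with _ | k
    · exact ⟨∅, Finset.empty_subset _, rfl, RS.single hx⟩
    · rw [Finset.card_insert_of_notMem hc] at hk
      obtain ⟨D', hD', hcard, hRS⟩ := ih k (by omega)
      have hc' : c x y ∉ D' := fun h' => hc (hD' h')
      refine ⟨insert (c x y) D', Finset.insert_subset_insert _ hD', ?_, RS.step hRS hx hlt hc'⟩
      rw [Finset.card_insert_of_notMem hc', hcard]

/-- every rainbow path has a start -/
theorem RP.exists_start {D : Finset ℕ} {y : ℕ} (h : RP c T y D) :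
    ∀ E, RS c T y E → Disjoint D E → ∃ x, RS c T x (D ∪ E) := by
  induction h with
  | @single x hx =>
    intro E hE _
    exact ⟨x, by simpa using hE⟩
  | @step x y D h hy hlt hc ih =>
    intro E hE hdis
    rw [Finset.disjoint_insert_left] at hdis
    have h1 := RS.step hE h.mem hlt hdis.1
    obtain ⟨z, hz⟩ := ih _ h1 (by
      rw [Finset.disjoint_insert_right]
      exact ⟨hc, hdis.2⟩)
    refine ⟨z, ?_⟩
    rw [Finset.union_insert] at hz
    rw [Finset.insert_union]
    exact hz

theorem RP.toRS {D : Finset ℕ} {y : ℕ} (h : RP c T y D) : ∃ x, RS c T x D := by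
  obtain ⟨x, hx⟩ := h.exists_start ∅ (RS.single h.mem) (Finset.disjoint_empty_right _)
  exact ⟨x, by simpa using hx⟩

theorem RS.card_le {D : Finset ℕ} {x r : ℕ} (h : RS c T x D) (hr : Rk c T r) : D.card ≤ r := by
  obtain ⟨y, hy⟩ := h.join (Finset.Subset.refl T) ∅ (RP.single h.mem)
    (Finset.disjoint_empty_right _)
  have := hr _ _ hy
  simpa using this

/-- the vertices all of whose out-paths avoiding `γ` are short -/
noncomputable def Blk (c : ℕ → ℕ → ℕ) (T : Finset ℕ) (t γ : ℕ) : Finset ℕ :=
  T.filter fun y => ∀ Y, RS c T y Y → γ ∉ Y → Y.card ≤ t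

theorem card_Blk_le (hL : Lev c T l lev) {t N : ℕ}
    (hN : ∀ T' ⊆ T, Rk c T' t → T'.card ≤ N) (γ : ℕ) : (Blk c T t γ).card ≤ l * N := by
  have hsub : Blk c T t γ ⊆ T := Finset.filter_subset _ _
  have := card_le_of_levels hL.lt N {γ} (Blk c T t γ) hsub ?_
  · simpa using this
  · intro T' hT' hconst
    have hT'T := hT'.trans hsub
    refine hN T' hT'T ?_
    intro y D hD
    obtain ⟨x, hx⟩ := hD.toRS
    exact (Finset.mem_filter.mp (hT' hx.mem)).2 D (hx.mono hT'T)
      (hx.notMem_of_free (hL.free hT'T (hconst γ (Finset.mem_singleton_self γ))))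

theorem lemmaS (hl : 1 ≤ l) (hL : Lev c T l lev) {r t N : ℕ} (hr : Rk c T r) (h : ℕ → ℕ)
    (hblk : ∀ w ∈ T, ∀ Y, RS c T w Y → h w ∉ Y → Y.card ≤ t)
    (hN : ∀ T' ⊆ T, Rk c T' t → T'.card ≤ N) : T.card ≤ (r + 3) ^ 4 * l * (N + 1) := by
  rcases Nat.lt_or_ge t r with htr | htr
  swap
  · have h1 := hN T (Finset.Subset.refl _) (fun y D hD => (hr y D hD).trans htr)
    have h2 : 1 ≤ (r + 3) ^ 4 * l := Nat.one_le_iff_ne_zero.mpr (by positivity)
    calc T.card ≤ N := h1
      _ ≤ 1 * (N + 1) := by omega
      _ ≤ (r + 3) ^ 4 * l * (N + 1) := Nat.mul_le_mul_right _ h2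
  -- depth classes
  set pd : ℕ → ℕ → Prop := fun x j => ∃ Y, RS c T x Y ∧ Y.card = j with hpd
  set dep : ℕ → ℕ := fun x => Nat.findGreatest (pd x) r with hdep
  have hdep_spec : ∀ x ∈ T, ∃ Y, RS c T x Y ∧ Y.card = dep x := fun x hx =>
    Nat.findGreatest_spec (P := pd x) (Nat.zero_le r) ⟨∅, RS.single hx, rfl⟩
  have hdep_le : ∀ x Y, RS c T x Y → Y.card ≤ dep x := fun x Y hY =>
    Nat.le_findGreatest (P := pd x) (hY.card_le hr) ⟨Y, hY, rfl⟩
  choose! Ys hYs hYsc using hdep_spec
  -- the paths which avoid a given colour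
  have hZex : ∀ x e, ∃ Z : Finset ℕ, Z.card ≤ t + 1 ∧ (x ∈ T → x ∉ Blk c T t e →
      RS c T x Z ∧ e ∉ Z ∧ Z.card = t + 1) := by
    intro x e
    by_cases hx : x ∈ T ∧ x ∉ Blk c T t e
    · obtain ⟨hxT, hxB⟩ := hx
      rw [Blk, Finset.mem_filter] at hxB
      push Not at hxB
      obtain ⟨Y, hY, heY, hlt⟩ := hxB hxT
      obtain ⟨Z, hZ, hZc, hZR⟩ := hY.initial (t + 1) hlt
      exact ⟨Z, hZc.le, fun _ _ => ⟨hZR, fun h => heY (hZ h), hZc⟩⟩
    · exact ⟨∅, Nat.zero_le _, fun h1 h2 => absurd ⟨h1, h2⟩ hx⟩
  choose Z hZc hZ using hZex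
  set Wx : ℕ → Finset ℕ := fun x => Ys x ∪ (Ys x).biUnion (Z x) with hWx
  have hWxc : ∀ x ∈ T, (Wx x).card ≤ r * (t + 2) := by
    intro x hx
    have h1 : (Ys x).card ≤ r := (hYs x hx).card_le hr
    have h2 : ((Ys x).biUnion (Z x)).card ≤ (Ys x).card * (t + 1) :=
      Finset.card_biUnion_le_card_mul _ _ _ fun e _ => hZc x e
    have h3 := Finset.card_union_le (Ys x) ((Ys x).biUnion (Z x))
    have h4 : (Ys x).card * (t + 1) ≤ r * (t + 1) := Nat.mul_le_mul_right _ h1
    have h5 : r * (t + 2) = r + r * (t + 1) := by ring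
    simp only [hWx]
    omega
  have hself : ∀ y ∈ T, y ∈ Blk c T t (h y) := fun y hy =>
    Finset.mem_filter.mpr ⟨hy, hblk y hy⟩
  set E := r * (t + 3) * (l * N) with hE
  -- each class is small
  have hclass : ∀ j, (T.filter fun x => dep x = j).card ≤ (r + 2) * (E + 1) + N := by
    intro j
    set S := T.filter fun x => dep x = j with hS
    have hST : S ⊆ T := Finset.filter_subset _ _
    rcases Nat.lt_or_ge t j with htj | htj
    swap
    · refine (hN S hST ?_).trans (Nat.le_add_left _ _)
      intro y D hD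
      obtain ⟨x, hx⟩ := hD.toRS
      have h1 := hdep_le x D (hx.mono hST)
      have h2 : dep x = j := (Finset.mem_filter.mp hx.mem).2
      omega
    · by_contra hcon
      push Not at hcon
      obtain ⟨W, hWs, hWc, hWo⟩ := exists_windows S (r + 2) (E + 1) (by omega)
      have chain : ∀ k ≤ r + 1, ∃ x ∈ W (r + 1 - k), ∃ used : Finset ℕ, RS c T x used ∧
          used.card = k ∧ ∀ γ ∈ used, x ∉ Blk c T t γ := by
        intro k
        induction k with
        | zero =>
          intro _
          have h1 := hWc (r + 1) (by omega)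
          obtain ⟨x, hx⟩ := Finset.card_pos.mp (show 0 < (W (r + 1)).card by omega)
          exact ⟨x, hx, ∅, RS.single (hST (hWs (r + 1) (by omega) hx)), rfl, by simp⟩
        | succ k ih =>
          intro hk
          obtain ⟨x, hx, used, hRS, hcard, hnot⟩ := ih (by omega)
          have hxS := hWs (r + 1 - k) (by omega) hx
          have hxT := hST hxS
          have hxj : dep x = j := (Finset.mem_filter.mp hxS).2
          set B := W (r + 1 - (k + 1)) with hB
          have hBS : B ⊆ S := hWs _ (by omega)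
          have hused : used.card ≤ r := hRS.card_le hr
          have hexc : (T.filter fun y => ∃ γ ∈ Wx x ∪ used, y ∈ Blk c T t γ).card ≤
              (Wx x ∪ used).card * (l * N) := by
            refine card_exists_le T (Wx x ∪ used) (fun y γ => y ∈ Blk c T t γ) _ ?_
            intro γ _
            refine le_trans (Finset.card_le_card ?_) (card_Blk_le hL hN γ)
            intro y hy
            exact (Finset.mem_filter.mp hy).2
          have hexc2 : (Wx x ∪ used).card * (l * N) ≤ E := by
            have h1 := Finset.card_union_le (Wx x) used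
            have h2 := hWxc x hxT
            have h3 : r * (t + 3) = r * (t + 2) + r := by ring
            rw [hE]
            exact Nat.mul_le_mul_right _ (by omega)
          obtain ⟨y, hy, hy'⟩ : ∃ y ∈ B,
              y ∉ T.filter fun y => ∃ γ ∈ Wx x ∪ used, y ∈ Blk c T t γ := by
            refine Finset.exists_mem_notMem_of_card_lt_card ?_
            have h1 : E + 1 ≤ B.card := hWc _ (by omega)
            omega
          have hyS := hBS hy
          have hyT := hST hyS
          have hyj : dep y = j := (Finset.mem_filter.mp hyS).2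
          have hyx : y < x := hWo (r + 1 - (k + 1)) (r + 1 - k) (by omega) (by omega) y hy x hx
          have hyB : ∀ γ ∈ Wx x ∪ used, y ∉ Blk c T t γ := fun γ hγ hm =>
            hy' (Finset.mem_filter.mpr ⟨hyT, γ, hγ, hm⟩)
          -- the colour of the edge
          have hγY : c y x ∈ Ys x := by
            by_contra hn
            have h1 := hdep_le y _ (RS.step (hYs x hxT) hyT hyx hn)
            rw [Finset.card_insert_of_notMem hn, hYsc x hxT] at h1
            omega
          have hγW : c y x ∈ Wx x := Finset.mem_union_left _ hγY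
          have hxB : x ∈ Blk c T t (c y x) := by
            by_contra hn
            obtain ⟨h1, h2, h3⟩ := hZ x (c y x) hxT hn
            have h4 : Z x (c y x) ⊆ Wx x := by
              intro γ hγ
              exact Finset.mem_union_right _ (Finset.mem_biUnion.mpr ⟨c y x, hγY, hγ⟩)
            have h5 := RS.step h1 hyT hyx h2
            have h6 := hblk y hyT _ h5 (by
              intro hmem
              have h7 : h y ∈ Wx x := by
                rcases Finset.mem_insert.mp hmem with h8 | h8
                · rw [h8]; exact hγW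
                · exact h4 h8
              exact hyB (h y) (Finset.mem_union_left _ h7) (hself y hyT))
            rw [Finset.card_insert_of_notMem h2, h3] at h6
            omega
          have hγu : c y x ∉ used := fun hm => hnot _ hm hxB
          refine ⟨y, hy, insert (c y x) used, RS.step hRS hyT hyx hγu, ?_, ?_⟩
          · rw [Finset.card_insert_of_notMem hγu, hcard]
          · intro γ hγ
            rcases Finset.mem_insert.mp hγ with rfl | hγ
            · exact hyB _ (Finset.mem_union_left _ hγW)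
            · exact hyB _ (Finset.mem_union_right _ hγ)
      obtain ⟨x, _, used, hRS, hcard, _⟩ := chain (r + 1) le_rfl
      have := hRS.card_le hr
      omega
  -- sum over the classes
  have hmaps : ∀ x ∈ T, dep x ∈ Finset.range (r + 1) := fun x _ =>
    Finset.mem_range.mpr (Nat.lt_succ_of_le (Nat.findGreatest_le _))
  rw [Finset.card_eq_sum_card_fiberwise hmaps]
  have hEle : E ≤ r * (r + 2) * (l * N) := by
    rw [hE]
    exact Nat.mul_le_mul_right _ (Nat.mul_le_mul_left _ (by omega))
  obtain ⟨e, rfl⟩ : ∃ e, l = e + 1 := ⟨l - 1, by omega⟩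
  calc ∑ j ∈ Finset.range (r + 1), (T.filter fun x => dep x = j).card
      ≤ ∑ j ∈ Finset.range (r + 1), ((r + 2) * (E + 1) + N) :=
        Finset.sum_le_sum fun j _ => hclass j
    _ = (r + 1) * ((r + 2) * (E + 1) + N) := by
        rw [Finset.sum_const, Finset.card_range, smul_eq_mul]
    _ ≤ (r + 1) * ((r + 2) * (r * (r + 2) * ((e + 1) * N) + 1) + N) :=
        Nat.mul_le_mul_left _ (Nat.add_le_add_right (Nat.mul_le_mul_left _
          (Nat.add_le_add_right hEle _)) _)
    _ ≤ (r + 3) ^ 4 * (e + 1) * (N + 1) := by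
        have h1 : (r + 1) * ((r + 2) * (r * (r + 2) * ((e + 1) * N) + 1) + N) +
            ((r + 3) ^ 4 - ((r + 1) * (r + 2) * r * (r + 2) + (r + 1))) * ((e + 1) * N) +
            ((r + 1) * (e * N) + ((r + 3) ^ 4 - (r + 1) * (r + 2)) * (e + 1) +
              (r + 1) * (r + 2) * e) = (r + 3) ^ 4 * (e + 1) * (N + 1) := by
          have h2 : (r + 1) * (r + 2) * r * (r + 2) + (r + 1) ≤ (r + 3) ^ 4 := by
            refine Nat.le.intro (k := 7 * r ^ 3 + 46 * r ^ 2 + 103 * r + 80) ?_
            ring
          have h3 : (r + 1) * (r + 2) ≤ (r + 3) ^ 4 := by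
            refine Nat.le.intro (k := r ^ 4 + 12 * r ^ 3 + 53 * r ^ 2 + 105 * r + 79) ?_
            ring
          obtain ⟨a, ha⟩ := Nat.exists_eq_add_of_le h2
          obtain ⟨b, hb⟩ := Nat.exists_eq_add_of_le h3
          rw [show (r + 3) ^ 4 - ((r + 1) * (r + 2) * r * (r + 2) + (r + 1)) = a by omega,
            show (r + 3) ^ 4 - (r + 1) * (r + 2) = b by omega]
          have h4 : (r + 3) ^ 4 * (e + 1) * (N + 1) =
              (r + 3) ^ 4 * ((e + 1) * N) + (r + 3) ^ 4 * (e + 1) := by ring
          rw [h4]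
          conv_rhs => rw [ha]
          have h5 : ((r + 1) * (r + 2) * r * (r + 2) + (r + 1) + a) * (e + 1) =
              (r + 3) ^ 4 * (e + 1) := by rw [ha]
          have h6 : (r + 3) ^ 4 * (e + 1) = ((r + 1) * (r + 2) + b) * (e + 1) := by rw [hb]
          rw [h5, h6]
          ring
        omega

end FlashRainbow
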