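import Pool.Agent.Work.MP_54723a_co.Paths

/-!
# The core of the argument: windows, popular colours
-/

set_option autoImplicit false

namespace FlashRainbow

open Classical

/-- `γ` is popular at `x` towards some later window. -/
def Pop (c : ℕ → ℕ → ℕ) (W : ℕ → Finset ℕ) (M Λ : ℕ) (x γ : ℕ) : Prop :=
  ∃ m < M, (∀ v ∈ W m, x < v) ∧ Λ ≤ ((W m).filter fun v => c x v = γ).card

/-- The situation in which no progress is possible. -/
structure Stuck (c : ℕ → ℕ → ℕ) (V : Finset ℕ) (W : ℕ → Finset ℕ) (R s M Λ Q F : ℕ) : Prop where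
  hR : ∀ x D, RP c V x D → D.card ≤ R
  hs : s < R
  sub : ∀ m < M, W m ⊆ V
  ord : ∀ m m', m < m' → m' < M → ∀ a ∈ W m, ∀ b ∈ W m', a < b
  star : ∀ x D, RP c V x D → s ≤ D.card → ∀ γ, Pop c W M Λ x γ → γ ∈ D
  few : ∀ γ, (V.filter fun x => Pop c W M Λ x γ).card ≤ Q
  ends : (V.filter fun x => ¬ ∃ D, RP c V x D ∧ D.card = s).card ≤ F

section

variable {c : ℕ → ℕ → ℕ} {V : Finset ℕ} {W : ℕ → Finset ℕ} {R s M Λ Q F : ℕ}

theorem card_filter_mem_le (A D : Finset ℕ) (f : ℕ → ℕ) (N : ℕ)
    (h : ∀ d ∈ D, (A.filter fun v => f v = d).card ≤ N) :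
    (A.filter fun v => f v ∈ D).card ≤ D.card * N := by
  have hmaps : ∀ v ∈ A.filter (fun v => f v ∈ D), f v ∈ D := fun v hv => (Finset.mem_filter.mp hv).2
  rw [Finset.card_eq_sum_card_fiberwise hmaps]
  calc ∑ b ∈ D, ((A.filter fun v => f v ∈ D).filter fun v => f v = b).card
      ≤ ∑ b ∈ D, N := by
        refine Finset.sum_le_sum fun b hb => ?_
        refine le_trans (Finset.card_le_card ?_) (h b hb)
        intro v hv
        rw [Finset.mem_filter] at hv ⊢
        exact ⟨(Finset.mem_filter.mp hv.1).1, hv.2⟩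
    _ = D.card * N := by rw [Finset.sum_const, smul_eq_mul]

theorem card_exists_le (A D : Finset ℕ) (p : ℕ → ℕ → Prop)
    [∀ d, DecidablePred fun v => p v d] [DecidablePred fun v => ∃ d ∈ D, p v d] (N : ℕ)
    (h : ∀ d ∈ D, (A.filter fun v => p v d).card ≤ N) :
    (A.filter fun v => ∃ d ∈ D, p v d).card ≤ D.card * N := by
  have hsub : (A.filter fun v => ∃ d ∈ D, p v d) ⊆ D.biUnion fun d => A.filter fun v => p v d := by
    intro v hv
    rw [Finset.mem_filter] at hv
    obtain ⟨hvA, d, hd, hp⟩ := hv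
    rw [Finset.mem_biUnion]
    exact ⟨d, hd, Finset.mem_filter.mpr ⟨hvA, hp⟩⟩
  refine (Finset.card_le_card hsub).trans ?_
  exact Finset.card_biUnion_le_card_mul D _ N h

theorem card_lt_of_not_pop {x γ m : ℕ} (hm : m < M) (hx : ∀ v ∈ W m, x < v)
    (h : ¬ Pop c W M Λ x γ) : ((W m).filter fun v => c x v = γ).card ≤ Λ := by
  by_contra hc
  push Not at hc
  exact h ⟨m, hm, hx, hc.le⟩

/-- a chain of vertices without popular colours -/
theorem Stuck.nchain (S : Stuck c V W R s M Λ Q F) (𝓜 : Finset ℕ) :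
    ∀ x D, RP c V x D → (∀ γ, ¬ Pop c W M Λ x γ) →
      (∀ m ∈ 𝓜, m < M ∧ (∀ v ∈ W m, x < v) ∧
        R * Λ < ((W m).filter fun v => ∀ γ, ¬ Pop c W M Λ v γ).card) →
      D.card + 𝓜.card ≤ R := by
  induction 𝓜 using Finset.induction_on_min with
  | empty =>
    intro x D h _ _
    simpa using S.hR x D h
  | insert a 𝓜 hmin ih =>
    intro x D hP hx hM
    have hane : a ∉ 𝓜 := fun h => lt_irrefl _ (hmin a h)
    obtain ⟨haM, hlater, hbig⟩ := hM a (Finset.mem_insert_self _ _)
    have hcount : ((W a).filter fun v => c x v ∈ D).card ≤ R * Λ := by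
      refine (card_filter_mem_le (W a) D (c x) Λ ?_).trans (Nat.mul_le_mul_right _ (S.hR _ _ hP))
      intro d _
      exact card_lt_of_not_pop haM hlater (hx d)
    obtain ⟨v, hv, hv'⟩ : ∃ v ∈ (W a).filter (fun v => ∀ γ, ¬ Pop c W M Λ v γ),
        v ∉ (W a).filter (fun v => c x v ∈ D) :=
      Finset.exists_mem_notMem_of_card_lt_card (by omega)
    rw [Finset.mem_filter] at hv hv'
    have hnot : c x v ∉ D := fun h => hv' ⟨hv.1, h⟩
    have hstep := RP.step hP (S.sub a haM hv.1) (hlater v hv.1) hnot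
    have := ih v _ hstep hv.2 (fun m hm => by
      obtain ⟨h1, _, h3⟩ := hM m (Finset.mem_insert_of_mem hm)
      exact ⟨h1, fun b hb => S.ord a m (hmin m hm) h1 v hv.1 b hb, h3⟩)
    rw [Finset.card_insert_of_notMem hnot] at this
    rw [Finset.card_insert_of_notMem hane]
    omega

/-- the vertices of window `m` reached from `x` by a colour outside `D` -/
noncomputable def Aset (c : ℕ → ℕ → ℕ) (W : ℕ → Finset ℕ) (x : ℕ) (D : Finset ℕ) (m : ℕ) : Finset ℕ :=
  (W m).filter fun v => c x v ∉ D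

/-- those without popular colour -/
noncomputable def Nset (c : ℕ → ℕ → ℕ) (W : ℕ → Finset ℕ) (M Λ x : ℕ) (D : Finset ℕ) (m : ℕ) : Finset ℕ :=
  (W m).filter fun v => c x v ∉ D ∧ ∀ γ, ¬ Pop c W M Λ v γ

/-- those whose only popular colour is the colour of the edge from `x` -/
noncomputable def Bset (c : ℕ → ℕ → ℕ) (W : ℕ → Finset ℕ) (M Λ x : ℕ) (D : Finset ℕ) (m : ℕ) : Finset ℕ :=
  (W m).filter fun v => c x v ∉ D ∧ ∀ γ, Pop c W M Λ v γ ↔ γ = c x v

theorem Stuck.card_N (S : Stuck c V W R s M Λ Q F) {x : ℕ} {D : Finset ℕ} (hP : RP c V x D)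
    (𝓜 : Finset ℕ) (hM : ∀ m ∈ 𝓜, m < M ∧ (∀ v ∈ W m, x < v) ∧
      R * Λ < (Nset c W M Λ x D m).card) : 𝓜.card ≤ R - D.card := by
  rcases 𝓜.eq_empty_or_nonempty with rfl | hne
  · simp
  · set a := 𝓜.min' hne with ha
    have haM := Finset.min'_mem 𝓜 hne
    obtain ⟨h1, h2, h3⟩ := hM a haM
    have hpos : 0 < (Nset c W M Λ x D a).card := by omega
    obtain ⟨v, hv⟩ := Finset.card_pos.mp hpos
    rw [Nset, Finset.mem_filter] at hv
    have hstep := RP.step hP (S.sub a h1 hv.1) (h2 v hv.1) hv.2.1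
    have := S.nchain (𝓜.erase a) v _ hstep hv.2.2 (fun m hm => by
      have hmne := (Finset.mem_erase.mp hm).1
      have hmm := (Finset.mem_erase.mp hm).2
      obtain ⟨g1, _, g3⟩ := hM m hmm
      have ham : a < m := lt_of_le_of_ne (Finset.min'_le 𝓜 m hmm) (Ne.symm hmne)
      refine ⟨g1, fun b hb => S.ord a m ham g1 v hv.1 b hb, lt_of_lt_of_le g3 ?_⟩
      refine Finset.card_le_card ?_
      intro u hu
      rw [Nset, Finset.mem_filter] at hu
      exact Finset.mem_filter.mpr ⟨hu.1, hu.2.2⟩)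
    rw [Finset.card_insert_of_notMem hv.2.1, Finset.card_erase_of_mem haM] at this
    have hcp : 0 < 𝓜.card := Finset.card_pos.mpr hne
    omega

/-- the selection of a sequence of `B`-vertices -/
theorem Stuck.select (S : Stuck c V W R s M Λ Q F) {x : ℕ} {D : Finset ℕ} (hP : RP c V x D)
    (hD : s ≤ D.card) (q : ℕ) (𝓜 : Finset ℕ) :
    (∀ m ∈ 𝓜, m < M ∧ (∀ v ∈ W m, x < v) ∧ q < (Bset c W M Λ x D m).card) →
      (𝓜.card - 1) * (R * Λ + Q) ≤ q →
      ∃ z : ℕ → ℕ, (∀ m ∈ 𝓜, z m ∈ Bset c W M Λ x D m) ∧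
        ∀ m ∈ 𝓜, ∀ m' ∈ 𝓜, m < m' → c x (z m) ≠ c x (z m') ∧
          (c (z m) (z m') = c x (z m) ∨ c (z m) (z m') = c x (z m')) := by
  induction 𝓜 using Finset.induction_on_max with
  | empty => intro _ _; exact ⟨id, by simp, by simp⟩
  | insert a 𝓜 hmax ih =>
    intro hM hq
    have hane : a ∉ 𝓜 := fun h => lt_irrefl _ (hmax a h)
    rw [Finset.card_insert_of_notMem hane, Nat.add_sub_cancel] at hq
    obtain ⟨z, hz, hzz⟩ := ih (fun m hm => hM m (Finset.mem_insert_of_mem hm))
      (le_trans (Nat.mul_le_mul_right _ (Nat.sub_le _ _)) hq)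
    obtain ⟨haM, hlater, hbig⟩ := hM a (Finset.mem_insert_self _ _)
    -- excluded vertices
    have hexc : ((W a).filter fun v => ∃ m ∈ 𝓜,
        (c (z m) v ∈ D ∨ Pop c W M Λ v (c x (z m)))).card ≤ 𝓜.card * (R * Λ + Q) := by
      refine card_exists_le (W a) 𝓜 (fun v m => c (z m) v ∈ D ∨ Pop c W M Λ v (c x (z m))) _ ?_
      intro m hm
      have hzm := hz m hm
      rw [Bset, Finset.mem_filter] at hzm
      rw [Finset.filter_or]
      refine (Finset.card_union_le _ _).trans (Nat.add_le_add ?_ ?_)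
      · refine (card_filter_mem_le (W a) D (c (z m)) Λ ?_).trans
          (Nat.mul_le_mul_right _ (S.hR _ _ hP))
        intro d hd
        refine card_lt_of_not_pop haM (fun v hv => S.ord m a (hmax m hm) haM _ hzm.1 v hv) ?_
        intro hpop
        rw [hzm.2.2 d] at hpop
        exact hzm.2.1 (hpop ▸ hd)
      · refine le_trans (Finset.card_le_card ?_) (S.few (c x (z m)))
        exact Finset.filter_subset_filter _ (S.sub a haM)
    obtain ⟨v, hv, hv'⟩ : ∃ v ∈ Bset c W M Λ x D a, v ∉ (W a).filter (fun v => ∃ m ∈ 𝓜,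
        (c (z m) v ∈ D ∨ Pop c W M Λ v (c x (z m)))) :=
      Finset.exists_mem_notMem_of_card_lt_card (by omega)
    have hvB := hv
    rw [Bset, Finset.mem_filter] at hv
    rw [Finset.mem_filter] at hv'
    push Not at hv'
    have hv'' := hv' hv.1
    refine ⟨Function.update z a v, ?_, ?_⟩
    · intro m hm
      rcases Finset.mem_insert.mp hm with rfl | hm
      · rw [Function.update_self]; exact hvB
      · have : m ≠ a := fun h => hane (h ▸ hm)
        rw [Function.update_of_ne this]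
        exact hz m hm
    · intro m hm m' hm' hlt
      rcases Finset.mem_insert.mp hm with rfl | hm₁
      · rcases Finset.mem_insert.mp hm' with rfl | hm'
        · exact absurd hlt (lt_irrefl _)
        · exact absurd hlt (not_lt.mpr (hmax m' hm').le)
      · clear hm
        rename' hm₁ => hm
        have hma : m ≠ a := fun h => hane (h ▸ hm)
        rw [Function.update_of_ne hma]
        rcases Finset.mem_insert.mp hm' with rfl | hm'
        · rw [Function.update_self]
          obtain ⟨e1, e2⟩ := hv'' m hm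
          have hzm := hz m hm
          rw [Bset, Finset.mem_filter] at hzm
          obtain ⟨hmM, hml, _⟩ := hM m (Finset.mem_insert_of_mem hm)
          have hne : c x (z m) ≠ c x v := by
            intro heq
            apply e2
            rw [hv.2.2]
            exact heq
          refine ⟨hne, ?_⟩
          by_contra hcon
          push Not at hcon
          have hp1 := RP.step hP (S.sub m hmM hzm.1) (hml _ hzm.1) hzm.2.1
          have hnot : c (z m) v ∉ insert (c x (z m)) D := by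
            rw [Finset.mem_insert, not_or]
            exact ⟨hcon.1, e1⟩
          have hp2 := RP.step hp1 (S.sub m' haM hv.1) (S.ord m m' hlt haM _ hzm.1 v hv.1) hnot
          have hcard : s ≤ (insert (c (z m) v) (insert (c x (z m)) D)).card := by
            rw [Finset.card_insert_of_notMem hnot, Finset.card_insert_of_notMem hzm.2.1]
            omega
          have hmem := S.star _ _ hp2 hcard (c x v) ((hv.2.2 _).mpr rfl)
          rw [Finset.mem_insert, Finset.mem_insert] at hmem
          rcases hmem with h | h | h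
          · exact hcon.2 h.symm
          · exact hne h.symm
          · exact hv.2.1 h
        · have hma' : m' ≠ a := fun h => hane (h ▸ hm')
          rw [Function.update_of_ne hma']
          exact hzz m hm m' hm' hlt

/-- Erdős–Szekeres step: the selection is short. -/
theorem Stuck.card_sel (S : Stuck c V W R s M Λ Q F) {x : ℕ} {D : Finset ℕ} (hP : RP c V x D)
    (hD : s ≤ D.card) (𝓜 : Finset ℕ) (z : ℕ → ℕ)
    (hM : ∀ m ∈ 𝓜, m < M ∧ (∀ v ∈ W m, x < v)) (hz : ∀ m ∈ 𝓜, z m ∈ Bset c W M Λ x D m)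
    (hzz : ∀ m ∈ 𝓜, ∀ m' ∈ 𝓜, m < m' → c x (z m) ≠ c x (z m') ∧
      (c (z m) (z m') = c x (z m) ∨ c (z m) (z m') = c x (z m'))) :
    𝓜.card ≤ (R + 1) * (R - s) := by
  -- tail coloured paths
  set pa : ℕ → ℕ → Prop := fun m a => ∃ D', RP c V (z m) D' ∧ D'.card = a ∧
    ∀ d ∈ D', ∃ m' ∈ 𝓜, m' < m ∧ d = c x (z m') with hpa
  set pb : ℕ → ℕ → Prop := fun m b => ∃ D', RP c V (z m) D' ∧ D'.card = D.card + 1 + b ∧
    ∀ d ∈ D', d ∈ D ∨ ∃ m' ∈ 𝓜, m' ≤ m ∧ d = c x (z m') with hpb
  have hzB : ∀ m ∈ 𝓜, z m ∈ W m ∧ c x (z m) ∉ D := by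
    intro m hm
    have := hz m hm
    rw [Bset, Finset.mem_filter] at this
    exact ⟨this.1, this.2.1⟩
  have pa0 : ∀ m ∈ 𝓜, pa m 0 := by
    intro m hm
    exact ⟨∅, RP.single (S.sub m (hM m hm).1 (hzB m hm).1), rfl, by simp⟩
  have pb0 : ∀ m ∈ 𝓜, pb m 0 := by
    intro m hm
    refine ⟨insert (c x (z m)) D, RP.step hP (S.sub m (hM m hm).1 (hzB m hm).1)
      ((hM m hm).2 _ (hzB m hm).1) (hzB m hm).2, ?_, ?_⟩
    · rw [Finset.card_insert_of_notMem (hzB m hm).2]
    · intro d hd
      rcases Finset.mem_insert.mp hd with rfl | hd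
      · exact Or.inr ⟨m, hm, le_rfl, rfl⟩
      · exact Or.inl hd
  set fa : ℕ → ℕ := fun m => Nat.findGreatest (pa m) R with hfa
  set fb : ℕ → ℕ := fun m => Nat.findGreatest (pb m) R with hfb
  have ha : ∀ m ∈ 𝓜, pa m (fa m) := fun m hm => Nat.findGreatest_spec (Nat.zero_le _) (pa0 m hm)
  have hb : ∀ m ∈ 𝓜, pb m (fb m) := fun m hm => Nat.findGreatest_spec (Nat.zero_le _) (pb0 m hm)
  have key : ∀ m ∈ 𝓜, ∀ m' ∈ 𝓜, m < m' → fa m < fa m' ∨ fb m < fb m' := by
    intro m hm m' hm' hlt
    have hm'V := S.sub m' (hM m' hm').1 (hzB m' hm').1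
    have hzlt : z m < z m' := S.ord m m' hlt (hM m' hm').1 _ (hzB m hm).1 _ (hzB m' hm').1
    obtain ⟨hne, hcol⟩ := hzz m hm m' hm' hlt
    rcases hcol with hcol | hcol
    · left
      obtain ⟨D', h1, h2, h3⟩ := ha m hm
      have hnot : c (z m) (z m') ∉ D' := by
        rw [hcol]
        intro hmem
        obtain ⟨m'', hm'', hlt'', heq⟩ := h3 _ hmem
        exact (hzz m'' hm'' m hm hlt'').1 heq.symm
      have hstep := RP.step h1 hm'V hzlt hnot
      have hpa' : pa m' (fa m + 1) := by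
        refine ⟨_, hstep, ?_, ?_⟩
        · rw [Finset.card_insert_of_notMem hnot, h2]
        · intro d hd
          rcases Finset.mem_insert.mp hd with rfl | hd
          · exact ⟨m, hm, hlt, hcol⟩
          · obtain ⟨m'', hm'', hlt'', heq⟩ := h3 _ hd
            exact ⟨m'', hm'', hlt''.trans hlt, heq⟩
      have hle : fa m + 1 ≤ R := by
        have := S.hR _ _ hstep
        rwa [Finset.card_insert_of_notMem hnot, h2] at this
      exact Nat.le_findGreatest hle hpa'
    · right
      obtain ⟨D', h1, h2, h3⟩ := hb m hm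
      have hnot : c (z m) (z m') ∉ D' := by
        rw [hcol]
        intro hmem
        rcases h3 _ hmem with h | ⟨m'', hm'', hle'', heq⟩
        · exact (hzB m' hm').2 h
        · exact (hzz m'' hm'' m' hm' (lt_of_le_of_lt hle'' hlt)).1 heq.symm
      have hstep := RP.step h1 hm'V hzlt hnot
      have hpb' : pb m' (fb m + 1) := by
        refine ⟨_, hstep, ?_, ?_⟩
        · rw [Finset.card_insert_of_notMem hnot, h2]
          ring
        · intro d hd
          rcases Finset.mem_insert.mp hd with rfl | hd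
          · exact Or.inr ⟨m', hm', le_rfl, hcol⟩
          · rcases h3 _ hd with h | ⟨m'', hm'', hle'', heq⟩
            · exact Or.inl h
            · exact Or.inr ⟨m'', hm'', hle''.trans hlt.le, heq⟩
      have hle : fb m + 1 ≤ R := by
        have := S.hR _ _ hstep
        rw [Finset.card_insert_of_notMem hnot, h2] at this
        omega
      exact Nat.le_findGreatest hle hpb'
  have hmaps : ∀ m ∈ 𝓜, (fa m, fb m) ∈ Finset.range (R + 1) ×ˢ Finset.range (R - s) := by
    intro m hm
    rw [Finset.mem_product, Finset.mem_range, Finset.mem_range]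
    refine ⟨Nat.lt_succ_of_le (Nat.findGreatest_le _), ?_⟩
    obtain ⟨D', h1, h2, _⟩ := hb m hm
    have := S.hR _ _ h1
    simp only at h2 ⊢
    omega
  have hinj : Set.InjOn (fun m => (fa m, fb m)) (𝓜 : Set ℕ) := by
    intro m hm m' hm' heq
    simp only [Prod.mk.injEq] at heq
    rcases lt_trichotomy m m' with h | h | h
    · rcases key m hm m' hm' h with h' | h' <;> omega
    · exact h
    · rcases key m' hm' m hm h with h' | h' <;> omega
  have := Finset.card_le_card_of_injOn _ hmaps hinj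
  rwa [Finset.card_product, Finset.card_range, Finset.card_range] at this

/-- number of windows towards which many edges leave with new colours -/
theorem Stuck.card_bad (S : Stuck c V W R s M Λ Q F) {x : ℕ} {D : Finset ℕ} (hP : RP c V x D)
    (hD : s ≤ D.card) (𝓑 : Finset ℕ)
    (h𝓑 : ∀ m ∈ 𝓑, m < M ∧ (∀ v ∈ W m, x < v) ∧
      R * Λ + (R + 1) * (R - s) * (R * Λ + Q) + R * Q < (Aset c W x D m).card) :
    𝓑.card ≤ (R + 2) * (R - s) := by
  set q := (R + 1) * (R - s) * (R * Λ + Q) with hq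
  have hsplit : ∀ m ∈ 𝓑, R * Λ < (Nset c W M Λ x D m).card ∨ q < (Bset c W M Λ x D m).card := by
    intro m hm
    obtain ⟨h1, h2, h3⟩ := h𝓑 m hm
    by_contra hcon
    push Not at hcon
    have hsub : Aset c W x D m ⊆ Nset c W M Λ x D m ∪ Bset c W M Λ x D m ∪
        (V.filter fun v => ∃ d ∈ D, Pop c W M Λ v d) := by
      intro v hv
      rw [Aset, Finset.mem_filter] at hv
      have hvV := S.sub m h1 hv.1
      by_cases hX : ∃ d ∈ D, Pop c W M Λ v d
      · exact Finset.mem_union_right _ (Finset.mem_filter.mpr ⟨hvV, hX⟩)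
      · refine Finset.mem_union_left _ ?_
        push Not at hX
        have hstep := RP.step hP hvV (h2 v hv.1) hv.2
        have hcard : s ≤ (insert (c x v) D).card := by
          rw [Finset.card_insert_of_notMem hv.2]; omega
        have honly : ∀ γ, Pop c W M Λ v γ → γ = c x v := by
          intro γ hγ
          have := S.star _ _ hstep hcard γ hγ
          rcases Finset.mem_insert.mp this with h | h
          · exact h
          · exact absurd hγ (hX γ h)
        by_cases hpop : Pop c W M Λ v (c x v)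
        · refine Finset.mem_union_right _ ?_
          rw [Bset, Finset.mem_filter]
          exact ⟨hv.1, hv.2, fun γ => ⟨honly γ, fun h => h ▸ hpop⟩⟩
        · refine Finset.mem_union_left _ ?_
          rw [Nset, Finset.mem_filter]
          exact ⟨hv.1, hv.2, fun γ hγ => hpop (honly γ hγ ▸ hγ)⟩
    have hX : (V.filter fun v => ∃ d ∈ D, Pop c W M Λ v d).card ≤ R * Q := by
      refine (card_exists_le V D (fun v d => Pop c W M Λ v d) Q fun d _ => S.few d).trans ?_
      exact Nat.mul_le_mul_right _ (S.hR _ _ hP)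
    have h4 := Finset.card_le_card hsub
    have h5 := Finset.card_union_le (Nset c W M Λ x D m ∪ Bset c W M Λ x D m)
      (V.filter fun v => ∃ d ∈ D, Pop c W M Λ v d)
    have h6 := Finset.card_union_le (Nset c W M Λ x D m) (Bset c W M Λ x D m)
    omega
  set 𝓑₁ := 𝓑.filter fun m => R * Λ < (Nset c W M Λ x D m).card with h𝓑₁
  set 𝓑₂ := 𝓑.filter fun m => q < (Bset c W M Λ x D m).card with h𝓑₂
  have hcov : 𝓑 ⊆ 𝓑₁ ∪ 𝓑₂ := by
    intro m hm
    rcases hsplit m hm with h | h
    · exact Finset.mem_union_left _ (Finset.mem_filter.mpr ⟨hm, h⟩)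
    · exact Finset.mem_union_right _ (Finset.mem_filter.mpr ⟨hm, h⟩)
  have hc1 : 𝓑₁.card ≤ R - s := by
    refine (S.card_N hP 𝓑₁ fun m hm => ?_).trans (by omega)
    obtain ⟨hm1, hm2⟩ := Finset.mem_filter.mp hm
    obtain ⟨g1, g2, _⟩ := h𝓑 m hm1
    exact ⟨g1, g2, hm2⟩
  have hc2 : 𝓑₂.card ≤ (R + 1) * (R - s) := by
    by_contra hcon
    push Not at hcon
    obtain ⟨𝓣, h𝓣sub, h𝓣card⟩ := Finset.exists_subset_card_eq
      (show (R + 1) * (R - s) + 1 ≤ 𝓑₂.card from hcon)
    have hprop : ∀ m ∈ 𝓣, m < M ∧ (∀ v ∈ W m, x < v) ∧ q < (Bset c W M Λ x D m).card := by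
      intro m hm
      obtain ⟨hm1, hm2⟩ := Finset.mem_filter.mp (h𝓣sub hm)
      obtain ⟨g1, g2, _⟩ := h𝓑 m hm1
      exact ⟨g1, g2, hm2⟩
    obtain ⟨z, hz, hzz⟩ := S.select hP hD q 𝓣 hprop (by rw [h𝓣card, Nat.add_sub_cancel])
    have := S.card_sel hP hD 𝓣 z (fun m hm => ⟨(hprop m hm).1, (hprop m hm).2.1⟩) hz hzz
    omega
  calc 𝓑.card ≤ (𝓑₁ ∪ 𝓑₂).card := Finset.card_le_card hcov
    _ ≤ 𝓑₁.card + 𝓑₂.card := Finset.card_union_le _ _
    _ ≤ (R - s) + (R + 1) * (R - s) := Nat.add_le_add hc1 hc2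
    _ = (R + 2) * (R - s) := by ring

/-- The final contradiction. -/
theorem Stuck.false (S : Stuck c V W R s M Λ Q F) {w : ℕ} (hW : ∀ m < M, w ≤ (W m).card)
    (hM : (R + 1) * ((R + 2) * (R - s) + 1) < M)
    (hw : 2 * (R * Λ) + (R + 1) * (R - s) * (R * Λ + Q) + 3 * (R * Q) + F < w) : False := by
  set T' := (R + 2) * (R - s) with hT'
  have chain : ∀ t ≤ R + 1, ∃ x G k, RP c V x G ∧ G.card = t ∧ x ∈ W k ∧ k ≤ t * (T' + 1) ∧
      (∃ D, RP c V x D ∧ D.card = s) ∧ ∀ γ ∈ G, ¬ Pop c W M Λ x γ := by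
    intro t
    induction t with
    | zero =>
      intro _
      have h0M : 0 < M := by omega
      obtain ⟨x, hx, hx'⟩ : ∃ x ∈ W 0, x ∉ V.filter (fun x => ¬ ∃ D, RP c V x D ∧ D.card = s) := by
        refine Finset.exists_mem_notMem_of_card_lt_card ?_
        have h1 := hW 0 h0M
        have h2 := S.ends
        omega
      have hxV := S.sub 0 h0M hx
      rw [Finset.mem_filter, not_and, not_not] at hx'
      exact ⟨x, ∅, 0, RP.single hxV, rfl, hx, by simp, hx' hxV, by simp⟩
    | succ t ih =>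
      intro ht
      obtain ⟨x, G, k, hG, hGc, hxk, hk, ⟨D, hP, hD⟩, hpop⟩ := ih (by omega)
      have hkM : k + (T' + 1) < M := by
        have h1 : (t + 1) * (T' + 1) ≤ (R + 1) * (T' + 1) := Nat.mul_le_mul_right _ ht
        have h2 : (t + 1) * (T' + 1) = t * (T' + 1) + (T' + 1) := by ring
        omega
      -- a good window
      obtain ⟨m, hm1, hm2, hmA⟩ : ∃ m, k < m ∧ m ≤ k + (T' + 1) ∧ (Aset c W x D m).card ≤
          R * Λ + (R + 1) * (R - s) * (R * Λ + Q) + R * Q := by
        by_contra hcon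
        push Not at hcon
        have := S.card_bad hP hD.ge (Finset.Ioc k (k + (T' + 1))) (fun m hm => by
          rw [Finset.mem_Ioc] at hm
          refine ⟨by omega, fun v hv => S.ord k m hm.1 (by omega) x hxk v hv, hcon m hm.1 hm.2⟩)
        rw [Nat.card_Ioc] at this
        omega
      have hmM : m < M := by omega
      have hlater : ∀ v ∈ W m, x < v := fun v hv => S.ord k m hm1 hmM x hxk v hv
      have hDR : D.card ≤ R := S.hR _ _ hP
      have hGR : G.card ≤ R := S.hR _ _ hG
      -- exclusions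
      set E1 := Aset c W x D m with hE1
      set E2 := (W m).filter fun v => ∃ d ∈ D, (¬ Pop c W M Λ x d ∧ c x v = d) with hE2
      set E3 := V.filter (fun x => ¬ ∃ D, RP c V x D ∧ D.card = s) with hE3
      set E4 := V.filter (fun v => ∃ d ∈ G, Pop c W M Λ v d) with hE4
      set E5 := V.filter (fun v => ∃ d ∈ D, Pop c W M Λ v d) with hE5
      have c2 : E2.card ≤ R * Λ := by
        refine (card_exists_le (W m) D (fun v d => ¬ Pop c W M Λ x d ∧ c x v = d) Λ ?_).trans
          (Nat.mul_le_mul_right Λ hDR)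
        intro d _
        by_cases hd : Pop c W M Λ x d
        · simp [hd]
        · simp only [hd, not_false_eq_true, true_and]
          exact card_lt_of_not_pop hmM hlater hd
      have c4 : E4.card ≤ R * Q :=
        (card_exists_le V G (fun v d => Pop c W M Λ v d) Q fun d _ => S.few d).trans
          (Nat.mul_le_mul_right _ hGR)
      have c5 : E5.card ≤ R * Q :=
        (card_exists_le V D (fun v d => Pop c W M Λ v d) Q fun d _ => S.few d).trans
          (Nat.mul_le_mul_right _ hDR)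
      have c3 : E3.card ≤ F := S.ends
      obtain ⟨v, hv, hv'⟩ : ∃ v ∈ W m, v ∉ E1 ∪ E2 ∪ E3 ∪ E4 ∪ E5 := by
        refine Finset.exists_mem_notMem_of_card_lt_card ?_
        have h1 := Finset.card_union_le (E1 ∪ E2 ∪ E3 ∪ E4) E5
        have h2 := Finset.card_union_le (E1 ∪ E2 ∪ E3) E4
        have h3 := Finset.card_union_le (E1 ∪ E2) E3
        have h4 := Finset.card_union_le E1 E2
        have h5 := hW m hmM
        omega
      have hvV := S.sub m hmM hv
      simp only [Finset.mem_union, not_or] at hv'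
      obtain ⟨⟨⟨⟨n1, n2⟩, n3⟩, n4⟩, n5⟩ := hv'
      have hcD : c x v ∈ D := by
        by_contra h
        exact n1 (Finset.mem_filter.mpr ⟨hv, h⟩)
      have hxpop : Pop c W M Λ x (c x v) := by
        by_contra h
        exact n2 (Finset.mem_filter.mpr ⟨hv, c x v, hcD, h, rfl⟩)
      have hcG : c x v ∉ G := fun h => hpop _ h hxpop
      refine ⟨v, insert (c x v) G, m, RP.step hG hvV (hlater v hv) hcG, ?_, hv, ?_, ?_, ?_⟩
      · rw [Finset.card_insert_of_notMem hcG, hGc]
      · have : (t + 1) * (T' + 1) = t * (T' + 1) + (T' + 1) := by ring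
        omega
      · by_contra h
        exact n3 (Finset.mem_filter.mpr ⟨hvV, h⟩)
      · intro γ hγ hγpop
        rcases Finset.mem_insert.mp hγ with rfl | hγ
        · exact n5 (Finset.mem_filter.mpr ⟨hvV, _, hcD, hγpop⟩)
        · exact n4 (Finset.mem_filter.mpr ⟨hvV, _, hγ, hγpop⟩)
  obtain ⟨x, G, k, hG, hGc, _⟩ := chain (R + 1) le_rfl
  have := S.hR _ _ hG
  omega

end

end FlashRainbow
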