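import Pool.Agent.Work.MP_54723a_co.Final

/-!
# The flash-degree inequality

For an edge colouring of an ordered complete graph without `l`-flash and without `k`-rainbow let
`d v` be the number of colours `γ` such that `v` lies on a monotone monochromatic path with two
edges of colour `γ`. Then `∑ v, (2 / l) ^ d v ≤ 2 ^ (k - 1)`.
-/

set_option autoImplicit false

namespace FlashRainbow

/-- The case `l = 2`, anchored at the last vertex `z` of `W`. -/
theorem two_anchored {c : ℕ → ℕ → ℕ} : ∀ (r : ℕ) (W : Finset ℕ) (z : ℕ), z ∈ W →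
    (∀ v ∈ W, v ≤ z) →
    (∀ a ∈ W, ∀ b ∈ W, ∀ d ∈ W, a < b → b < d → c a b ≠ c b d) →
    (∀ D, RP c W z D → D.card ≤ r) → W.card ≤ 2 ^ r := by
  classical
  intro r
  induction r with
  | zero =>
    intro W z hz hmax _ hR
    rw [pow_zero, Finset.card_le_one]
    have key : ∀ a ∈ W, a = z := by
      intro a ha
      by_contra hne
      have hlt : a < z := lt_of_le_of_ne (hmax a ha) hne
      have := hR _ (RP.step (RP.single ha) hz hlt (Finset.notMem_empty _))
      simp at this
    intro a ha b hb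
    rw [key a ha, key b hb]
  | succ r ih =>
    intro W z hz hmax hno hR
    by_cases hW : W.card ≤ 1
    · exact hW.trans Nat.one_le_two_pow
    · -- the second largest vertex
      have hne : (W.erase z).Nonempty := by
        rw [← Finset.card_pos, Finset.card_erase_of_mem hz]
        omega
      set y := (W.erase z).max' hne with hy
      have hyW' : y ∈ W.erase z := Finset.max'_mem _ hne
      have hyW : y ∈ W := Finset.mem_of_mem_erase hyW'
      have hyz : y < z := lt_of_le_of_ne (hmax y hyW) (Finset.ne_of_mem_erase hyW')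
      set γ := c y z with hγ
      set K := W.filter (fun v => ∃ u ∈ W, u < v ∧ c u v = γ) with hK
      set S := W.filter (fun v => ¬ ∃ u ∈ W, u < v ∧ c u v = γ) with hS
      have hKW : K ⊆ W := Finset.filter_subset _ _
      have hSW : S ⊆ W := Finset.filter_subset _ _
      have hKfree : ∀ u ∈ K, ∀ v ∈ K, u < v → c u v ≠ γ := by
        intro u hu v hv huv h
        obtain ⟨huW, t, ht, htu, htc⟩ := Finset.mem_filter.mp hu
        exact hno t ht u huW v (hKW hv) htu huv (htc.trans h.symm)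
      have hSfree : ∀ u ∈ S, ∀ v ∈ S, u < v → c u v ≠ γ := by
        intro u hu v hv huv h
        exact (Finset.mem_filter.mp hv).2 ⟨u, hSW hu, huv, h⟩
      have hzK : z ∈ K := Finset.mem_filter.mpr ⟨hz, y, hyW, hyz, rfl⟩
      have hyS : y ∈ S := by
        refine Finset.mem_filter.mpr ⟨hyW, ?_⟩
        rintro ⟨t, ht, hty, htc⟩
        exact hno t ht y hyW z hz hty hyz htc
      have hzS : z ∉ S := fun h => (Finset.mem_filter.mp h).2 ⟨y, hyW, hyz, rfl⟩
      have hSmax : ∀ v ∈ S, v ≤ y := by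
        intro v hv
        have hvz : v ≠ z := fun h => hzS (h ▸ hv)
        exact Finset.le_max' _ _ (Finset.mem_erase.mpr ⟨hvz, hSW hv⟩)
      have h1 : K.card ≤ 2 ^ r := by
        refine ih K z hzK (fun v hv => hmax v (hKW hv)) ?_ ?_
        · intro a ha b hb d hd
          exact hno a (hKW ha) b (hKW hb) d (hKW hd)
        · intro D hD
          have hbig := hD.prepend (E := {γ}) hKW (by
            intro v hv
            obtain ⟨hvW, u, hu, huv, huc⟩ := Finset.mem_filter.mp hv
            have := RP.step (RP.single hu) hvW huv (Finset.notMem_empty (c u v))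
            rw [huc] at this
            simpa using this) (by
            intro γ' hγ' u hu v hv huv
            rw [Finset.mem_singleton.mp hγ']
            exact hKfree u hu v hv huv)
          have hnot : γ ∉ D := hD.notMem_of_free hKfree
          have := hR _ hbig
          rw [Finset.card_union_of_disjoint (by simpa using hnot), Finset.card_singleton] at this
          omega
      have h2 : S.card ≤ 2 ^ r := by
        refine ih S y hyS hSmax ?_ ?_
        · intro a ha b hb d hd
          exact hno a (hSW ha) b (hSW hb) d (hSW hd)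
        · intro D hD
          have hnot : γ ∉ D := hD.notMem_of_free hSfree
          have := hR _ (RP.step (hD.mono hSW) hz hyz hnot)
          rw [Finset.card_insert_of_notMem hnot] at this
          omega
      have hcard : K.card + S.card = W.card := by
        rw [hK, hS]
        exact Finset.card_filter_add_card_filter_not _
      rw [pow_succ]
      omega

/-- The case `l = 2` of the Lefmann-Rödl-Thomas theorem. -/
theorem two_unanchored {c : ℕ → ℕ → ℕ} (r : ℕ) (W : Finset ℕ)
    (hno : ∀ a ∈ W, ∀ b ∈ W, ∀ d ∈ W, a < b → b < d → c a b ≠ c b d)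
    (hR : ∀ x D, RP c W x D → D.card ≤ r) : W.card ≤ 2 ^ r := by
  rcases W.eq_empty_or_nonempty with rfl | hne
  · simp
  · exact two_anchored r W (W.max' hne) (W.max'_mem hne) (fun v hv => W.le_max' v hv) hno
      (fun D hD => hR _ D hD)

/-- `v` lies on a monochromatic path with two edges of colour `γ` inside `V`. -/
def OnFlash (c : ℕ → ℕ → ℕ) (V : Finset ℕ) (γ v : ℕ) : Prop :=
  ∃ a ∈ V, ∃ b ∈ V, ∃ d ∈ V, a < b ∧ b < d ∧ c a b = γ ∧ c b d = γ ∧ (v = a ∨ v = b ∨ v = d)

/-- number of ordered pairs of distinct levels containing a given level -/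
theorem card_pairs {l t : ℕ} (ht : t < l) :
    ((Finset.range l ×ˢ Finset.range l).filter
      (fun p => p.1 ≠ p.2 ∧ (t = p.1 ∨ t = p.2))).card = 2 * (l - 1) := by
  classical
  have h : (Finset.range l ×ˢ Finset.range l).filter
      (fun p => p.1 ≠ p.2 ∧ (t = p.1 ∨ t = p.2)) =
      (({t} : Finset ℕ) ×ˢ ((Finset.range l).erase t)) ∪
      (((Finset.range l).erase t) ×ˢ ({t} : Finset ℕ)) := by
    ext ⟨i, j⟩
    simp only [Finset.mem_filter, Finset.mem_product, Finset.mem_range, Finset.mem_union,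
      Finset.mem_singleton, Finset.mem_erase]
    constructor
    · rintro ⟨⟨hi, hj⟩, hne, h | h⟩
      · left; exact ⟨h.symm, fun hh => hne (by rw [← h, hh]), hj⟩
      · right; exact ⟨⟨fun hh => hne (by rw [hh, ← h]), hi⟩, h.symm⟩
    · rintro (⟨h1, h2, h3⟩ | ⟨⟨h1, h2⟩, h3⟩)
      · subst h1; exact ⟨⟨ht, h3⟩, fun hh => h2 hh.symm, Or.inl rfl⟩
      · subst h3; exact ⟨⟨h2, ht⟩, h1, Or.inr rfl⟩
  rw [h, Finset.card_union_of_disjoint, Finset.card_product, Finset.card_product,
    Finset.card_singleton, Finset.card_erase_of_mem (Finset.mem_range.mpr ht), Finset.card_range]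
  · omega
  · rw [Finset.disjoint_left]
    rintro ⟨i, j⟩ h1 h2
    simp only [Finset.mem_product, Finset.mem_singleton, Finset.mem_erase] at h1 h2
    exact h2.1.1 h1.1

theorem card_pairs_all (l : ℕ) :
    ((Finset.range l ×ˢ Finset.range l).filter (fun p => p.1 ≠ p.2)).card = l * (l - 1) := by
  classical
  have : (Finset.range l ×ˢ Finset.range l).filter (fun p : ℕ × ℕ => p.1 ≠ p.2) =
      (Finset.range l).offDiag := by
    ext ⟨i, j⟩
    simp [Finset.mem_offDiag, and_assoc]
  rw [this, Finset.offDiag_card, Finset.card_range, Nat.mul_sub, Nat.mul_one]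

/-- The random selection of two levels per colour, derandomised. -/
theorem select {l : ℕ} (hl : 2 ≤ l) {lev : ℕ → ℕ → ℕ} (F : ℕ → ℕ → Prop)
    [∀ γ v, Decidable (F γ v)] (V : Finset ℕ)
    (hlt : ∀ γ, ∀ v ∈ V, lev γ v < l) (N : ℝ) (Γ : Finset ℕ) : ∀ T ⊆ V,
      (∀ T' ⊆ T, (∀ γ ∈ Γ, ∃ i j, ∀ v ∈ T', F γ v → lev γ v = i ∨ lev γ v = j) →
        (T'.card : ℝ) ≤ N) →
      ∑ v ∈ T, ((2 : ℝ) / l) ^ (Γ.filter (fun γ => F γ v)).card ≤ N := by
  classical
  induction Γ using Finset.induction_on with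
  | empty =>
    intro T _ h
    simpa using h T (Finset.Subset.refl _) (by simp)
  | @insert γ Γ hγ ih =>
    intro T hTV h
    have hl0 : (0 : ℝ) < l := by exact_mod_cast (by omega : 0 < l)
    have hl1 : (0 : ℝ) < (l : ℝ) - 1 := by
      have : (2 : ℝ) ≤ l := by exact_mod_cast hl
      linarith
    set w : ℕ → ℝ := fun v => ((2 : ℝ) / l) ^ (Γ.filter (fun γ => F γ v)).card with hw
    set Pr := (Finset.range l ×ˢ Finset.range l).filter (fun p : ℕ × ℕ => p.1 ≠ p.2) with hPr
    set Tp : ℕ × ℕ → Finset ℕ := fun p => T.filter (fun v => F γ v → lev γ v = p.1 ∨ lev γ v = p.2)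
      with hTp
    have hstep : ∀ p : ℕ × ℕ, ∑ v ∈ Tp p, w v ≤ N := by
      intro p
      refine ih (Tp p) ((Finset.filter_subset _ _).trans hTV) ?_
      intro T' hT' hT'2
      refine h T' (hT'.trans (Finset.filter_subset _ _)) ?_
      intro γ' hγ'
      rcases Finset.mem_insert.mp hγ' with rfl | hγ'
      · exact ⟨p.1, p.2, fun v hv => (Finset.mem_filter.mp (hT' hv)).2⟩
      · exact hT'2 γ' hγ'
    have hsum : ∑ p ∈ Pr, ∑ v ∈ Tp p, w v ≤ (l * (l - 1) : ℝ) * N := by
      calc ∑ p ∈ Pr, ∑ v ∈ Tp p, w v ≤ ∑ p ∈ Pr, N := Finset.sum_le_sum fun p _ => hstep p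
        _ = (l * (l - 1) : ℝ) * N := by
          rw [Finset.sum_const, hPr, card_pairs_all, nsmul_eq_mul]
          push_cast [Nat.cast_sub (by omega : 1 ≤ l)]
          ring
    have hswap : ∑ p ∈ Pr, ∑ v ∈ Tp p, w v =
        ∑ v ∈ T, ((Pr.filter (fun p => F γ v → lev γ v = p.1 ∨ lev γ v = p.2)).card : ℝ) * w v := by
      have h1 : ∀ p, ∑ v ∈ Tp p, w v =
          ∑ v ∈ T, if (F γ v → lev γ v = p.1 ∨ lev γ v = p.2) then w v else 0 := by
        intro p
        rw [hTp]
        exact Finset.sum_filter _ _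
      rw [Finset.sum_congr rfl (fun p _ => h1 p), Finset.sum_comm]
      refine Finset.sum_congr rfl fun v _ => ?_
      rw [← Finset.sum_filter, Finset.sum_const, nsmul_eq_mul]
    have hmult : ∀ v ∈ T,
        ((Pr.filter (fun p => F γ v → lev γ v = p.1 ∨ lev γ v = p.2)).card : ℝ) * w v =
        (l * (l - 1) : ℝ) * ((2 : ℝ) / l) ^ ((insert γ Γ).filter (fun γ => F γ v)).card := by
      intro v hv
      by_cases hF : F γ v
      · have hcard : (Pr.filter (fun p => F γ v → lev γ v = p.1 ∨ lev γ v = p.2)).card =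
            2 * (l - 1) := by
          rw [hPr, Finset.filter_filter]
          simp only [hF, true_imp_iff]
          exact card_pairs (hlt γ v (hTV hv))
        rw [hcard, Finset.filter_insert, if_pos hF, Finset.card_insert_of_notMem
          (fun hh => hγ (Finset.mem_of_mem_filter _ hh)), pow_succ, hw]
        push_cast [Nat.cast_sub (by omega : 1 ≤ l)]
        field_simp
      · have hcard : (Pr.filter (fun p => F γ v → lev γ v = p.1 ∨ lev γ v = p.2)).card =
            l * (l - 1) := by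
          rw [Finset.filter_true_of_mem (by intro p _ hh; exact absurd hh hF), hPr, card_pairs_all]
        rw [hcard, Finset.filter_insert, if_neg hF, hw]
        push_cast [Nat.cast_sub (by omega : 1 ≤ l)]
        ring
    rw [hswap, Finset.sum_congr rfl hmult, ← Finset.mul_sum] at hsum
    exact le_of_mul_le_mul_left hsum (mul_pos hl0 hl1)

/-- The flash-degree inequality for level functions. -/
theorem degree_core {c : ℕ → ℕ → ℕ} {V : Finset ℕ} {l r : ℕ} (hl : 2 ≤ l) {lev : ℕ → ℕ → ℕ}
    (hL : Lev c V l lev) (hR : ∀ x D, RP c V x D → D.card ≤ r) (Γ : Finset ℕ)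
    (hΓ : ∀ u ∈ V, ∀ v ∈ V, u < v → c u v ∈ Γ) [∀ γ v, Decidable (OnFlash c V γ v)] :
    ∑ v ∈ V, ((2 : ℝ) / l) ^ (Γ.filter (fun γ => OnFlash c V γ v)).card ≤ 2 ^ r := by
  refine select hl (OnFlash c V) V hL.lt _ Γ V (Finset.Subset.refl _) ?_
  intro T hTV hT
  have : T.card ≤ 2 ^ r := by
    refine two_unanchored r T ?_ (fun x D hD => hR x D (hD.mono hTV))
    intro a ha b hb d hd hab hbd heq
    obtain ⟨i, j, hij⟩ := hT (c a b) (hΓ a (hTV ha) b (hTV hb) hab)
    have haV := hTV ha
    have hbV := hTV hb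
    have hdV := hTV hd
    have h1 := hL.up a haV b hbV hab
    have h2 := hL.up b hbV d hdV hbd
    rw [← heq] at h2
    have fa := hij a ha ⟨a, haV, b, hbV, d, hdV, hab, hbd, rfl, heq.symm, Or.inl rfl⟩
    have fb := hij b hb ⟨a, haV, b, hbV, d, hdV, hab, hbd, rfl, heq.symm, Or.inr (Or.inl rfl)⟩
    have fd := hij d hd ⟨a, haV, b, hbV, d, hdV, hab, hbd, rfl, heq.symm, Or.inr (Or.inr rfl)⟩
    omega
  exact_mod_cast this

/-- The number of colours `γ` such that the vertex `v` lies on a monotone path with two edges, both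
of colour `γ`. -/
noncomputable def flashDegree {n : ℕ} (c : Fin n → Fin n → ℕ) (v : Fin n) : ℕ :=
  Set.ncard {γ : ℕ | ∃ a b d : Fin n, a < b ∧ b < d ∧ c a b = γ ∧ c b d = γ ∧
    (v = a ∨ v = b ∨ v = d)}

theorem degree_fin (l k n : ℕ) (hl : 2 ≤ l) (hk : 1 ≤ k) (c : Fin n → Fin n → ℕ)
    (hflash : ¬ ∃ x : Fin (l + 1) → Fin n, StrictMono x ∧
        ∃ col : ℕ, ∀ i : Fin l, c (x i.castSucc) (x i.succ) = col)
    (hrain : ¬ ∃ y : Fin (k + 1) → Fin n, StrictMono y ∧
        Function.Injective (fun i : Fin k => c (y i.castSucc) (y i.succ))) :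
    ∑ v : Fin n, ((2 : ℝ) / l) ^ flashDegree c v ≤ 2 ^ (k - 1) := by
  set C : ℕ → ℕ → ℕ := fun a b => if h : a < n ∧ b < n then c ⟨a, h.1⟩ ⟨b, h.2⟩ else 0 with hC
  have hCeq : ∀ (a b : ℕ) (ha : a < n) (hb : b < n), C a b = c ⟨a, ha⟩ ⟨b, hb⟩ := by
    intro a b ha hb
    rw [hC]
    simp only [ha, hb, and_self, dite_true]
  classical
  set V := Finset.range n with hV
  have hnoflash : ∀ γ v, ¬ MP C V γ v l := by
    intro γ v hmp
    obtain ⟨y, _, h1, h2, h3⟩ := hmp.toFun
    have h1' : ∀ i ≤ l, y i < n := fun i hi => Finset.mem_range.mp (h1 i hi)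
    apply hflash
    refine ⟨_, strictMono_of_lt_succ y h1' h2, γ, fun i => ?_⟩
    have := h3 i i.2
    rw [hCeq _ _ (h1' i (by omega)) (h1' (i + 1) (by omega))] at this
    simpa using this
  have hR : ∀ x D, RP C V x D → D.card ≤ k - 1 := by
    intro x D hD
    by_contra hlt
    obtain ⟨D', _, hcard, hD'⟩ := hD.suffix k (by omega)
    obtain ⟨y, _, h1, h2, _, h4⟩ := hD'.toFun
    rw [hcard] at h1 h2 h4
    have h1' : ∀ i ≤ k, y i < n := fun i hi => Finset.mem_range.mp (h1 i hi)
    apply hrain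
    refine ⟨_, strictMono_of_lt_succ y h1' h2, ?_⟩
    intro i j hij
    apply Fin.ext
    apply h4 i i.2 j j.2
    rw [hCeq _ _ (h1' i (by omega)) (h1' (i + 1) (by omega)),
      hCeq _ _ (h1' j (by omega)) (h1' (j + 1) (by omega))]
    simpa using hij
  set lev : ℕ → ℕ → ℕ := fun γ v => Nat.findGreatest (fun j => MP C V γ v j) l with hlev
  have hspec : ∀ γ, ∀ v ∈ V, MP C V γ v (lev γ v) := fun γ v hv =>
    Nat.findGreatest_spec (P := fun j => MP C V γ v j) (Nat.zero_le l) (MP.single hv)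
  have hlevlt : ∀ γ, ∀ v ∈ V, lev γ v < l := by
    intro γ v hv
    refine lt_of_le_of_ne (Nat.findGreatest_le _) ?_
    intro heq
    have := hspec γ v hv
    rw [heq] at this
    exact hnoflash γ v this
  have hL : Lev C V l lev := by
    refine ⟨hlevlt, ?_⟩
    intro u hu v hv huv
    have h1 := MP.step (hspec (C u v) u hu) hv huv rfl
    exact Nat.le_findGreatest (hlevlt (C u v) u hu) h1
  set Γ : Finset ℕ := (V ×ˢ V).image (fun p => C p.1 p.2) with hΓdef
  have hΓ : ∀ u ∈ V, ∀ v ∈ V, u < v → C u v ∈ Γ := by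
    intro u hu v hv _
    exact Finset.mem_image.mpr ⟨(u, v), Finset.mem_product.mpr ⟨hu, hv⟩, rfl⟩
  have hmain := degree_core hl hL hR Γ hΓ
  rw [hV, Finset.sum_range] at hmain
  refine le_trans (le_of_eq ?_) hmain
  refine Finset.sum_congr rfl fun v _ => ?_
  congr 1
  unfold flashDegree
  rw [← Set.ncard_coe_finset]
  congr 1
  ext γ
  simp only [Set.mem_setOf_eq, Finset.coe_filter]
  constructor
  · rintro ⟨a, b, d, hab, hbd, h1, h2, h3⟩
    have e1 : C a b = γ := by rw [hCeq a b a.2 b.2]; exact h1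
    have e2 : C b d = γ := by rw [hCeq b d b.2 d.2]; exact h2
    refine ⟨?_, a, Finset.mem_range.mpr a.2, b, Finset.mem_range.mpr b.2, d,
      Finset.mem_range.mpr d.2, hab, hbd, e1, e2, ?_⟩
    · rw [← e1]
      exact hΓ a (Finset.mem_range.mpr a.2) b (Finset.mem_range.mpr b.2) hab
    · rcases h3 with h | h | h
      · exact Or.inl (by rw [h])
      · exact Or.inr (Or.inl (by rw [h]))
      · exact Or.inr (Or.inr (by rw [h]))
  · rintro ⟨_, a, ha, b, hb, d, hd, hab, hbd, h1, h2, h3⟩
    have ha' := Finset.mem_range.mp ha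
    have hb' := Finset.mem_range.mp hb
    have hd' := Finset.mem_range.mp hd
    refine ⟨⟨a, ha'⟩, ⟨b, hb'⟩, ⟨d, hd'⟩, hab, hbd, ?_, ?_, ?_⟩
    · rw [← hCeq]; exact h1
    · rw [← hCeq]; exact h2
    · rcases h3 with h | h | h
      · exact Or.inl (Fin.ext h)
      · exact Or.inr (Or.inl (Fin.ext h))
      · exact Or.inr (Or.inr (Fin.ext h))

/-- The tangent line inequality for the powers of `x > 0`. -/
theorem tangent {x : ℝ} (hx : 0 < x) (d m : ℕ) :
    x ^ m * (1 + ((d : ℝ) - m) * Real.log x) ≤ x ^ d := by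
  have h1 : x ^ d = x ^ m * Real.exp (((d : ℝ) - m) * Real.log x) := by
    have h2 : Real.exp (((d : ℝ) - m) * Real.log x) = x ^ d / x ^ m := by
      rw [sub_mul, Real.exp_sub, mul_comm (d : ℝ), mul_comm (m : ℝ), ← Real.rpow_def_of_pos hx,
        ← Real.rpow_def_of_pos hx, Real.rpow_natCast, Real.rpow_natCast]
    rw [h2]
    field_simp
  rw [h1]
  refine mul_le_mul_of_nonneg_left ?_ (by positivity)
  linarith [Real.add_one_le_exp (((d : ℝ) - m) * Real.log x)]

theorem average_fin (l k n : ℕ) (hl : 2 ≤ l) (hk : 1 ≤ k) (c : Fin n → Fin n → ℕ)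
    (hflash : ¬ ∃ x : Fin (l + 1) → Fin n, StrictMono x ∧
        ∃ col : ℕ, ∀ i : Fin l, c (x i.castSucc) (x i.succ) = col)
    (hrain : ¬ ∃ y : Fin (k + 1) → Fin n, StrictMono y ∧
        Function.Injective (fun i : Fin k => c (y i.castSucc) (y i.succ)))
    (havg : ∑ v : Fin n, flashDegree c v ≤ (k - 1) * n) : n ≤ l ^ (k - 1) := by
  have h := degree_fin l k n hl hk c hflash hrain
  have hl0 : (0 : ℝ) < l := by exact_mod_cast (by omega : 0 < l)
  have hx : (0 : ℝ) < 2 / l := by positivity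
  have hx1 : (2 : ℝ) / l ≤ 1 := by
    rw [div_le_one hl0]
    exact_mod_cast hl
  have hlog : Real.log (2 / l) ≤ 0 := Real.log_nonpos hx.le hx1
  have h1 : ∑ v : Fin n, ((2 : ℝ) / l) ^ (k - 1) *
      (1 + ((flashDegree c v : ℝ) - ((k - 1 : ℕ) : ℝ)) * Real.log (2 / l)) ≤ 2 ^ (k - 1) :=
    le_trans (Finset.sum_le_sum fun v _ => tangent hx _ _) h
  rw [← Finset.mul_sum, Finset.sum_add_distrib, ← Finset.sum_mul, Finset.sum_sub_distrib] at h1
  simp only [Finset.sum_const, Finset.card_univ, Fintype.card_fin, nsmul_eq_mul, mul_one] at h1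
  have h2 : ((∑ v : Fin n, (flashDegree c v : ℝ)) - n * ((k - 1 : ℕ) : ℝ)) *
      Real.log (2 / l) ≥ 0 := by
    apply mul_nonneg_of_nonpos_of_nonpos _ hlog
    have : ((∑ v : Fin n, flashDegree c v : ℕ) : ℝ) ≤ (((k - 1) * n : ℕ) : ℝ) := by
      exact_mod_cast havg
    push_cast at this
    linarith
  have h3 : ((2 : ℝ) / l) ^ (k - 1) * n ≤ 2 ^ (k - 1) := by
    refine le_trans ?_ h1
    exact mul_le_mul_of_nonneg_left (by linarith) (by positivity)
  have h4 : (n : ℝ) ≤ (l : ℝ) ^ (k - 1) := by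
    rw [div_pow, div_mul_eq_mul_div, div_le_iff₀ (by positivity)] at h3
    have h5 : (0 : ℝ) < 2 ^ (k - 1) := by positivity
    exact le_of_mul_le_mul_left h3 h5
  exact_mod_cast h4

end FlashRainbow
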