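import Pool.Agent.Work.MP_54723a_co.OneColour

/-!
# Open flashes: the weighted inequality

An open flash of colour `γ` is a path `a < b < d` with `c a b = c b d = γ ≠ c a d`.
-/

set_option autoImplicit false

namespace FlashRainbow

/-- `v` lies on a monochromatic path `a < b < d` of colour `γ` inside `V` for which the colour of
the pair `a, d` is not `γ`. -/
def OnOpenFlash (c : ℕ → ℕ → ℕ) (V : Finset ℕ) (γ v : ℕ) : Prop :=
  ∃ a ∈ V, ∃ b ∈ V, ∃ d ∈ V, a < b ∧ b < d ∧ c a b = γ ∧ c b d = γ ∧ c a d ≠ γ ∧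
    (v = a ∨ v = b ∨ v = d)

/-- The weighted inequality for non-transitive flashes. -/
theorem open_core {c : ℕ → ℕ → ℕ} {V : Finset ℕ} {l r : ℕ} (hl : 2 ≤ l) {lev : ℕ → ℕ → ℕ}
    (hL : Lev c V l lev) (hMP : ∀ γ v, ¬ MP c V γ v l) (hR : ∀ x D, RP c V x D → D.card ≤ r)
    (γ₀ : ℕ) (Γ : Finset ℕ) (hΓ : ∀ u ∈ V, ∀ v ∈ V, u < v → c u v ∈ Γ)
    [∀ γ v, Decidable (γ ≠ γ₀ ∧ OnOpenFlash c V γ v)] :
    ∑ v ∈ V, ((2 : ℝ) / l) ^ (Γ.filter (fun γ => γ ≠ γ₀ ∧ OnOpenFlash c V γ v)).card ≤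
      (l : ℝ) ^ r := by
  refine select hl (fun γ v => γ ≠ γ₀ ∧ OnOpenFlash c V γ v) V hL.lt _ Γ V
    (Finset.Subset.refl _) ?_
  intro T hTV hT
  have : T.card ≤ l ^ r := by
    refine one_exception (c := c) (by omega) (fun γ v h => hMP γ v (h.mono hTV))
      (fun x D h => hR x D (h.mono hTV)) γ₀ ?_
    intro a ha b hb d hd hab hbd hne heq
    by_contra hbad
    obtain ⟨i, j, hij⟩ := hT (c a b) (hΓ a (hTV ha) b (hTV hb) hab)
    have haV := hTV ha
    have hbV := hTV hb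
    have hdV := hTV hd
    have h1 := hL.up a haV b hbV hab
    have h2 := hL.up b hbV d hdV hbd
    rw [heq] at h2
    have fa := hij a ha ⟨hne, a, haV, b, hbV, d, hdV, hab, hbd, rfl, heq, hbad, Or.inl rfl⟩
    have fb := hij b hb ⟨hne, a, haV, b, hbV, d, hdV, hab, hbd, rfl, heq, hbad,
      Or.inr (Or.inl rfl)⟩
    have fd := hij d hd ⟨hne, a, haV, b, hbV, d, hdV, hab, hbd, rfl, heq, hbad,
      Or.inr (Or.inr rfl)⟩
    omega
  exact_mod_cast this

/-- The number of colours `γ ≠ γ₀` such that the vertex `v` lies on a monotone path `a < b < d`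
with two edges of colour `γ` for which the pair `a, d` has a colour different from `γ`. -/
noncomputable def openDegree {n : ℕ} (c : Fin n → Fin n → ℕ) (γ₀ : ℕ) (v : Fin n) : ℕ :=
  Set.ncard {γ : ℕ | γ ≠ γ₀ ∧ ∃ a b d : Fin n, a < b ∧ b < d ∧ c a b = γ ∧ c b d = γ ∧
    c a d ≠ γ ∧ (v = a ∨ v = b ∨ v = d)}

theorem open_fin (l k n : ℕ) (hl : 2 ≤ l) (hk : 1 ≤ k) (c : Fin n → Fin n → ℕ) (γ₀ : ℕ)
    (hflash : ¬ ∃ x : Fin (l + 1) → Fin n, StrictMono x ∧
        ∃ col : ℕ, ∀ i : Fin l, c (x i.castSucc) (x i.succ) = col)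
    (hrain : ¬ ∃ y : Fin (k + 1) → Fin n, StrictMono y ∧
        Function.Injective (fun i : Fin k => c (y i.castSucc) (y i.succ))) :
    ∑ v : Fin n, ((2 : ℝ) / l) ^ openDegree c γ₀ v ≤ (l : ℝ) ^ (k - 1) := by
  set C : ℕ → ℕ → ℕ := fun a b => if h : a < n ∧ b < n then c ⟨a, h.1⟩ ⟨b, h.2⟩ else 0 with hC
  have hCeq : ∀ (a b : ℕ) (ha : a < n) (hb : b < n), C a b = c ⟨a, ha⟩ ⟨b, hb⟩ := by
    intro a b ha hb
    rw [hC]
    simp only [ha, hb, and_self, dite_true]
  classical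
  set V := Finset.range n with hV
  have hnoflash : ∀ γ v, ¬ MP C V γ v l := by
    intro γ v hmp
    obtain ⟨y, _, h1, h2, h3⟩ := hmp.toFun
    have h1' : ∀ i ≤ l, y i < n := fun i hi => Finset.mem_range.mp (h1 i hi)
    apply hflash
    refine ⟨_, strictMono_of_lt_succ y h1' h2, γ, fun i => ?_⟩
    have := h3 i i.2
    rw [hCeq _ _ (h1' i (by omega)) (h1' (i + 1) (by omega))] at this
    simpa using this
  have hR : ∀ x D, RP C V x D → D.card ≤ k - 1 := by
    intro x D hD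
    by_contra hlt
    obtain ⟨D', _, hcard, hD'⟩ := hD.suffix k (by omega)
    obtain ⟨y, _, h1, h2, _, h4⟩ := hD'.toFun
    rw [hcard] at h1 h2 h4
    have h1' : ∀ i ≤ k, y i < n := fun i hi => Finset.mem_range.mp (h1 i hi)
    apply hrain
    refine ⟨_, strictMono_of_lt_succ y h1' h2, ?_⟩
    intro i j hij
    apply Fin.ext
    apply h4 i i.2 j j.2
    rw [hCeq _ _ (h1' i (by omega)) (h1' (i + 1) (by omega)),
      hCeq _ _ (h1' j (by omega)) (h1' (j + 1) (by omega))]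
    simpa using hij
  set lev : ℕ → ℕ → ℕ := fun γ v => Nat.findGreatest (fun j => MP C V γ v j) l with hlev
  have hspec : ∀ γ, ∀ v ∈ V, MP C V γ v (lev γ v) := fun γ v hv =>
    Nat.findGreatest_spec (P := fun j => MP C V γ v j) (Nat.zero_le l) (MP.single hv)
  have hlevlt : ∀ γ, ∀ v ∈ V, lev γ v < l := by
    intro γ v hv
    refine lt_of_le_of_ne (Nat.findGreatest_le _) ?_
    intro heq
    have := hspec γ v hv
    rw [heq] at this
    exact hnoflash γ v this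
  have hL : Lev C V l lev := by
    refine ⟨hlevlt, ?_⟩
    intro u hu v hv huv
    have h1 := MP.step (hspec (C u v) u hu) hv huv rfl
    exact Nat.le_findGreatest (hlevlt (C u v) u hu) h1
  set Γ : Finset ℕ := (V ×ˢ V).image (fun p => C p.1 p.2) with hΓdef
  have hΓ : ∀ u ∈ V, ∀ v ∈ V, u < v → C u v ∈ Γ := by
    intro u hu v hv _
    exact Finset.mem_image.mpr ⟨(u, v), Finset.mem_product.mpr ⟨hu, hv⟩, rfl⟩
  have hmain := open_core hl hL hnoflash hR γ₀ Γ hΓ
  rw [hV, Finset.sum_range] at hmain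
  refine le_trans (le_of_eq ?_) hmain
  refine Finset.sum_congr rfl fun v _ => ?_
  congr 1
  unfold openDegree
  rw [← Set.ncard_coe_finset]
  congr 1
  ext γ
  simp only [Set.mem_ofPred_eq, Finset.coe_filter]
  constructor
  · rintro ⟨h0, a, b, d, hab, hbd, h1, h2, h4, h3⟩
    have e1 : C a b = γ := by rw [hCeq a b a.2 b.2]; exact h1
    have e2 : C b d = γ := by rw [hCeq b d b.2 d.2]; exact h2
    have e3 : C a d ≠ γ := by rw [hCeq a d a.2 d.2]; exact h4
    refine ⟨?_, h0, a, Finset.mem_range.mpr a.2, b, Finset.mem_range.mpr b.2, d,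
      Finset.mem_range.mpr d.2, hab, hbd, e1, e2, e3, ?_⟩
    · rw [← e1]
      exact hΓ a (Finset.mem_range.mpr a.2) b (Finset.mem_range.mpr b.2) hab
    · rcases h3 with h | h | h
      · exact Or.inl (by rw [h])
      · exact Or.inr (Or.inl (by rw [h]))
      · exact Or.inr (Or.inr (by rw [h]))
  · rintro ⟨_, h0, a, ha, b, hb, d, hd, hab, hbd, h1, h2, h4, h3⟩
    have ha' := Finset.mem_range.mp ha
    have hb' := Finset.mem_range.mp hb
    have hd' := Finset.mem_range.mp hd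
    refine ⟨h0, ⟨a, ha'⟩, ⟨b, hb'⟩, ⟨d, hd'⟩, hab, hbd, ?_, ?_, ?_, ?_⟩
    · rw [← hCeq]; exact h1
    · rw [← hCeq]; exact h2
    · rw [← hCeq]; exact h4
    · rcases h3 with h | h | h
      · exact Or.inl (Fin.ext h)
      · exact Or.inr (Or.inl (Fin.ext h))
      · exact Or.inr (Or.inr (Fin.ext h))

end FlashRainbow
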