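import Mathlib.Data.Finset.Card
import Mathlib.Data.Finset.Prod
import Mathlib.Data.Finset.Sort
import Mathlib.Data.Nat.Find
import Mathlib.Algebra.BigOperators.Group.Finset.Basic
import Mathlib.Algebra.Order.BigOperators.Group.Finset
import Mathlib.Combinatorics.Pigeonhole
import Mathlib.Tactic

/-!
# Rainbow monotone paths: basic lemmas
-/

set_option autoImplicit false

namespace FlashRainbow

/-- `RP c V x D`: there is a rainbow monotone path inside `V` which ends at `x` and whose set of
colours is `D` (so it has `D.card` edges). -/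
inductive RP (c : ℕ → ℕ → ℕ) (V : Finset ℕ) : ℕ → Finset ℕ → Prop
  | single {x : ℕ} : x ∈ V → RP c V x ∅
  | step {x y : ℕ} {D : Finset ℕ} : RP c V x D → y ∈ V → x < y → c x y ∉ D →
      RP c V y (insert (c x y) D)

variable {c : ℕ → ℕ → ℕ} {V T : Finset ℕ} {x y : ℕ} {D : Finset ℕ}

theorem RP.mem (h : RP c V x D) : x ∈ V := by
  cases h with
  | single hx => exact hx
  | step _ hy _ _ => exact hy

theorem RP.mono (h : RP c T x D) (hTV : T ⊆ V) : RP c V x D := by
  induction h with
  | single hx => exact RP.single (hTV hx)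
  | step _ hy hlt hc ih => exact RP.step ih (hTV hy) hlt hc

/-- suffixes of rainbow paths -/
theorem RP.suffix (h : RP c V x D) : ∀ t ≤ D.card, ∃ D' ⊆ D, D'.card = t ∧ RP c V x D' := by
  induction h with
  | single hx =>
    intro t ht
    refine ⟨∅, Finset.empty_subset _, ?_, RP.single hx⟩
    simp at ht ⊢
    exact ht.symm
  | @step x y D h hy hlt hc ih =>
    intro t ht
    rcases t with _ | t
    · exact ⟨∅, Finset.empty_subset _, rfl, RP.single hy⟩
    · rw [Finset.card_insert_of_notMem hc] at ht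
      obtain ⟨D', hD', hcard, hRP⟩ := ih t (by omega)
      have hc' : c x y ∉ D' := fun h' => hc (hD' h')
      refine ⟨insert (c x y) D', Finset.insert_subset_insert _ hD', ?_, RP.step hRP hy hlt hc'⟩
      rw [Finset.card_insert_of_notMem hc', hcard]

/-- colours that do not occur in `T` do not occur on paths in `T` -/
theorem RP.notMem_of_free {γ : ℕ} (h : RP c T x D)
    (hfree : ∀ u ∈ T, ∀ v ∈ T, u < v → c u v ≠ γ) : γ ∉ D := by
  induction h with
  | single _ => simp
  | @step x y D h hy hlt hc ih =>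
    rw [Finset.mem_insert, not_or]
    exact ⟨fun h' => hfree x h.mem y hy hlt h'.symm, ih⟩

/-- Prefixing: if every vertex of `T` is the end of a rainbow path in `V` with colour set `E`, and `T`
is free of the colours in `E`, then rainbow paths in `T` can be prolonged by `E`. -/
theorem RP.prepend {E : Finset ℕ} (h : RP c T x D) (hTV : T ⊆ V)
    (hreach : ∀ v ∈ T, RP c V v E)
    (hfree : ∀ γ ∈ E, ∀ u ∈ T, ∀ v ∈ T, u < v → c u v ≠ γ) :
    RP c V x (D ∪ E) := by
  induction h with
  | @single x hx => simpa using hreach x hx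
  | @step x y D h hy hlt hc ih =>
    rw [Finset.insert_union]
    refine RP.step ih (hTV hy) hlt ?_
    rw [Finset.mem_union, not_or]
    exact ⟨hc, fun hE => hfree _ hE x h.mem y hy hlt rfl⟩

/-- level functions: `lev γ v` -/
structure Lev (c : ℕ → ℕ → ℕ) (V : Finset ℕ) (l : ℕ) (lev : ℕ → ℕ → ℕ) : Prop where
  lt : ∀ γ, ∀ v ∈ V, lev γ v < l
  up : ∀ u ∈ V, ∀ v ∈ V, u < v → lev (c u v) u < lev (c u v) v

theorem Lev.free {l : ℕ} {lev : ℕ → ℕ → ℕ} (hL : Lev c V l lev) (hTV : T ⊆ V) {γ : ℕ}
    (hconst : ∀ u ∈ T, ∀ v ∈ T, lev γ u = lev γ v) :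
    ∀ u ∈ T, ∀ v ∈ T, u < v → c u v ≠ γ := by
  intro u hu v hv huv hc
  have := hL.up u (hTV hu) v (hTV hv) huv
  rw [hc, hconst u hu v hv] at this
  exact lt_irrefl _ this

/-- splitting a set by the level vectors of the colours in `D` -/
theorem card_le_of_levels {l : ℕ} {lev : ℕ → ℕ → ℕ} (hlt : ∀ γ, ∀ v ∈ V, lev γ v < l) (N : ℕ)
    (D : Finset ℕ) : ∀ T ⊆ V,
      (∀ T' ⊆ T, (∀ γ ∈ D, ∀ u ∈ T', ∀ v ∈ T', lev γ u = lev γ v) → T'.card ≤ N) →
      T.card ≤ l ^ D.card * N := by
  induction D using Finset.induction_on with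
  | empty =>
    intro T _ h
    simpa using h T (Finset.Subset.refl _) (by simp)
  | @insert γ D hγ ih =>
    intro T hTV h
    rw [Finset.card_insert_of_notMem hγ]
    have hmaps : ∀ v ∈ T, lev γ v ∈ Finset.range l := fun v hv => by
      rw [Finset.mem_range]; exact hlt γ v (hTV hv)
    rw [Finset.card_eq_sum_card_fiberwise hmaps]
    calc ∑ b ∈ Finset.range l, (T.filter fun v => lev γ v = b).card
        ≤ ∑ b ∈ Finset.range l, l ^ D.card * N := by
          refine Finset.sum_le_sum fun b _ => ?_
          refine ih _ ((Finset.filter_subset _ _).trans hTV) ?_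
          intro T' hT' hconst
          refine h T' (hT'.trans (Finset.filter_subset _ _)) ?_
          intro γ' hγ' u hu v hv
          rcases Finset.mem_insert.mp hγ' with rfl | hγ'
          · have h1 := (Finset.mem_filter.mp (hT' hu)).2
            have h2 := (Finset.mem_filter.mp (hT' hv)).2
            rw [h1, h2]
          · exact hconst γ' hγ' u hu v hv
      _ = l ^ (D.card + 1) * N := by
          rw [Finset.sum_const, Finset.card_range, smul_eq_mul, pow_succ]
          ring

/-- The progress lemma: the colour class at the end of a rainbow path of a colour not on the path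
is small. -/
theorem card_class_le {l R N : ℕ} {lev : ℕ → ℕ → ℕ} (hL : Lev c V l lev)
    (hR : ∀ x D, RP c V x D → D.card ≤ R) {j : ℕ}
    (hN : ∀ T ⊆ V, (∀ y D', RP c T y D' → D'.card ≤ R - j - 1) → T.card ≤ N)
    (hP : RP c V x D) (hj : D.card = j) {γ : ℕ} (hγ : γ ∉ D) (hTV : T ⊆ V)
    (hT : ∀ v ∈ T, x < v ∧ c x v = γ) : T.card ≤ l ^ (j + 1) * N := by
  classical
  have hcard : (insert γ D).card = j + 1 := by rw [Finset.card_insert_of_notMem hγ, hj]
  rw [← hcard]
  refine card_le_of_levels hL.lt N (insert γ D) T hTV ?_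
  intro T' hT' hconst
  refine hN T' (hT'.trans hTV) ?_
  intro y D' hD'
  have hfree : ∀ γ' ∈ insert γ D, ∀ u ∈ T', ∀ v ∈ T', u < v → c u v ≠ γ' := by
    intro γ' hγ'
    exact hL.free (hT'.trans hTV) (hconst γ' hγ')
  have hreach : ∀ v ∈ T', RP c V v (insert γ D) := by
    intro v hv
    obtain ⟨hlt, hc⟩ := hT v (hT' hv)
    have := RP.step hP (hTV (hT' hv)) hlt (by rw [hc]; exact hγ)
    rwa [hc] at this
  have hbig := hD'.prepend (hT'.trans hTV) hreach hfree
  have hdisj : Disjoint D' (insert γ D) := by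
    rw [Finset.disjoint_right]
    intro γ' hγ'
    exact hD'.notMem_of_free (hfree γ' hγ')
  have := hR _ _ hbig
  rw [Finset.card_union_of_disjoint hdisj, hcard] at this
  omega

end FlashRainbow
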