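import Pool.Agent.Work.MP_54723a_co.Degree

/-!
# The sublinear bound: extension of paths, coloured sets, extraction, propagation (helper87)

Source: note 5845 of helper57.
-/

set_option autoImplicit false

namespace FlashRainbow

open Classical

variable {c : ℕ → ℕ → ℕ} {V T Q₀ : Finset ℕ} {l R t P ρ : ℕ} {lev : ℕ → ℕ → ℕ}

/-- all rainbow paths in `T` have at most `r` edges -/
def Rk (c : ℕ → ℕ → ℕ) (T : Finset ℕ) (r : ℕ) : Prop := ∀ y D, RP c T y D → D.card ≤ r

/-- all edges of `T` have colours in `Θ` -/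
def Col (c : ℕ → ℕ → ℕ) (T Θ : Finset ℕ) : Prop := ∀ u ∈ T, ∀ v ∈ T, u < v → c u v ∈ Θ

theorem Lev.mono (hL : Lev c V l lev) (hTV : T ⊆ V) : Lev c T l lev :=
  ⟨fun γ v hv => hL.lt γ v (hTV hv), fun u hu v hv => hL.up u (hTV hu) v (hTV hv)⟩

/-- putting varying paths in front -/
theorem RP.prepend' {Θ D : Finset ℕ} {x e : ℕ} (h : RP c T x D) (hTV : T ⊆ V)
    (hreach : ∀ v ∈ T, ∃ E ⊆ Θ, e ≤ E.card ∧ RP c V v E) :
    Disjoint D Θ → ∃ E ⊆ Θ, e ≤ E.card ∧ RP c V x (D ∪ E) := by
  induction h with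
  | @single x hx =>
    intro _
    obtain ⟨E, h1, h2, h3⟩ := hreach x hx
    exact ⟨E, h1, h2, by simpa using h3⟩
  | @step x y D h hy hlt hc ih =>
    intro hdis
    rw [Finset.disjoint_insert_left] at hdis
    obtain ⟨E, h1, h2, h3⟩ := ih hdis.2
    refine ⟨E, h1, h2, ?_⟩
    rw [Finset.insert_union]
    refine RP.step h3 (hTV hy) hlt ?_
    rw [Finset.mem_union, not_or]
    exact ⟨hc, fun hE => hdis.1 (h1 hE)⟩

theorem card_add_le {Θ D : Finset ℕ} {x e : ℕ} (hR : Rk c V R) (h : RP c T x D) (hTV : T ⊆ V)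
    (hreach : ∀ v ∈ T, ∃ E ⊆ Θ, e ≤ E.card ∧ RP c V v E) (hdis : Disjoint D Θ) :
    D.card + e ≤ R := by
  obtain ⟨E, h1, h2, h3⟩ := h.prepend' hTV hreach hdis
  have h4 := hR _ _ h3
  rw [Finset.card_union_of_disjoint (hdis.mono_right h1)] at h4
  omega

/-- rainbow paths with a given start -/
inductive RS (c : ℕ → ℕ → ℕ) (V : Finset ℕ) : ℕ → Finset ℕ → Prop
  | single {x : ℕ} : x ∈ V → RS c V x ∅
  | step {x y : ℕ} {D : Finset ℕ} : RS c V y D → x ∈ V → x < y → c x y ∉ D →
      RS c V x (insert (c x y) D)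

theorem RS.mem {D : Finset ℕ} {x : ℕ} (h : RS c V x D) : x ∈ V := by
  cases h with
  | single hx => exact hx
  | step _ hx _ _ => exact hx

/-- joining a path which ends at `x` and a path which starts at `x` -/
theorem RS.join {D : Finset ℕ} {x : ℕ} (h : RS c T x D) (hTV : T ⊆ V) :
    ∀ E, RP c V x E → Disjoint D E → ∃ y, RP c V y (E ∪ D) := by
  induction h with
  | @single x hx =>
    intro E hE _
    exact ⟨x, by simpa using hE⟩
  | @step x y D h hx hlt hc ih =>
    intro E hE hdis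
    rw [Finset.disjoint_insert_left] at hdis
    have h1 := RP.step hE (hTV h.mem) hlt hdis.1
    obtain ⟨z, hz⟩ := ih _ h1 (by
      rw [Finset.disjoint_insert_right]
      exact ⟨hc, hdis.2⟩)
    refine ⟨z, ?_⟩
    rw [Finset.insert_union] at hz
    rw [Finset.union_insert]
    exact hz

/-- A set all of whose edges have colours in `Θ` is small if its rainbow paths are short. -/
theorem card_coloured_le {Θ : Finset ℕ} {r : ℕ} (hl : 2 ≤ l) (hL : Lev c T l lev)
    (hΘ : Col c T Θ) (hr : Rk c T r) : T.card * 2 ^ Θ.card ≤ 2 ^ r * l ^ Θ.card := by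
  have h := degree_core hl hL hr Θ hΘ
  have hl0 : (0 : ℝ) < l := by exact_mod_cast (by omega : 0 < l)
  have hx : (0 : ℝ) < 2 / l := by positivity
  have hx1 : (2 : ℝ) / l ≤ 1 := by
    rw [div_le_one hl0]
    exact_mod_cast hl
  have h1 : (T.card : ℝ) * ((2 : ℝ) / l) ^ Θ.card ≤ 2 ^ r := by
    refine le_trans ?_ h
    rw [← nsmul_eq_mul, ← Finset.sum_const]
    refine Finset.sum_le_sum fun v _ => ?_
    exact pow_le_pow_of_le_one hx.le hx1 (Finset.card_filter_le _ _)
  have h2 : (T.card : ℝ) * 2 ^ Θ.card ≤ 2 ^ r * (l : ℝ) ^ Θ.card := by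
    rw [div_pow, ← mul_div_assoc, div_le_iff₀ (by positivity)] at h1
    exact h1
  exact_mod_cast h2

/-- at least two ordered pairs of distinct levels have smaller element `t` -/
theorem two_le_card_pairs {l t : ℕ} (ht : t + 1 < l) :
    2 ≤ ((Finset.range l ×ˢ Finset.range l).filter
      (fun p => p.1 ≠ p.2 ∧ ((t = p.1 ∨ t = p.2) ∧ t = min p.1 p.2))).card := by
  have h1 : ({(t, l - 1), (l - 1, t)} : Finset (ℕ × ℕ)) ⊆ (Finset.range l ×ˢ Finset.range l).filter
      (fun p => p.1 ≠ p.2 ∧ ((t = p.1 ∨ t = p.2) ∧ t = min p.1 p.2)) := by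
    intro p hp
    rw [Finset.mem_insert, Finset.mem_singleton] at hp
    rcases hp with rfl | rfl
    · simp only [Finset.mem_filter, Finset.mem_product, Finset.mem_range]
      exact ⟨⟨by omega, by omega⟩, by omega, Or.inl trivial, (Nat.min_eq_left (by omega)).symm⟩
    · simp only [Finset.mem_filter, Finset.mem_product, Finset.mem_range]
      exact ⟨⟨by omega, by omega⟩, by omega, Or.inr trivial, (Nat.min_eq_right (by omega)).symm⟩
  refine le_trans (le_of_eq ?_) (Finset.card_le_card h1)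
  rw [Finset.card_pair]
  intro h
  rw [Prod.mk.injEq] at h
  omega

/-- random selection of two levels per colour with an anchor, derandomised -/
theorem select_anch (hl : 2 ≤ l) (h : ℕ → ℕ) (V : Finset ℕ)
    (hlt : ∀ γ, ∀ v ∈ V, lev γ v < l) (hh : ∀ v ∈ V, lev (h v) v + 1 < l) (N : ℝ)
    (Γ : Finset ℕ) : ∀ T ⊆ V,
      (∀ T' ⊆ T, (∀ γ ∈ Γ, ∃ i j, ∀ v ∈ T', (lev γ v = i ∨ lev γ v = j) ∧
        (h v = γ → lev γ v = min i j)) → (T'.card : ℝ) ≤ N) →
      ∑ v ∈ T, ((2 : ℝ) / l) ^ Γ.card * ((1 : ℝ) / l) ^ (Γ.filter (fun γ => h v = γ)).card ≤ N := by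
  induction Γ using Finset.induction_on with
  | empty =>
    intro T _ h
    simpa using h T (Finset.Subset.refl _) (by simp)
  | @insert γ Γ hγ ih =>
    intro T hTV hT
    have hl0 : (0 : ℝ) < l := by exact_mod_cast (by omega : 0 < l)
    have hl1 : (0 : ℝ) < (l : ℝ) - 1 := by
      have : (2 : ℝ) ≤ l := by exact_mod_cast hl
      linarith
    set w : ℕ → ℝ := fun v => ((2 : ℝ) / l) ^ Γ.card *
      ((1 : ℝ) / l) ^ (Γ.filter (fun γ => h v = γ)).card with hw
    have hw0 : ∀ v, 0 ≤ w v := fun v => by positivity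
    set Pr := (Finset.range l ×ˢ Finset.range l).filter (fun p : ℕ × ℕ => p.1 ≠ p.2) with hPr
    set Tp : ℕ × ℕ → Finset ℕ := fun p => T.filter (fun v => (lev γ v = p.1 ∨ lev γ v = p.2) ∧
      (h v = γ → lev γ v = min p.1 p.2)) with hTp
    have hstep : ∀ p : ℕ × ℕ, ∑ v ∈ Tp p, w v ≤ N := by
      intro p
      refine ih (Tp p) ((Finset.filter_subset _ _).trans hTV) ?_
      intro T' hT' hT'2
      refine hT T' (hT'.trans (Finset.filter_subset _ _)) ?_
      intro γ' hγ'
      rcases Finset.mem_insert.mp hγ' with rfl | hγ'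
      · exact ⟨p.1, p.2, fun v hv => (Finset.mem_filter.mp (hT' hv)).2⟩
      · exact hT'2 γ' hγ'
    have hsum : ∑ p ∈ Pr, ∑ v ∈ Tp p, w v ≤ (l * (l - 1) : ℝ) * N := by
      calc ∑ p ∈ Pr, ∑ v ∈ Tp p, w v ≤ ∑ p ∈ Pr, N := Finset.sum_le_sum fun p _ => hstep p
        _ = (l * (l - 1) : ℝ) * N := by
          rw [Finset.sum_const, hPr, card_pairs_all, nsmul_eq_mul]
          push_cast [Nat.cast_sub (by omega : 1 ≤ l)]
          ring
    have hswap : ∑ p ∈ Pr, ∑ v ∈ Tp p, w v =
        ∑ v ∈ T, ((Pr.filter (fun p => (lev γ v = p.1 ∨ lev γ v = p.2) ∧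
          (h v = γ → lev γ v = min p.1 p.2))).card : ℝ) * w v := by
      have h1 : ∀ p, ∑ v ∈ Tp p, w v =
          ∑ v ∈ T, if ((lev γ v = p.1 ∨ lev γ v = p.2) ∧
            (h v = γ → lev γ v = min p.1 p.2)) then w v else 0 := by
        intro p
        rw [hTp]
        exact Finset.sum_filter _ _
      rw [Finset.sum_congr rfl (fun p _ => h1 p), Finset.sum_comm]
      refine Finset.sum_congr rfl fun v _ => ?_
      rw [← Finset.sum_filter, Finset.sum_const, nsmul_eq_mul]
    have hmult : ∀ v ∈ T, (l * (l - 1) : ℝ) * (((2 : ℝ) / l) ^ (insert γ Γ).card *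
        ((1 : ℝ) / l) ^ ((insert γ Γ).filter (fun γ => h v = γ)).card) ≤
        ((Pr.filter (fun p => (lev γ v = p.1 ∨ lev γ v = p.2) ∧
          (h v = γ → lev γ v = min p.1 p.2))).card : ℝ) * w v := by
      intro v hv
      rw [Finset.card_insert_of_notMem hγ, Finset.filter_insert]
      by_cases hF : h v = γ
      · rw [if_pos hF, Finset.card_insert_of_notMem
          (fun hm => hγ (Finset.mem_of_mem_filter _ hm))]
        have hcard : 2 ≤ (Pr.filter (fun p => (lev γ v = p.1 ∨ lev γ v = p.2) ∧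
            (h v = γ → lev γ v = min p.1 p.2))).card := by
          have h2 := two_le_card_pairs (t := lev γ v) (hF ▸ hh v (hTV hv))
          rw [hPr, Finset.filter_filter]
          simp only [hF, true_imp_iff]
          exact h2
        have hc2 : (2 : ℝ) ≤ ((Pr.filter (fun p => (lev γ v = p.1 ∨ lev γ v = p.2) ∧
            (h v = γ → lev γ v = min p.1 p.2))).card : ℝ) := by exact_mod_cast hcard
        refine le_trans ?_ (mul_le_mul_of_nonneg_right hc2 (hw0 v))
        have e : (l * (l - 1) : ℝ) * (((2 : ℝ) / l) ^ (Γ.card + 1) *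
            ((1 : ℝ) / l) ^ ((Γ.filter (fun γ => h v = γ)).card + 1)) =
            (2 * ((l - 1) / l)) * w v := by
          rw [hw, pow_succ, pow_succ]
          field_simp
        rw [e]
        refine mul_le_mul_of_nonneg_right ?_ (hw0 v)
        have : ((l : ℝ) - 1) / l ≤ 1 := by
          rw [div_le_one hl0]; linarith
        linarith
      · rw [if_neg hF]
        have hcard : (Pr.filter (fun p => (lev γ v = p.1 ∨ lev γ v = p.2) ∧
            (h v = γ → lev γ v = min p.1 p.2))).card = 2 * (l - 1) := by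
          rw [hPr, Finset.filter_filter]
          simp only [hF, false_imp_iff, and_true]
          exact card_pairs (hlt γ v (hTV hv))
        rw [hcard, hw]
        push_cast [Nat.cast_sub (by omega : 1 ≤ l)]
        rw [pow_succ]
        refine le_of_eq ?_
        field_simp
    have h3 : (l * (l - 1) : ℝ) * ∑ v ∈ T, (((2 : ℝ) / l) ^ (insert γ Γ).card *
        ((1 : ℝ) / l) ^ ((insert γ Γ).filter (fun γ => h v = γ)).card) ≤ (l * (l - 1) : ℝ) * N := by
      rw [Finset.mul_sum]
      refine (Finset.sum_le_sum hmult).trans ?_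
      rw [← hswap]
      exact hsum
    exact le_of_mul_le_mul_left h3 (mul_pos hl0 hl1)

/-- ANCHORED count: a set `Q` with colours in `Θ`, anchored at a later vertex `w` at which all rainbow
paths in `Q ∪ {w}` are short. -/
theorem card_anchored_le (hl : 2 ≤ l) (hL : Lev c V l lev) {Q Θ : Finset ℕ} {w r : ℕ}
    (hQV : Q ⊆ V) (hwV : w ∈ V) (hQw : ∀ v ∈ Q, v < w) (hΘ : Col c Q Θ)
    (hr : ∀ D, RP c (insert w Q) w D → D.card ≤ r) :
    Q.card * 2 ^ Θ.card ≤ 2 ^ r * l ^ (Θ.card + 1) := by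
  have hlt := hL.lt
  have hsel := select_anch hl (fun v => c v w) Q (fun γ v hv => hL.lt γ v (hQV hv))
    (fun v hv => by
      have h1 := hL.up v (hQV hv) w hwV (hQw v hv)
      have h2 := hL.lt (c v w) w hwV
      omega) ((2 : ℝ) ^ r) Θ Q (Finset.Subset.refl _) (by
      intro T' hT' hT'2
      have hT'V := hT'.trans hQV
      have h1 : (insert w T').card ≤ 2 ^ r := by
        refine two_anchored (c := c) r (insert w T') w (Finset.mem_insert_self _ _) ?_ ?_ ?_
        · intro v hv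
          rcases Finset.mem_insert.mp hv with rfl | hv
          · exact le_rfl
          · exact (hQw v (hT' hv)).le
        · intro a ha b hb d hd hab hbd heq
          have hdw : d ≤ w := by
            rcases Finset.mem_insert.mp hd with rfl | hd
            · exact le_rfl
            · exact (hQw d (hT' hd)).le
          have ha' : a ∈ T' := by
            rcases Finset.mem_insert.mp ha with rfl | ha
            · omega
            · exact ha
          have hb' : b ∈ T' := by
            rcases Finset.mem_insert.mp hb with rfl | hb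
            · omega
            · exact hb
          obtain ⟨i, j, hij⟩ := hT'2 (c a b) (hΘ a (hT' ha') b (hT' hb') hab)
          have g1 := hL.up a (hT'V ha') b (hT'V hb') hab
          obtain ⟨g2, -⟩ := hij a ha'
          obtain ⟨g3, g4⟩ := hij b hb'
          rcases Finset.mem_insert.mp hd with rfl | hd'
          · have g5 := g4 heq.symm
            omega
          · have g6 := hL.up b (hT'V hb') d (hT'V hd') hbd
            rw [← heq] at g6
            obtain ⟨g7, -⟩ := hij d hd'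
            omega
        · intro D hD
          exact hr D (hD.mono (Finset.insert_subset_insert _ hT'))
      have h2 : T'.card ≤ 2 ^ r := (Finset.card_le_card (Finset.subset_insert _ _)).trans h1
      exact_mod_cast h2)
  have hl0 : (0 : ℝ) < l := by exact_mod_cast (by omega : 0 < l)
  have hl1 : (1 : ℝ) / l ≤ 1 := by
    rw [div_le_one hl0]
    exact_mod_cast (by omega : 1 ≤ l)
  have h1 : (Q.card : ℝ) * (((2 : ℝ) / l) ^ Θ.card * (1 / l)) ≤ 2 ^ r := by
    refine le_trans ?_ hsel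
    rw [← nsmul_eq_mul, ← Finset.sum_const]
    refine Finset.sum_le_sum fun v _ => ?_
    refine mul_le_mul_of_nonneg_left ?_ (by positivity)
    have hc : (Θ.filter fun γ => c v w = γ).card ≤ 1 := by
      rw [Finset.card_le_one]
      intro a ha b hb
      exact (Finset.mem_filter.mp ha).2.symm.trans (Finset.mem_filter.mp hb).2
    calc (1 : ℝ) / l = (1 / l) ^ 1 := (pow_one _).symm
      _ ≤ (1 / l) ^ (Θ.filter fun γ => c v w = γ).card :=
          pow_le_pow_of_le_one (by positivity) hl1 hc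
  have h2 : (Q.card : ℝ) * 2 ^ Θ.card ≤ 2 ^ r * (l : ℝ) ^ (Θ.card + 1) := by
    have h3 := mul_le_mul_of_nonneg_right h1 (show (0 : ℝ) ≤ (l : ℝ) ^ (Θ.card + 1) by positivity)
    refine le_trans (le_of_eq ?_) h3
    rw [div_pow, pow_succ]
    field_simp
  exact_mod_cast h2

/-- random selection of one level per colour, derandomised -/
theorem select_one (hl : 1 ≤ l) (F : ℕ → ℕ → Prop) (V : Finset ℕ)
    (hlt : ∀ γ, ∀ v ∈ V, lev γ v < l) (N : ℝ) (Γ : Finset ℕ) : ∀ T ⊆ V,
      (∀ T' ⊆ T, (∀ γ ∈ Γ, ∃ i, ∀ v ∈ T', F γ v → lev γ v = i) → (T'.card : ℝ) ≤ N) →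
      ∑ v ∈ T, ((1 : ℝ) / l) ^ (Γ.filter (fun γ => F γ v)).card ≤ N := by
  induction Γ using Finset.induction_on with
  | empty =>
    intro T _ h
    simpa using h T (Finset.Subset.refl _) (by simp)
  | @insert γ Γ hγ ih =>
    intro T hTV h
    have hl0 : (0 : ℝ) < l := by exact_mod_cast (by omega : 0 < l)
    set w : ℕ → ℝ := fun v => ((1 : ℝ) / l) ^ (Γ.filter (fun γ => F γ v)).card with hw
    set Tp : ℕ → Finset ℕ := fun p => T.filter (fun v => F γ v → lev γ v = p) with hTp
    have hstep : ∀ p : ℕ, ∑ v ∈ Tp p, w v ≤ N := by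
      intro p
      refine ih (Tp p) ((Finset.filter_subset _ _).trans hTV) ?_
      intro T' hT' hT'2
      refine h T' (hT'.trans (Finset.filter_subset _ _)) ?_
      intro γ' hγ'
      rcases Finset.mem_insert.mp hγ' with rfl | hγ'
      · exact ⟨p, fun v hv => (Finset.mem_filter.mp (hT' hv)).2⟩
      · exact hT'2 γ' hγ'
    have hsum : ∑ p ∈ Finset.range l, ∑ v ∈ Tp p, w v ≤ (l : ℝ) * N := by
      calc ∑ p ∈ Finset.range l, ∑ v ∈ Tp p, w v ≤ ∑ p ∈ Finset.range l, N :=
            Finset.sum_le_sum fun p _ => hstep p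
        _ = (l : ℝ) * N := by
          rw [Finset.sum_const, Finset.card_range, nsmul_eq_mul]
    have hswap : ∑ p ∈ Finset.range l, ∑ v ∈ Tp p, w v =
        ∑ v ∈ T, (((Finset.range l).filter (fun p => F γ v → lev γ v = p)).card : ℝ) * w v := by
      have h1 : ∀ p, ∑ v ∈ Tp p, w v = ∑ v ∈ T, if (F γ v → lev γ v = p) then w v else 0 := by
        intro p
        rw [hTp]
        exact Finset.sum_filter _ _
      rw [Finset.sum_congr rfl (fun p _ => h1 p), Finset.sum_comm]
      refine Finset.sum_congr rfl fun v _ => ?_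
      rw [← Finset.sum_filter, Finset.sum_const, nsmul_eq_mul]
    have hmult : ∀ v ∈ T,
        (((Finset.range l).filter (fun p => F γ v → lev γ v = p)).card : ℝ) * w v =
        (l : ℝ) * ((1 : ℝ) / l) ^ ((insert γ Γ).filter (fun γ => F γ v)).card := by
      intro v hv
      by_cases hF : F γ v
      · have hcard : ((Finset.range l).filter (fun p => F γ v → lev γ v = p)).card = 1 := by
          simp only [hF, true_imp_iff]
          rw [Finset.card_eq_one]
          refine ⟨lev γ v, ?_⟩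
          ext p
          rw [Finset.mem_filter, Finset.mem_range, Finset.mem_singleton]
          constructor
          · rintro ⟨_, h2⟩; exact h2.symm
          · rintro rfl; exact ⟨hlt γ v (hTV hv), rfl⟩
        rw [hcard, Finset.filter_insert, if_pos hF, Finset.card_insert_of_notMem
          (fun hh => hγ (Finset.mem_of_mem_filter _ hh)), pow_succ, hw]
        field_simp
        push_cast
        ring
      · have hcard : ((Finset.range l).filter (fun p => F γ v → lev γ v = p)).card = l := by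
          rw [Finset.filter_true_of_mem (by intro p _ hh; exact absurd hh hF), Finset.card_range]
        rw [hcard, Finset.filter_insert, if_neg hF, hw]
    rw [hswap, Finset.sum_congr rfl hmult, ← Finset.mul_sum] at hsum
    exact le_of_mul_le_mul_left hsum hl0

/-- a large fibre -/
theorem exists_big_fiber {κ : Type*} [DecidableEq κ] (s : Finset ℕ) (f : ℕ → κ) (Y : Finset κ) (hY : Y.Nonempty)
    (hf : ∀ a ∈ s, f a ∈ Y) : ∃ y ∈ Y, s.card ≤ Y.card * (s.filter fun a => f a = y).card := by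
  by_contra hcon
  push Not at hcon
  have h1 := Finset.card_eq_sum_card_fiberwise (f := f) (s := s) (t := Y) hf
  have h2 : ∑ y ∈ Y, Y.card * (s.filter fun a => f a = y).card < ∑ y ∈ Y, s.card :=
    Finset.sum_lt_sum_of_nonempty hY hcon
  rw [← Finset.mul_sum, ← h1, Finset.sum_const, smul_eq_mul] at h2
  exact lt_irrefl _ h2

/-- EXTRACTION of a set all of whose edges have colours in `Θ`. -/
theorem extraction (hl : 2 ≤ l) (hL : Lev c V l lev) (hR : Rk c V R) {Θ : Finset ℕ}
    (hΘ : Θ.card + t = R) (hQ : Q₀ ⊆ V) (hF : ∀ v ∈ Q₀, RP c V v Θ) :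
    ∃ Q' ⊆ Q₀, Col c Q' Θ ∧ Q₀.card ≤ (t + 1) ^ 2 * l ^ (2 * t) * Q'.card := by
  -- longest paths with colours outside of `Θ`
  set pa : ℕ → ℕ → Prop := fun v j => ∃ D, RP c Q₀ v D ∧ Disjoint D Θ ∧ D.card = j with hpa
  set pb : ℕ → ℕ → Prop := fun v j => ∃ D, RS c Q₀ v D ∧ Disjoint D Θ ∧ D.card = j with hpb
  have hpat : ∀ v j, pa v j → j ≤ t := by
    rintro v j ⟨D, h1, h2, rfl⟩
    have := card_add_le (Θ := Θ) (e := Θ.card) hR h1 hQ
      (fun v hv => ⟨Θ, Finset.Subset.refl _, le_rfl, hF v hv⟩) h2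
    omega
  have hpbt : ∀ v j, pb v j → j ≤ t := by
    rintro v j ⟨D, h1, h2, rfl⟩
    obtain ⟨y, hy⟩ := h1.join hQ Θ (hF v h1.mem) h2
    have := hR _ _ hy
    rw [Finset.card_union_of_disjoint h2.symm] at this
    omega
  have hpa0 : ∀ v ∈ Q₀, pa v 0 := fun v hv =>
    ⟨∅, RP.single hv, Finset.disjoint_empty_left _, rfl⟩
  have hpb0 : ∀ v ∈ Q₀, pb v 0 := fun v hv =>
    ⟨∅, RS.single hv, Finset.disjoint_empty_left _, rfl⟩
  set fa : ℕ → ℕ := fun v => Nat.findGreatest (pa v) t with hfa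
  set fb : ℕ → ℕ := fun v => Nat.findGreatest (pb v) t with hfb
  have ha : ∀ v ∈ Q₀, pa v (fa v) := fun v hv => Nat.findGreatest_spec (Nat.zero_le _) (hpa0 v hv)
  have hb : ∀ v ∈ Q₀, pb v (fb v) := fun v hv => Nat.findGreatest_spec (Nat.zero_le _) (hpb0 v hv)
  have ha' : ∀ v ∈ Q₀, ∃ D, RP c Q₀ v D ∧ Disjoint D Θ ∧ D.card = fa v := ha
  have hb' : ∀ v ∈ Q₀, ∃ D, RS c Q₀ v D ∧ Disjoint D Θ ∧ D.card = fb v := hb
  choose! E hE using ha'
  choose! E' hE' using hb'
  -- a large class
  obtain ⟨y, -, hy⟩ := exists_big_fiber Q₀ (fun v => (fa v, fb v))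
    (Finset.range (t + 1) ×ˢ Finset.range (t + 1)) ⟨(0, 0), by simp⟩ (by
      intro v _
      rw [Finset.mem_product, Finset.mem_range, Finset.mem_range]
      exact ⟨Nat.lt_succ_of_le (Nat.findGreatest_le _), Nat.lt_succ_of_le (Nat.findGreatest_le _)⟩)
  rw [Finset.card_product, Finset.card_range] at hy
  set Q₁ := Q₀.filter fun v => (fa v, fb v) = y with hQ₁
  have hQ₁Q : Q₁ ⊆ Q₀ := Finset.filter_subset _ _
  have hsame : ∀ u ∈ Q₁, ∀ v ∈ Q₁, fa u = fa v ∧ fb u = fb v := by
    intro u hu v hv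
    have h1 := (Finset.mem_filter.mp hu).2
    have h2 := (Finset.mem_filter.mp hv).2
    rw [← h2, Prod.mk.injEq] at h1
    exact h1
  set A : ℕ → Finset ℕ := fun v => E v ∪ E' v with hA
  have hAcard : ∀ v ∈ Q₀, (A v).card ≤ 2 * t := by
    intro v hv
    have h1 := (hE v hv).2.2
    have h2 := (hE' v hv).2.2
    have h3 : fa v ≤ t := Nat.findGreatest_le _
    have h4 : fb v ≤ t := Nat.findGreatest_le _
    have h5 := Finset.card_union_le (E v) (E' v)
    simp only [hA]
    omega
  have hmemA : ∀ u ∈ Q₁, ∀ v ∈ Q₁, u < v → c u v ∉ Θ → c u v ∈ A u ∧ c u v ∈ A v := by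
    intro u hu v hv huv hcΘ
    obtain ⟨hfa', hfb'⟩ := hsame u hu v hv
    constructor
    · refine Finset.mem_union_left _ ?_
      by_contra hnot
      obtain ⟨h1, h2, h3⟩ := hE u (hQ₁Q hu)
      have h4 := RP.step h1 (hQ₁Q hv) huv hnot
      have h5 : pa v (fa u + 1) := by
        refine ⟨_, h4, ?_, ?_⟩
        · rw [Finset.disjoint_insert_left]; exact ⟨hcΘ, h2⟩
        · rw [Finset.card_insert_of_notMem hnot, h3]
      have h6 := Nat.le_findGreatest (hpat _ _ h5) h5
      have h7 : fa u + 1 ≤ fa v := h6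
      omega
    · refine Finset.mem_union_right _ ?_
      by_contra hnot
      obtain ⟨h1, h2, h3⟩ := hE' v (hQ₁Q hv)
      have h4 := RS.step h1 (hQ₁Q hu) huv hnot
      have h5 : pb u (fb v + 1) := by
        refine ⟨_, h4, ?_, ?_⟩
        · rw [Finset.disjoint_insert_left]; exact ⟨hcΘ, h2⟩
        · rw [Finset.card_insert_of_notMem hnot, h3]
      have h6 := Nat.le_findGreatest (hpbt _ _ h5) h5
      have h7 : fb v + 1 ≤ fb u := h6
      omega
  -- selection
  by_contra hcon
  push Not at hcon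
  have hl0 : (0 : ℝ) < l := by exact_mod_cast (by omega : 0 < l)
  have hl1 : (1 : ℝ) / l ≤ 1 := by
    rw [div_le_one hl0]
    exact_mod_cast (by omega : 1 ≤ l)
  set N : ℝ := ((Q₀.card : ℝ) - 1) / (((t + 1) ^ 2 * l ^ (2 * t) : ℕ) : ℝ) with hN
  have hpos : (0 : ℝ) < (((t + 1) ^ 2 * l ^ (2 * t) : ℕ) : ℝ) := by
    have : 0 < (t + 1) ^ 2 * l ^ (2 * t) := by positivity
    exact_mod_cast this
  have hsel := select_one (l := l) (by omega) (fun γ v => γ ∈ A v) Q₁
    (fun γ v hv => hL.lt γ v (hQ (hQ₁Q hv))) N (Q₁.biUnion A) Q₁ (Finset.Subset.refl _) (by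
      intro T' hT' hT'2
      have hcol : Col c T' Θ := by
        intro u hu v hv huv
        by_contra hnot
        obtain ⟨h1, h2⟩ := hmemA u (hT' hu) v (hT' hv) huv hnot
        obtain ⟨i, hi⟩ := hT'2 (c u v) (Finset.mem_biUnion.mpr ⟨u, hT' hu, h1⟩)
        have h3 := hL.up u (hQ (hQ₁Q (hT' hu))) v (hQ (hQ₁Q (hT' hv))) huv
        rw [hi u hu h1, hi v hv h2] at h3
        exact lt_irrefl _ h3
      have h1 := hcon T' (hT'.trans hQ₁Q) hcol
      rw [hN, le_div_iff₀ hpos]
      have h2 : T'.card * ((t + 1) ^ 2 * l ^ (2 * t)) + 1 ≤ Q₀.card := by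
        rw [Nat.mul_comm]; exact h1
      have h3 : ((T'.card * ((t + 1) ^ 2 * l ^ (2 * t)) + 1 : ℕ) : ℝ) ≤ (Q₀.card : ℝ) := by
        exact_mod_cast h2
      push_cast at h3 ⊢
      linarith)
  have h1 : (Q₁.card : ℝ) * ((1 : ℝ) / l) ^ (2 * t) ≤ N := by
    refine le_trans ?_ hsel
    rw [← nsmul_eq_mul, ← Finset.sum_const]
    refine Finset.sum_le_sum fun v hv => ?_
    refine pow_le_pow_of_le_one (by positivity) hl1 ?_
    refine le_trans (Finset.card_le_card ?_) (hAcard v (hQ₁Q hv))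
    intro γ hγ
    simp only [Finset.mem_filter] at hγ
    exact hγ.2
  rw [hN, le_div_iff₀ hpos] at h1
  have h2 : (Q₁.card : ℝ) * ((1 : ℝ) / l) ^ (2 * t) * (((t + 1) ^ 2 * l ^ (2 * t) : ℕ) : ℝ) =
      (Q₁.card : ℝ) * ((t : ℝ) + 1) ^ 2 := by
    push_cast
    rw [div_pow, one_pow]
    field_simp
  rw [h2] at h1
  have h3 : ((Q₀.card : ℕ) : ℝ) ≤ ((Q₁.card * (t + 1) ^ 2 : ℕ) : ℝ) := by
    have : Q₀.card ≤ Q₁.card * (t + 1) ^ 2 := by
      calc Q₀.card ≤ (t + 1) * (t + 1) * Q₁.card := hy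
        _ = Q₁.card * (t + 1) ^ 2 := by ring
    exact_mod_cast this
  push_cast at h3
  linarith

end FlashRainbow
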