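import Pool.Agent.Work.MP_54723a_co.PowLevel
import Pool.Agent.Work.MP_54723a_co.LemmaS

/-!
# The sublinear bound: the end of the second round (helper87)
-/

set_option autoImplicit false

namespace FlashRainbow

open Classical

variable {c : ℕ → ℕ → ℕ} {V Bs T Q₀ B : Finset ℕ} {l R t P ρ : ℕ} {lev : ℕ → ℕ → ℕ}

/-- paths with colours outside of the palette are short -/
theorem card_le_b (hR : Rk c V R) {Θ₀ : Finset ℕ} {b : ℕ} (hTV : T ⊆ V)
    (hT : ∀ w ∈ T, ∃ D ⊆ Θ₀, RP c V w D ∧ R ≤ D.card + b) {x : ℕ} {D : Finset ℕ}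
    (hD : RP c T x D) (hdis : Disjoint D Θ₀) : D.card ≤ b := by
  rcases Nat.lt_or_ge R b with h | h
  · have := hR _ _ (hD.mono hTV)
    omega
  · have := card_add_le (Θ := Θ₀) (e := R - b) hR hD hTV (by
      intro v hv
      obtain ⟨E, h1, h2, h3⟩ := hT v hv
      exact ⟨E, h1, by omega, h2⟩) hdis
    omega

/-- the length of a path in terms of the number of its palette colours -/
theorem card_le_segments (hR : Rk c V R) {Θ₀ : Finset ℕ} {b : ℕ} (hTV : T ⊆ V)
    (hT : ∀ w ∈ T, ∃ D ⊆ Θ₀, RP c V w D ∧ R ≤ D.card + b) {x : ℕ} {D : Finset ℕ}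
    (hD : RP c T x D) : D.card ≤ (D ∩ Θ₀).card * (b + 1) + b := by
  have key : ∃ E ⊆ D, RP c T x E ∧ Disjoint E Θ₀ ∧
      D.card ≤ (D ∩ Θ₀).card * (b + 1) + E.card := by
    induction hD with
    | @single x hx =>
      exact ⟨∅, Finset.Subset.refl _, RP.single hx, Finset.disjoint_empty_left _, by simp⟩
    | @step x y D h hy hlt hc ih =>
      obtain ⟨E, h1, h2, h3, h4⟩ := ih
      have hE : E.card ≤ b := card_le_b hR hTV hT h2 h3
      by_cases hγ : c x y ∈ Θ₀
      · refine ⟨∅, Finset.empty_subset _, RP.single hy, Finset.disjoint_empty_left _, ?_⟩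
        have h5 : (insert (c x y) D ∩ Θ₀) = insert (c x y) (D ∩ Θ₀) := by
          rw [Finset.insert_inter_of_mem hγ]
        have h6 : c x y ∉ D ∩ Θ₀ := fun h => hc (Finset.mem_inter.mp h).1
        rw [h5, Finset.card_insert_of_notMem h6, Finset.card_insert_of_notMem hc,
          Finset.card_empty]
        have h7 : ((D ∩ Θ₀).card + 1) * (b + 1) = (D ∩ Θ₀).card * (b + 1) + (b + 1) := by ring
        omega
      · have hcE : c x y ∉ E := fun h => hc (h1 h)
        refine ⟨insert (c x y) E, Finset.insert_subset_insert _ h1, RP.step h2 hy hlt hcE, ?_, ?_⟩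
        · rw [Finset.disjoint_insert_left]
          exact ⟨hγ, h3⟩
        · have h5 : (insert (c x y) D ∩ Θ₀) = D ∩ Θ₀ := by
            rw [Finset.insert_inter_of_notMem hγ]
          rw [h5, Finset.card_insert_of_notMem hc, Finset.card_insert_of_notMem hcE]
          omega
  obtain ⟨E, -, h2, h3, h4⟩ := key
  have := card_le_b hR hTV hT h2 h3
  omega

/-- the number of colours of `Θ` outside of the palette -/
theorem card_sdiff_le (hl : 2 ≤ l) (hL : Lev c V l lev) (hR : Rk c V R) {Θ₀ Θ Q : Finset ℕ}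
    {b i : ℕ} (hQV : Q ⊆ V) (hcol : Col c Q Θ)
    (hQ : ∀ w ∈ Q, ∃ D ⊆ Θ₀, RP c V w D ∧ R ≤ D.card + b)
    (hbig : l ^ (Θ.card + 1) < Q.card * 2 ^ (i + 1)) : (Θ \ Θ₀).card ≤ b + i := by
  set e := (Θ \ Θ₀).card with he
  have hsplit : (Θ ∩ Θ₀).card + e = Θ.card := by
    rw [he]; exact Finset.card_inter_add_card_sdiff _ _
  have h1 : Q.card ≤ l ^ (Θ ∩ Θ₀).card * (2 ^ b * l ^ e / 2 ^ e) := by
    refine card_le_of_levels hL.lt _ (Θ ∩ Θ₀) Q hQV ?_
    intro T' hT' hconst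
    rw [Nat.le_div_iff_mul_le (by positivity)]
    have hT'V := hT'.trans hQV
    have hfree : ∀ γ ∈ Θ ∩ Θ₀, ∀ u ∈ T', ∀ v ∈ T', u < v → c u v ≠ γ := fun γ hγ =>
      hL.free hT'V (hconst γ hγ)
    have hcol' : Col c T' (Θ \ Θ₀) := by
      intro u hu v hv huv
      have h2 := hcol u (hT' hu) v (hT' hv) huv
      rw [Finset.mem_sdiff]
      refine ⟨h2, fun h3 => ?_⟩
      exact hfree _ (Finset.mem_inter.mpr ⟨h2, h3⟩) u hu v hv huv rfl
    refine card_coloured_le hl (hL.mono hT'V) hcol' ?_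
    intro y D hD
    refine card_le_b hR hT'V (fun w hw => hQ w (hT' hw)) hD ?_
    rw [Finset.disjoint_left]
    intro γ hγ hγ0
    have hsub : ∀ D x, RP c T' x D → D ⊆ Θ := by
      intro D x h
      induction h with
      | single _ => exact Finset.empty_subset _
      | step h hy hlt hc ih =>
        intro γ hγ
        rcases Finset.mem_insert.mp hγ with rfl | hγ
        · exact hcol _ (hT' h.mem) _ (hT' hy) hlt
        · exact ih hγ
    have h2 := hsub D y hD hγ
    exact hD.notMem_of_free (hfree γ (Finset.mem_inter.mpr ⟨h2, hγ0⟩)) hγ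
  have h2 : Q.card * 2 ^ e ≤ 2 ^ b * l ^ Θ.card := by
    calc Q.card * 2 ^ e ≤ (l ^ (Θ ∩ Θ₀).card * (2 ^ b * l ^ e / 2 ^ e)) * 2 ^ e :=
          Nat.mul_le_mul_right _ h1
      _ = l ^ (Θ ∩ Θ₀).card * ((2 ^ b * l ^ e / 2 ^ e) * 2 ^ e) := by ring
      _ ≤ l ^ (Θ ∩ Θ₀).card * (2 ^ b * l ^ e) := Nat.mul_le_mul_left _ (Nat.div_mul_le_self _ _)
      _ = 2 ^ b * l ^ Θ.card := by
          rw [← hsplit, pow_add]; ring
  by_contra hlt
  push Not at hlt
  have h3 : 2 ^ (b + (i + 1)) ≤ 2 ^ e := Nat.pow_le_pow_right (by norm_num) (by omega)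
  have h4 : Q.card * 2 ^ (b + (i + 1)) ≤ 2 ^ b * l ^ Θ.card :=
    (Nat.mul_le_mul_left _ h3).trans h2
  rw [pow_add] at h4
  have h5 : 2 ^ b * (Q.card * 2 ^ (i + 1)) ≤ 2 ^ b * l ^ Θ.card := by
    calc 2 ^ b * (Q.card * 2 ^ (i + 1)) = Q.card * (2 ^ b * 2 ^ (i + 1)) := by ring
      _ ≤ 2 ^ b * l ^ Θ.card := h4
  have h6 : Q.card * 2 ^ (i + 1) ≤ l ^ Θ.card := Nat.le_of_mul_le_mul_left h5 (by positivity)
  have h7 : l ^ Θ.card ≤ l ^ (Θ.card + 1) := Nat.pow_le_pow_right (by omega) (by omega)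
  omega

/-- THE END OF THE SECOND ROUND -/
theorem endgame (hl : 2 ≤ l) (hL : Lev c V l lev) (hR : Rk c V R) (hP : PB c V l P ρ)
    {Θ₀ Θ : Finset ℕ} {b i : ℕ} (hΘ₀ : Θ₀.card ≤ R) (hBsV : Bs ⊆ V)
    (hBs : ∀ w ∈ Bs, ∃ D ⊆ Θ₀, RP c V w D ∧ R ≤ D.card + b)
    (hΘ : Θ.card + t = R) (hQ : Q₀ ⊆ Bs) (hF : ∀ v ∈ Q₀, RP c V v Θ) (hB : B ⊆ Bs)
    (hQB : ∀ v ∈ Q₀, ∀ w ∈ B, v < w)
    (hnum : (t + 1) ^ 2 * l ^ (R + t + 1) < Q₀.card * 2 ^ (i + 1)) (hρ : t + i ≤ ρ) :
    B.card ≤ P * l ^ (R + i) +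
      l ^ (R - t) * (((t + b + i + 1) * (b + 1) + 3) ^ 4 * l * (P * l ^ (t + i) + 1)) := by
  have hQV : Q₀ ⊆ V := hQ.trans hBsV
  have hBV : B ⊆ V := hB.trans hBsV
  obtain ⟨Q', hQ'Q, hcol, hcard⟩ := extraction hl hL hR hΘ hQV hF
  have hQ'V : Q' ⊆ V := hQ'Q.trans hQV
  have hbig : l ^ (Θ.card + 1) < Q'.card * 2 ^ (i + 1) := by
    by_contra hle
    push Not at hle
    have : Q₀.card * 2 ^ (i + 1) ≤ (t + 1) ^ 2 * l ^ (R + t + 1) := by
      calc Q₀.card * 2 ^ (i + 1)
          ≤ ((t + 1) ^ 2 * l ^ (2 * t) * Q'.card) * 2 ^ (i + 1) := Nat.mul_le_mul_right _ hcard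
        _ = (t + 1) ^ 2 * l ^ (2 * t) * (Q'.card * 2 ^ (i + 1)) := by ring
        _ ≤ (t + 1) ^ 2 * l ^ (2 * t) * l ^ (Θ.card + 1) := Nat.mul_le_mul_left _ hle
        _ = (t + 1) ^ 2 * (l ^ (2 * t) * l ^ (Θ.card + 1)) := by ring
        _ = (t + 1) ^ 2 * l ^ (R + t + 1) := by
            rw [← pow_add]; congr 2; omega
    omega
  have hsd : (Θ \ Θ₀).card ≤ b + i :=
    card_sdiff_le hl hL hR hQ'V hcol (fun w hw => hBs w (hQ (hQ'Q hw))) hbig
  have hcolsub : ∀ D v, RP c Q' v D → D ⊆ Θ := by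
    intro D v h
    induction h with
    | single _ => exact Finset.empty_subset _
    | step h hy hlt hc ih =>
      intro γ hγ
      rcases Finset.mem_insert.mp hγ with rfl | hγ
      · exact hcol _ h.mem _ hy hlt
      · exact ih hγ
  -- paths in `insert w Q'` which do not use `w` as last vertex
  have hins : ∀ w ∈ B, ∀ D v, RP c (insert w Q') v D → v ≠ w → RP c Q' v D := by
    intro w hw D v h
    induction h with
    | @single x hx =>
      intro hne
      exact RP.single ((Finset.mem_insert.mp hx).resolve_left hne)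
    | @step x y D h hy hlt hc ih =>
      intro hne
      have hy' := (Finset.mem_insert.mp hy).resolve_left hne
      have hxw : x ≠ w := by
        rintro rfl
        exact lt_asymm hlt (hQB y (hQ'Q hy') _ hw)
      exact RP.step (ih hxw) hy' hlt hc
  have hkey : ∀ w ∈ B, (∃ D ⊆ Θ, RP c V w D ∧ R ≤ D.card + t + i) ∨
      ∃ h D, h ∉ Θ ∧ D ⊆ Θ ∧ RP c V w (insert h D) ∧ R ≤ D.card + 1 + t + i := by
    intro w hw
    have hwV := hBV hw
    obtain ⟨D, hD, hDle⟩ : ∃ D, RP c (insert w Q') w D ∧ R ≤ D.card + t + i := by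
      by_contra hcon
      push Not at hcon
      have h0 := hcon ∅ (RP.single (Finset.mem_insert_self _ _))
      rw [Finset.card_empty] at h0
      have h5 := card_anchored_le hl hL (r := R - t - i - 1) hQ'V hwV
        (fun v hv => hQB v (hQ'Q hv) w hw) hcol
        (fun D hD => by have := hcon D hD; omega)
      have h6 : 2 ^ Θ.card = 2 ^ (R - t - i - 1) * 2 ^ (i + 1) := by
        rw [← pow_add]; congr 1; omega
      rw [h6] at h5
      have hpos : 0 < 2 ^ (R - t - i - 1) := by positivity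
      have h7 : Q'.card * 2 ^ (i + 1) ≤ l ^ (Θ.card + 1) := by
        refine Nat.le_of_mul_le_mul_left ?_ hpos
        calc 2 ^ (R - t - i - 1) * (Q'.card * 2 ^ (i + 1))
            = Q'.card * (2 ^ (R - t - i - 1) * 2 ^ (i + 1)) := by ring
          _ ≤ 2 ^ (R - t - i - 1) * l ^ (Θ.card + 1) := h5
      omega
    have hDV := hD.mono (Finset.insert_subset hwV hQ'V)
    cases hD with
    | single _ =>
      left
      exact ⟨∅, Finset.empty_subset _, hDV, hDle⟩
    | @step x y D' h hy hlt hc =>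
      have hx : x ≠ w := hlt.ne
      have h1 := hins w hw D' x h hx
      have h2 := hcolsub D' x h1
      rw [Finset.card_insert_of_notMem hc] at hDle
      by_cases hγ : c x w ∈ Θ
      · left
        refine ⟨insert (c x w) D', ?_, hDV, ?_⟩
        · exact Finset.insert_subset hγ h2
        · rw [Finset.card_insert_of_notMem hc]; exact hDle
      · right
        exact ⟨c x w, D', hγ, h2, hDV, hDle⟩
  -- the two parts of `B`
  set B₁ := B.filter fun w => ∃ D ⊆ Θ, RP c V w D ∧ R ≤ D.card + t + i with hB₁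
  set B₂ := B.filter fun w => ¬ ∃ D ⊆ Θ, RP c V w D ∧ R ≤ D.card + t + i with hB₂
  have hsum : B₁.card + B₂.card = B.card := Finset.card_filter_add_card_filter_not _
  have hc1 : B₁.card ≤ P * l ^ (R + i) :=
    (Finset.card_le_card (Finset.filter_subset_filter _ hBV)).trans
      (final_count (by omega) hL hR hP hΘ hρ)
  have hc2 : B₂.card ≤ l ^ Θ.card *
      (((t + b + i + 1) * (b + 1) + 3) ^ 4 * l * (P * l ^ (t + i) + 1)) := by
    have hB₂B : B₂ ⊆ B := Finset.filter_subset _ _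
    refine card_le_of_levels hL.lt _ Θ B₂ (hB₂B.trans hBV) ?_
    intro T' hT' hconst
    have hT'B := hT'.trans hB₂B
    have hT'V := hT'B.trans hBV
    have hfree : ∀ γ ∈ Θ, ∀ u ∈ T', ∀ v ∈ T', u < v → c u v ≠ γ := fun γ hγ =>
      hL.free hT'V (hconst γ hγ)
    have hh : ∀ w ∈ T', ∃ h D, h ∉ Θ ∧ D ⊆ Θ ∧ RP c V w (insert h D) ∧
        R ≤ D.card + 1 + t + i := fun w hw =>
      (hkey w (hT'B hw)).resolve_left (Finset.mem_filter.mp (hT' hw)).2
    choose! h D hhΘ hDΘ hRP hle using hh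
    refine lemmaS (by omega) (hL.mono hT'V) (r := (t + b + i + 1) * (b + 1)) (t := t + i) ?_ h ?_ ?_
    · -- the rank
      intro y E hE
      have h1 := card_le_segments hR hT'V (fun w hw => hBs w (hB (hT'B hw))) hE
      have h2 : (E ∩ Θ₀).card ≤ t + b + i := by
        have h3 : E ∩ Θ₀ ⊆ Θ₀ \ Θ := by
          intro γ hγ
          obtain ⟨h4, h5⟩ := Finset.mem_inter.mp hγ
          rw [Finset.mem_sdiff]
          refine ⟨h5, fun h6 => ?_⟩
          exact hE.notMem_of_free (hfree γ h6) h4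
        have h4 := Finset.card_le_card h3
        have h5 : (Θ₀ ∩ Θ).card + (Θ₀ \ Θ).card = Θ₀.card := Finset.card_inter_add_card_sdiff _ _
        have h6 : (Θ ∩ Θ₀).card + (Θ \ Θ₀).card = Θ.card := Finset.card_inter_add_card_sdiff _ _
        rw [Finset.inter_comm] at h5
        omega
      have h3 : (E ∩ Θ₀).card * (b + 1) ≤ (t + b + i) * (b + 1) := Nat.mul_le_mul_right _ h2
      have h4 : (t + b + i + 1) * (b + 1) = (t + b + i) * (b + 1) + (b + 1) := by ring
      omega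
    · intro w hw Y hY hnot
      have hdisY : ∀ γ ∈ Θ, γ ∉ Y := by
        intro γ hγ
        exact hY.notMem_of_free (hfree γ hγ)
      have hdis : Disjoint Y (insert (h w) (D w)) := by
        rw [Finset.disjoint_insert_right]
        refine ⟨hnot, ?_⟩
        rw [Finset.disjoint_right]
        intro γ hγ
        exact hdisY γ (hDΘ w hw hγ)
      obtain ⟨z, hz⟩ := hY.join hT'V _ (hRP w hw) hdis
      have h1 := hR _ _ hz
      rw [Finset.card_union_of_disjoint hdis.symm, Finset.card_insert_of_notMem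
        (fun h2 => hhΘ w hw (hDΘ w hw h2))] at h1
      have h2 := hle w hw
      omega
    · intro T'' hT'' hrk
      exact hP T'' (hT''.trans hT'V) _ hρ hrk
  have hm : Θ.card = R - t := by omega
  rw [hm] at hc2
  omega

end FlashRainbow
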