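import Pool.Agent.Work.MP_54723a_co.PowParams2
import Mathlib

/-!
# Numerics of the sublinear bound (helper87)
-/

set_option autoImplicit false

namespace FlashRainbow

/-- a quotient of a number which is not too small -/
theorem le_two_mul_div {m n : ℕ} (hm : 0 < m) (h : m ≤ n) : n ≤ 2 * m * (n / m) := by
  have h1 : n < m * (n / m + 1) := Nat.lt_mul_div_succ n hm
  have h2 : 1 ≤ n / m := (Nat.one_le_div_iff hm).mpr h
  nlinarith

theorem num_core (l K R n L i z : ℕ) (hl : 2 ≤ l) (hK : 1 ≤ K)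
    (hz : z = (10 * l + 40) * (L + 1)) (hq1 : R + 2 ≤ 2 ^ L) (hq2 : 2 ^ L ≤ 4 * R)
    (hc : 2 ^ 20 * K * l ^ 2 * z ^ 15 ≤ R) (hi : i ≤ L + 1)
    (hL1 : 1 ≤ L) (hn : l ^ R ≤ n)
    (hX2 : 2 ^ 10 * K * l * z ^ 8 * l ^ R ≤ n)
    (hX4 : 2 ^ 21 * l * z ^ 8 * (R * l ^ R) < n * 2 ^ (i + 1))
    (hX5 : 2 ^ 14 * K * l * z ^ 15 * (l ^ i * l ^ R) < n) :
    Nonempty (PowParams2 l R n (K * (4 * L + i + 1) ^ 5) (4 * L + i)) := by
  set q := 2 ^ L with hq
  have hz1 : 1 ≤ z := by rw [hz]; nlinarith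
  have hpoly : ∀ a b c : ℕ, a ≤ 2 ^ 20 → b ≤ 2 → c ≤ 15 → a * l ^ b * z ^ c ≤ R := by
    intro a b c ha hb hc'
    refine le_trans ?_ hc
    refine Nat.mul_le_mul ?_ (Nat.pow_le_pow_right hz1 hc')
    refine Nat.mul_le_mul ?_ (Nat.pow_le_pow_right (by omega) hb)
    calc a ≤ 2 ^ 20 * 1 := by omega
      _ ≤ 2 ^ 20 * K := Nat.mul_le_mul_left _ hK
  have hqR : R ≤ q := by omega
  have hq2' : 2 ≤ q := by omega
  -- sizes of the polylogarithmic quantities
  have hd4 : 10 * L + 4 ≤ z := by rw [hz]; nlinarith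
  have hb4 : (10 * l + 30) * L + 4 ≤ z := by rw [hz]; nlinarith
  have hρz : 4 * L + i + 1 ≤ z := by
    have : 5 * L + 2 ≤ z := by rw [hz]; nlinarith
    omega
  have hsbi : 4 * L + (10 * l + 30) * L + i ≤ z := by
    have : (10 * l + 35) * L + 1 ≤ z := by rw [hz]; nlinarith
    nlinarith
  have h20L : 20 * L + 20 ≤ z := by rw [hz]; nlinarith
  have hzR : z ≤ R := by have := hpoly 1 0 1 (by norm_num) (by norm_num) (by norm_num); simpa using this
  -- `n` is large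
  have hnq : q ^ 20 ≤ n := by
    calc q ^ 20 = 2 ^ (L * 20) := by rw [hq, ← pow_mul]
      _ ≤ 2 ^ R := Nat.pow_le_pow_right (by norm_num) (by omega)
      _ ≤ l ^ R := Nat.pow_le_pow_left hl R
      _ ≤ n := hn
  -- the parameters
  set d := 10 * L with hd
  set M := (R + 1) * ((R + 2) * d + 1) + 1 with hM
  set A := n / 4 with hA
  set w := A / M with hw
  set F := n / l ^ (d + 1) with hF
  set D := 4 * (R + 2) ^ 2 * (d + 1) with hD
  set Λ := w / D with hΛ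
  set β := A / d with hβ
  set b := (10 * l + 30) * L with hb
  set u := β / (4 * (b + 3)) with hu
  -- sizes
  have hd1 : 1 ≤ d := by omega
  have hMq : M ≤ q ^ 2 * z := by
    have h1 : M ≤ (R + 2) * ((R + 2) * (d + 1)) := by
      have h2 : (R + 2) * ((R + 2) * (d + 1))
          = (R + 1) * ((R + 2) * d + 1) + 1 + (R + 1) * (R + 1) + (R + 2) * d + R + 1 := by ring
      omega
    calc M ≤ (R + 2) * ((R + 2) * (d + 1)) := h1
      _ ≤ q * (q * z) := Nat.mul_le_mul hq1 (Nat.mul_le_mul hq1 (by omega))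
      _ = q ^ 2 * z := by ring
  have hDq : D ≤ 4 * q ^ 2 * z := by
    rw [hD]
    exact Nat.mul_le_mul (Nat.mul_le_mul_left _ (Nat.pow_le_pow_left hq1 2)) (by omega)
  have hMpos : 0 < M := by omega
  have hDpos : 0 < D := by positivity
  have h4z : 64 * z ^ 2 ≤ q := by
    have := hpoly 64 0 2 (by norm_num) (by norm_num) (by norm_num)
    simp only [pow_zero, mul_one] at this
    omega
  have hzq : z ≤ q := by omega
  have h4zq : 4 * z ≤ q := by
    have h1 : 4 * z * 1 ≤ 4 * z * (16 * z) := Nat.mul_le_mul_left _ (by omega)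
    have h2 : 4 * z * (16 * z) = 64 * z ^ 2 := by ring
    omega
  have hMq3 : M ≤ q ^ 3 := by
    calc M ≤ q ^ 2 * z := hMq
      _ ≤ q ^ 2 * q := Nat.mul_le_mul_left _ hzq
      _ = q ^ 3 := by ring
  have hDq3 : D ≤ q ^ 3 := by
    calc D ≤ 4 * q ^ 2 * z := hDq
      _ = q ^ 2 * (4 * z) := by ring
      _ ≤ q ^ 2 * q := Nat.mul_le_mul_left _ h4zq
      _ = q ^ 3 := by ring
  have hq16 : 64 ≤ q := by omega
  have hn4 : 4 ≤ n := by
    have : q ^ 1 ≤ q ^ 20 := Nat.pow_le_pow_right (by omega) (by norm_num)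
    rw [pow_one] at this
    omega
  have hnA : n ≤ 8 * A := by
    have := le_two_mul_div (m := 4) (by norm_num) hn4
    simpa using this
  have hAq : q ^ 19 ≤ A := by
    have h1 : 64 * q ^ 19 ≤ q ^ 20 := by
      rw [pow_succ q 19, mul_comm (q ^ 19) q]
      exact Nat.mul_le_mul_right _ hq16
    omega
  have hMA : M ≤ A := by
    have : q ^ 3 ≤ q ^ 19 := Nat.pow_le_pow_right (by omega) (by norm_num)
    omega
  have hAw : A ≤ 2 * M * w := le_two_mul_div hMpos hMA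
  have hwq : q ^ 15 ≤ w := by
    by_contra hcon
    push Not at hcon
    have h1 : 2 * M * w < 2 * q ^ 3 * q ^ 15 := by
      calc 2 * M * w ≤ 2 * q ^ 3 * w := Nat.mul_le_mul_right _ (Nat.mul_le_mul_left _ hMq3)
        _ < 2 * q ^ 3 * q ^ 15 := Nat.mul_lt_mul_of_pos_left hcon (by positivity)
    have h2 : 2 * q ^ 3 * q ^ 15 ≤ q ^ 19 := by
      have : 2 * q ^ 3 * q ^ 15 = 2 * q ^ 18 := by ring
      rw [this, pow_succ q 18, mul_comm (q ^ 18) q]
      exact Nat.mul_le_mul_right _ (by omega)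
    omega
  have hDw : D ≤ w := by
    have : q ^ 3 ≤ q ^ 15 := Nat.pow_le_pow_right (by omega) (by norm_num)
    omega
  have hwΛ : w ≤ 2 * D * Λ := le_two_mul_div hDpos hDw
  have hΛ1 : 1 ≤ Λ := (Nat.one_le_div_iff hDpos).mpr hDw
  have hdA : d ≤ A := by
    have : q ^ 1 ≤ q ^ 19 := Nat.pow_le_pow_right (by omega) (by norm_num)
    rw [pow_one] at this
    omega
  have hAβ : A ≤ 2 * d * β := le_two_mul_div (by omega) hdA
  have hβq : q ^ 15 ≤ β := by
    by_contra hcon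
    push Not at hcon
    have h1 : 2 * d * β < 2 * q * q ^ 15 := by
      calc 2 * d * β ≤ 2 * q * β := Nat.mul_le_mul_right _ (Nat.mul_le_mul_left _ (by omega))
        _ < 2 * q * q ^ 15 := Nat.mul_lt_mul_of_pos_left hcon (by positivity)
    have h2 : 2 * q * q ^ 15 ≤ q ^ 19 := by
      have h3 : 2 * q * q ^ 15 = 2 * q ^ 16 := by ring
      have h4 : q ^ 17 ≤ q ^ 19 := Nat.pow_le_pow_right (by omega) (by norm_num)
      have h5 : 2 * q ^ 16 ≤ q ^ 17 := by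
        rw [pow_succ q 16, mul_comm (q ^ 16) q]
        exact Nat.mul_le_mul_right _ (by omega)
      omega
    omega
  have hbβ : 4 * (b + 3) ≤ β := by
    have : q ^ 1 ≤ q ^ 15 := Nat.pow_le_pow_right (by omega) (by norm_num)
    rw [pow_one] at this
    omega
  have hβu : β ≤ 2 * (4 * (b + 3)) * u := le_two_mul_div (by omega) hbβ
  have hu1 : 1 ≤ u := (Nat.one_le_div_iff (by omega)).mpr hbβ
  -- `n ≤ Q u`
  have hnu : n ≤ 128 * z ^ 2 * u := by
    calc n ≤ 8 * A := hnA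
      _ ≤ 8 * (2 * d * β) := Nat.mul_le_mul_left _ hAβ
      _ ≤ 8 * (2 * d * (2 * (4 * (b + 3)) * u)) :=
        Nat.mul_le_mul_left _ (Nat.mul_le_mul_left _ hβu)
      _ = 128 * (d * (b + 3)) * u := by ring
      _ ≤ 128 * (z * z) * u := by
        refine Nat.mul_le_mul_right _ (Nat.mul_le_mul_left _ (Nat.mul_le_mul ?_ ?_)) <;> omega
      _ = 128 * z ^ 2 * u := by ring
  -- the fields
  have fA : 4 * A ≤ n := Nat.mul_div_le n 4
  have fd : d < R := by omega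
  have fMw : M * w ≤ A := Nat.mul_div_le A M
  have fF : n < l ^ (d + 1) * (F + 1) := Nat.lt_mul_div_succ n (by positivity)
  have hDΛ : D * Λ ≤ w := Nat.mul_div_le w D
  have hwA : w ≤ A := Nat.div_le_self A M
  have fβ : d * β ≤ A := Nat.mul_div_le A d
  have hw1 : 1 ≤ w := by
    have : 1 ≤ q ^ 15 := Nat.one_le_pow _ _ (by omega)
    omega
  -- first state
  have fw : 2 * (R * Λ) + (R + 1) * d * (R * Λ + l * F) + 3 * (R * (l * F)) + F < w := by
    have h1 : 4 * (2 * (R * Λ) + (R + 1) * d * (R * Λ)) ≤ w := by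
      have e1 : D * Λ = 4 * (2 * (R * Λ) + (R + 1) * d * (R * Λ))
          + 4 * ((R ^ 2 + 2 * R + 4) + (3 * R + 4) * d) * Λ := by rw [hD]; ring
      have e2 : 0 ≤ 4 * ((R ^ 2 + 2 * R + 4) + (3 * R + 4) * d) * Λ := Nat.zero_le _
      omega
    have h2 : F * q ^ 10 ≤ n := by
      have e1 : l ^ (d + 1) * F ≤ n := Nat.mul_div_le n _
      have e2 : q ^ 10 ≤ l ^ (d + 1) := by
        calc q ^ 10 = 2 ^ d := by rw [hq, hd, ← pow_mul, mul_comm L 10]
          _ ≤ 2 ^ (d + 1) := Nat.pow_le_pow_right (by norm_num) (by omega)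
          _ ≤ l ^ (d + 1) := Nat.pow_le_pow_left hl _
      calc F * q ^ 10 ≤ F * l ^ (d + 1) := Nat.mul_le_mul_left _ e2
        _ = l ^ (d + 1) * F := mul_comm _ _
        _ ≤ n := e1
    have h3 : n ≤ 16 * (q ^ 2 * z) * w := by
      calc n ≤ 8 * A := hnA
        _ ≤ 8 * (2 * M * w) := Nat.mul_le_mul_left _ hAw
        _ = 16 * M * w := by ring
        _ ≤ 16 * (q ^ 2 * z) * w := Nat.mul_le_mul_right _ (Nat.mul_le_mul_left _ hMq)
    have h4 : (R + 1) * d * (l * F) + 3 * (R * (l * F)) + F ≤ l * q * z * F := by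
      have e1 : (R + 1) * d + 3 * R + 1 ≤ q * z := by
        calc (R + 1) * d + 3 * R + 1 ≤ (R + 2) * (d + 4) := by
              have : (R + 2) * (d + 4) = ((R + 1) * d + 3 * R + 1) + (d + R + 7) := by ring
              omega
          _ ≤ q * z := Nat.mul_le_mul hq1 hd4
      calc (R + 1) * d * (l * F) + 3 * (R * (l * F)) + F
          = ((R + 1) * d + 3 * R) * (l * F) + 1 * F := by ring
        _ ≤ ((R + 1) * d + 3 * R) * (l * F) + l * F := by
            have : 1 * F ≤ l * F := Nat.mul_le_mul_right _ (by omega)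
            omega
        _ = ((R + 1) * d + 3 * R + 1) * (l * F) := by ring
        _ ≤ (q * z) * (l * F) := Nat.mul_le_mul_right _ e1
        _ = l * q * z * F := by ring
    have h5 : 64 * l * z ^ 2 ≤ q := by
      have := hpoly 64 1 2 (by norm_num) (by norm_num) (by norm_num)
      rw [pow_one] at this
      omega
    have h6 : 4 * (l * q * z * F) * q ^ 10 ≤ w * q ^ 4 := by
      calc 4 * (l * q * z * F) * q ^ 10 = 4 * (l * q * z) * (F * q ^ 10) := by ring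
        _ ≤ 4 * (l * q * z) * (16 * (q ^ 2 * z) * w) := Nat.mul_le_mul_left _ (h2.trans h3)
        _ = (64 * l * z ^ 2) * (q ^ 3 * w) := by ring
        _ ≤ q * (q ^ 3 * w) := Nat.mul_le_mul_right _ h5
        _ = w * q ^ 4 := by ring
    have h7 : 4 * (l * q * z * F) ≤ w := by
      have e1 : 4 * (l * q * z * F) * q ^ 4 ≤ w * q ^ 4 := by
        refine le_trans (Nat.mul_le_mul_left _ ?_) h6
        exact Nat.pow_le_pow_right (by omega) (by norm_num)
      exact Nat.le_of_mul_le_mul_right e1 (by positivity)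
    have h8 : 2 * (R * Λ) + (R + 1) * d * (R * Λ + l * F) + 3 * (R * (l * F)) + F
        = (2 * (R * Λ) + (R + 1) * d * (R * Λ)) + ((R + 1) * d * (l * F) + 3 * (R * (l * F)) + F) := by
      ring
    rw [h8]
    omega
  -- first round
  have fΛβ : 2 * R * Λ ≤ β := by
    have h1 : 4 * (R + 2) ^ 2 * (d + 1) * Λ ≤ 2 * d * β := hDΛ.trans (hwA.trans hAβ)
    have h2 : 2 * d * β ≤ 2 * (d + 1) * β := Nat.mul_le_mul_right _ (by omega)
    have h3 : (2 * (d + 1)) * (2 * (R + 2) ^ 2 * Λ) ≤ (2 * (d + 1)) * β := by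
      calc (2 * (d + 1)) * (2 * (R + 2) ^ 2 * Λ) = 4 * (R + 2) ^ 2 * (d + 1) * Λ := by ring
        _ ≤ (2 * (d + 1)) * β := h1.trans h2
    have h4 : 2 * (R + 2) ^ 2 * Λ ≤ β := Nat.le_of_mul_le_mul_left h3 (by omega)
    refine le_trans (Nat.mul_le_mul_right _ ?_) h4
    have : 2 * (R + 2) ^ 2 = 2 * R + (2 * R ^ 2 + 6 * R + 8) := by ring
    omega
  have fNR1 : 2 * (d + 1) ^ 2 * l ^ (R + d + 1) < Λ * 2 ^ ((10 * l + 20) * L) := by
    have h1 : n ≤ 128 * q ^ 4 * z ^ 2 * Λ := by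
      calc n ≤ 8 * A := hnA
        _ ≤ 8 * (2 * M * w) := Nat.mul_le_mul_left _ hAw
        _ ≤ 8 * (2 * M * (2 * D * Λ)) := Nat.mul_le_mul_left _ (Nat.mul_le_mul_left _ hwΛ)
        _ = 32 * (M * D) * Λ := by ring
        _ ≤ 32 * ((q ^ 2 * z) * (4 * q ^ 2 * z)) * Λ :=
          Nat.mul_le_mul_right _ (Nat.mul_le_mul_left _ (Nat.mul_le_mul hMq hDq))
        _ = 128 * q ^ 4 * z ^ 2 * Λ := by ring
    have h2 : l ^ d ≤ 2 ^ (10 * l * L) := by
      calc l ^ d ≤ (2 ^ l) ^ d := Nat.pow_le_pow_left (Nat.lt_two_pow_self).le _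
        _ = 2 ^ (10 * l * L) := by rw [← pow_mul, hd]; congr 1; ring
    have h3 : 256 * l * z ^ 4 ≤ q := by
      have := hpoly 256 1 4 (by norm_num) (by norm_num) (by norm_num)
      rw [pow_one] at this
      omega
    have h4 : 2 ^ ((10 * l + 20) * L) = 2 ^ (10 * l * L) * q ^ 20 := by
      rw [hq, ← pow_mul, ← pow_add]; congr 1; ring
    calc 2 * (d + 1) ^ 2 * l ^ (R + d + 1) = 2 * (d + 1) ^ 2 * (l * (l ^ R * l ^ d)) := by ring
      _ ≤ 2 * z ^ 2 * (l * ((128 * q ^ 4 * z ^ 2 * Λ) * 2 ^ (10 * l * L))) := by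
          refine Nat.mul_le_mul (Nat.mul_le_mul_left _ (Nat.pow_le_pow_left (by omega) 2)) ?_
          exact Nat.mul_le_mul_left _ (Nat.mul_le_mul (hn.trans h1) h2)
      _ = (256 * l * z ^ 4) * (q ^ 4 * Λ * 2 ^ (10 * l * L)) := by ring
      _ ≤ q * (q ^ 4 * Λ * 2 ^ (10 * l * L)) := Nat.mul_le_mul_right _ h3
      _ = Λ * 2 ^ (10 * l * L) * q ^ 5 := by ring
      _ < Λ * 2 ^ (10 * l * L) * q ^ 20 := by
          refine Nat.mul_lt_mul_of_pos_left ?_ (by positivity)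
          exact Nat.pow_lt_pow_right (by omega) (by norm_num)
      _ = Λ * 2 ^ ((10 * l + 20) * L) := by rw [h4]; ring
  have fb : b = d + (10 * l + 20) * L := by rw [hb, hd]; ring
  have fu : 4 * (b + 3) * u ≤ β := Nat.mul_div_le β _
  have fN1 : 8 * (4 * L) * n ≤ (8 * (4 * L) * n / u + 1) * u := by
    have := (Nat.lt_mul_div_succ (8 * (4 * L) * n) (b := u) (by omega)).le
    rw [mul_comm (8 * (4 * L) * n / u + 1) u]
    exact this
  have hκ : 8 * (4 * L) * n / u + 1 ≤ 2 ^ 11 * z ^ 3 := by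
    have h1 : 8 * (4 * L) * n / u ≤ 8 * (4 * L) * (128 * z ^ 2) := by
      refine Nat.div_le_of_le_mul ?_
      calc 8 * (4 * L) * n ≤ 8 * (4 * L) * (128 * z ^ 2 * u) := Nat.mul_le_mul_left _ hnu
        _ = u * (8 * (4 * L) * (128 * z ^ 2)) := by ring
    have h2 : 8 * (4 * L) * (128 * z ^ 2) ≤ 1024 * z ^ 3 := by
      calc 8 * (4 * L) * (128 * z ^ 2) = 1024 * (4 * L) * z ^ 2 := by ring
        _ ≤ 1024 * z * z ^ 2 := Nat.mul_le_mul_right _ (Nat.mul_le_mul_left _ (by omega))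
        _ = 1024 * z ^ 3 := by ring
    have h3 : 1 ≤ z ^ 3 := Nat.one_le_pow _ _ hz1
    have h4 : 2 ^ 11 * z ^ 3 = 1024 * z ^ 3 + 1024 * z ^ 3 := by ring
    omega
  have hP : K * (4 * L + i + 1) ^ 5 ≤ K * z ^ 5 :=
    Nat.mul_le_mul_left _ (Nat.pow_le_pow_left hρz 5)
  have hzpos : 0 < 128 * z ^ 2 := by positivity
  have fN2 : 8 * (b + 1) * (l ^ (R + 1) * (K * (4 * L + i + 1) ^ 5)) ≤ u := by
    refine Nat.le_of_mul_le_mul_left (le_trans ?_ hnu) hzpos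
    refine le_trans ?_ hX2
    calc 128 * z ^ 2 * (8 * (b + 1) * (l ^ (R + 1) * (K * (4 * L + i + 1) ^ 5)))
        ≤ 128 * z ^ 2 * (8 * z * (l ^ (R + 1) * (K * z ^ 5))) := by
          refine Nat.mul_le_mul_left _ (Nat.mul_le_mul (Nat.mul_le_mul_left _ (by omega)) ?_)
          exact Nat.mul_le_mul_left _ hP
      _ = 2 ^ 10 * K * l * z ^ 8 * l ^ R := by ring
  have fN3 : 8 * (R + b + 1) * n ≤ u * l ^ (4 * L) := by
    have h1 : q ^ 4 ≤ l ^ (4 * L) := by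
      calc q ^ 4 = 2 ^ (4 * L) := by rw [hq, ← pow_mul, mul_comm L 4]
        _ ≤ l ^ (4 * L) := Nat.pow_le_pow_left hl _
    have h2 : 2048 * z ^ 2 ≤ q := by
      have := hpoly 2048 0 2 (by norm_num) (by norm_num) (by norm_num)
      simp only [pow_zero, mul_one] at this
      omega
    calc 8 * (R + b + 1) * n ≤ 8 * (2 * q) * (128 * z ^ 2 * u) :=
          Nat.mul_le_mul (Nat.mul_le_mul_left _ (by omega)) hnu
      _ = u * (q * (2048 * z ^ 2)) := by ring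
      _ ≤ u * (q * q) := Nat.mul_le_mul_left _ (Nat.mul_le_mul_left _ h2)
      _ = u * q ^ 2 := by ring
      _ ≤ u * q ^ 4 := Nat.mul_le_mul_left _ (Nat.pow_le_pow_right (by omega) (by norm_num))
      _ ≤ u * l ^ (4 * L) := Nat.mul_le_mul_left _ h1
  have fN4 : 8 * (8 * (4 * L) * n / u + 1) * (4 * L) ^ 3 * R * l ^ (R + 1) < u * 2 ^ (i + 1) := by
    refine Nat.lt_of_mul_lt_mul_left (a := 128 * z ^ 2) ?_
    calc 128 * z ^ 2 * (8 * (8 * (4 * L) * n / u + 1) * (4 * L) ^ 3 * R * l ^ (R + 1))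
        ≤ 128 * z ^ 2 * (8 * (2 ^ 11 * z ^ 3) * z ^ 3 * R * l ^ (R + 1)) := by
          refine Nat.mul_le_mul_left _ (Nat.mul_le_mul_right _ (Nat.mul_le_mul_right _ ?_))
          refine Nat.mul_le_mul (Nat.mul_le_mul_left _ hκ) (Nat.pow_le_pow_left (by omega) 3)
      _ = 2 ^ 21 * l * z ^ 8 * (R * l ^ R) := by ring
      _ < n * 2 ^ (i + 1) := hX4
      _ ≤ (128 * z ^ 2 * u) * 2 ^ (i + 1) := Nat.mul_le_mul_right _ hnu
      _ = 128 * z ^ 2 * (u * 2 ^ (i + 1)) := by ring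
  have ffin : 3 * ((4 * L + b + i) * (b + 1) + 3) ^ 4 * (K * (4 * L + i + 1) ^ 5)
      * l ^ (R + i + 1) < u := by
    refine Nat.lt_of_mul_lt_mul_left (a := 128 * z ^ 2) ?_
    have h1 : (4 * L + b + i) * (b + 1) + 3 ≤ 2 * z ^ 2 := by
      have e1 : (4 * L + b + i) * (b + 1) ≤ z * z := Nat.mul_le_mul hsbi (by omega)
      have e2 : 2 * z ^ 2 = z * z + z * z := by ring
      have e3 : 3 ≤ z * z := by
        have : 3 * 1 ≤ z * z := Nat.mul_le_mul (by omega) hz1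
        omega
      omega
    calc 128 * z ^ 2 * (3 * ((4 * L + b + i) * (b + 1) + 3) ^ 4 * (K * (4 * L + i + 1) ^ 5)
          * l ^ (R + i + 1))
        ≤ 128 * z ^ 2 * (3 * (2 * z ^ 2) ^ 4 * (K * z ^ 5) * l ^ (R + i + 1)) := by
          refine Nat.mul_le_mul_left _ (Nat.mul_le_mul_right _ (Nat.mul_le_mul ?_ hP))
          exact Nat.mul_le_mul_left _ (Nat.pow_le_pow_left h1 4)
      _ = 6144 * K * l * z ^ 15 * (l ^ i * l ^ R) := by ring
      _ ≤ 2 ^ 14 * K * l * z ^ 15 * (l ^ i * l ^ R) := by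
          refine Nat.mul_le_mul_right _ (Nat.mul_le_mul_right _ (Nat.mul_le_mul_right _ ?_))
          exact Nat.mul_le_mul_right _ (by norm_num)
      _ < n := hX5
      _ ≤ 128 * z ^ 2 * u := hnu
  exact ⟨{ A := A, M := M, w := w, Λ := Λ, F₂ := F, d := d, i₁ := (10 * l + 20) * L, β₁ := β,
           b := b, u := u, s₂ := 4 * L, κ := 8 * (4 * L) * n / u + 1, i := i,
           hP := Nat.mul_pos hK (by positivity),
           hA := fA, hd1 := hd1, hdR := fd, hM := Nat.lt_succ_self _, hMw := fMw, hF₂ := fF,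
           hw := fw, hΛ := hΛ1, hβ₁ := fβ, hΛβ := fΛβ, hNR1 := fNR1, hb := fb, hu := fu,
           hu1 := hu1, hs₂ := by omega, hκ := Nat.succ_le_succ (Nat.zero_le _), hN1 := fN1,
           hN2 := fN2, hN3 := fN3, hN4 := fN4, hfin := ffin, hρ := le_refl _ }⟩

/-- polylogarithmic factors are smaller than powers -/
theorem polylog_lt (c : ℝ) (hc : 0 < c) (m : ℕ) (δ : ℝ) (hδ : 0 < δ) (hδ1 : δ ≤ 1) :
    ∃ L₀ : ℕ, ∀ L ≥ L₀, c * ((L : ℝ) + 1) ^ m < ((2 : ℝ) ^ L / 4) ^ δ := by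
  have hr : (1 : ℝ) < (2 : ℝ) ^ δ := Real.one_lt_rpow (by norm_num) hδ
  have h := tendsto_pow_const_div_const_pow_of_one_lt m hr
  have h1 : ∀ᶠ n : ℕ in Filter.atTop, (n : ℝ) ^ m / ((2 : ℝ) ^ δ) ^ n < 1 / (8 * c) :=
    (tendsto_order.1 h).2 _ (by positivity)
  obtain ⟨L₀, hL₀⟩ := Filter.eventually_atTop.1 h1
  refine ⟨L₀, fun L hL => ?_⟩
  have h2 := hL₀ (L + 1) (by omega)
  have h3 : (0 : ℝ) < ((2 : ℝ) ^ δ) ^ (L + 1) := by positivity
  rw [div_lt_iff₀ h3] at h2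
  push_cast at h2
  have h4 : c * ((L : ℝ) + 1) ^ m < ((2 : ℝ) ^ δ) ^ (L + 1) / 8 := by
    have h5 := mul_lt_mul_of_pos_left h2 hc
    have h6 : c * (1 / (8 * c) * ((2 : ℝ) ^ δ) ^ (L + 1)) = ((2 : ℝ) ^ δ) ^ (L + 1) / 8 := by
      field_simp
    rw [h6] at h5
    exact h5
  refine h4.trans_le ?_
  have h7 : ((2 : ℝ) ^ L / 4) ^ δ = ((2 : ℝ) ^ δ) ^ (L + 1) / (8 : ℝ) ^ δ := by
    rw [← Real.rpow_natCast ((2 : ℝ) ^ δ), ← Real.rpow_mul (by norm_num), mul_comm δ,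
      Real.rpow_mul (by norm_num), Real.rpow_natCast, ← Real.div_rpow (by positivity) (by norm_num)]
    congr 1
    rw [pow_succ]
    ring
  rw [h7]
  refine div_le_div_of_nonneg_left h3.le (by positivity) ?_
  calc (8 : ℝ) ^ δ ≤ (8 : ℝ) ^ (1 : ℝ) := Real.rpow_le_rpow_of_exponent_le (by norm_num) hδ1
    _ = 8 := Real.rpow_one 8

/-- the exponents -/
theorem exponents (lam α : ℝ) (hlam : 1 ≤ lam) (hα : lam < α * (1 + lam)) :
    ∃ α' θ δ : ℝ, α' ≤ α ∧ 0 < α' ∧ α' ≤ 1 ∧ 0 < θ ∧ θ ≤ 1 ∧ 0 < δ ∧ δ ≤ 1 ∧ δ ≤ α' ∧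
      δ ≤ α' + θ - 1 ∧ δ ≤ α' - lam * θ ∧ lam * θ ≤ 1 := by
  obtain ⟨α', h1, h2, h3⟩ : ∃ α' : ℝ, α' ≤ α ∧ α' ≤ 1 ∧ lam < α' * (1 + lam) := by
    refine ⟨min α 1, min_le_left _ _, min_le_right _ _, ?_⟩
    rcases le_total α 1 with h | h
    · rw [min_eq_left h]; exact hα
    · rw [min_eq_right h]; linarith
  have hα'0 : 0 < α' := by
    by_contra hcon
    push Not at hcon
    nlinarith
  have hlam0 : 0 < lam := by linarith
  refine ⟨α', (1 - α' + α' / lam) / 2, (α' * (1 + lam) - lam) / (2 * lam), h1, hα'0, h2, ?_, ?_, ?_,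
    ?_, ?_, ?_, ?_, ?_⟩
  · have : 0 < α' / lam := by positivity
    linarith
  · have : α' / lam ≤ α' := div_le_self hα'0.le hlam
    linarith
  · have : 0 < α' * (1 + lam) - lam := by linarith
    positivity
  · rw [div_le_one (by positivity)]
    nlinarith
  · rw [div_le_iff₀ (by positivity)]
    nlinarith
  · have : (α' * (1 + lam) - lam) / (2 * lam) = α' + (1 - α' + α' / lam) / 2 - 1 := by
      field_simp
      ring
    rw [this]
  · have e1 : α' - lam * ((1 - α' + α' / lam) / 2) = (α' * (1 + lam) - lam) / 2 := by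
      field_simp
      ring
    rw [e1]
    refine div_le_div_of_nonneg_left (by linarith) (by norm_num) (by linarith)
  · have e1 : lam * ((1 - α' + α' / lam) / 2) = (lam - lam * α' + α') / 2 := by
      field_simp
    rw [e1]
    nlinarith

theorem pow_num2 (l : ℕ) (hl : 2 ≤ l) (K : ℕ) (hK : 1 ≤ K) (α : ℝ)
    (hα : Real.logb 2 l < α * (1 + Real.logb 2 l)) :
    ∃ R₀ : ℕ, ∀ R ≥ R₀, ∀ n : ℕ, (R : ℝ) ^ α * (l : ℝ) ^ R ≤ n →
      ∃ ρ : ℕ, Nonempty (PowParams2 l R n (K * (ρ + 1) ^ 5) ρ) := by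
  have hl0 : (0 : ℝ) < l := by exact_mod_cast (by omega : 0 < l)
  have hl1 : (1 : ℝ) ≤ l := by exact_mod_cast (by omega : 1 ≤ l)
  have hK1 : (1 : ℝ) ≤ K := by exact_mod_cast hK
  have hlam : 1 ≤ Real.logb 2 l := by
    rw [Real.le_logb_iff_rpow_le (by norm_num) hl0, Real.rpow_one]
    exact_mod_cast hl
  obtain ⟨α', θ, δ, hα'α, hα'0, hα'1, hθ0, hθ1, hδ0, hδ1, hδα, hδθ, hδlam, hlamθ⟩ :=
    exponents (Real.logb 2 l) α hlam hα
  set lam := Real.logb 2 l with hlamdef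
  have hlpow : (2 : ℝ) ^ lam = l := Real.rpow_logb (by norm_num) (by norm_num) hl0
  set C₁ : ℝ := 2 ^ 25 * K * (l : ℝ) ^ 3 with hC₁
  obtain ⟨L₀, hL₀⟩ := polylog_lt (C₁ * (10 * l + 40) ^ 15) (by positivity) 15 δ hδ0 hδ1
  refine ⟨2 ^ (L₀ + 1) + 2, fun R hR n hn => ?_⟩
  have hR2 : 2 ≤ R := le_trans (Nat.le_add_left 2 _) hR
  set L := Nat.clog 2 (R + 2) with hL
  have hq1 : R + 2 ≤ 2 ^ L := Nat.le_pow_clog (by norm_num) _
  have hLL : L₀ ≤ L := by
    have h1 : 2 ^ L₀ < 2 ^ L := by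
      have h2 : 2 ^ L₀ ≤ 2 ^ (L₀ + 1) := Nat.pow_le_pow_right (by norm_num) (by omega)
      omega
    exact ((Nat.pow_lt_pow_iff_right (by norm_num)).mp h1).le
  have hL1 : 1 ≤ L := by
    by_contra hcon
    have : L = 0 := by omega
    rw [this] at hq1
    omega
  have hq2 : 2 ^ L ≤ 4 * R := by
    have h1 := Nat.pow_pred_clog_lt_self (b := 2) (by norm_num) (x := R + 2) (by omega)
    rw [← hL] at h1
    have h2 : 2 ^ L = 2 * 2 ^ (L - 1) := by
      rw [← pow_succ', Nat.sub_add_cancel hL1]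
    have h3 : L.pred = L - 1 := rfl
    rw [h3] at h1
    clear hR
    omega
  have hR1 : (1 : ℝ) ≤ R := by exact_mod_cast (by omega : 1 ≤ R)
  have hR0 : (0 : ℝ) < R := by linarith
  have hyR : (2 : ℝ) ^ L / 4 ≤ R := by
    have : (2 : ℝ) ^ L ≤ 4 * R := by exact_mod_cast hq2
    linarith
  have hRy : (R : ℝ) ≤ (2 : ℝ) ^ L := by
    have : (R : ℝ) + 2 ≤ (2 : ℝ) ^ L := by exact_mod_cast hq1
    linarith
  set z := (10 * l + 40) * (L + 1) with hz
  have hz1 : (1 : ℝ) ≤ z := by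
    have : 1 ≤ z := by rw [hz]; nlinarith
    exact_mod_cast this
  have H : C₁ * (z : ℝ) ^ 15 < (R : ℝ) ^ δ := by
    have h1 := hL₀ L hLL
    have h2 : C₁ * (10 * l + 40) ^ 15 * ((L : ℝ) + 1) ^ 15 = C₁ * (z : ℝ) ^ 15 := by
      rw [hz]; push_cast; ring
    rw [h2] at h1
    exact h1.trans_le (Real.rpow_le_rpow (by positivity) hyR hδ0.le)
  have hz8 : (z : ℝ) ^ 8 ≤ (z : ℝ) ^ 15 := pow_le_pow_right₀ hz1 (by norm_num)
  have hz15 : (0 : ℝ) < (z : ℝ) ^ 15 := by positivity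
  have hlR : (0 : ℝ) < (l : ℝ) ^ R := by positivity
  have hα'n : (R : ℝ) ^ α' * (l : ℝ) ^ R ≤ n :=
    (mul_le_mul_of_nonneg_right (Real.rpow_le_rpow_of_exponent_le hR1 hα'α) hlR.le).trans hn
  have hl2 : (l : ℝ) ≤ (l : ℝ) ^ 3 := by
    calc (l : ℝ) = (l : ℝ) ^ 1 := (pow_one _).symm
      _ ≤ (l : ℝ) ^ 3 := pow_le_pow_right₀ hl1 (by norm_num)
  have hl22 : (l : ℝ) ^ 2 ≤ (l : ℝ) ^ 3 := pow_le_pow_right₀ hl1 (by norm_num)
  -- the three comparisons of constants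
  have hc2 : (2 : ℝ) ^ 20 * K * (l : ℝ) ^ 2 ≤ C₁ := by
    rw [hC₁]
    refine mul_le_mul ?_ hl22 (by positivity) (by positivity)
    exact mul_le_mul_of_nonneg_right (by norm_num) (by positivity)
  have hc3 : (2 : ℝ) ^ 10 * K * l ≤ C₁ := by
    rw [hC₁]
    refine mul_le_mul ?_ hl2 (by positivity) (by positivity)
    exact mul_le_mul_of_nonneg_right (by norm_num) (by positivity)
  have hc4 : (2 : ℝ) ^ 21 * l ≤ C₁ := by
    rw [hC₁]
    refine mul_le_mul ?_ hl2 (by positivity) (by positivity)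
    have : (2 : ℝ) ^ 25 * 1 ≤ 2 ^ 25 * K := mul_le_mul_of_nonneg_left hK1 (by norm_num)
    refine le_trans ?_ this
    norm_num
  have hc5 : (2 : ℝ) ^ 14 * K * l * (4 * l) ≤ C₁ := by
    have e1 : (2 : ℝ) ^ 14 * K * l * (4 * l) = 2 ^ 16 * K * (l : ℝ) ^ 2 := by ring
    rw [e1, hC₁]
    refine mul_le_mul ?_ hl22 (by positivity) (by positivity)
    exact mul_le_mul_of_nonneg_right (by norm_num) (by positivity)
  -- the level `i`
  set i := ⌈θ * (L : ℝ)⌉₊ with hi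
  have hi1 : θ * L ≤ i := Nat.le_ceil _
  have hi2 : (i : ℝ) < θ * L + 1 := Nat.ceil_lt_add_one (by positivity)
  have hiL : i ≤ L + 1 := by
    have : (i : ℝ) < (L : ℝ) + 1 := by
      have : θ * L ≤ 1 * L := mul_le_mul_of_nonneg_right hθ1 (Nat.cast_nonneg _)
      linarith
    have h2 : (i : ℝ) < ((L + 1 : ℕ) : ℝ) := by push_cast; exact this
    exact (Nat.cast_lt.mp h2).le
  have h2i : (R : ℝ) ^ θ ≤ (2 : ℝ) ^ i := by
    calc (R : ℝ) ^ θ ≤ ((2 : ℝ) ^ L) ^ θ := Real.rpow_le_rpow hR0.le hRy hθ0.le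
      _ = (2 : ℝ) ^ (θ * L) := by
          rw [← Real.rpow_natCast, ← Real.rpow_mul (by norm_num), mul_comm]
      _ ≤ (2 : ℝ) ^ (i : ℝ) := Real.rpow_le_rpow_of_exponent_le (by norm_num) hi1
      _ = (2 : ℝ) ^ i := Real.rpow_natCast _ _
  have hli : (l : ℝ) ^ i ≤ 4 * l * (R : ℝ) ^ (lam * θ) := by
    have hlamθ0 : 0 ≤ lam * θ := by positivity
    calc (l : ℝ) ^ i = (l : ℝ) ^ (i : ℝ) := (Real.rpow_natCast _ _).symm
      _ ≤ (l : ℝ) ^ (θ * L + 1) := Real.rpow_le_rpow_of_exponent_le hl1 hi2.le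
      _ = (l : ℝ) ^ (θ * L) * l := by rw [Real.rpow_add hl0, Real.rpow_one]
      _ = ((2 : ℝ) ^ L) ^ (lam * θ) * l := by
          congr 1
          rw [← hlpow, ← Real.rpow_mul (by norm_num), ← Real.rpow_natCast (2 : ℝ) L,
            ← Real.rpow_mul (by norm_num)]
          congr 1
          ring
      _ ≤ (4 * (R : ℝ)) ^ (lam * θ) * l := by
          refine mul_le_mul_of_nonneg_right ?_ hl0.le
          exact Real.rpow_le_rpow (by positivity) (by exact_mod_cast hq2) hlamθ0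
      _ = (4 : ℝ) ^ (lam * θ) * (R : ℝ) ^ (lam * θ) * l := by
          rw [Real.mul_rpow (by norm_num) hR0.le]
      _ ≤ 4 * (R : ℝ) ^ (lam * θ) * l := by
          refine mul_le_mul_of_nonneg_right ?_ hl0.le
          refine mul_le_mul_of_nonneg_right ?_ (by positivity)
          calc (4 : ℝ) ^ (lam * θ) ≤ (4 : ℝ) ^ (1 : ℝ) :=
                Real.rpow_le_rpow_of_exponent_le (by norm_num) hlamθ
            _ = 4 := Real.rpow_one 4
      _ = 4 * l * (R : ℝ) ^ (lam * θ) := by ring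
  refine ⟨4 * L + i, num_core l K R n L i z hl hK hz hq1 hq2 ?_ hiL hL1 ?_ ?_ ?_ ?_⟩
  · have h1 : (2 : ℝ) ^ 20 * K * (l : ℝ) ^ 2 * (z : ℝ) ^ 15 ≤ R := by
      calc (2 : ℝ) ^ 20 * K * (l : ℝ) ^ 2 * (z : ℝ) ^ 15 ≤ C₁ * (z : ℝ) ^ 15 :=
            mul_le_mul_of_nonneg_right hc2 hz15.le
        _ ≤ (R : ℝ) ^ δ := H.le
        _ ≤ (R : ℝ) ^ (1 : ℝ) := Real.rpow_le_rpow_of_exponent_le hR1 hδ1
        _ = R := Real.rpow_one _
    exact_mod_cast h1
  · have h1 : (l : ℝ) ^ R ≤ n := by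
      calc (l : ℝ) ^ R = 1 * (l : ℝ) ^ R := (one_mul _).symm
        _ ≤ (R : ℝ) ^ α' * (l : ℝ) ^ R :=
          mul_le_mul_of_nonneg_right (Real.one_le_rpow hR1 hα'0.le) hlR.le
        _ ≤ n := hα'n
    exact_mod_cast h1
  · have h1 : (2 : ℝ) ^ 10 * K * l * (z : ℝ) ^ 8 * (l : ℝ) ^ R ≤ n := by
      calc (2 : ℝ) ^ 10 * K * l * (z : ℝ) ^ 8 * (l : ℝ) ^ R
          ≤ C₁ * (z : ℝ) ^ 15 * (l : ℝ) ^ R := by
            refine mul_le_mul_of_nonneg_right ?_ hlR.le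
            exact mul_le_mul hc3 hz8 (by positivity) (by positivity)
        _ ≤ (R : ℝ) ^ α' * (l : ℝ) ^ R := by
            refine mul_le_mul_of_nonneg_right ?_ hlR.le
            exact H.le.trans (Real.rpow_le_rpow_of_exponent_le hR1 hδα)
        _ ≤ n := hα'n
    exact_mod_cast h1
  · have h1 : (2 : ℝ) ^ 21 * l * (z : ℝ) ^ 8 * (R * (l : ℝ) ^ R) < n * (2 : ℝ) ^ (i + 1) := by
      have hn0 : (0 : ℝ) < n := by
        have : (0 : ℝ) < (R : ℝ) ^ α' * (l : ℝ) ^ R := by positivity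
        linarith
      calc (2 : ℝ) ^ 21 * l * (z : ℝ) ^ 8 * (R * (l : ℝ) ^ R)
          ≤ C₁ * (z : ℝ) ^ 15 * (R * (l : ℝ) ^ R) := by
            refine mul_le_mul_of_nonneg_right ?_ (by positivity)
            exact mul_le_mul hc4 hz8 (by positivity) (by positivity)
        _ < (R : ℝ) ^ δ * (R * (l : ℝ) ^ R) :=
            mul_lt_mul_of_pos_right H (by positivity)
        _ ≤ (R : ℝ) ^ (α' + θ - 1) * (R * (l : ℝ) ^ R) := by
            refine mul_le_mul_of_nonneg_right ?_ (by positivity)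
            exact Real.rpow_le_rpow_of_exponent_le hR1 hδθ
        _ = ((R : ℝ) ^ α' * (l : ℝ) ^ R) * (R : ℝ) ^ θ := by
            rw [Real.rpow_sub hR0, Real.rpow_add hR0, Real.rpow_one]
            field_simp
        _ ≤ n * (2 : ℝ) ^ i := mul_le_mul hα'n h2i (by positivity) hn0.le
        _ ≤ n * (2 : ℝ) ^ (i + 1) := by
            refine mul_le_mul_of_nonneg_left ?_ hn0.le
            exact pow_le_pow_right₀ (by norm_num) (by omega)
    exact_mod_cast h1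
  · have h1 : (2 : ℝ) ^ 14 * K * l * (z : ℝ) ^ 15 * ((l : ℝ) ^ i * (l : ℝ) ^ R) < n := by
      calc (2 : ℝ) ^ 14 * K * l * (z : ℝ) ^ 15 * ((l : ℝ) ^ i * (l : ℝ) ^ R)
          ≤ (2 : ℝ) ^ 14 * K * l * (z : ℝ) ^ 15 * ((4 * l * (R : ℝ) ^ (lam * θ)) * (l : ℝ) ^ R) := by
            refine mul_le_mul_of_nonneg_left ?_ (by positivity)
            exact mul_le_mul_of_nonneg_right hli hlR.le
        _ = ((2 : ℝ) ^ 14 * K * l * (4 * l)) * (z : ℝ) ^ 15
              * ((R : ℝ) ^ (lam * θ) * (l : ℝ) ^ R) := by ring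
        _ ≤ C₁ * (z : ℝ) ^ 15 * ((R : ℝ) ^ (lam * θ) * (l : ℝ) ^ R) := by
            refine mul_le_mul_of_nonneg_right ?_ (by positivity)
            exact mul_le_mul_of_nonneg_right hc5 hz15.le
        _ < (R : ℝ) ^ δ * ((R : ℝ) ^ (lam * θ) * (l : ℝ) ^ R) :=
            mul_lt_mul_of_pos_right H (by positivity)
        _ ≤ (R : ℝ) ^ (α' - lam * θ) * ((R : ℝ) ^ (lam * θ) * (l : ℝ) ^ R) := by
            refine mul_le_mul_of_nonneg_right ?_ (by positivity)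
            exact Real.rpow_le_rpow_of_exponent_le hR1 hδlam
        _ = (R : ℝ) ^ α' * (l : ℝ) ^ R := by
            rw [← mul_assoc, ← Real.rpow_add hR0]
            congr 2
            ring
        _ ≤ n := hα'n
    exact_mod_cast h1

end FlashRainbow
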