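import Pool.Agent.Work.MP_54723a_co.PowMain2
import Pool.Agent.Work.MP_54723a_co.PowNum2

/-!
# The sublinear bound: induction and translation (helper87)
-/

set_option autoImplicit false

namespace FlashRainbow

open Classical

theorem alpha_pos {l : ℕ} (hl : 2 ≤ l) {α : ℝ}
    (hα : Real.logb 2 l < α * (1 + Real.logb 2 l)) : 0 < α := by
  have h1 : 0 < Real.logb 2 l := by
    refine Real.logb_pos (by norm_num) ?_
    exact_mod_cast (by omega : 1 < l)
  by_contra h2
  push Not at h2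
  nlinarith

/-- the bound for level functions -/
theorem pow_core (l : ℕ) (hl : 2 ≤ l) (α : ℝ)
    (hα : Real.logb 2 l < α * (1 + Real.logb 2 l)) :
    ∃ C : ℝ, 0 < C ∧ ∀ (c : ℕ → ℕ → ℕ) (lev : ℕ → ℕ → ℕ) (R : ℕ) (V : Finset ℕ), Lev c V l lev →
      Rk c V R → (V.card : ℝ) ≤ C * ((R : ℝ) + 1) ^ α * (l : ℝ) ^ R := by
  obtain ⟨K₀, hK₀⟩ := poly_bound
  set K := K₀ + 1 with hKdef
  have hK : ∀ l ≥ 2, ∀ (c : ℕ → ℕ → ℕ) (lev : ℕ → ℕ → ℕ) (R : ℕ)
      (V : Finset ℕ), Lev c V l lev → (∀ x D, RP c V x D → D.card ≤ R) →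
        V.card ≤ K * (R + 1) ^ 5 * l ^ R := by
    intro l hl c lev R V hL hR
    refine (hK₀ l hl c lev R V hL hR).trans ?_
    exact Nat.mul_le_mul_right _ (Nat.mul_le_mul_right _ (Nat.le_succ _))
  obtain ⟨R₀, hR₀⟩ := pow_num2 l hl K (Nat.succ_le_succ (Nat.zero_le _)) α hα
  have hα0 := alpha_pos hl hα
  have hl0 : (0 : ℝ) < l := by exact_mod_cast (by omega : 0 < l)
  set C : ℝ := (K : ℝ) * ((R₀ : ℝ) + 1) ^ 5 + 1 with hC
  have hC1 : 1 ≤ C := by
    have : (0 : ℝ) ≤ (K : ℝ) * ((R₀ : ℝ) + 1) ^ 5 := by positivity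
    linarith
  refine ⟨C, by linarith, ?_⟩
  intro c lev R
  induction R using Nat.strong_induction_on with
  | _ R ih =>
    intro V hL hR
    have hpow1 : (1 : ℝ) ≤ ((R : ℝ) + 1) ^ α :=
      Real.one_le_rpow (by have : (0 : ℝ) ≤ R := Nat.cast_nonneg _; linarith) hα0.le
    have hlR : (0 : ℝ) < (l : ℝ) ^ R := by positivity
    rcases Nat.lt_or_ge R R₀ with hlt | hge
    · have h1 := hK l hl c lev R V hL hR
      have h2 : (V.card : ℝ) ≤ (K : ℝ) * ((R : ℝ) + 1) ^ 5 * (l : ℝ) ^ R := by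
        exact_mod_cast h1
      refine h2.trans ?_
      refine mul_le_mul_of_nonneg_right ?_ hlR.le
      have h3 : ((R : ℝ) + 1) ^ 5 ≤ ((R₀ : ℝ) + 1) ^ 5 := by
        refine pow_le_pow_left₀ (by positivity) ?_ 5
        have : (R : ℝ) ≤ R₀ := by exact_mod_cast hlt.le
        linarith
      calc (K : ℝ) * ((R : ℝ) + 1) ^ 5 ≤ (K : ℝ) * ((R₀ : ℝ) + 1) ^ 5 :=
            mul_le_mul_of_nonneg_left h3 (Nat.cast_nonneg _)
        _ ≤ C := by rw [hC]; linarith
        _ = C * 1 := (mul_one _).symm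
        _ ≤ C * ((R : ℝ) + 1) ^ α := mul_le_mul_of_nonneg_left hpow1 (by linarith)
    · by_contra hcon
      push Not at hcon
      have hn : (R : ℝ) ^ α * (l : ℝ) ^ R ≤ (V.card : ℝ) := by
        refine le_trans ?_ hcon.le
        refine mul_le_mul_of_nonneg_right ?_ hlR.le
        have h1 : (R : ℝ) ^ α ≤ ((R : ℝ) + 1) ^ α :=
          Real.rpow_le_rpow (Nat.cast_nonneg _) (by linarith) hα0.le
        have h2 : 0 ≤ ((R : ℝ) + 1) ^ α := by linarith
        nlinarith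
      obtain ⟨ρ, ⟨p⟩⟩ := hR₀ R hge V.card hn
      refine pow_main2 hl hL hR (P := K * (ρ + 1) ^ 5) (ρ := ρ) ?_ ?_ p
      · intro T hT r hr hrk
        refine (hK l hl c lev r T (hL.mono hT) hrk).trans ?_
        exact Nat.mul_le_mul_right _ (Nat.mul_le_mul_left _ (Nat.pow_le_pow_left (by omega) _))
      · intro T hT r hr hrk
        have h1 := ih r hr T (hL.mono hT) hrk
        have h2 : ((T.card * l ^ (R - r) : ℕ) : ℝ) ≤ (V.card : ℝ) := by
          push_cast
          have h3 : (l : ℝ) ^ R = (l : ℝ) ^ r * (l : ℝ) ^ (R - r) := by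
            rw [← pow_add]; congr 1; omega
          have h4 : ((r : ℝ) + 1) ^ α ≤ ((R : ℝ) + 1) ^ α := by
            refine Real.rpow_le_rpow (by positivity) ?_ hα0.le
            have : (r : ℝ) ≤ R := by exact_mod_cast hr.le
            linarith
          calc (T.card : ℝ) * (l : ℝ) ^ (R - r)
              ≤ (C * ((r : ℝ) + 1) ^ α * (l : ℝ) ^ r) * (l : ℝ) ^ (R - r) :=
                mul_le_mul_of_nonneg_right h1 (by positivity)
            _ = C * ((r : ℝ) + 1) ^ α * (l : ℝ) ^ R := by rw [h3]; ring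
            _ ≤ C * ((R : ℝ) + 1) ^ α * (l : ℝ) ^ R := by
                refine mul_le_mul_of_nonneg_right ?_ hlR.le
                exact mul_le_mul_of_nonneg_left h4 (by linarith)
            _ ≤ (V.card : ℝ) := hcon.le
        exact_mod_cast h2

/-- the bound for colourings of the pairs of `Fin n` -/
theorem pow_final (l : ℕ) (hl : 2 ≤ l) (α : ℝ)
    (hα : Real.logb 2 l < α * (1 + Real.logb 2 l)) :
    ∃ C : ℝ, ∀ k n : ℕ, 1 ≤ k → C * (k : ℝ) ^ α * (l : ℝ) ^ (k - 1) < n →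
      ∀ c : Fin n → Fin n → ℕ,
        (∃ x : Fin (l + 1) → Fin n, StrictMono x ∧
          ∃ col : ℕ, ∀ i : Fin l, c (x i.castSucc) (x i.succ) = col) ∨
        (∃ y : Fin (k + 1) → Fin n, StrictMono y ∧
          Function.Injective (fun i : Fin k => c (y i.castSucc) (y i.succ))) := by
  obtain ⟨C₀, hC₀, hcore⟩ := pow_core l hl α hα
  refine ⟨C₀, ?_⟩
  intro k n hk hn c
  by_contra hcon
  rw [not_or] at hcon
  obtain ⟨hflash, hrain⟩ := hcon
  set C : ℕ → ℕ → ℕ := fun a b => if h : a < n ∧ b < n then c ⟨a, h.1⟩ ⟨b, h.2⟩ else 0 with hC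
  have hCeq : ∀ (a b : ℕ) (ha : a < n) (hb : b < n), C a b = c ⟨a, ha⟩ ⟨b, hb⟩ := by
    intro a b ha hb
    rw [hC]
    simp only [ha, hb, and_self, dite_true]
  set V := Finset.range n with hV
  have hnoflash : ∀ γ v, ¬ MP C V γ v l := by
    intro γ v hmp
    obtain ⟨y, _, h1, h2, h3⟩ := hmp.toFun
    have h1' : ∀ i ≤ l, y i < n := fun i hi => Finset.mem_range.mp (h1 i hi)
    apply hflash
    refine ⟨_, strictMono_of_lt_succ y h1' h2, γ, fun i => ?_⟩
    have := h3 i i.2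
    rw [hCeq _ _ (h1' i (by omega)) (h1' (i + 1) (by omega))] at this
    simpa using this
  have hR : Rk C V (k - 1) := by
    intro x D hD
    by_contra hlt
    obtain ⟨D', _, hcard, hD'⟩ := hD.suffix k (by omega)
    obtain ⟨y, _, h1, h2, _, h4⟩ := hD'.toFun
    rw [hcard] at h1 h2 h4
    have h1' : ∀ i ≤ k, y i < n := fun i hi => Finset.mem_range.mp (h1 i hi)
    apply hrain
    refine ⟨_, strictMono_of_lt_succ y h1' h2, ?_⟩
    intro i j hij
    apply Fin.ext
    apply h4 i i.2 j j.2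
    rw [hCeq _ _ (h1' i (by omega)) (h1' (i + 1) (by omega)),
      hCeq _ _ (h1' j (by omega)) (h1' (j + 1) (by omega))]
    simpa using hij
  set lev : ℕ → ℕ → ℕ := fun γ v => Nat.findGreatest (fun j => MP C V γ v j) l with hlev
  have hspec : ∀ γ, ∀ v ∈ V, MP C V γ v (lev γ v) := fun γ v hv =>
    Nat.findGreatest_spec (P := fun j => MP C V γ v j) (Nat.zero_le l) (MP.single hv)
  have hlevlt : ∀ γ, ∀ v ∈ V, lev γ v < l := by
    intro γ v hv
    refine lt_of_le_of_ne (Nat.findGreatest_le _) ?_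
    intro heq
    have := hspec γ v hv
    rw [heq] at this
    exact hnoflash γ v this
  have hL : Lev C V l lev := by
    refine ⟨hlevlt, ?_⟩
    intro u hu v hv huv
    have h1 := MP.step (hspec (C u v) u hu) hv huv rfl
    exact Nat.le_findGreatest (hlevlt (C u v) u hu) h1
  have h1 := hcore C lev (k - 1) V hL hR
  have h2 : (((k - 1 : ℕ) : ℝ) + 1) = (k : ℝ) := by
    rw [Nat.cast_sub hk]; push_cast; ring
  rw [h2, hV, Finset.card_range] at h1
  exact absurd hn (not_lt.mpr h1)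

/-- the case `l = 3`, exponent `8 / 13` -/
theorem three_cond : Real.logb 2 (3 : ℕ) < (8 / 13 : ℝ) * (1 + Real.logb 2 (3 : ℕ)) := by
  have h1 : Real.logb 2 3 < 8 / 5 := by
    rw [Real.logb_lt_iff_lt_rpow (by norm_num) (by norm_num)]
    have h2 : ((2 : ℝ) ^ (8 / 5 : ℝ)) ^ (5 : ℕ) = 256 := by
      rw [← Real.rpow_natCast, ← Real.rpow_mul (by norm_num)]
      norm_num
    by_contra h3
    push Not at h3
    have h4 : ((2 : ℝ) ^ (8 / 5 : ℝ)) ^ (5 : ℕ) ≤ 3 ^ (5 : ℕ) :=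
      pow_le_pow_left₀ (by positivity) h3 5
    rw [h2] at h4
    norm_num at h4
  push_cast
  linarith

end FlashRainbow
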