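import Pool.Agent.Work.MP_54723a_co.PowPalette

/-!
# The sublinear bound: the second state with the choice of a level (helper87)
-/

set_option autoImplicit false

namespace FlashRainbow

open Classical

variable {c : ℕ → ℕ → ℕ} {V : Finset ℕ} {l R P ρ : ℕ} {lev : ℕ → ℕ → ℕ}

/-- the number of colours of `Θ` for which `x` has no path with more than `R - s - 1` edges avoiding
the colour -/
noncomputable def cntNA (c : ℕ → ℕ → ℕ) (V : Finset ℕ) (R s : ℕ) (Θ : Finset ℕ) (x : ℕ) : ℕ :=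
  (Θ.filter fun g => x ∈ NA c V R s g).card

theorem sum_cntNA_le (hl : 1 ≤ l) (hL : Lev c V l lev) (hIH : IH c V l R) (Θ : Finset ℕ) (s : ℕ) :
    (∑ x ∈ V, cntNA c V R s Θ x) * l ^ s ≤ Θ.card * V.card := by
  have h1 : ∑ x ∈ V, cntNA c V R s Θ x = ∑ g ∈ Θ, (V.filter fun x => x ∈ NA c V R s g).card := by
    simp only [cntNA, Finset.card_filter]
    exact Finset.sum_comm
  rw [h1, Finset.sum_mul, ← smul_eq_mul, ← Finset.sum_const]
  refine Finset.sum_le_sum fun g _ => ?_
  refine le_trans (Nat.mul_le_mul_right _ (Finset.card_le_card ?_)) (card_NA_le hL hl hIH s g)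
  intro x hx
  exact (Finset.mem_filter.mp hx).2

/-- the untypical vertices -/
noncomputable def Untyp2 (c : ℕ → ℕ → ℕ) (V : Finset ℕ) (l R s₂ κ : ℕ) (Θ : Finset ℕ) : Finset ℕ :=
  (V.filter fun x => ∃ s ∈ Finset.range s₂, κ * R < cntNA c V R s Θ x * l ^ s) ∪
    V.filter fun x => ∃ g ∈ Θ, x ∈ NA c V R s₂ g

theorem card_Untyp2_le (hl : 1 ≤ l) (hL : Lev c V l lev) (hIH : IH c V l R) {Θ : Finset ℕ}
    (hΘ : Θ.card ≤ R) {s₂ u κ : ℕ} (hκ : 1 ≤ κ) (hN1 : 8 * s₂ * V.card ≤ κ * u)
    (hN3 : 8 * R * V.card ≤ u * l ^ s₂) : 8 * (Untyp2 c V l R s₂ κ Θ).card ≤ 2 * u := by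
  have h1 : (V.filter fun x => ∃ s ∈ Finset.range s₂, κ * R < cntNA c V R s Θ x * l ^ s).card ≤
      (Finset.range s₂).card * (V.card / κ) := by
    refine card_exists_le V (Finset.range s₂) (fun x s => κ * R < cntNA c V R s Θ x * l ^ s) _ ?_
    intro s _
    rw [Nat.le_div_iff_mul_le (by omega)]
    rcases Nat.eq_zero_or_pos R with hR0 | hR0
    · have h0 : Θ = ∅ := Finset.card_eq_zero.mp (by omega)
      have : (V.filter fun x => κ * R < cntNA c V R s Θ x * l ^ s) = ∅ := by
        rw [Finset.filter_eq_empty_iff]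
        intro x _
        rw [h0]
        simp [cntNA]
      rw [this, Finset.card_empty, Nat.zero_mul]
      exact Nat.zero_le _
    refine Nat.le_of_mul_le_mul_right ?_ hR0
    calc (V.filter fun x => κ * R < cntNA c V R s Θ x * l ^ s).card * κ * R
        = ∑ x ∈ V.filter (fun x => κ * R < cntNA c V R s Θ x * l ^ s), κ * R := by
          rw [Finset.sum_const, smul_eq_mul]; ring
      _ ≤ ∑ x ∈ V.filter (fun x => κ * R < cntNA c V R s Θ x * l ^ s),
            cntNA c V R s Θ x * l ^ s :=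
          Finset.sum_le_sum fun x hx => (Finset.mem_filter.mp hx).2.le
      _ ≤ ∑ x ∈ V, cntNA c V R s Θ x * l ^ s :=
          Finset.sum_le_sum_of_subset (Finset.filter_subset _ _)
      _ = (∑ x ∈ V, cntNA c V R s Θ x) * l ^ s := (Finset.sum_mul _ _ _).symm
      _ ≤ Θ.card * V.card := sum_cntNA_le hl hL hIH Θ s
      _ ≤ R * V.card := Nat.mul_le_mul_right _ hΘ
      _ = V.card * R := Nat.mul_comm _ _
  have h2 : (V.filter fun x => ∃ g ∈ Θ, x ∈ NA c V R s₂ g).card ≤ Θ.card * (V.card / l ^ s₂) := by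
    refine card_exists_le V Θ (fun x g => x ∈ NA c V R s₂ g) _ ?_
    intro g _
    rw [Nat.le_div_iff_mul_le (by positivity)]
    refine le_trans (Nat.mul_le_mul_right _ (Finset.card_le_card ?_)) (card_NA_le hL hl hIH s₂ g)
    intro x hx
    exact (Finset.mem_filter.mp hx).2
  rw [Finset.card_range] at h1
  have h3 : 8 * (s₂ * (V.card / κ)) ≤ u := by
    refine Nat.le_of_mul_le_mul_right ?_ (show 0 < κ by omega)
    calc 8 * (s₂ * (V.card / κ)) * κ = 8 * s₂ * ((V.card / κ) * κ) := by ring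
      _ ≤ 8 * s₂ * V.card := Nat.mul_le_mul_left _ (Nat.div_mul_le_self _ _)
      _ ≤ κ * u := hN1
      _ = u * κ := Nat.mul_comm _ _
  have h4 : 8 * (Θ.card * (V.card / l ^ s₂)) ≤ u := by
    refine Nat.le_of_mul_le_mul_right ?_ (show 0 < l ^ s₂ by positivity)
    calc 8 * (Θ.card * (V.card / l ^ s₂)) * l ^ s₂
        = 8 * Θ.card * ((V.card / l ^ s₂) * l ^ s₂) := by ring
      _ ≤ 8 * Θ.card * V.card := Nat.mul_le_mul_left _ (Nat.div_mul_le_self _ _)
      _ ≤ 8 * R * V.card := Nat.mul_le_mul_right _ (Nat.mul_le_mul_left _ hΘ)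
      _ ≤ u * l ^ s₂ := hN3
  have h5 := Finset.card_union_le
    (V.filter fun x => ∃ s ∈ Finset.range s₂, κ * R < cntNA c V R s Θ x * l ^ s)
    (V.filter fun x => ∃ g ∈ Θ, x ∈ NA c V R s₂ g)
  rw [Untyp2]
  omega

/-- at a typical vertex without a good state few edges have colours in `Θ` -/
theorem card_theta_le (hR : Rk c V R) {Θ B : Finset ℕ} (hΘ : Θ.card ≤ R) {s₂ u κ x : ℕ}
    (hs₂ : 1 ≤ s₂) (hκ : 1 ≤ κ) (hxV : x ∈ V) (hx : x ∉ Untyp2 c V l R s₂ κ Θ) (hBV : B ⊆ V)
    (hB : ∀ w ∈ B, x < w)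
    (hcon : ∀ s, 1 ≤ s → s ≤ s₂ → ∀ D g, RP c V x D → g ∉ D → R ≤ D.card + s →
      8 * κ * s₂ * R * (B.filter fun w => c x w = g).card < u * l ^ (s - 1)) :
    8 * (B.filter fun w => c x w ∈ Θ).card ≤ u := by
  rcases Nat.eq_zero_or_pos R with hR0 | hR0
  · have hΘ0 : Θ = ∅ := Finset.card_eq_zero.mp (by omega)
    have : (B.filter fun w => c x w ∈ Θ) = ∅ := by
      rw [hΘ0]
      simp
    rw [this, Finset.card_empty]
    exact Nat.zero_le _
  rw [Untyp2, Finset.mem_union, not_or] at hx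
  have hx1 : ∀ s < s₂, cntNA c V R s Θ x * l ^ s ≤ κ * R := by
    intro s hs
    by_contra hlt
    push Not at hlt
    exact hx.1 (Finset.mem_filter.mpr ⟨hxV, s, Finset.mem_range.mpr hs, hlt⟩)
  have hx2 : ∀ g ∈ Θ, x ∉ NA c V R s₂ g := fun g hg h =>
    hx.2 (Finset.mem_filter.mpr ⟨hxV, g, hg, h⟩)
  have hmaps : ∀ w ∈ B.filter (fun w => c x w ∈ Θ), c x w ∈ Θ :=
    fun w hw => (Finset.mem_filter.mp hw).2
  rw [Finset.card_eq_sum_card_fiberwise hmaps]
  set C := 8 * κ * s₂ * R with hC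
  have key : ∀ g ∈ Θ, C * ((B.filter fun w => c x w ∈ Θ).filter fun w => c x w = g).card ≤
      ∑ s ∈ Finset.range s₂, if x ∈ NA c V R s g then u * l ^ s else 0 := by
    intro g hg
    have hsub : ((B.filter fun w => c x w ∈ Θ).filter fun w => c x w = g).card ≤
        (B.filter fun w => c x w = g).card := by
      refine Finset.card_le_card ?_
      intro w hw
      obtain ⟨hw1, hw2⟩ := Finset.mem_filter.mp hw
      exact Finset.mem_filter.mpr ⟨(Finset.mem_filter.mp hw1).1, hw2⟩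
    have hex : ∃ s, x ∉ NA c V R s g := ⟨s₂, hx2 g hg⟩
    set s := Nat.find hex with hs
    have hspec : x ∉ NA c V R s g := Nat.find_spec hex
    have hss₂ : s ≤ s₂ := Nat.find_min' hex (hx2 g hg)
    rw [NA, Finset.mem_filter] at hspec
    push Not at hspec
    obtain ⟨D, hD, hgD, hle⟩ := hspec hxV
    rcases Nat.eq_zero_or_pos s with hs0 | hs0
    · have : (B.filter fun w => c x w = g) = ∅ := by
        rw [Finset.filter_eq_empty_iff]
        intro w hw hwg
        have h1 := hR _ _ (RP.step hD (hBV hw) (hB w hw) (by rw [hwg]; exact hgD))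
        rw [hwg, Finset.card_insert_of_notMem hgD] at h1
        omega
      rw [this, Finset.card_empty] at hsub
      have h0 : ((B.filter fun w => c x w ∈ Θ).filter fun w => c x w = g).card = 0 := by omega
      rw [h0, Nat.mul_zero]
      exact Nat.zero_le _
    · have hmem : x ∈ NA c V R (s - 1) g := by
        by_contra h
        have := Nat.find_min' hex h
        omega
      have h1 := hcon s hs0 hss₂ D g hD hgD hle
      refine le_trans (Nat.mul_le_mul_left _ hsub) (h1.le.trans ?_)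
      have h2 : (if x ∈ NA c V R (s - 1) g then u * l ^ (s - 1) else 0) ≤
          ∑ s ∈ Finset.range s₂, if x ∈ NA c V R s g then u * l ^ s else 0 :=
        Finset.single_le_sum (f := fun s => if x ∈ NA c V R s g then u * l ^ s else 0)
          (fun _ _ => Nat.zero_le _) (Finset.mem_range.mpr (by omega))
      rwa [if_pos hmem] at h2
  have h1 : C * ∑ g ∈ Θ, ((B.filter fun w => c x w ∈ Θ).filter fun w => c x w = g).card ≤
      s₂ * (κ * R * u) := by
    rw [Finset.mul_sum]
    refine (Finset.sum_le_sum key).trans ?_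
    rw [Finset.sum_comm]
    calc ∑ s ∈ Finset.range s₂, ∑ g ∈ Θ, (if x ∈ NA c V R s g then u * l ^ s else 0)
        ≤ ∑ s ∈ Finset.range s₂, κ * R * u := by
          refine Finset.sum_le_sum fun s hs => ?_
          rw [← Finset.sum_filter, Finset.sum_const, smul_eq_mul]
          calc (Θ.filter fun g => x ∈ NA c V R s g).card * (u * l ^ s)
              = (cntNA c V R s Θ x * l ^ s) * u := by rw [cntNA]; ring
            _ ≤ κ * R * u := Nat.mul_le_mul_right _ (hx1 s (Finset.mem_range.mp hs))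
      _ = s₂ * (κ * R * u) := by rw [Finset.sum_const, Finset.card_range, smul_eq_mul]
  have hpos : 0 < κ * s₂ * R := by positivity
  refine Nat.le_of_mul_le_mul_left ?_ hpos
  calc κ * s₂ * R * (8 * ∑ g ∈ Θ, ((B.filter fun w => c x w ∈ Θ).filter fun w => c x w = g).card)
      = C * ∑ g ∈ Θ, ((B.filter fun w => c x w ∈ Θ).filter fun w => c x w = g).card := by
        rw [hC]; ring
    _ ≤ s₂ * (κ * R * u) := h1
    _ = κ * s₂ * R * u := by ring

/-- THE PALETTE ARGUMENT with the choice of a level -/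
theorem second_state' (hl : 1 ≤ l) (hL : Lev c V l lev) (hR : Rk c V R) (hP : PB c V l P ρ)
    (hIH : IH c V l R) {Θ : Finset ℕ} (hΘ : Θ.card ≤ R) {s₂ u b κ : ℕ} (hs₂1 : 1 ≤ s₂)
    (hs₂ : s₂ ≤ ρ) (hκ : 1 ≤ κ) (hu : 1 ≤ u)
    (hN1 : 8 * s₂ * V.card ≤ κ * u)
    (hN2 : 8 * (b + 1) * (l ^ (R + 1) * P) ≤ u)
    (hN3 : 8 * (R + b + 1) * V.card ≤ u * l ^ s₂)
    {U : ℕ → Finset ℕ} (hU : ∀ k ≤ b + 1, U k ⊆ VR c V R)
    (hUD : ∀ k ≤ b + 1, ∀ w ∈ U k, ∃ D ⊆ Θ, RP c V w D ∧ R ≤ D.card + b)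
    (hUo : ∀ k k', k < k' → k' ≤ b + 1 → ∀ x ∈ U k, ∀ y ∈ U k', x < y)
    (hUc : ∀ k ≤ b + 1, u ≤ (U k).card) :
    ∃ j ≤ b, ∃ x ∈ U j, ∃ s D g, 1 ≤ s ∧ s ≤ s₂ ∧ RP c V x D ∧ g ∉ D ∧ R ≤ D.card + s ∧
      u * l ^ (s - 1) ≤ 8 * κ * s₂ * R * ((U (j + 1)).filter fun w => c x w = g).card := by
  by_contra hcon
  push Not at hcon
  have hN3' : 8 * R * V.card ≤ u * l ^ s₂ := by
    refine le_trans (Nat.mul_le_mul_right _ (Nat.mul_le_mul_left _ (by omega))) hN3
  have hunt := card_Untyp2_le hl hL hIH hΘ hκ hN1 hN3'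
  have chain : ∀ t ≤ b + 1, ∃ x ∈ U t, x ∉ Untyp2 c V l R s₂ κ Θ ∧ ∃ D₀ used : Finset ℕ,
      D₀ ⊆ Θ ∧ R ≤ D₀.card + b ∧ Disjoint used Θ ∧ used.card = t ∧ RP c V x (D₀ ∪ used) ∧
      ∀ h ∈ used, x ∉ NA c V R s₂ h := by
    intro t
    induction t with
    | zero =>
      intro _
      obtain ⟨x, hx, hx'⟩ : ∃ x ∈ U 0, x ∉ Untyp2 c V l R s₂ κ Θ := by
        refine Finset.exists_mem_notMem_of_card_lt_card ?_
        have := hUc 0 (Nat.zero_le _)
        omega
      obtain ⟨D₀, h1, h2, h3⟩ := hUD 0 (Nat.zero_le _) x hx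
      exact ⟨x, hx, hx', D₀, ∅, h1, h3, Finset.disjoint_empty_left _, rfl, by simpa using h2,
        by simp⟩
    | succ t ih =>
      intro ht
      obtain ⟨x, hx, hx', D₀, used, h1, h2, h3, h4, h5, h6⟩ := ih (by omega)
      have hxV : x ∈ V := VR_subset (hU t (by omega) hx)
      obtain ⟨Dx, hDc, hDx, hout⟩ := exists_out hR (hU t (by omega) hx)
      set B := U (t + 1) with hB
      have hBV : B ⊆ V := (hU (t + 1) ht).trans VR_subset
      have hlater : ∀ w ∈ B, x < w := fun w hw => hUo t (t + 1) (by omega) ht x hx w hw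
      set C := l ^ (R + 1) * P with hC
      -- exclusions
      set E1 := B.filter fun w => c x w ∈ used with hE1
      set E2 := Untyp2 c V l R s₂ κ Θ with hE2
      set E3 := V.filter fun w => ∃ h ∈ Dx ∪ used, w ∈ NA c V R s₂ h with hE3
      set E4 := B.filter fun w => c x w ∈ Θ with hE4
      have c1 : 8 * E1.card ≤ u := by
        have h7 : E1.card ≤ used.card * C := by
          refine card_filter_mem_le B used (c x) C ?_
          intro h hh
          refine card_class_NA hl hL hR hP hs₂ hxV (h6 h hh) ((Finset.filter_subset _ _).trans hBV) ?_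
          intro v hv
          obtain ⟨hv1, hv2⟩ := Finset.mem_filter.mp hv
          exact ⟨hlater v hv1, hv2⟩
        have h8 : used.card * C ≤ (b + 1) * C := Nat.mul_le_mul_right _ (by omega)
        calc 8 * E1.card ≤ 8 * ((b + 1) * C) := Nat.mul_le_mul_left _ (h7.trans h8)
          _ = 8 * (b + 1) * C := by ring
          _ ≤ u := hN2
      have c3 : 8 * E3.card ≤ u := by
        have h7 : E3.card ≤ (Dx ∪ used).card * (V.card / l ^ s₂) := by
          refine card_exists_le V (Dx ∪ used) (fun w h => w ∈ NA c V R s₂ h) _ ?_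
          intro h _
          rw [Nat.le_div_iff_mul_le (by positivity)]
          refine le_trans (Nat.mul_le_mul_right _ (Finset.card_le_card ?_))
            (card_NA_le hL hl hIH s₂ h)
          intro w hw
          exact (Finset.mem_filter.mp hw).2
        have h8 : (Dx ∪ used).card ≤ R + b + 1 := by
          have := Finset.card_union_le Dx used
          omega
        have hpos : 0 < l ^ s₂ := by positivity
        refine Nat.le_of_mul_le_mul_right ?_ hpos
        calc 8 * E3.card * l ^ s₂ ≤ 8 * ((R + b + 1) * (V.card / l ^ s₂)) * l ^ s₂ :=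
              Nat.mul_le_mul_right _ (Nat.mul_le_mul_left _
                (h7.trans (Nat.mul_le_mul_right _ h8)))
          _ = 8 * (R + b + 1) * ((V.card / l ^ s₂) * l ^ s₂) := by ring
          _ ≤ 8 * (R + b + 1) * V.card := Nat.mul_le_mul_left _ (Nat.div_mul_le_self _ _)
          _ ≤ u * l ^ s₂ := hN3
      have c4 : 8 * E4.card ≤ u := by
        refine card_theta_le hR hΘ hs₂1 hκ hxV hx' hBV hlater ?_
        intro s hs1 hs2 D g hD hgD hle
        exact hcon t (by omega) x hx s D g hs1 hs2 hD hgD hle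
      obtain ⟨w, hw, hw'⟩ : ∃ w ∈ B, w ∉ E1 ∪ E2 ∪ E3 ∪ E4 := by
        refine Finset.exists_mem_notMem_of_card_lt_card ?_
        have g1 := Finset.card_union_le (E1 ∪ E2 ∪ E3) E4
        have g2 := Finset.card_union_le (E1 ∪ E2) E3
        have g3 := Finset.card_union_le E1 E2
        have g4 : u ≤ B.card := hUc (t + 1) ht
        omega
      simp only [Finset.mem_union, not_or] at hw'
      obtain ⟨⟨⟨n1, n2⟩, n3⟩, n4⟩ := hw'
      have hwV := hBV hw
      have m1 : c x w ∉ used := fun h => n1 (Finset.mem_filter.mpr ⟨hw, h⟩)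
      have m4 : c x w ∉ Θ := fun h => n4 (Finset.mem_filter.mpr ⟨hw, h⟩)
      have m3 : ∀ h ∈ Dx ∪ used, w ∉ NA c V R s₂ h := fun h hh hn =>
        n3 (Finset.mem_filter.mpr ⟨hwV, h, hh, hn⟩)
      have mD : c x w ∈ Dx := hout w hwV (hlater w hw)
      refine ⟨w, hw, n2, D₀, insert (c x w) used, h1, h2, ?_, ?_, ?_, ?_⟩
      · rw [Finset.disjoint_insert_left]
        exact ⟨m4, h3⟩
      · rw [Finset.card_insert_of_notMem m1, h4]
      · rw [Finset.union_insert]
        refine RP.step h5 hwV (hlater w hw) ?_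
        rw [Finset.mem_union, not_or]
        exact ⟨fun h => m4 (h1 h), m1⟩
      · intro h hh
        rcases Finset.mem_insert.mp hh with rfl | hh
        · exact m3 _ (Finset.mem_union_left _ mD)
        · exact m3 _ (Finset.mem_union_right _ hh)
  obtain ⟨x, _, _, D₀, used, h1, h2, h3, h4, h5, _⟩ := chain (b + 1) le_rfl
  have h6 := hR _ _ h5
  rw [Finset.card_union_of_disjoint (h3.mono_right h1).symm] at h6
  omega

end FlashRainbow
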