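import Mathlib.Analysis.SpecialFunctions.Log.Base
import Mathlib.Analysis.SpecialFunctions.Pow.Real
import Mathlib.Tactic

/-!
# Parameters of the sublinear bound

All inequalities between natural numbers which the combinatorial part (`PowMain`) uses; they are
satisfied (`PowNum`) for `n ≥ R ^ α * l ^ R`, `R` large, if `α * (1 + 2 * log₂ l) > 2 * log₂ l`.
-/

set_option autoImplicit false

namespace FlashRainbow

/-- The parameters. `n` = number of vertices, `R` = length of the longest rainbow path, `l` = number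
of levels, `P * l ^ r` bounds the sets of rank `r ≤ ρ`. -/
structure PowParams (l R n P ρ : ℕ) where
  (A M w Λ F₂ d i₁ β₁ b u s₂ s q β₂ i : ℕ)
  hA : 6 * A ≤ n
  -- first state
  hd1 : 1 ≤ d
  hdR : d < R
  hM : (R + 1) * ((R + 2) * d + 1) < M
  hMw : M * w ≤ A
  hF₂ : n < l ^ (d + 1) * (F₂ + 1)
  hw : 2 * (R * Λ) + (R + 1) * d * (R * Λ + l * F₂) + 3 * (R * (l * F₂)) + F₂ < w
  hΛ : 1 ≤ Λ
  -- first round
  hβ₁ : d * β₁ ≤ A
  hΛβ : 2 * R * Λ ≤ β₁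
  hNR1 : 2 * (d + 1) ^ 2 * l ^ (R + d + 1) < Λ * 2 ^ i₁
  -- palette
  hb : b = d + i₁
  hu : 4 * (b + 2) * u ≤ β₁
  hu1 : 1 ≤ u
  hN1 : 64 * R * n * (l ^ s₂ * (l ^ (R + 1) * P) + l ^ s * n) ≤ u ^ 2 * l ^ (s + s₂)
  hN2 : 8 * (b + 1) * (l ^ (R + 1) * P) ≤ u
  hN3 : 8 * (R + b + 1) * n ≤ u * l ^ s₂
  -- second round
  hs : 1 ≤ s
  hβ₂ : s * β₂ ≤ A
  hq : 1 ≤ q
  hqu : 8 * R * q ≤ u
  hqβ : 2 * R * q ≤ β₂
  hNR2 : 2 * (s + 1) ^ 2 * l ^ (R + s + 1) < q * 2 ^ i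
  hfin : 4 * (P * l ^ (R + i)) < β₂
  -- ranks
  hρ2 : s₂ ≤ ρ
  hρ3 : s + i ≤ ρ

end FlashRainbow
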