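import Pool.Agent.Work.MP_54723a_co.PowPalette
import Pool.Agent.Work.MP_54723a_co.PowParams

/-!
# The sublinear bound: the contradiction from the parameters (helper87)
-/

set_option autoImplicit false

namespace FlashRainbow

open Classical

variable {c : ℕ → ℕ → ℕ} {V : Finset ℕ} {l R P ρ : ℕ} {lev : ℕ → ℕ → ℕ}

theorem card_VR_ge (hl : 2 ≤ l) (hR1 : 1 ≤ R) (hIH : IH c V l R) : V.card ≤ 2 * (VR c V R).card := by
  have h1 := hIH (V.filter fun x => ¬ ∃ D, RP c V x D ∧ R ≤ D.card) (Finset.filter_subset _ _)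
    (R - 1) (by omega) (by
      intro y D' hD'
      by_contra hlt
      exact (Finset.mem_filter.mp hD'.mem).2 ⟨D', hD'.mono (Finset.filter_subset _ _), by omega⟩)
  rw [show R - (R - 1) = 1 by omega, pow_one] at h1
  have h2 : (VR c V R).card + (V.filter fun x => ¬ ∃ D, RP c V x D ∧ R ≤ D.card).card = V.card :=
    Finset.card_filter_add_card_filter_not _
  have h3 : (V.filter fun x => ¬ ∃ D, RP c V x D ∧ R ≤ D.card).card * 2 ≤
      (V.filter fun x => ¬ ∃ D, RP c V x D ∧ R ≤ D.card).card * l := Nat.mul_le_mul_left _ hl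
  omega

/-- the state of a round obtained from an edge class at the end of a long path -/
theorem exists_state (hR : Rk c V R) (hR1 : 1 ≤ R) {x g s : ℕ} {D B : Finset ℕ} (hs : 1 ≤ s)
    (hD : RP c V x D) (hg : g ∉ D) (hle : R ≤ D.card + s) (hBV : B ⊆ V) (hB : ∀ w ∈ B, x < w) :
    ∃ (Θ : Finset ℕ) (t : ℕ), t + 1 ≤ s ∧ Θ.card + t = R ∧
      ∀ v ∈ B.filter (fun w => c x w = g), RP c V v Θ := by
  obtain ⟨D', hD', hcard, hRP⟩ := hD.suffix (R - s) (by omega)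
  have hg' : g ∉ D' := fun h => hg (hD' h)
  refine ⟨insert g D', R - (R - s) - 1, by omega, ?_, ?_⟩
  · rw [Finset.card_insert_of_notMem hg', hcard]
    omega
  · intro v hv
    obtain ⟨hv1, hv2⟩ := Finset.mem_filter.mp hv
    have := RP.step hRP (hBV hv1) (hB v hv1) (by rw [hv2]; exact hg')
    rwa [hv2] at this

/-- THE CONTRADICTION -/
theorem pow_main (hl : 2 ≤ l) (hL : Lev c V l lev) (hR : Rk c V R) (hP : PB c V l P ρ)
    (hIH : IH c V l R) (p : PowParams l R V.card P ρ) : False := by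
  have hR1 : 1 ≤ R := by have := p.hdR; omega
  have hl1 : 1 ≤ l := by omega
  have hVR := card_VR_ge hl hR1 hIH
  have hA := p.hA
  obtain ⟨X, hXs, hXc, hXo⟩ := exists_windows (VR c V R) 3 p.A (by omega)
  -- first state
  obtain ⟨W, hWs, hWc, hWo⟩ := exists_windows (X 0) p.M p.w (p.hMw.trans (hXc 0 (by omega)))
  have hX0 : X 0 ⊆ VR c V R := hXs 0 (by omega)
  have hX1 : X 1 ⊆ VR c V R := hXs 1 (by omega)
  have hX2 : X 2 ⊆ VR c V R := hXs 2 (by omega)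
  obtain ⟨x, D, γ, m, hD, hDle, hγ, hm, hxlt, hbig⟩ := exists_pop (Λ := p.Λ) hl1 hL hR hIH p.hd1
    p.hdR p.hF₂ (W := W) (M := p.M) (w := p.w) (fun m hm => (hWs m hm).trans (hX0.trans VR_subset))
    hWo hWc p.hM p.hw
  have hWm : W m ⊆ VR c V R := (hWs m hm).trans hX0
  obtain ⟨Θ, t, ht, hΘ, hΘF⟩ := exists_state hR hR1 p.hd1 hD hγ (by omega) (hWm.trans VR_subset)
    hxlt
  -- first round
  obtain ⟨B₁, hB₁s, hB₁c, hB₁o⟩ := exists_windows (X 1) p.d p.β₁ (p.hβ₁.trans (hXc 1 (by omega)))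
  obtain ⟨Θ₀, t₀, k₀, ht₀, hΘ₀, hk₀, hbig₀⟩ := round hl hL hR (Th := p.d) (q := p.Λ)
    (β := p.β₁) (i := p.i₁) p.hΛ p.hΛβ p.hNR1
    t (by omega) Θ ((W m).filter fun v => c x v = γ) B₁ hΘ
    ((Finset.filter_subset _ _).trans hWm) hΘF hbig
    (fun k hk => (hB₁s k (by omega)).trans hX1)
    (fun k hk v hv w hw => hXo 0 1 (by omega) (by omega) v
      (hWs m hm (Finset.mem_filter.mp hv).1) w (hB₁s k (by omega) hw))
    (fun k k' h1 h2 => hB₁o k k' h1 (by omega)) (fun k hk => hB₁c k (by omega))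
  set Bst := (B₁ k₀).filter fun w => ∃ D ⊆ Θ₀, RP c V w D ∧ R ≤ D.card + t₀ + p.i₁ with hBst
  have hk₀d : k₀ < p.d := by omega
  have hBstV : Bst ⊆ VR c V R := (Finset.filter_subset _ _).trans ((hB₁s k₀ hk₀d).trans hX1)
  have hBstX : Bst ⊆ X 1 := (Finset.filter_subset _ _).trans (hB₁s k₀ hk₀d)
  have hBstc : (p.b + 2) * p.u ≤ Bst.card := by
    have h1 := p.hu
    have h2 := hB₁c k₀ hk₀d
    have h3 : 4 * (p.b + 2) * p.u = 4 * ((p.b + 2) * p.u) := by ring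
    omega
  -- palette
  obtain ⟨U, hUs, hUc, hUo⟩ := exists_windows Bst (p.b + 2) p.u hBstc
  have hb := p.hb
  obtain ⟨j, hj, y, hy, D₁, g, hD₁, hg, hD₁le, hbig₁⟩ := second_state hl1 hL hR hP hIH
    (Θ := Θ₀) (by omega) (s := p.s) (s₂ := p.s₂) (u := p.u) (b := p.b) p.hρ2 p.hu1 p.hN1 p.hN2
    p.hN3 (U := U) (fun k hk => (hUs k (by omega)).trans hBstV)
    (fun k hk w hw => by
      obtain ⟨D', h1, h2, h3⟩ := (Finset.mem_filter.mp (hUs k (by omega) hw)).2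
      exact ⟨D', h1, h2, by omega⟩)
    (fun k k' h1 h2 => hUo k k' h1 (by omega)) (fun k hk => hUc k (by omega))
  have hUj : U (j + 1) ⊆ VR c V R := (hUs (j + 1) (by omega)).trans hBstV
  obtain ⟨Θ₁, t₁, ht₁, hΘ₁, hΘ₁F⟩ := exists_state hR hR1 p.hs hD₁ hg hD₁le (hUj.trans VR_subset)
    (fun w hw => hUo j (j + 1) (by omega) (by omega) y hy w hw)
  have hqQ : p.q ≤ ((U (j + 1)).filter fun w => c y w = g).card := by
    have h1 := p.hqu.trans hbig₁
    exact Nat.le_of_mul_le_mul_left h1 (by omega)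
  -- second round
  obtain ⟨B₂, hB₂s, hB₂c, hB₂o⟩ := exists_windows (X 2) p.s p.β₂ (p.hβ₂.trans (hXc 2 (by omega)))
  obtain ⟨Θ₂, t₂, k₂, ht₂, hΘ₂, hk₂, hbig₂⟩ := round hl hL hR (Th := p.s) (q := p.q)
    (β := p.β₂) (i := p.i) p.hq p.hqβ p.hNR2
    t₁ (by omega) Θ₁ ((U (j + 1)).filter fun w => c y w = g) B₂ hΘ₁
    ((Finset.filter_subset _ _).trans hUj) hΘ₁F hqQ
    (fun k hk => (hB₂s k (by omega)).trans hX2)
    (fun k hk v hv w hw => hXo 1 2 (by omega) (by omega) v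
      (hBstX (hUs (j + 1) (by omega) (Finset.mem_filter.mp hv).1)) w (hB₂s k (by omega) hw))
    (fun k k' h1 h2 => hB₂o k k' h1 (by omega)) (fun k hk => hB₂c k (by omega))
  have hk₂s : k₂ < p.s := by omega
  have hρ3 := p.hρ3
  have h1 := final_count hl1 hL hR hP hΘ₂ (i := p.i) (by omega)
  have h2 : ((B₂ k₂).filter fun w => ∃ D ⊆ Θ₂, RP c V w D ∧ R ≤ D.card + t₂ + p.i).card ≤
      (V.filter fun w => ∃ D ⊆ Θ₂, RP c V w D ∧ R ≤ D.card + t₂ + p.i).card :=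
    Finset.card_le_card (Finset.filter_subset_filter _ ((hB₂s k₂ hk₂s).trans (hX2.trans VR_subset)))
  have h3 := hB₂c k₂ hk₂s
  have h4 := p.hfin
  omega

end FlashRainbow
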