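import Pool.Agent.Work.MP_54723a_co.PowMain
import Pool.Agent.Work.MP_54723a_co.PowEnd
import Pool.Agent.Work.MP_54723a_co.PowParams2

/-!
# The sublinear bound: the contradiction from the parameters, second form (helper87)
-/

set_option autoImplicit false

namespace FlashRainbow

open Classical

variable {c : ℕ → ℕ → ℕ} {V : Finset ℕ} {l R P ρ : ℕ} {lev : ℕ → ℕ → ℕ}

/-- THE CONTRADICTION -/
theorem pow_main2 (hl : 2 ≤ l) (hL : Lev c V l lev) (hR : Rk c V R) (hP : PB c V l P ρ)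
    (hIH : IH c V l R) (p : PowParams2 l R V.card P ρ) : False := by
  have hR1 : 1 ≤ R := by have := p.hdR; omega
  have hl1 : 1 ≤ l := by omega
  have hVR := card_VR_ge hl hR1 hIH
  have hA := p.hA
  obtain ⟨X, hXs, hXc, hXo⟩ := exists_windows (VR c V R) 2 p.A (by omega)
  -- first state
  obtain ⟨W, hWs, hWc, hWo⟩ := exists_windows (X 0) p.M p.w (p.hMw.trans (hXc 0 (by omega)))
  have hX0 : X 0 ⊆ VR c V R := hXs 0 (by omega)
  have hX1 : X 1 ⊆ VR c V R := hXs 1 (by omega)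
  obtain ⟨x, D, γ, m, hD, hDle, hγ, hm, hxlt, hbig⟩ := exists_pop (Λ := p.Λ) hl1 hL hR hIH p.hd1
    p.hdR p.hF₂ (W := W) (M := p.M) (w := p.w) (fun m hm => (hWs m hm).trans (hX0.trans VR_subset))
    hWo hWc p.hM p.hw
  have hWm : W m ⊆ VR c V R := (hWs m hm).trans hX0
  obtain ⟨Θ, t, ht, hΘ, hΘF⟩ := exists_state hR hR1 p.hd1 hD hγ (by omega) (hWm.trans VR_subset)
    hxlt
  -- first round
  obtain ⟨B₁, hB₁s, hB₁c, hB₁o⟩ := exists_windows (X 1) p.d p.β₁ (p.hβ₁.trans (hXc 1 (by omega)))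
  obtain ⟨Θ₀, t₀, k₀, ht₀, hΘ₀, hk₀, hbig₀⟩ := round hl hL hR (Th := p.d) (q := p.Λ)
    (β := p.β₁) (i := p.i₁) p.hΛ p.hΛβ p.hNR1
    t (by omega) Θ ((W m).filter fun v => c x v = γ) B₁ hΘ
    ((Finset.filter_subset _ _).trans hWm) hΘF hbig
    (fun k hk => (hB₁s k (by omega)).trans hX1)
    (fun k hk v hv w hw => hXo 0 1 (by omega) (by omega) v
      (hWs m hm (Finset.mem_filter.mp hv).1) w (hB₁s k (by omega) hw))
    (fun k k' h1 h2 => hB₁o k k' h1 (by omega)) (fun k hk => hB₁c k (by omega))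
  set Bst := (B₁ k₀).filter fun w => ∃ D ⊆ Θ₀, RP c V w D ∧ R ≤ D.card + t₀ + p.i₁ with hBst
  have hk₀d : k₀ < p.d := by omega
  have hb := p.hb
  have hBstVR : Bst ⊆ VR c V R := (Finset.filter_subset _ _).trans ((hB₁s k₀ hk₀d).trans hX1)
  have hBstV : Bst ⊆ V := hBstVR.trans VR_subset
  have hBstD : ∀ w ∈ Bst, ∃ D ⊆ Θ₀, RP c V w D ∧ R ≤ D.card + p.b := by
    intro w hw
    obtain ⟨D', h1, h2, h3⟩ := (Finset.mem_filter.mp hw).2
    exact ⟨D', h1, h2, by omega⟩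
  have hBstc : (p.b + 3) * p.u ≤ Bst.card := by
    have h1 := p.hu
    have h2 := hB₁c k₀ hk₀d
    have h3 : 4 * (p.b + 3) * p.u = 4 * ((p.b + 3) * p.u) := by ring
    omega
  -- palette
  obtain ⟨U, hUs, hUc, hUo⟩ := exists_windows Bst (p.b + 3) p.u hBstc
  have hρ := p.hρ
  obtain ⟨j, hj, y, hy, s, D₁, g, hs1, hs2, hD₁, hg, hD₁le, hbig₁⟩ := second_state' hl1 hL hR hP
    hIH (Θ := Θ₀) (by omega) (s₂ := p.s₂) (u := p.u) (b := p.b) (κ := p.κ) p.hs₂ (by omega) p.hκ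
    p.hu1 p.hN1 p.hN2 p.hN3 (U := U) (fun k hk => (hUs k (by omega)).trans hBstVR)
    (fun k hk w hw => hBstD w (hUs k (by omega) hw))
    (fun k k' h1 h2 => hUo k k' h1 (by omega)) (fun k hk => hUc k (by omega))
  have hUj : U (j + 1) ⊆ Bst := hUs (j + 1) (by omega)
  obtain ⟨Θ₁, t₁, ht₁, hΘ₁, hΘ₁F⟩ := exists_state hR hR1 hs1 hD₁ hg hD₁le (hUj.trans hBstV)
    (fun w hw => hUo j (j + 1) (by omega) (by omega) y hy w hw)
  set Q₀ := (U (j + 1)).filter fun w => c y w = g with hQ₀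
  have hnum : (t₁ + 1) ^ 2 * l ^ (R + t₁ + 1) < Q₀.card * 2 ^ (p.i + 1) := by
    by_contra hle
    push Not at hle
    have h1 : (t₁ + 1) ^ 2 * l ^ (R + t₁ + 1) ≤ p.s₂ ^ 2 * (l ^ (R + 1) * l ^ (s - 1)) := by
      rw [← pow_add]
      exact Nat.mul_le_mul (Nat.pow_le_pow_left (by omega) _)
        (Nat.pow_le_pow_right hl1 (by omega))
    have hpos : 0 < l ^ (s - 1) := by positivity
    have h2 : p.u * 2 ^ (p.i + 1) ≤ 8 * p.κ * p.s₂ ^ 3 * R * l ^ (R + 1) := by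
      refine Nat.le_of_mul_le_mul_right ?_ hpos
      calc p.u * 2 ^ (p.i + 1) * l ^ (s - 1) = (p.u * l ^ (s - 1)) * 2 ^ (p.i + 1) := by ring
        _ ≤ (8 * p.κ * p.s₂ * R * Q₀.card) * 2 ^ (p.i + 1) := Nat.mul_le_mul_right _ hbig₁
        _ = 8 * p.κ * p.s₂ * R * (Q₀.card * 2 ^ (p.i + 1)) := by ring
        _ ≤ 8 * p.κ * p.s₂ * R * (p.s₂ ^ 2 * (l ^ (R + 1) * l ^ (s - 1))) :=
            Nat.mul_le_mul_left _ (hle.trans h1)
        _ = 8 * p.κ * p.s₂ ^ 3 * R * l ^ (R + 1) * l ^ (s - 1) := by ring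
    have h3 := p.hN4
    omega
  -- the last window
  have hlast : U (p.b + 2) ⊆ Bst := hUs (p.b + 2) (by omega)
  have hend := endgame hl hL hR hP (Θ₀ := Θ₀) (Θ := Θ₁) (b := p.b) (i := p.i) (t := t₁)
    (by omega) hBstV hBstD hΘ₁ ((Finset.filter_subset _ _).trans hUj) hΘ₁F hlast
    (fun v hv w hw => hUo (j + 1) (p.b + 2) (by omega) (by omega) v
      (Finset.mem_filter.mp hv).1 w hw) hnum (by omega)
  have hcard := hUc (p.b + 2) (by omega)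
  set Y := (p.s₂ + p.b + p.i) * (p.b + 1) + 3 with hY
  have hXY : (t₁ + p.b + p.i + 1) * (p.b + 1) + 3 ≤ Y := by
    rw [hY]
    exact Nat.add_le_add_right (Nat.mul_le_mul_right _ (by omega)) _
  have hX4 : ((t₁ + p.b + p.i + 1) * (p.b + 1) + 3) ^ 4 ≤ Y ^ 4 := Nat.pow_le_pow_left hXY _
  have hY1 : 1 ≤ Y ^ 4 := Nat.one_le_pow _ _ (by omega)
  have h1 : P * l ^ (R + p.i) ≤ Y ^ 4 * P * l ^ (R + p.i + 1) := by
    calc P * l ^ (R + p.i) = 1 * P * l ^ (R + p.i) := by ring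
      _ ≤ Y ^ 4 * P * l ^ (R + p.i + 1) :=
          Nat.mul_le_mul (Nat.mul_le_mul_right _ hY1) (Nat.pow_le_pow_right hl1 (by omega))
  have h2 : l ^ (R - t₁) * (((t₁ + p.b + p.i + 1) * (p.b + 1) + 3) ^ 4 * l *
      (P * l ^ (t₁ + p.i) + 1)) ≤ 2 * (Y ^ 4 * P * l ^ (R + p.i + 1)) := by
    have h3 : P * l ^ (t₁ + p.i) + 1 ≤ 2 * (P * l ^ (t₁ + p.i)) := by
      have h4 : 1 ≤ P * l ^ (t₁ + p.i) := by
        have := p.hP
        exact Nat.one_le_iff_ne_zero.mpr (by positivity)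
      omega
    calc l ^ (R - t₁) * (((t₁ + p.b + p.i + 1) * (p.b + 1) + 3) ^ 4 * l *
          (P * l ^ (t₁ + p.i) + 1))
        ≤ l ^ (R - t₁) * (Y ^ 4 * l * (2 * (P * l ^ (t₁ + p.i)))) :=
          Nat.mul_le_mul_left _ (Nat.mul_le_mul (Nat.mul_le_mul_right _ hX4) h3)
      _ = 2 * (Y ^ 4 * P * (l ^ (R - t₁) * l ^ (t₁ + p.i) * l)) := by ring
      _ = 2 * (Y ^ 4 * P * l ^ (R + p.i + 1)) := by
          rw [← pow_add, ← pow_succ]
          congr 3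
          omega
  have h3 : 3 * Y ^ 4 * P * l ^ (R + p.i + 1) = 3 * (Y ^ 4 * P * l ^ (R + p.i + 1)) := by ring
  have h4 := p.hfin
  rw [← hY, h3] at h4
  omega

end FlashRainbow
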