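import Pool.Agent.Work.MP_54723a_co.PowRound

/-!
# The sublinear bound: the first state and the palette argument (helper87)
-/

set_option autoImplicit false

namespace FlashRainbow

open Classical

variable {c : ℕ → ℕ → ℕ} {V : Finset ℕ} {l R P ρ : ℕ} {lev : ℕ → ℕ → ℕ}

/-- the induction hypothesis: sets of smaller rank are small compared with `V` -/
def IH (c : ℕ → ℕ → ℕ) (V : Finset ℕ) (l R : ℕ) : Prop :=
  ∀ T ⊆ V, ∀ r < R, Rk c T r → T.card * l ^ (R - r) ≤ V.card

/-- THE FIRST STATE -/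
theorem exists_pop (hl : 1 ≤ l) (hL : Lev c V l lev) (hR : Rk c V R) (hIH : IH c V l R)
    {d M Λ F₂ w : ℕ} (hd1 : 1 ≤ d) (hdR : d < R) (hF₂ : V.card < l ^ (d + 1) * (F₂ + 1))
    {W : ℕ → Finset ℕ} (hsub : ∀ m < M, W m ⊆ V)
    (hord : ∀ m m', m < m' → m' < M → ∀ a ∈ W m, ∀ b ∈ W m', a < b)
    (hW : ∀ m < M, w ≤ (W m).card) (hM : (R + 1) * ((R + 2) * d + 1) < M)
    (hw : 2 * (R * Λ) + (R + 1) * d * (R * Λ + l * F₂) + 3 * (R * (l * F₂)) + F₂ < w) :
    ∃ x D γ m, RP c V x D ∧ R - d ≤ D.card ∧ γ ∉ D ∧ m < M ∧ (∀ v ∈ W m, x < v) ∧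
      Λ ≤ ((W m).filter fun v => c x v = γ).card := by
  by_contra hcon
  have star : ∀ x D, RP c V x D → R - d ≤ D.card → ∀ γ, Pop c W M Λ x γ → γ ∈ D := by
    rintro x D hD hle γ ⟨m, hm, h1, h2⟩
    by_contra hγ
    exact hcon ⟨x, D, γ, m, hD, hle, hγ, hm, h1, h2⟩
  have small : ∀ T ⊆ V, Rk c T (R - d - 1) → T.card ≤ F₂ := by
    intro T hT hr
    have h1 := hIH T hT (R - d - 1) (by omega) hr
    rw [show R - (R - d - 1) = d + 1 by omega] at h1
    have h2 : T.card * l ^ (d + 1) < (F₂ + 1) * l ^ (d + 1) := by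
      rw [Nat.mul_comm (F₂ + 1)]
      exact lt_of_le_of_lt h1 hF₂
    exact Nat.lt_succ_iff.mp (Nat.lt_of_mul_lt_mul_right h2)
  have S : Stuck c V W R (R - d) M Λ (l * F₂) F₂ := by
    refine ⟨hR, by omega, hsub, hord, star, ?_, ?_⟩
    · intro γ
      have := card_le_of_levels hL.lt F₂ {γ} (V.filter fun x => Pop c W M Λ x γ)
        (Finset.filter_subset _ _) ?_
      · simpa using this
      · intro T' hT' hconst
        have hT'V : T' ⊆ V := hT'.trans (Finset.filter_subset _ _)
        refine small T' hT'V ?_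
        intro y D' hD'
        by_contra hlt
        push Not at hlt
        have hy := (Finset.mem_filter.mp (hT' hD'.mem)).2
        have h1 := star y D' (hD'.mono hT'V) (by omega) γ hy
        exact hD'.notMem_of_free (hL.free hT'V (hconst γ (Finset.mem_singleton_self γ))) h1
    · refine small _ (Finset.filter_subset _ _) ?_
      intro y D' hD'
      by_contra hlt
      push Not at hlt
      obtain ⟨D'', _, hcard'', hP''⟩ := hD'.suffix (R - d) (by omega)
      exact (Finset.mem_filter.mp hD'.mem).2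
        ⟨D'', hP''.mono (Finset.filter_subset _ _), hcard''⟩
  have e : R - (R - d) = d := by omega
  exact S.false hW (by rw [e]; exact hM) (by rw [e]; exact hw)

/-- the vertices without a long path avoiding `g` -/
noncomputable def NA (c : ℕ → ℕ → ℕ) (V : Finset ℕ) (R s g : ℕ) : Finset ℕ :=
  V.filter fun x => ∀ D, RP c V x D → g ∉ D → D.card + s < R

theorem card_NA_le (hL : Lev c V l lev) (hl : 1 ≤ l) (hIH : IH c V l R) (s g : ℕ) :
    (NA c V R s g).card * l ^ s ≤ V.card := by
  rcases (NA c V R s g).eq_empty_or_nonempty with h0 | ⟨v, hv⟩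
  · rw [h0, Finset.card_empty, Nat.zero_mul]
    exact Nat.zero_le _
  have hsR : s < R := by
    obtain ⟨h1, h2⟩ := Finset.mem_filter.mp hv
    have := h2 ∅ (RP.single h1) (Finset.notMem_empty _)
    simpa using this
  have hsub : NA c V R s g ⊆ V := Finset.filter_subset _ _
  have h1 : (NA c V R s g).card ≤ l ^ ({g} : Finset ℕ).card * (V.card / l ^ (s + 1)) := by
    refine card_le_of_levels hL.lt _ {g} _ hsub ?_
    intro T' hT' hconst
    rw [Nat.le_div_iff_mul_le (by positivity)]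
    have hT'V := hT'.trans hsub
    have hfree : ∀ u ∈ T', ∀ v ∈ T', u < v → c u v ≠ g :=
      hL.free hT'V (hconst g (Finset.mem_singleton_self g))
    have h2 := hIH T' hT'V (R - s - 1) (by omega) (by
      intro y D' hD'
      have h3 := (Finset.mem_filter.mp (hT' hD'.mem)).2 D' (hD'.mono hT'V)
        (hD'.notMem_of_free hfree)
      omega)
    rwa [show R - (R - s - 1) = s + 1 by omega] at h2
  calc (NA c V R s g).card * l ^ s
      ≤ (l ^ ({g} : Finset ℕ).card * (V.card / l ^ (s + 1))) * l ^ s := Nat.mul_le_mul_right _ h1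
    _ = (V.card / l ^ (s + 1)) * l ^ (s + 1) := by
        rw [Finset.card_singleton]; ring
    _ ≤ V.card := Nat.div_mul_le_self _ _

/-- the class of `g` at a vertex outside of `NA` -/
theorem card_class_NA (hl : 1 ≤ l) (hL : Lev c V l lev) (hR : Rk c V R) (hP : PB c V l P ρ)
    {s g x : ℕ} (hs : s ≤ ρ) (hxV : x ∈ V) (hx : x ∉ NA c V R s g) {T : Finset ℕ} (hTV : T ⊆ V)
    (hT : ∀ v ∈ T, x < v ∧ c x v = g) : T.card ≤ l ^ (R + 1) * P := by
  rw [NA, Finset.mem_filter] at hx
  push Not at hx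
  obtain ⟨D, hD, hgD, hle⟩ := hx hxV
  exact card_class_le' hl hL hR hP hD hgD (k := R - s) (by omega) (by omega) hTV hT

/-- the mass at `x` of the colours of `Θ` for which `x` has no long avoiding path -/
noncomputable def mass (c : ℕ → ℕ → ℕ) (V : Finset ℕ) (R s : ℕ) (Θ : Finset ℕ) (x : ℕ) : ℕ :=
  ∑ g ∈ Θ, if x ∈ NA c V R s g then (V.filter fun w => x < w ∧ c x w = g).card else 0

theorem sum_mass_le (hl : 1 ≤ l) (hL : Lev c V l lev) (hR : Rk c V R) (hP : PB c V l P ρ)
    (hIH : IH c V l R) {Θ : Finset ℕ} (hΘ : Θ.card ≤ R) (s : ℕ) {s₂ : ℕ} (hs₂ : s₂ ≤ ρ) :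
    (∑ x ∈ V, mass c V R s Θ x) * l ^ (s + s₂) ≤
      R * V.card * (l ^ s₂ * (l ^ (R + 1) * P) + l ^ s * V.card) := by
  have h1 : ∀ x ∈ V, mass c V R s Θ x ≤
      ∑ g ∈ Θ, ((if x ∈ NA c V R s g then l ^ (R + 1) * P else 0) +
        (if x ∈ NA c V R s₂ g then V.card else 0)) := by
    intro x hx
    refine Finset.sum_le_sum fun g _ => ?_
    by_cases h2 : x ∈ NA c V R s g
    · rw [if_pos h2, if_pos h2]
      by_cases h3 : x ∈ NA c V R s₂ g
      · rw [if_pos h3]
        exact le_trans (Finset.card_filter_le _ _) (Nat.le_add_left _ _)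
      · rw [if_neg h3, Nat.add_zero]
        exact card_class_NA hl hL hR hP hs₂ hx h3 (Finset.filter_subset _ _)
          (fun v hv => (Finset.mem_filter.mp hv).2)
    · rw [if_neg h2]
      exact Nat.zero_le _
  have h2 : ∑ x ∈ V, mass c V R s Θ x ≤ ∑ g ∈ Θ, ((NA c V R s g).card * (l ^ (R + 1) * P) +
      (NA c V R s₂ g).card * V.card) := by
    refine (Finset.sum_le_sum h1).trans ?_
    rw [Finset.sum_comm]
    refine Finset.sum_le_sum fun g _ => ?_
    rw [Finset.sum_add_distrib]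
    refine Nat.add_le_add ?_ ?_
    · rw [← Finset.sum_filter, Finset.sum_const, smul_eq_mul]
      refine Nat.mul_le_mul_right _ (Finset.card_le_card ?_)
      intro v hv
      exact (Finset.mem_filter.mp hv).2
    · rw [← Finset.sum_filter, Finset.sum_const, smul_eq_mul]
      refine Nat.mul_le_mul_right _ (Finset.card_le_card ?_)
      intro v hv
      exact (Finset.mem_filter.mp hv).2
  calc (∑ x ∈ V, mass c V R s Θ x) * l ^ (s + s₂)
      ≤ (∑ g ∈ Θ, ((NA c V R s g).card * (l ^ (R + 1) * P) +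
          (NA c V R s₂ g).card * V.card)) * l ^ (s + s₂) := Nat.mul_le_mul_right _ h2
    _ = ∑ g ∈ Θ, ((NA c V R s g).card * (l ^ (R + 1) * P) +
          (NA c V R s₂ g).card * V.card) * l ^ (s + s₂) := Finset.sum_mul _ _ _
    _ ≤ ∑ g ∈ Θ, V.card * (l ^ s₂ * (l ^ (R + 1) * P) + l ^ s * V.card) := by
        refine Finset.sum_le_sum fun g _ => ?_
        have h3 := card_NA_le hL hl hIH s g
        have h4 := card_NA_le hL hl hIH s₂ g
        calc ((NA c V R s g).card * (l ^ (R + 1) * P) +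
              (NA c V R s₂ g).card * V.card) * l ^ (s + s₂)
            = ((NA c V R s g).card * l ^ s) * (l ^ s₂ * (l ^ (R + 1) * P)) +
              ((NA c V R s₂ g).card * l ^ s₂) * (l ^ s * V.card) := by
              rw [pow_add]; ring
          _ ≤ V.card * (l ^ s₂ * (l ^ (R + 1) * P)) + V.card * (l ^ s * V.card) :=
              Nat.add_le_add (Nat.mul_le_mul_right _ h3) (Nat.mul_le_mul_right _ h4)
          _ = V.card * (l ^ s₂ * (l ^ (R + 1) * P) + l ^ s * V.card) := by ring
    _ = Θ.card * (V.card * (l ^ s₂ * (l ^ (R + 1) * P) + l ^ s * V.card)) := by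
        rw [Finset.sum_const, smul_eq_mul]
    _ ≤ R * (V.card * (l ^ s₂ * (l ^ (R + 1) * P) + l ^ s * V.card)) :=
        Nat.mul_le_mul_right _ hΘ
    _ = R * V.card * (l ^ s₂ * (l ^ (R + 1) * P) + l ^ s * V.card) := by ring

/-- the untypical vertices -/
noncomputable def Untyp (c : ℕ → ℕ → ℕ) (V : Finset ℕ) (R s : ℕ) (Θ : Finset ℕ) (u : ℕ) :
    Finset ℕ := V.filter fun x => u < 8 * mass c V R s Θ x

theorem card_Untyp_le (hl : 1 ≤ l) (hL : Lev c V l lev) (hR : Rk c V R) (hP : PB c V l P ρ)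
    (hIH : IH c V l R) {Θ : Finset ℕ} (hΘ : Θ.card ≤ R) {s s₂ u : ℕ} (hs₂ : s₂ ≤ ρ) (hu : 1 ≤ u)
    (hN1 : 64 * R * V.card * (l ^ s₂ * (l ^ (R + 1) * P) + l ^ s * V.card) ≤
      u ^ 2 * l ^ (s + s₂)) : 8 * (Untyp c V R s Θ u).card ≤ u := by
  have h1 := sum_mass_le hl hL hR hP hIH hΘ s hs₂
  have h2 : (Untyp c V R s Θ u).card * u ≤ 8 * ∑ x ∈ V, mass c V R s Θ x := by
    calc (Untyp c V R s Θ u).card * u = ∑ x ∈ Untyp c V R s Θ u, u := by
          rw [Finset.sum_const, smul_eq_mul]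
      _ ≤ ∑ x ∈ Untyp c V R s Θ u, 8 * mass c V R s Θ x :=
          Finset.sum_le_sum fun x hx => (Finset.mem_filter.mp hx).2.le
      _ = 8 * ∑ x ∈ Untyp c V R s Θ u, mass c V R s Θ x := (Finset.mul_sum _ _ _).symm
      _ ≤ 8 * ∑ x ∈ V, mass c V R s Θ x :=
          Nat.mul_le_mul_left _ (Finset.sum_le_sum_of_subset (Finset.filter_subset _ _))
  have hpos : 0 < u * l ^ (s + s₂) := by positivity
  refine Nat.le_of_mul_le_mul_right ?_ hpos
  calc 8 * (Untyp c V R s Θ u).card * (u * l ^ (s + s₂))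
      = 8 * (((Untyp c V R s Θ u).card * u) * l ^ (s + s₂)) := by ring
    _ ≤ 8 * ((8 * ∑ x ∈ V, mass c V R s Θ x) * l ^ (s + s₂)) :=
        Nat.mul_le_mul_left _ (Nat.mul_le_mul_right _ h2)
    _ = 64 * ((∑ x ∈ V, mass c V R s Θ x) * l ^ (s + s₂)) := by ring
    _ ≤ 64 * (R * V.card * (l ^ s₂ * (l ^ (R + 1) * P) + l ^ s * V.card)) :=
        Nat.mul_le_mul_left _ h1
    _ = 64 * R * V.card * (l ^ s₂ * (l ^ (R + 1) * P) + l ^ s * V.card) := by ring
    _ ≤ u ^ 2 * l ^ (s + s₂) := hN1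
    _ = u * (u * l ^ (s + s₂)) := by ring

/-- THE PALETTE ARGUMENT: the second state -/
theorem second_state (hl : 1 ≤ l) (hL : Lev c V l lev) (hR : Rk c V R) (hP : PB c V l P ρ)
    (hIH : IH c V l R) {Θ : Finset ℕ} (hΘ : Θ.card ≤ R) {s s₂ u b : ℕ} (hs₂ : s₂ ≤ ρ)
    (hu : 1 ≤ u)
    (hN1 : 64 * R * V.card * (l ^ s₂ * (l ^ (R + 1) * P) + l ^ s * V.card) ≤
      u ^ 2 * l ^ (s + s₂))
    (hN2 : 8 * (b + 1) * (l ^ (R + 1) * P) ≤ u)
    (hN3 : 8 * (R + b + 1) * V.card ≤ u * l ^ s₂)
    {U : ℕ → Finset ℕ} (hU : ∀ k ≤ b + 1, U k ⊆ VR c V R)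
    (hUD : ∀ k ≤ b + 1, ∀ w ∈ U k, ∃ D ⊆ Θ, RP c V w D ∧ R ≤ D.card + b)
    (hUo : ∀ k k', k < k' → k' ≤ b + 1 → ∀ x ∈ U k, ∀ y ∈ U k', x < y)
    (hUc : ∀ k ≤ b + 1, u ≤ (U k).card) :
    ∃ j ≤ b, ∃ x ∈ U j, ∃ D g, RP c V x D ∧ g ∉ D ∧ R ≤ D.card + s ∧
      u ≤ 8 * R * ((U (j + 1)).filter fun w => c x w = g).card := by
  by_contra hcon
  push Not at hcon
  have hunt := card_Untyp_le hl hL hR hP hIH hΘ hs₂ hu hN1
  have chain : ∀ t ≤ b + 1, ∃ x ∈ U t, x ∉ Untyp c V R s Θ u ∧ ∃ D₀ used : Finset ℕ,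
      D₀ ⊆ Θ ∧ R ≤ D₀.card + b ∧ Disjoint used Θ ∧ used.card = t ∧ RP c V x (D₀ ∪ used) ∧
      ∀ h ∈ used, x ∉ NA c V R s₂ h := by
    intro t
    induction t with
    | zero =>
      intro _
      obtain ⟨x, hx, hx'⟩ : ∃ x ∈ U 0, x ∉ Untyp c V R s Θ u := by
        refine Finset.exists_mem_notMem_of_card_lt_card ?_
        have := hUc 0 (Nat.zero_le _)
        omega
      obtain ⟨D₀, h1, h2, h3⟩ := hUD 0 (Nat.zero_le _) x hx
      exact ⟨x, hx, hx', D₀, ∅, h1, h3, Finset.disjoint_empty_left _, rfl, by simpa using h2,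
        by simp⟩
    | succ t ih =>
      intro ht
      obtain ⟨x, hx, hx', D₀, used, h1, h2, h3, h4, h5, h6⟩ := ih (by omega)
      have hxV : x ∈ V := VR_subset (hU t (by omega) hx)
      obtain ⟨Dx, hDc, hDx, hout⟩ := exists_out hR (hU t (by omega) hx)
      set B := U (t + 1) with hB
      have hBV : B ⊆ V := (hU (t + 1) ht).trans VR_subset
      have hlater : ∀ w ∈ B, x < w := fun w hw => hUo t (t + 1) (by omega) ht x hx w hw
      set C := l ^ (R + 1) * P with hC
      -- exclusions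
      set E1 := B.filter fun w => c x w ∈ used with hE1
      set E2 := Untyp c V R s Θ u with hE2
      set E3 := V.filter fun w => ∃ h ∈ Dx ∪ used, w ∈ NA c V R s₂ h with hE3
      set E4 := B.filter fun w => c x w ∈ Θ with hE4
      have c1 : 8 * E1.card ≤ u := by
        have h7 : E1.card ≤ used.card * C := by
          refine card_filter_mem_le B used (c x) C ?_
          intro h hh
          refine card_class_NA hl hL hR hP hs₂ hxV (h6 h hh) ((Finset.filter_subset _ _).trans hBV) ?_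
          intro v hv
          obtain ⟨hv1, hv2⟩ := Finset.mem_filter.mp hv
          exact ⟨hlater v hv1, hv2⟩
        have h8 : used.card * C ≤ (b + 1) * C := Nat.mul_le_mul_right _ (by omega)
        calc 8 * E1.card ≤ 8 * ((b + 1) * C) := Nat.mul_le_mul_left _ (h7.trans h8)
          _ = 8 * (b + 1) * C := by ring
          _ ≤ u := hN2
      have c3 : 8 * E3.card ≤ u := by
        have h7 : E3.card ≤ (Dx ∪ used).card * (V.card / l ^ s₂) := by
          refine card_exists_le V (Dx ∪ used) (fun w h => w ∈ NA c V R s₂ h) _ ?_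
          intro h _
          rw [Nat.le_div_iff_mul_le (by positivity)]
          refine le_trans (Nat.mul_le_mul_right _ (Finset.card_le_card ?_))
            (card_NA_le hL hl hIH s₂ h)
          intro w hw
          exact (Finset.mem_filter.mp hw).2
        have h8 : (Dx ∪ used).card ≤ R + b + 1 := by
          have := Finset.card_union_le Dx used
          omega
        have hpos : 0 < l ^ s₂ := by positivity
        refine Nat.le_of_mul_le_mul_right ?_ hpos
        calc 8 * E3.card * l ^ s₂ ≤ 8 * ((R + b + 1) * (V.card / l ^ s₂)) * l ^ s₂ :=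
              Nat.mul_le_mul_right _ (Nat.mul_le_mul_left _
                (h7.trans (Nat.mul_le_mul_right _ h8)))
          _ = 8 * (R + b + 1) * ((V.card / l ^ s₂) * l ^ s₂) := by ring
          _ ≤ 8 * (R + b + 1) * V.card := Nat.mul_le_mul_left _ (Nat.div_mul_le_self _ _)
          _ ≤ u * l ^ s₂ := hN3
      have c4 : 8 * E4.card ≤ 2 * u := by
        have hmaps : ∀ w ∈ E4, c x w ∈ Θ := fun w hw => (Finset.mem_filter.mp hw).2
        rcases Nat.eq_zero_or_pos R with hR0 | hR0
        · have hΘ0 : Θ = ∅ := Finset.card_eq_zero.mp (by omega)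
          have : E4 = ∅ := by
            rw [hE4, hΘ0]
            simp
          rw [this, Finset.card_empty]
          omega
        rw [Finset.card_eq_sum_card_fiberwise hmaps]
        have h7 : ∀ g ∈ Θ, 8 * R * (E4.filter fun w => c x w = g).card ≤
            8 * R * (if x ∈ NA c V R s g then (V.filter fun w => x < w ∧ c x w = g).card else 0)
              + u := by
          intro g hg
          by_cases hxg : x ∈ NA c V R s g
          · rw [if_pos hxg]
            refine le_trans (Nat.mul_le_mul_left _ (Finset.card_le_card ?_)) (Nat.le_add_right _ _)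
            intro w hw
            obtain ⟨hw1, hw2⟩ := Finset.mem_filter.mp hw
            have hw3 := (Finset.mem_filter.mp hw1).1
            exact Finset.mem_filter.mpr ⟨hBV hw3, hlater w hw3, hw2⟩
          · rw [if_neg hxg, Nat.mul_zero, Nat.zero_add]
            rw [NA, Finset.mem_filter] at hxg
            push Not at hxg
            obtain ⟨D, hD, hgD, hle⟩ := hxg hxV
            refine le_trans (Nat.mul_le_mul_left _ (Finset.card_le_card ?_))
              (hcon t (by omega) x hx D g hD hgD hle).le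
            intro w hw
            obtain ⟨hw1, hw2⟩ := Finset.mem_filter.mp hw
            exact Finset.mem_filter.mpr ⟨(Finset.mem_filter.mp hw1).1, hw2⟩
        have h8 : 8 * R * ∑ g ∈ Θ, (E4.filter fun w => c x w = g).card ≤
            8 * R * mass c V R s Θ x + R * u := by
          rw [Finset.mul_sum]
          refine (Finset.sum_le_sum h7).trans ?_
          rw [Finset.sum_add_distrib, ← Finset.mul_sum, Finset.sum_const, smul_eq_mul]
          exact Nat.add_le_add_left (Nat.mul_le_mul_right _ hΘ) _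
        have h9 : 8 * mass c V R s Θ x ≤ u := by
          by_contra hlt
          push Not at hlt
          exact hx' (Finset.mem_filter.mpr ⟨hxV, hlt⟩)
        refine Nat.le_of_mul_le_mul_left ?_ hR0
        calc R * (8 * ∑ g ∈ Θ, (E4.filter fun w => c x w = g).card)
            = 8 * R * ∑ g ∈ Θ, (E4.filter fun w => c x w = g).card := by ring
          _ ≤ 8 * R * mass c V R s Θ x + R * u := h8
          _ = R * (8 * mass c V R s Θ x) + R * u := by ring
          _ ≤ R * u + R * u := Nat.add_le_add_right (Nat.mul_le_mul_left _ h9) _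
          _ = R * (2 * u) := by ring
      obtain ⟨w, hw, hw'⟩ : ∃ w ∈ B, w ∉ E1 ∪ E2 ∪ E3 ∪ E4 := by
        refine Finset.exists_mem_notMem_of_card_lt_card ?_
        have g1 := Finset.card_union_le (E1 ∪ E2 ∪ E3) E4
        have g2 := Finset.card_union_le (E1 ∪ E2) E3
        have g3 := Finset.card_union_le E1 E2
        have g4 : u ≤ B.card := hUc (t + 1) ht
        omega
      simp only [Finset.mem_union, not_or] at hw'
      obtain ⟨⟨⟨n1, n2⟩, n3⟩, n4⟩ := hw'
      have hwV := hBV hw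
      have m1 : c x w ∉ used := fun h => n1 (Finset.mem_filter.mpr ⟨hw, h⟩)
      have m4 : c x w ∉ Θ := fun h => n4 (Finset.mem_filter.mpr ⟨hw, h⟩)
      have m3 : ∀ h ∈ Dx ∪ used, w ∉ NA c V R s₂ h := fun h hh hn =>
        n3 (Finset.mem_filter.mpr ⟨hwV, h, hh, hn⟩)
      have mD : c x w ∈ Dx := hout w hwV (hlater w hw)
      refine ⟨w, hw, n2, D₀, insert (c x w) used, h1, h2, ?_, ?_, ?_, ?_⟩
      · rw [Finset.disjoint_insert_left]
        exact ⟨m4, h3⟩
      · rw [Finset.card_insert_of_notMem m1, h4]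
      · rw [Finset.union_insert]
        refine RP.step h5 hwV (hlater w hw) ?_
        rw [Finset.mem_union, not_or]
        exact ⟨fun h => m4 (h1 h), m1⟩
      · intro h hh
        rcases Finset.mem_insert.mp hh with rfl | hh
        · exact m3 _ (Finset.mem_union_left _ mD)
        · exact m3 _ (Finset.mem_union_right _ hh)
  obtain ⟨x, _, _, D₀, used, h1, h2, h3, h4, h5, _⟩ := chain (b + 1) le_rfl
  have h6 := hR _ _ h5
  rw [Finset.card_union_of_disjoint (h3.mono_right h1).symm] at h6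
  omega

end FlashRainbow
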