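import Pool.Agent.Work.MP_54723a_co.PowBasic

/-!
# The sublinear bound: propagation, one round, the final count (helper87)
-/

set_option autoImplicit false

namespace FlashRainbow

open Classical

variable {c : ℕ → ℕ → ℕ} {V T Q₀ B : Finset ℕ} {l R t P ρ : ℕ} {lev : ℕ → ℕ → ℕ}

/-- the sets of small rank are small -/
def PB (c : ℕ → ℕ → ℕ) (V : Finset ℕ) (l P ρ : ℕ) : Prop :=
  ∀ T ⊆ V, ∀ r ≤ ρ, Rk c T r → T.card ≤ P * l ^ r

/-- colour classes at the end of long paths are small -/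
theorem card_class_le' (hl : 1 ≤ l) (hL : Lev c V l lev) (hR : Rk c V R) (hP : PB c V l P ρ)
    {x g k : ℕ} {D : Finset ℕ} (hD : RP c V x D) (hg : g ∉ D) (hk : k ≤ D.card)
    (hkρ : R - k ≤ ρ) (hTV : T ⊆ V) (hT : ∀ v ∈ T, x < v ∧ c x v = g) :
    T.card ≤ l ^ (R + 1) * P := by
  obtain ⟨D', hD', hcard, hRP⟩ := hD.suffix k hk
  have hkR : k ≤ R := hk.trans (hR _ _ hD)
  have h1 := card_class_le hL hR (j := k) (N := P * l ^ (R - k - 1))
    (fun T' hT' h => hP T' hT' (R - k - 1) (by omega) h) hRP hcard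
    (fun h => hg (hD' h)) hTV hT
  refine h1.trans ?_
  calc l ^ (k + 1) * (P * l ^ (R - k - 1)) = l ^ (k + 1 + (R - k - 1)) * P := by
        rw [pow_add]; ring
    _ ≤ l ^ (R + 1) * P := Nat.mul_le_mul_right _ (Nat.pow_le_pow_right hl (by omega))

/-- PROPAGATION -/
theorem propagate (hl : 2 ≤ l) (hL : Lev c V l lev) (hR : Rk c V R)
    {Θ : Finset ℕ} (hΘ : Θ.card + t = R) (hQ : Q₀ ⊆ V) (hQ1 : Q₀.Nonempty) (hB : B ⊆ V)
    (hQB : ∀ v ∈ Q₀, ∀ w ∈ B, v < w) (hF : ∀ v ∈ Q₀, RP c V v Θ)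
    (hmaj : ∀ v ∈ Q₀, B.card ≤ 2 * (B.filter fun w => c v w ∈ Θ).card) {i : ℕ}
    (hnum : 2 * (t + 1) ^ 2 * l ^ (R + t + 1) < Q₀.card * 2 ^ i) :
    B.card ≤ 4 * (B.filter fun w => ∃ D ⊆ Θ, RP c V w D ∧ R ≤ D.card + t + i).card := by
  obtain ⟨Q', hQ'Q, hcol, hcard⟩ := extraction hl hL hR hΘ hQ hF
  have hQ'V : Q' ⊆ V := hQ'Q.trans hQ
  have hQ'pos : 0 < Q'.card := by
    rcases Nat.eq_zero_or_pos Q'.card with h0 | h0
    · rw [h0, Nat.mul_zero] at hcard
      have := Finset.card_pos.mpr hQ1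
      omega
    · exact h0
  set G := B.filter fun w => Q'.card ≤ 4 * (Q'.filter fun v => c v w ∈ Θ).card with hG
  -- double counting
  have h1 : Q'.card * B.card ≤ 2 * ∑ w ∈ B, (Q'.filter fun v => c v w ∈ Θ).card := by
    have h2 : ∑ w ∈ B, (Q'.filter fun v => c v w ∈ Θ).card =
        ∑ v ∈ Q', (B.filter fun w => c v w ∈ Θ).card := by
      simp only [Finset.card_filter]
      exact Finset.sum_comm
    rw [h2, Finset.mul_sum, ← smul_eq_mul, ← Finset.sum_const]
    exact Finset.sum_le_sum fun v hv => hmaj v (hQ'Q hv)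
  have h2 : 4 * ∑ w ∈ B, (Q'.filter fun v => c v w ∈ Θ).card ≤
      4 * (G.card * Q'.card) + B.card * Q'.card := by
    have h3 : ∀ w ∈ B, 4 * (Q'.filter fun v => c v w ∈ Θ).card ≤
        (if Q'.card ≤ 4 * (Q'.filter fun v => c v w ∈ Θ).card then 4 * Q'.card else 0) +
          Q'.card := by
      intro w _
      split_ifs with h4
      · have := Finset.card_filter_le Q' (fun v => c v w ∈ Θ)
        omega
      · omega
    rw [Finset.mul_sum]
    refine (Finset.sum_le_sum h3).trans ?_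
    rw [Finset.sum_add_distrib, Finset.sum_const, smul_eq_mul, ← Finset.sum_filter,
      Finset.sum_const, smul_eq_mul]
    refine Nat.add_le_add_right (le_of_eq ?_) _
    rw [hG]
    ring
  have h3 : B.card ≤ 4 * G.card := by
    have h4 : B.card * Q'.card ≤ (4 * G.card) * Q'.card := by
      have e1 : Q'.card * B.card = B.card * Q'.card := Nat.mul_comm _ _
      have e2 : (4 * G.card) * Q'.card = 4 * (G.card * Q'.card) := by ring
      omega
    exact Nat.le_of_mul_le_mul_right h4 hQ'pos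
  refine h3.trans (Nat.mul_le_mul_left _ (Finset.card_le_card ?_))
  -- the anchored count
  intro w hw
  obtain ⟨hwB, hw4⟩ := Finset.mem_filter.mp hw
  refine Finset.mem_filter.mpr ⟨hwB, ?_⟩
  by_contra hcon
  push Not at hcon
  set Qw := Q'.filter fun v => c v w ∈ Θ with hQw
  have hQwQ : Qw ⊆ Q' := Finset.filter_subset _ _
  have hQwV : Qw ⊆ V := hQwQ.trans hQ'V
  have hwV := hB hwB
  have hcolsub : ∀ D v, RP c (insert w Qw) v D → D ⊆ Θ := by
    intro D v h
    induction h with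
    | single _ => exact Finset.empty_subset _
    | @step x y D h hy hlt hc ih =>
      intro γ hγ
      rcases Finset.mem_insert.mp hγ with rfl | hγ
      · have hx := h.mem
        rcases Finset.mem_insert.mp hx with rfl | hx'
        · exfalso
          rcases Finset.mem_insert.mp hy with rfl | hy'
          · exact lt_irrefl _ hlt
          · exact lt_asymm hlt (hQB y (hQ'Q (hQwQ hy')) _ hwB)
        · rcases Finset.mem_insert.mp hy with rfl | hy'
          · exact (Finset.mem_filter.mp hx').2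
          · exact hcol _ (hQwQ hx') _ (hQwQ hy') hlt
      · exact ih hγ
  have hlt : ∀ D, RP c (insert w Qw) w D → D.card + t + i < R := fun D hD =>
    hcon D (hcolsub D w hD) (hD.mono (Finset.insert_subset hwV hQwV))
  have h0 := hlt ∅ (RP.single (Finset.mem_insert_self _ _))
  rw [Finset.card_empty] at h0
  have h5 := card_anchored_le hl hL (r := R - t - i - 1) hQwV hwV
    (fun v hv => hQB v (hQ'Q (hQwQ hv)) w hwB)
    (fun u hu v hv huv => hcol u (hQwQ hu) v (hQwQ hv) huv)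
    (fun D hD => by have := hlt D hD; omega)
  have h6 : 2 ^ Θ.card = 2 ^ (R - t - i - 1) * 2 ^ (i + 1) := by
    rw [← pow_add]; congr 1; omega
  have h7 : Qw.card * 2 ^ (i + 1) ≤ l ^ (Θ.card + 1) := by
    rw [h6] at h5
    have hpos : 0 < 2 ^ (R - t - i - 1) := by positivity
    refine Nat.le_of_mul_le_mul_left ?_ hpos
    calc 2 ^ (R - t - i - 1) * (Qw.card * 2 ^ (i + 1))
        = Qw.card * (2 ^ (R - t - i - 1) * 2 ^ (i + 1)) := by ring
      _ ≤ 2 ^ (R - t - i - 1) * l ^ (Θ.card + 1) := h5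
  have h8 : Q₀.card * 2 ^ (i + 1) ≤ 2 * (2 * (t + 1) ^ 2 * l ^ (R + t + 1)) := by
    calc Q₀.card * 2 ^ (i + 1)
        ≤ ((t + 1) ^ 2 * l ^ (2 * t) * Q'.card) * 2 ^ (i + 1) := Nat.mul_le_mul_right _ hcard
      _ ≤ ((t + 1) ^ 2 * l ^ (2 * t) * (4 * Qw.card)) * 2 ^ (i + 1) :=
          Nat.mul_le_mul_right _ (Nat.mul_le_mul_left _ hw4)
      _ = 4 * (t + 1) ^ 2 * l ^ (2 * t) * (Qw.card * 2 ^ (i + 1)) := by ring
      _ ≤ 4 * (t + 1) ^ 2 * l ^ (2 * t) * l ^ (Θ.card + 1) := Nat.mul_le_mul_left _ h7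
      _ = 4 * (t + 1) ^ 2 * (l ^ (2 * t) * l ^ (Θ.card + 1)) := by ring
      _ = 4 * (t + 1) ^ 2 * l ^ (R + t + 1) := by
          rw [← pow_add]; congr 2; omega
      _ = 2 * (2 * (t + 1) ^ 2 * l ^ (R + t + 1)) := by ring
  have h9 : Q₀.card * 2 ^ (i + 1) = 2 * (Q₀.card * 2 ^ i) := by rw [pow_succ]; ring
  omega

/-- the vertices at the end of a longest rainbow path -/
noncomputable def VR (c : ℕ → ℕ → ℕ) (V : Finset ℕ) (R : ℕ) : Finset ℕ :=
  V.filter fun x => ∃ D, RP c V x D ∧ R ≤ D.card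

theorem VR_subset : VR c V R ⊆ V := Finset.filter_subset _ _

/-- the colours of the edges leaving a vertex of `VR` -/
theorem exists_out (hR : Rk c V R) {x : ℕ} (hx : x ∈ VR c V R) :
    ∃ D : Finset ℕ, D.card ≤ R ∧ RP c V x D ∧ ∀ w ∈ V, x < w → c x w ∈ D := by
  obtain ⟨hxV, D, hD, hRD⟩ := Finset.mem_filter.mp hx
  refine ⟨D, hR _ _ hD, hD, fun w hw hlt => ?_⟩
  by_contra hnot
  have := hR _ _ (RP.step hD hw hlt hnot)
  rw [Finset.card_insert_of_notMem hnot] at this
  omega

/-- ONE ROUND -/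
theorem round (hl : 2 ≤ l) (hL : Lev c V l lev) (hR : Rk c V R)
    {Th q β i : ℕ} (hq : 1 ≤ q) (hqβ : 2 * R * q ≤ β)
    (hnum : 2 * (Th + 1) ^ 2 * l ^ (R + Th + 1) < q * 2 ^ i) : ∀ t ≤ Th, ∀ (Θ Q₀ : Finset ℕ) (W : ℕ → Finset ℕ),
      Θ.card + t = R → Q₀ ⊆ VR c V R → (∀ v ∈ Q₀, RP c V v Θ) → q ≤ Q₀.card →
      (∀ k ≤ t, W k ⊆ VR c V R) → (∀ k ≤ t, ∀ v ∈ Q₀, ∀ w ∈ W k, v < w) →
      (∀ k k', k < k' → k' ≤ t → ∀ a ∈ W k, ∀ b ∈ W k', a < b) → (∀ k ≤ t, β ≤ (W k).card) →
      ∃ (Θ' : Finset ℕ) (t' k : ℕ), t' ≤ Th ∧ Θ'.card + t' = R ∧ k ≤ t ∧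
        (W k).card ≤ 4 * ((W k).filter fun w => ∃ D ⊆ Θ', RP c V w D ∧
          R ≤ D.card + t' + i).card := by
  intro t
  induction t with
  | zero =>
    intro _ Θ Q₀ W hΘ hQ hF hqQ hW hQW hWW hβ
    refine ⟨Θ, 0, 0, Nat.zero_le _, hΘ, le_rfl, ?_⟩
    have hQ1 : Q₀.Nonempty := Finset.card_pos.mp (by omega)
    refine propagate hl hL hR hΘ (hQ.trans VR_subset) hQ1 ((hW 0 le_rfl).trans VR_subset)
      (hQW 0 le_rfl) hF ?_ ?_
    · intro v hv
      have : ((W 0).filter fun w => c v w ∈ Θ) = W 0 := by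
        rw [Finset.filter_true_of_mem]
        intro w hw
        by_contra hnot
        have := hR _ _ (RP.step (hF v hv) (VR_subset (hW 0 le_rfl hw)) (hQW 0 le_rfl v hv w hw) hnot)
        rw [Finset.card_insert_of_notMem hnot] at this
        omega
      rw [this]
      omega
    · refine lt_of_le_of_lt ?_ (lt_of_lt_of_le hnum (Nat.mul_le_mul_right _ hqQ))
      exact Nat.mul_le_mul (Nat.mul_le_mul_left _ (Nat.pow_le_pow_left (by omega) _))
        (Nat.pow_le_pow_right (by omega) (by omega))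
  | succ t ih =>
    intro ht Θ Q₀ W hΘ hQ hF hqQ hW hQW hWW hβ
    by_cases hmaj : ∀ v ∈ Q₀, (W 0).card ≤ 2 * ((W 0).filter fun w => c v w ∈ Θ).card
    · refine ⟨Θ, t + 1, 0, ht, hΘ, Nat.zero_le _, ?_⟩
      have hQ1 : Q₀.Nonempty := Finset.card_pos.mp (by omega)
      refine propagate hl hL hR hΘ (hQ.trans VR_subset) hQ1
        ((hW 0 (Nat.zero_le _)).trans VR_subset)
        (hQW 0 (Nat.zero_le _)) hF hmaj ?_
      refine lt_of_le_of_lt ?_ (lt_of_lt_of_le hnum (Nat.mul_le_mul_right _ hqQ))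
      exact Nat.mul_le_mul (Nat.mul_le_mul_left _ (Nat.pow_le_pow_left (by omega) _))
        (Nat.pow_le_pow_right (by omega) (by omega))
    · push Not at hmaj
      obtain ⟨v, hv, hlt⟩ := hmaj
      obtain ⟨Dv, hDc, hDv, hout⟩ := exists_out hR (hQ hv)
      have hW0V : W 0 ⊆ V := (hW 0 (Nat.zero_le _)).trans VR_subset
      -- a popular colour outside of `Θ`
      obtain ⟨g, hg, hbig⟩ : ∃ g ∉ Θ, (W 0).card ≤ 2 * R * ((W 0).filter fun w => c v w = g).card := by
        by_contra hcon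
        push Not at hcon
        have hmaps : ∀ w ∈ (W 0).filter (fun w => c v w ∉ Θ), c v w ∈ Dv \ Θ := by
          intro w hw
          obtain ⟨hw1, hw2⟩ := Finset.mem_filter.mp hw
          exact Finset.mem_sdiff.mpr
            ⟨hout w (hW0V hw1) (hQW 0 (Nat.zero_le _) v hv w hw1), hw2⟩
        have h1 := Finset.card_eq_sum_card_fiberwise hmaps
        have h2 : 2 * R * ∑ b ∈ Dv \ Θ, (((W 0).filter fun w => c v w ∉ Θ).filter
            fun w => c v w = b).card ≤ (Dv \ Θ).card * (W 0).card := by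
          rw [Finset.mul_sum, ← smul_eq_mul (Finset.card _), ← Finset.sum_const]
          refine Finset.sum_le_sum fun b hb => ?_
          refine le_trans (Nat.mul_le_mul_left _ (Finset.card_le_card ?_))
            (hcon b (Finset.mem_sdiff.mp hb).2).le
          intro w hw
          rw [Finset.mem_filter] at hw ⊢
          exact ⟨(Finset.mem_filter.mp hw.1).1, hw.2⟩
        rw [← h1] at h2
        have h3 : (Dv \ Θ).card ≤ R := (Finset.card_le_card Finset.sdiff_subset).trans hDc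
        have h4 : ((W 0).filter fun w => c v w ∈ Θ).card + ((W 0).filter fun w => c v w ∉ Θ).card =
            (W 0).card := Finset.card_filter_add_card_filter_not _
        have h5 : (W 0).card < 2 * ((W 0).filter fun w => c v w ∉ Θ).card := by omega
        have hR0 : 0 < R := by omega
        have h6 : R * (W 0).card < R * (2 * ((W 0).filter fun w => c v w ∉ Θ).card) :=
          Nat.mul_lt_mul_of_pos_left h5 hR0
        have h7 : (Dv \ Θ).card * (W 0).card ≤ R * (W 0).card := Nat.mul_le_mul_right _ h3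
        have h8 : R * (2 * ((W 0).filter fun w => c v w ∉ Θ).card) =
            2 * R * ((W 0).filter fun w => c v w ∉ Θ).card := by ring
        omega
      have hR0 : 0 < R := by omega
      obtain ⟨Θ', t', k, h1, h2, h3, h4⟩ := ih (by omega) (insert g Θ)
        ((W 0).filter fun w => c v w = g) (fun k => W (k + 1))
        (by rw [Finset.card_insert_of_notMem hg]; omega)
        ((Finset.filter_subset _ _).trans (hW 0 (Nat.zero_le _)))
        (by
          intro w hw
          obtain ⟨hw1, hw2⟩ := Finset.mem_filter.mp hw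
          have := RP.step (hF v hv) (hW0V hw1) (hQW 0 (Nat.zero_le _) v hv w hw1)
            (by rw [hw2]; exact hg)
          rwa [hw2] at this)
        (by
          have h5 : 2 * R * q ≤ 2 * R * ((W 0).filter fun w => c v w = g).card :=
            hqβ.trans ((hβ 0 (Nat.zero_le _)).trans hbig)
          exact Nat.le_of_mul_le_mul_left h5 (by omega))
        (fun k hk => hW (k + 1) (by omega))
        (by
          intro k hk a ha b hb
          exact hWW 0 (k + 1) (by omega) (by omega) a (Finset.mem_filter.mp ha).1 b hb)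
        (fun k k' hkk hk' => hWW (k + 1) (k' + 1) (by omega) (by omega))
        (fun k hk => hβ (k + 1) (by omega))
      exact ⟨Θ', t', k + 1, h1, h2, by omega, h4⟩

/-- THE FINAL COUNT -/
theorem final_count (hl : 1 ≤ l) (hL : Lev c V l lev) (hR : Rk c V R) (hP : PB c V l P ρ)
    {Θ : Finset ℕ} {i : ℕ} (hΘ : Θ.card + t = R) (hρ : t + i ≤ ρ) :
    (V.filter fun w => ∃ D ⊆ Θ, RP c V w D ∧ R ≤ D.card + t + i).card ≤ P * l ^ (R + i) := by
  set S := V.filter fun w => ∃ D ⊆ Θ, RP c V w D ∧ R ≤ D.card + t + i with hS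
  have hSV : S ⊆ V := Finset.filter_subset _ _
  have h1 : S.card ≤ l ^ Θ.card * (P * l ^ (t + i)) := by
    refine card_le_of_levels hL.lt _ Θ S hSV ?_
    intro T' hT' hconst
    have hT'V := hT'.trans hSV
    have hrk : Rk c T' (t + i) := by
      intro y D' hD'
      have hdis : Disjoint D' Θ := by
        rw [Finset.disjoint_right]
        intro γ hγ
        exact hD'.notMem_of_free (hL.free hT'V (hconst γ hγ))
      have := card_add_le (Θ := Θ) (e := R - t - i) hR hD' hT'V (by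
        intro v hv
        obtain ⟨D, h2, h3, h4⟩ := (Finset.mem_filter.mp (hT' hv)).2
        exact ⟨D, h2, by omega, h3⟩) hdis
      omega
    exact hP T' hT'V _ hρ hrk
  refine h1.trans (le_of_eq ?_)
  rw [← hΘ]
  rw [show Θ.card + t + i = Θ.card + (t + i) by ring, pow_add]
  ring

end FlashRainbow
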