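import Pool.Agent.Work.MP_54723a_co.SplitGlobal
import Pool.Agent.Work.MP_54723a_co.Bound

/-!
# Note 7626 in one line: the doubly anchored class may be larger by `o(2 ^ R)`

`Mx R` = the largest `|V|` for `V` without 3-flash and of rank `≤ R`; `Dx R` = the largest `|V|` for
`V` without 3-flash, of rank `≤ R + 1`, with `DA c V R`.

* blow-up: `3 * Dx R ≤ Dx (R + 1)` (`Dx_succ`); split: `Mx (R + 1) ≤ 2 * Mx R + Dx R` (`Mx_succ`);
  so `2 * (Dx R - Mx R) ≤ Dx (R + 1) - Mx (R + 1)` (`gap_succ`).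
* `Bnd_of_gap` : if for every `R₀` there are `n` and `e < 2 ^ n` with `Dx (R₀ + n) ≤ Mx (R₀ + n) + e`
  then `Bnd 3` (`|V| ≤ 3 ^ R` for all ranks, hence `f(3,k) = 3 ^ (k-1)`).
* `Bnd_of_tendsto` : the same from `(Dx R - Mx R) / 2 ^ R → 0`.
-/

set_option autoImplicit false

namespace FlashRainbow

open Classical

variable {c : ℕ → ℕ → ℕ} {V : Finset ℕ} {l R ρ : ℕ} {lev : ℕ → ℕ → ℕ}

/-! ## Blow-up of the vertices by `l`-chains in a new colour -/

/-- the colouring of the blow-up: colour `0` inside the blocks, the old colours plus one between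
them -/
def bc (l : ℕ) (c : ℕ → ℕ → ℕ) (x y : ℕ) : ℕ := if x / l = y / l then 0 else c (x / l) (y / l) + 1

/-- the vertex set of the blow-up -/
def bV (l : ℕ) (V : Finset ℕ) : Finset ℕ :=
  (V ×ˢ Finset.range l).image fun p => l * p.1 + p.2

/-- the levels of the blow-up -/
def bL (l : ℕ) (lev : ℕ → ℕ → ℕ) (γ x : ℕ) : ℕ := if γ = 0 then x % l else lev (γ - 1) (x / l)

theorem mem_bV (hl : 1 ≤ l) {x : ℕ} : x ∈ bV l V ↔ x / l ∈ V := by
  rw [bV, Finset.mem_image]
  constructor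
  · rintro ⟨⟨v, i⟩, hp, rfl⟩
    rw [Finset.mem_product, Finset.mem_range] at hp
    have : (l * v + i) / l = v := by
      rw [Nat.mul_add_div (by omega), Nat.div_eq_of_lt hp.2, Nat.add_zero]
    rw [this]
    exact hp.1
  · intro h
    refine ⟨(x / l, x % l), ?_, Nat.div_add_mod x l⟩
    rw [Finset.mem_product, Finset.mem_range]
    exact ⟨h, Nat.mod_lt _ hl⟩

theorem card_bV : (bV l V).card = V.card * l := by
  rw [bV, Finset.card_image_of_injOn, Finset.card_product, Finset.card_range]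
  rintro ⟨v, i⟩ hp ⟨w, j⟩ hq h
  rw [Finset.mem_coe, Finset.mem_product, Finset.mem_range] at hp hq
  obtain ⟨_, hp⟩ := hp
  obtain ⟨_, hq⟩ := hq
  simp only at hp hq h
  have h1 : (l * v + i) / l = v := by
    rw [Nat.mul_add_div (by omega), Nat.div_eq_of_lt hp, Nat.add_zero]
  have h2 : (l * w + j) / l = w := by
    rw [Nat.mul_add_div (by omega), Nat.div_eq_of_lt hq, Nat.add_zero]
  have h3 : v = w := by rw [← h1, ← h2, h]
  subst h3
  have h4 : i = j := by omega
  rw [h4]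

theorem Lev_blow (hl : 1 ≤ l) (hL : Lev c V l lev) : Lev (bc l c) (bV l V) l (bL l lev) := by
  constructor
  · intro γ v hv
    rw [mem_bV hl] at hv
    rw [bL]
    split_ifs with h
    · exact Nat.mod_lt _ hl
    · exact hL.lt _ _ hv
  · intro u hu v hv huv
    rw [mem_bV hl] at hu hv
    rw [bc]
    split_ifs with h
    · simp only [bL, if_true]
      have h1 := Nat.div_add_mod u l
      have h2 := Nat.div_add_mod v l
      rw [h] at h1
      omega
    · have h1 : u / l < v / l := lt_of_le_of_ne (Nat.div_le_div_right huv.le) h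
      have h2 := hL.up _ hu _ hv h1
      simpa [bL] using h2

theorem RP.contract (hl : 1 ≤ l) {x : ℕ} {D : Finset ℕ} (h : RP (bc l c) (bV l V) x D) :
    ∃ D₀, RP c V (x / l) D₀ ∧ D.erase 0 = D₀.image Nat.succ := by
  induction h with
  | @single x hx => exact ⟨∅, RP.single ((mem_bV hl).mp hx), by simp⟩
  | @step x y D h hy hlt hc ih =>
    obtain ⟨D₀, hD₀, he⟩ := ih
    by_cases hxy : x / l = y / l
    · have hc0 : bc l c x y = 0 := by rw [bc, if_pos hxy]
      rw [hc0] at hc ⊢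
      refine ⟨D₀, by rw [← hxy]; exact hD₀, ?_⟩
      rw [Finset.erase_insert hc, ← he, Finset.erase_eq_of_notMem hc]
    · have hc1 : bc l c x y = Nat.succ (c (x / l) (y / l)) := by rw [bc, if_neg hxy]
      rw [hc1] at hc ⊢
      have hlt' : x / l < y / l := lt_of_le_of_ne (Nat.div_le_div_right hlt.le) hxy
      refine ⟨insert (c (x / l) (y / l)) D₀, RP.step hD₀ ((mem_bV hl).mp hy) hlt' ?_, ?_⟩
      · intro hm
        have h1 : Nat.succ (c (x / l) (y / l)) ∈ D.erase 0 := by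
          rw [he]
          exact Finset.mem_image_of_mem _ hm
        exact hc (Finset.mem_of_mem_erase h1)
      · rw [Finset.image_insert, ← he, Finset.erase_insert_of_ne (Nat.succ_ne_zero _)]

theorem RS.contract (hl : 1 ≤ l) {x : ℕ} {D : Finset ℕ} (h : RS (bc l c) (bV l V) x D) :
    ∃ D₀, RS c V (x / l) D₀ ∧ D.erase 0 = D₀.image Nat.succ := by
  induction h with
  | @single x hx => exact ⟨∅, RS.single ((mem_bV hl).mp hx), by simp⟩
  | @step x y D h hx hlt hc ih =>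
    obtain ⟨D₀, hD₀, he⟩ := ih
    by_cases hxy : x / l = y / l
    · have hc0 : bc l c x y = 0 := by rw [bc, if_pos hxy]
      rw [hc0] at hc ⊢
      refine ⟨D₀, by rw [hxy]; exact hD₀, ?_⟩
      rw [Finset.erase_insert hc, ← he, Finset.erase_eq_of_notMem hc]
    · have hc1 : bc l c x y = Nat.succ (c (x / l) (y / l)) := by rw [bc, if_neg hxy]
      rw [hc1] at hc ⊢
      have hlt' : x / l < y / l := lt_of_le_of_ne (Nat.div_le_div_right hlt.le) hxy
      refine ⟨insert (c (x / l) (y / l)) D₀, RS.step hD₀ ((mem_bV hl).mp hx) hlt' ?_, ?_⟩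
      · intro hm
        have h1 : Nat.succ (c (x / l) (y / l)) ∈ D.erase 0 := by
          rw [he]
          exact Finset.mem_image_of_mem _ hm
        exact hc (Finset.mem_of_mem_erase h1)
      · rw [Finset.image_insert, ← he, Finset.erase_insert_of_ne (Nat.succ_ne_zero _)]

theorem card_contract {D D₀ : Finset ℕ} (h : D.erase 0 = D₀.image Nat.succ) :
    D.card ≤ D₀.card + 1 := by
  have h1 : (D₀.image Nat.succ).card = D₀.card :=
    Finset.card_image_of_injective _ Nat.succ_injective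
  have h2 : D.card - 1 ≤ (D.erase 0).card := Finset.pred_card_le_card_erase
  rw [h] at h2
  omega

theorem Rk_blow (hl : 1 ≤ l) (h : Rk c V ρ) : Rk (bc l c) (bV l V) (ρ + 1) := by
  intro y D hD
  obtain ⟨D₀, hD₀, he⟩ := hD.contract hl
  have h1 := h _ _ hD₀
  have h2 := card_contract he
  omega

theorem DA_blow (hl : 1 ≤ l) (h : DA c V R) : DA (bc l c) (bV l V) (R + 1) := by
  have hmem : ∀ v ∈ V, ∀ i < l, l * v + i ∈ bV l V := by
    intro v hv i hi
    rw [mem_bV hl, Nat.mul_add_div (by omega), Nat.div_eq_of_lt hi, Nat.add_zero]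
    exact hv
  constructor
  · rintro x hx hm ⟨D, hD, hc⟩
    obtain ⟨D₀, hD₀, he⟩ := hD.contract hl
    have h2 := card_contract he
    obtain ⟨D₁, _, hD₁, hR₁⟩ := hD₀.initial (R + 1) (by omega)
    refine h.1 (x / l) ((mem_bV hl).mp hx) ?_ ⟨D₁, hR₁, hD₁⟩
    intro v hv
    have h3 := hm _ (hmem v hv 0 (by omega))
    calc x / l ≤ (l * v + 0) / l := Nat.div_le_div_right h3
      _ = v := by rw [Nat.add_zero, Nat.mul_div_cancel_left _ (by omega)]
  · rintro x hx hm ⟨D, hD, hc⟩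
    obtain ⟨D₀, hD₀, he⟩ := hD.contract hl
    have h2 := card_contract he
    obtain ⟨D₁, _, hD₁, hR₁⟩ := hD₀.suffix (R + 1) (by omega)
    refine h.2 (x / l) ((mem_bV hl).mp hx) ?_ ⟨D₁, hR₁, hD₁⟩
    intro v hv
    have h3 := hm _ (hmem v hv 0 (by omega))
    calc v = (l * v + 0) / l := by rw [Nat.add_zero, Nat.mul_div_cancel_left _ (by omega)]
      _ ≤ x / l := Nat.div_le_div_right h3

/-- blow-up of an anchored set -/
theorem DB_blow (hl : 1 ≤ l) {N : ℕ} (h : DB l (R + 1) (ρ + 1) N) (hL : Lev c V l lev)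
    (hR : Rk c V ρ) (hD : DA c V R) : V.card * l ≤ N := by
  rw [← card_bV]
  exact h _ _ _ (Lev_blow hl hL) (Rk_blow hl hR) (DA_blow hl hD)

/-- blow-up of a set of rank at most `R` -/
theorem MB_blow (hl : 1 ≤ l) {N : ℕ} (h : MB l (R + 1) N) (hL : Lev c V l lev) (hR : Rk c V R) :
    V.card * l ≤ N := by
  rw [← card_bV]
  exact h _ _ _ (Lev_blow hl hL) (Rk_blow hl hR)

/-! ## The two extremal numbers -/

theorem exists_MB (R : ℕ) : ∃ N, MB 3 R N := by
  obtain ⟨K, hK⟩ := poly_bound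
  exact ⟨K * (R + 1) ^ 5 * 3 ^ R, fun c V lev hL hR => hK 3 (by norm_num) c lev R V hL hR⟩

theorem exists_DB (R : ℕ) : ∃ N, DB 3 R (R + 1) N := by
  obtain ⟨N, hN⟩ := exists_MB (R + 1)
  exact ⟨N, fun c V lev hL hR _ => hN c V lev hL hR⟩

/-- the largest `|V|` for `V` without 3-flash and of rank at most `R` -/
noncomputable def Mx (R : ℕ) : ℕ := Nat.find (exists_MB R)

/-- the largest `|V|` for `V` without 3-flash, of rank at most `R + 1`, doubly anchored at `R` -/
noncomputable def Dx (R : ℕ) : ℕ := Nat.find (exists_DB R)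

theorem Mx_spec (R : ℕ) : MB 3 R (Mx R) := Nat.find_spec (exists_MB R)

theorem Dx_spec (R : ℕ) : DB 3 R (R + 1) (Dx R) := Nat.find_spec (exists_DB R)

theorem Mx_le {N : ℕ} (h : MB 3 R N) : Mx R ≤ N := Nat.find_min' (exists_MB R) h

theorem Dx_le {N : ℕ} (h : DB 3 R (R + 1) N) : Dx R ≤ N := Nat.find_min' (exists_DB R) h

/-- `Mx R` is attained -/
theorem Mx_attained (R : ℕ) : ∃ (c : ℕ → ℕ → ℕ) (V : Finset ℕ) (lev : ℕ → ℕ → ℕ),
    Lev c V 3 lev ∧ Rk c V R ∧ V.card = Mx R := by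
  by_contra hcon
  push Not at hcon
  have h1 : ∀ (c : ℕ → ℕ → ℕ) (V : Finset ℕ) (lev : ℕ → ℕ → ℕ), Lev c V 3 lev → Rk c V R →
      V.card < Mx R := fun c V lev hL hR =>
    lt_of_le_of_ne (Mx_spec R c V lev hL hR) (hcon c V lev hL hR)
  have h2 : 0 < Mx R := by
    have := h1 (fun _ _ => 0) ∅ (fun _ _ => 0)
      ⟨fun _ v hv => absurd hv (Finset.notMem_empty _),
        fun u hu => absurd hu (Finset.notMem_empty _)⟩
      (fun y D hD => absurd hD.mem (Finset.notMem_empty _))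
    omega
  have h3 : MB 3 R (Mx R - 1) := fun c V lev hL hR => by
    have := h1 c V lev hL hR
    omega
  have := Mx_le h3
  omega

/-- `Dx R` is attained -/
theorem Dx_attained (R : ℕ) : ∃ (c : ℕ → ℕ → ℕ) (V : Finset ℕ) (lev : ℕ → ℕ → ℕ),
    Lev c V 3 lev ∧ Rk c V (R + 1) ∧ DA c V R ∧ V.card = Dx R := by
  by_contra hcon
  push Not at hcon
  have h1 : ∀ (c : ℕ → ℕ → ℕ) (V : Finset ℕ) (lev : ℕ → ℕ → ℕ), Lev c V 3 lev →
      Rk c V (R + 1) → DA c V R → V.card < Dx R := fun c V lev hL hR hD =>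
    lt_of_le_of_ne (Dx_spec R c V lev hL hR hD) (hcon c V lev hL hR hD)
  have h2 : 0 < Dx R := by
    have := h1 (fun _ _ => 0) ∅ (fun _ _ => 0)
      ⟨fun _ v hv => absurd hv (Finset.notMem_empty _),
        fun u hu => absurd hu (Finset.notMem_empty _)⟩
      (fun y D hD => absurd hD.mem (Finset.notMem_empty _))
      ⟨fun x hx => absurd hx (Finset.notMem_empty _), fun x hx => absurd hx (Finset.notMem_empty _)⟩
    omega
  have h3 : DB 3 R (R + 1) (Dx R - 1) := fun c V lev hL hR hD => by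
    have := h1 c V lev hL hR hD
    omega
  have := Dx_le h3
  omega

/-- the split -/
theorem Mx_succ (R : ℕ) : Mx (R + 1) ≤ 2 * Mx R + Dx R :=
  Mx_le (MB_succ_of_DB (Mx_spec R) (Dx_spec R))

/-- the blow-up -/
theorem Dx_succ (R : ℕ) : 3 * Dx R ≤ Dx (R + 1) := by
  obtain ⟨c, V, lev, hL, hR, hD, hc⟩ := Dx_attained R
  have := DB_blow (by norm_num) (Dx_spec (R + 1)) hL hR hD
  omega

theorem Mx_succ_ge (R : ℕ) : 3 * Mx R ≤ Mx (R + 1) := by
  obtain ⟨c, V, lev, hL, hR, hc⟩ := Mx_attained R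
  have := MB_blow (by norm_num) (Mx_spec (R + 1)) hL hR
  omega

theorem Mx_le_Dx (R : ℕ) : Mx R ≤ Dx R :=
  Mx_le fun c V lev hL hR => Dx_spec R c V lev hL (hR.le (Nat.le_succ R)) (DA_of_Rk hR)

theorem Mx_zero : Mx 0 ≤ 1 := Mx_le MB_zero

/-- the gap between the two numbers at least doubles -/
theorem gap_succ (R : ℕ) : 2 * (Dx R - Mx R) ≤ Dx (R + 1) - Mx (R + 1) := by
  have h1 := Mx_succ R
  have h2 := Dx_succ R
  have h3 := Mx_le_Dx R
  omega

theorem gap_pow (R n : ℕ) : 2 ^ n * (Dx R - Mx R) ≤ Dx (R + n) - Mx (R + n) := by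
  induction n with
  | zero => simp
  | succ n ih =>
    have h1 := gap_succ (R + n)
    calc 2 ^ (n + 1) * (Dx R - Mx R) = 2 * (2 ^ n * (Dx R - Mx R)) := by ring
      _ ≤ 2 * (Dx (R + n) - Mx (R + n)) := Nat.mul_le_mul_left _ ih
      _ ≤ Dx (R + (n + 1)) - Mx (R + (n + 1)) := h1

/-- Note 7626: a gap smaller than `2 ^ n` at distance `n`, for every starting rank, gives the
full bound. -/
theorem Bnd_of_gap (h : ∀ R₀, ∃ n e, e < 2 ^ n ∧ Dx (R₀ + n) ≤ Mx (R₀ + n) + e) : Bnd 3 := by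
  have hD : ∀ R, Dx R ≤ Mx R := by
    intro R
    obtain ⟨n, e, he, hn⟩ := h R
    have h1 := gap_pow R n
    by_contra hcon
    have h2 : 1 ≤ Dx R - Mx R := by omega
    have h3 : 2 ^ n * 1 ≤ 2 ^ n * (Dx R - Mx R) := Nat.mul_le_mul_left _ h2
    omega
  have hM : ∀ R, Mx R ≤ 3 ^ R := by
    intro R
    induction R with
    | zero => exact Mx_zero
    | succ R ih =>
      have h1 := Mx_succ R
      have h2 := hD R
      have h3 : 3 ^ (R + 1) = 3 * 3 ^ R := by ring
      omega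
  intro R c V lev hL hR
  exact (Mx_spec R c V lev hL hR).trans (hM R)

/-- the same, stated with bounds instead of the extremal numbers -/
theorem Bnd_of_error (e : ℕ → ℕ) (he : ∀ R₀, ∃ n, e (R₀ + n) < 2 ^ n)
    (h : ∀ R N, MB 3 R N → DB 3 R (R + 1) (N + e R)) : Bnd 3 := by
  refine Bnd_of_gap fun R₀ => ?_
  obtain ⟨n, hn⟩ := he R₀
  exact ⟨n, e (R₀ + n), hn, Dx_le (h _ _ (Mx_spec _))⟩

/-- the same with a limit -/
theorem Bnd_of_tendsto (h : Filter.Tendsto (fun R => ((Dx R - Mx R : ℕ) : ℝ) / 2 ^ R)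
    Filter.atTop (nhds 0)) : Bnd 3 := by
  refine Bnd_of_gap fun R₀ => ?_
  have h1 := h.eventually (gt_mem_nhds (show (0 : ℝ) < 1 / 2 ^ R₀ by positivity))
  obtain ⟨S, hS⟩ := Filter.eventually_atTop.mp h1
  refine ⟨S, Dx (R₀ + S) - Mx (R₀ + S), ?_, ?_⟩
  · have h2 := hS (R₀ + S) (by omega)
    rw [div_lt_div_iff₀ (by positivity) (by positivity), one_mul, pow_add, mul_comm] at h2
    have h3 : ((Dx (R₀ + S) - Mx (R₀ + S) : ℕ) : ℝ) < 2 ^ S :=
      lt_of_mul_lt_mul_left h2 (by positivity)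
    exact_mod_cast h3
  · have := Mx_le_Dx (R₀ + S)
    omega

end FlashRainbow
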