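import Pool.Agent.Work.MP_54723a_co.PC.Roots

/-!
# Note 7601: a set without 3-flash of rank `R + 1` splits into three blocks, two of rank `≤ R` and
one inside a doubly anchored set of level `R`

* `DA c V R` : no rainbow path with `R + 1` edges starts in `min V` and none ends in `max V`.
* `split_global` : `V` without 3-flash of rank `≤ R + 1` is the union of the three fibres of a map `φ`;
  the fibres of `0` and `2` have rank `≤ R` and the fibre of `1` lies in a set `X ⊆ V` with `DA c X R`.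
* `MB l R N` : `|V| ≤ N` for all `V` without `l`-flash of rank `≤ R`;
  `DB l R ρ N` : `|V| ≤ N` for all `V` without `l`-flash of rank `≤ ρ` with `DA c V R`.
* `MB_succ_of_DB` : `MB 3 R N → DB 3 R (R + 1) N' → MB 3 (R + 1) (2 * N + N')`.
* `Bnd_of_DB` : the doubly anchored bound `DB 3 R (R + 1) (3 ^ R)` for all `R` gives `Bnd 3`.
-/

set_option autoImplicit false

namespace FlashRainbow

open Classical

variable {c : ℕ → ℕ → ℕ} {V T A : Finset ℕ} {l R g : ℕ} {lev : ℕ → ℕ → ℕ}

/-! ## The doubly anchored class -/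

/-- the two anchored conditions: no rainbow path with `R + 1` edges starts in the minimum of `V` and
none ends in the maximum of `V` -/
def DA (c : ℕ → ℕ → ℕ) (V : Finset ℕ) (R : ℕ) : Prop :=
  (∀ x ∈ V, (∀ v ∈ V, x ≤ v) → ¬ ∃ D, RS c V x D ∧ D.card = R + 1) ∧
    ∀ z ∈ V, (∀ v ∈ V, v ≤ z) → ¬ ∃ D, RP c V z D ∧ D.card = R + 1

theorem DA_of_Rk (h : Rk c V R) : DA c V R := by
  refine ⟨fun x _ _ => ?_, fun z _ _ => ?_⟩
  · rintro ⟨D, hD, hc⟩
    have := hD.card_le h
    omega
  · rintro ⟨D, hD, hc⟩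
    have := h z D hD
    omega

/-- `|V| ≤ N` for all `V` without `l`-flash and of rank at most `R` -/
def MB (l R N : ℕ) : Prop :=
  ∀ (c : ℕ → ℕ → ℕ) (V : Finset ℕ) (lev : ℕ → ℕ → ℕ), Lev c V l lev → Rk c V R → V.card ≤ N

/-- `|V| ≤ N` for all `V` without `l`-flash, of rank at most `ρ` and doubly anchored at `R` -/
def DB (l R ρ N : ℕ) : Prop :=
  ∀ (c : ℕ → ℕ → ℕ) (V : Finset ℕ) (lev : ℕ → ℕ → ℕ), Lev c V l lev → Rk c V ρ → DA c V R →
    V.card ≤ N

/-! ## Colours on a path -/

theorem RP.exists_edge {x : ℕ} {D : Finset ℕ} (h : RP c V x D) (hg : g ∈ D) :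
    ∃ v ∈ V, v ≤ x ∧ InE c V g v := by
  induction h with
  | single _ => exact absurd hg (Finset.notMem_empty _)
  | @step x y D h hy hlt hc ih =>
    rcases Finset.mem_insert.mp hg with rfl | hg
    · exact ⟨y, hy, le_rfl, x, h.mem, hlt, rfl⟩
    · obtain ⟨v, hv, hvx, hin⟩ := ih hg
      exact ⟨v, hv, hvx.trans hlt.le, hin⟩

theorem RS.exists_edge {x : ℕ} {D : Finset ℕ} (h : RS c V x D) (hg : g ∈ D) :
    ∃ v ∈ V, x ≤ v ∧ OutE c V g v := by
  induction h with
  | single _ => exact absurd hg (Finset.notMem_empty _)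
  | @step x y D h hx hlt hc ih =>
    rcases Finset.mem_insert.mp hg with rfl | hg
    · exact ⟨x, hx, le_rfl, y, h.mem, hlt, rfl⟩
    · obtain ⟨v, hv, hvx, hout⟩ := ih hg
      exact ⟨v, hv, hlt.le.trans hvx, hout⟩

/-! ## The choice of the colour -/

/-- some rainbow path with `R` edges ends in `v` -/
def PE (c : ℕ → ℕ → ℕ) (V : Finset ℕ) (R v : ℕ) : Prop := ∃ D, RP c V v D ∧ D.card = R

/-- some rainbow path with `R` edges starts in `v` -/
def PS (c : ℕ → ℕ → ℕ) (V : Finset ℕ) (R v : ℕ) : Prop := ∃ D, RS c V v D ∧ D.card = R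

/-- some `g`-free rainbow path with `R` edges ends in `v` -/
def EK (c : ℕ → ℕ → ℕ) (V : Finset ℕ) (g R v : ℕ) : Prop := ∃ D, RP c V v D ∧ D.card = R ∧ g ∉ D

/-- some `g`-free rainbow path with `R` edges starts in `v` -/
def SK (c : ℕ → ℕ → ℕ) (V : Finset ℕ) (g R v : ℕ) : Prop := ∃ D, RS c V v D ∧ D.card = R ∧ g ∉ D

theorem EK.toPE {v : ℕ} (h : EK c V g R v) : PE c V R v := by
  obtain ⟨D, hD, hc, _⟩ := h
  exact ⟨D, hD, hc⟩

theorem SK.toPS {v : ℕ} (h : SK c V g R v) : PS c V R v := by
  obtain ⟨D, hD, hc, _⟩ := h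
  exact ⟨D, hD, hc⟩

/-- a rainbow path with `R ≥ 1` edges into `v` and one from `w ≥ v` have a common colour -/
theorem exists_common (hR : Rk c V R) (hR1 : 1 ≤ R) {v w : ℕ} {D E : Finset ℕ}
    (hD : RP c V v D) (hDc : D.card = R) (hE : RS c V w E) (hEc : E.card = R) (hvw : v ≤ w) :
    ∃ g, g ∈ D ∧ g ∈ E := by
  by_contra hcon
  push Not at hcon
  have hdis : Disjoint D E := Finset.disjoint_left.mpr hcon
  rcases hvw.eq_or_lt with rfl | hlt
  · obtain ⟨z, hz⟩ := hE.join (Finset.Subset.refl V) D hD hdis.symm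
    have h1 := hR _ _ hz
    rw [Finset.card_union_of_disjoint hdis] at h1
    omega
  · by_cases he : c v w ∈ D
    · have h1 := (RS.step hE hD.mem hlt (hcon _ he)).card_le hR
      rw [Finset.card_insert_of_notMem (hcon _ he)] at h1
      omega
    · have h1 := hR _ _ (RP.step hD hE.mem hlt he)
      rw [Finset.card_insert_of_notMem he] at h1
      omega

/-- The choice of the colour: for some colour `g`, all vertices which end and start a rainbow path
with `R` edges lie between a head and a tail of `g`. -/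
theorem exists_colour (hR : Rk c V R) (hR1 : 1 ≤ R) :
    ∃ g, (∀ v ∈ V, PE c V R v → ¬ PS c V R v) ∨
      ((∃ a ∈ V, InE c V g a ∧ ∀ v ∈ V, PE c V R v → a ≤ v) ∧
        ∃ b ∈ V, OutE c V g b ∧ ∀ v ∈ V, PS c V R v → v ≤ b) := by
  by_cases hZ : ∀ v ∈ V, PE c V R v → ¬ PS c V R v
  · exact ⟨0, Or.inl hZ⟩
  push Not at hZ
  obtain ⟨z, hz, hz1, hz2⟩ := hZ
  have h1 : (V.filter fun v => PE c V R v).Nonempty := ⟨z, Finset.mem_filter.mpr ⟨hz, hz1⟩⟩
  have h2 : (V.filter fun v => PS c V R v).Nonempty := ⟨z, Finset.mem_filter.mpr ⟨hz, hz2⟩⟩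
  have h3 := Finset.mem_filter.mp (Finset.min'_mem _ h1)
  have h4 := Finset.mem_filter.mp (Finset.max'_mem _ h2)
  have h5 : ∀ v ∈ V, PE c V R v → (V.filter fun v => PE c V R v).min' h1 ≤ v := fun v hv hP =>
    Finset.min'_le _ _ (Finset.mem_filter.mpr ⟨hv, hP⟩)
  have h6 : ∀ v ∈ V, PS c V R v → v ≤ (V.filter fun v => PS c V R v).max' h2 := fun v hv hP =>
    Finset.le_max' _ _ (Finset.mem_filter.mpr ⟨hv, hP⟩)
  generalize (V.filter fun v => PE c V R v).min' h1 = vR at h3 h5
  generalize (V.filter fun v => PS c V R v).max' h2 = wR at h4 h6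
  obtain ⟨_, D, hD, hDc⟩ := h3
  obtain ⟨_, E, hE, hEc⟩ := h4
  obtain ⟨g, hgD, hgE⟩ := exists_common hR hR1 hD hDc hE hEc ((h5 z hz hz1).trans (h6 z hz hz2))
  obtain ⟨a, ha, hav, hain⟩ := hD.exists_edge hgD
  obtain ⟨b, hb, hwb, hbout⟩ := hE.exists_edge hgE
  exact ⟨g, Or.inr ⟨⟨a, ha, hain, fun v hv hP => hav.trans (h5 v hv hP)⟩,
    b, hb, hbout, fun v hv hP => (h6 v hv hP).trans hwb⟩⟩

/-! ## The three blocks -/

/-- a `g`-free set in which no vertex ends a `g`-free rainbow path with `R + 1` edges -/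
theorem rank_of_free_of_notEK (hR : Rk c V (R + 1)) (hAV : A ⊆ V)
    (hfree : ∀ u ∈ A, ∀ v ∈ A, u < v → c u v ≠ g) (hE : ∀ v ∈ A, ¬ EK c V g (R + 1) v) :
    Rk c A R := by
  intro y D hD
  have hg : g ∉ D := hD.notMem_of_free hfree
  have h1 := hR y D (hD.mono hAV)
  by_contra hcon
  exact hE y hD.mem ⟨D, hD.mono hAV, by omega, hg⟩

/-- a `g`-free set in which no vertex starts a `g`-free rainbow path with `R + 1` edges -/
theorem rank_of_free_of_notSK (hR : Rk c V (R + 1)) (hAV : A ⊆ V)
    (hfree : ∀ u ∈ A, ∀ v ∈ A, u < v → c u v ≠ g) (hS : ∀ v ∈ A, ¬ SK c V g (R + 1) v) :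
    Rk c A R := by
  intro y D hD
  obtain ⟨x, hx⟩ := hD.toRS
  have hg : g ∉ D := hD.notMem_of_free hfree
  have h1 := hR y D (hD.mono hAV)
  by_contra hcon
  exact hS x hx.mem ⟨D, hx.mono hAV, by omega, hg⟩

theorem EK.notOut {v : ℕ} (hR : Rk c V R) (h : EK c V g R v) : ¬ OutE c V g v := by
  obtain ⟨D, hD, hc, hg⟩ := h
  intro ho
  have := hD.append hg ho hR
  omega

theorem SK.notIn {v : ℕ} (hR : Rk c V R) (h : SK c V g R v) : ¬ InE c V g v := by
  obtain ⟨D, hD, hc, hg⟩ := h
  intro hi
  have := hD.prepend hg hi hR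
  omega

/-- a `g`-free subset whose minimum is a head and whose maximum is a tail of `g` is doubly
anchored -/
theorem DA_of_free {X : Finset ℕ} (hR : Rk c V (R + 1)) (hXV : X ⊆ V)
    (hfree : ∀ u ∈ X, ∀ v ∈ X, u < v → c u v ≠ g)
    (hmin : ∀ x ∈ X, (∀ v ∈ X, x ≤ v) → InE c V g x)
    (hmax : ∀ z ∈ X, (∀ v ∈ X, v ≤ z) → OutE c V g z) : DA c X R := by
  refine ⟨fun x hx hm => ?_, fun z hz hm => ?_⟩
  · rintro ⟨D, hD, hc⟩
    have hg : g ∉ D := hD.notMem_of_free hfree
    have := (hD.mono hXV).prepend hg (hmin x hx hm) hR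
    omega
  · rintro ⟨D, hD, hc⟩
    have hg : g ∉ D := hD.notMem_of_free hfree
    have := (hD.mono hXV).append hg (hmax z hz hm) hR
    omega

/-- Note 7601 for `l = 3`. -/
theorem split_global (hL : Lev c V 3 lev) (hR : Rk c V (R + 1)) :
    ∃ φ : ℕ → ℕ, (∀ v ∈ V, φ v < 3) ∧ Rk c (V.filter fun v => φ v = 0) R ∧
      Rk c (V.filter fun v => φ v = 2) R ∧
        ∃ X ⊆ V, (V.filter fun v => φ v = 1) ⊆ X ∧ DA c X R := by
  obtain ⟨g, hg⟩ := exists_colour hR (Nat.succ_pos R)
  refine ⟨fun v => if InE c V g v then (if OutE c V g v then 1 else 2)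
    else if EK c V g (R + 1) v then (if SK c V g (R + 1) v then 1 else 2) else 0, ?_, ?_, ?_, ?_⟩
  · intro v _
    dsimp only
    split_ifs <;> omega
  · -- low block
    have hkey : ∀ v ∈ (V.filter fun v => (if InE c V g v then (if OutE c V g v then 1 else 2)
        else if EK c V g (R + 1) v then (if SK c V g (R + 1) v then 1 else 2) else 0) = 0),
        ¬ InE c V g v ∧ ¬ EK c V g (R + 1) v := by
      intro v hv
      have h := (Finset.mem_filter.mp hv).2
      by_cases h1 : InE c V g v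
      · simp only [h1, if_true] at h
        split_ifs at h
      · by_cases h3 : EK c V g (R + 1) v
        · simp only [h1, h3, if_true, if_false] at h
          split_ifs at h
        · exact ⟨h1, h3⟩
    exact rank_of_free_of_notEK hR (Finset.filter_subset _ _)
      (free_of_notIn (Finset.filter_subset _ _) fun v hv => (hkey v hv).1) fun v hv => (hkey v hv).2
  · -- high block
    have hkey : ∀ v ∈ (V.filter fun v => (if InE c V g v then (if OutE c V g v then 1 else 2)
        else if EK c V g (R + 1) v then (if SK c V g (R + 1) v then 1 else 2) else 0) = 2),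
        ¬ OutE c V g v ∧ ¬ SK c V g (R + 1) v := by
      intro v hv
      have h := (Finset.mem_filter.mp hv).2
      by_cases h1 : InE c V g v
      · refine ⟨fun h2 => ?_, fun hS => hS.notIn hR h1⟩
        simp only [h1, h2, if_true] at h
        omega
      · by_cases h3 : EK c V g (R + 1) v
        · refine ⟨h3.notOut hR, fun h4 => ?_⟩
          simp only [h1, h3, h4, if_true, if_false] at h
          omega
        · simp only [h1, h3, if_false] at h
          omega
    exact rank_of_free_of_notSK hR (Finset.filter_subset _ _)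
      (free_of_notOut (Finset.filter_subset _ _) fun v hv => (hkey v hv).1)
      fun v hv => (hkey v hv).2
  · -- middle block
    have hkey : ∀ v ∈ (V.filter fun v => (if InE c V g v then (if OutE c V g v then 1 else 2)
        else if EK c V g (R + 1) v then (if SK c V g (R + 1) v then 1 else 2) else 0) = 1),
        (InE c V g v ∧ OutE c V g v) ∨ (EK c V g (R + 1) v ∧ SK c V g (R + 1) v) := by
      intro v hv
      have h := (Finset.mem_filter.mp hv).2
      by_cases h1 : InE c V g v
      · refine Or.inl ⟨h1, ?_⟩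
        by_contra h2
        simp only [h1, h2, if_true, if_false] at h
        omega
      · right
        by_cases h3 : EK c V g (R + 1) v
        · refine ⟨h3, ?_⟩
          by_contra h4
          simp only [h1, h3, h4, if_true, if_false] at h
          omega
        · simp only [h1, h3, if_false] at h
          omega
    generalize hW : (V.filter fun v => (if InE c V g v then (if OutE c V g v then 1 else 2)
        else if EK c V g (R + 1) v then (if SK c V g (R + 1) v then 1 else 2) else 0) = 1) = W at hkey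
    have hWV : W ⊆ V := by
      rw [← hW]
      exact Finset.filter_subset _ _
    rcases W.eq_empty_or_nonempty with hW0 | ⟨w, hw⟩
    · subst hW0
      refine ⟨∅, Finset.empty_subset _, Finset.Subset.refl _, ?_, ?_⟩
      · intro x hx
        exact absurd hx (Finset.notMem_empty _)
      · intro x hx
        exact absurd hx (Finset.notMem_empty _)
    -- a head below and a tail above the whole block
    have hne : (∃ a ∈ V, InE c V g a ∧ ∀ v ∈ V, EK c V g (R + 1) v → SK c V g (R + 1) v → a ≤ v) ∧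
        ∃ b ∈ V, OutE c V g b ∧ ∀ v ∈ V, EK c V g (R + 1) v → SK c V g (R + 1) v → v ≤ b := by
      rcases hg with hg | ⟨⟨a, ha, hain, hale⟩, b, hb, hbout, hble⟩
      · have hno : ∀ v ∈ V, EK c V g (R + 1) v → ¬ SK c V g (R + 1) v := fun v hv hE hS =>
          hg v hv hE.toPE hS.toPS
        rcases hkey w hw with ⟨h1, h2⟩ | ⟨h1, h2⟩
        · exact ⟨⟨w, hWV hw, h1, fun v hv hE hS => absurd hS (hno v hv hE)⟩,
            w, hWV hw, h2, fun v hv hE hS => absurd hS (hno v hv hE)⟩
        · exact absurd h2 (hno w (hWV hw) h1)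
      · exact ⟨⟨a, ha, hain, fun v hv hE _ => hale v hv hE.toPE⟩,
          b, hb, hbout, fun v hv _ hS => hble v hv hS.toPS⟩
    obtain ⟨⟨a₀, ha₀, ha₀in, ha₀le⟩, b₀, hb₀, hb₀out, hb₀le⟩ := hne
    have h1 : (V.filter fun v => InE c V g v).Nonempty := ⟨a₀, Finset.mem_filter.mpr ⟨ha₀, ha₀in⟩⟩
    have h2 : (V.filter fun v => OutE c V g v).Nonempty :=
      ⟨b₀, Finset.mem_filter.mpr ⟨hb₀, hb₀out⟩⟩
    have h3 := Finset.mem_filter.mp (Finset.min'_mem _ h1)
    have h4 := Finset.mem_filter.mp (Finset.max'_mem _ h2)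
    have h5 : ∀ v ∈ V, InE c V g v → (V.filter fun v => InE c V g v).min' h1 ≤ v := fun v hv hP =>
      Finset.min'_le _ _ (Finset.mem_filter.mpr ⟨hv, hP⟩)
    have h6 : ∀ v ∈ V, OutE c V g v → v ≤ (V.filter fun v => OutE c V g v).max' h2 :=
      fun v hv hP => Finset.le_max' _ _ (Finset.mem_filter.mpr ⟨hv, hP⟩)
    generalize (V.filter fun v => InE c V g v).min' h1 = a at h3 h5
    generalize (V.filter fun v => OutE c V g v).max' h2 = b at h4 h6
    obtain ⟨ha, hain⟩ := h3
    obtain ⟨hb, hbout⟩ := h4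
    have haW : ∀ v ∈ W, a ≤ v := by
      intro v hv
      rcases hkey v hv with ⟨h, _⟩ | ⟨hE, hS⟩
      · exact h5 v (hWV hv) h
      · exact (h5 a₀ ha₀ ha₀in).trans (ha₀le v (hWV hv) hE hS)
    have hbW : ∀ v ∈ W, v ≤ b := by
      intro v hv
      rcases hkey v hv with ⟨_, h⟩ | ⟨hE, hS⟩
      · exact h6 v (hWV hv) h
      · exact (hb₀le v (hWV hv) hE hS).trans (h6 b₀ hb₀ hb₀out)
    have hab : a ≤ b := (haW w hw).trans (hbW w hw)
    have hXmem : ∀ v, v ∈ insert a (insert b W) ↔ v = a ∨ v = b ∨ v ∈ W := by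
      intro v
      rw [Finset.mem_insert, Finset.mem_insert]
    have haX : ∀ v ∈ insert a (insert b W), a ≤ v := by
      intro v hv
      rcases (hXmem v).mp hv with rfl | rfl | hv
      · exact le_rfl
      · exact hab
      · exact haW v hv
    have hbX : ∀ v ∈ insert a (insert b W), v ≤ b := by
      intro v hv
      rcases (hXmem v).mp hv with rfl | rfl | hv
      · exact hab
      · exact le_rfl
      · exact hbW v hv
    have hXV : insert a (insert b W) ⊆ V :=
      Finset.insert_subset ha (Finset.insert_subset hb hWV)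
    refine ⟨insert a (insert b W), hXV,
      (Finset.subset_insert _ _).trans (Finset.subset_insert _ _), ?_⟩
    refine DA_of_free (g := g) hR hXV ?_ ?_ ?_
    · -- the block is free of the colour
      intro u hu v hv huv hcuv
      have hOu : OutE c V g u := ⟨v, hXV hv, huv, hcuv⟩
      have hIv : InE c V g v := ⟨u, hXV hu, huv, hcuv⟩
      have hub : u < b := lt_of_lt_of_le huv (hbX v hv)
      have hav : a < v := lt_of_le_of_lt (haX u hu) huv
      have hIu : InE c V g u := by
        rcases (hXmem u).mp hu with rfl | rfl | hu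
        · exact hain
        · exact absurd hub (lt_irrefl _)
        · rcases hkey u hu with ⟨h, _⟩ | ⟨hE, _⟩
          · exact h
          · exact absurd hOu (hE.notOut hR)
      have hOv : OutE c V g v := by
        rcases (hXmem v).mp hv with rfl | rfl | hv
        · exact absurd hav (lt_irrefl _)
        · exact hbout
        · rcases hkey v hv with ⟨_, h⟩ | ⟨_, hS⟩
          · exact h
          · exact absurd hIv (hS.notIn hR)
      obtain ⟨u', hu', hu'u, hcu⟩ := hIu
      obtain ⟨v', hv', hvv', hcv⟩ := hOv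
      have e1 := hL.up u' hu' u (hXV hu) hu'u
      have e2 := hL.up u (hXV hu) v (hXV hv) huv
      have e3 := hL.up v (hXV hv) v' hv' hvv'
      rw [hcu] at e1
      rw [hcuv] at e2
      rw [hcv] at e3
      have e4 := hL.lt g v' hv'
      omega
    · intro x hx hm
      have : x = a := le_antisymm (hm a (Finset.mem_insert_self _ _)) (haX x hx)
      rw [this]
      exact hain
    · intro z hz hm
      have : z = b := le_antisymm (hbX z hz)
        (hm b (Finset.mem_insert_of_mem (Finset.mem_insert_self _ _)))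
      rw [this]
      exact hbout

/-! ## The recursion -/

theorem MB_succ_of_DB {N N' : ℕ} (hM : MB 3 R N) (hD : DB 3 R (R + 1) N') :
    MB 3 (R + 1) (2 * N + N') := by
  intro c V lev hL hR
  obtain ⟨φ, hφ, h0, h2, X, hXV, hX, hDA⟩ := split_global hL hR
  have c0 := hM c _ lev (hL.mono (Finset.filter_subset _ _)) h0
  have c2 := hM c _ lev (hL.mono (Finset.filter_subset _ _)) h2
  have c1 : (V.filter fun v => φ v = 1).card ≤ N' :=
    (Finset.card_le_card hX).trans (hD c X lev (hL.mono hXV) (hR.sub hXV) hDA)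
  have hmaps : ∀ v ∈ V, φ v ∈ Finset.range 3 := fun v hv => Finset.mem_range.mpr (hφ v hv)
  rw [Finset.card_eq_sum_card_fiberwise hmaps, Finset.sum_range_succ, Finset.sum_range_succ,
    Finset.sum_range_succ, Finset.sum_range_zero]
  omega

theorem MB_zero : MB l 0 1 := fun _ _ _ _ h => card_le_one_of_Rk_zero h

/-- the doubly anchored bound for all levels below `R₀` gives the bound for all ranks up to `R₀` -/
theorem BndAt_of_DB {R₀ : ℕ} (h : ∀ R < R₀, DB 3 R (R + 1) (3 ^ R)) :
    ∀ R ≤ R₀, BndAt 3 R := by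
  intro R
  induction R with
  | zero =>
    intro _
    exact MB_zero
  | succ R ih =>
    intro hR
    have h1 : MB 3 (R + 1) (2 * 3 ^ R + 3 ^ R) := MB_succ_of_DB (ih (by omega)) (h R hR)
    have h2 : 2 * 3 ^ R + 3 ^ R = 3 ^ (R + 1) := by
      rw [pow_succ]
      ring
    rw [h2] at h1
    exact h1

theorem Bnd_of_DB (h : ∀ R, DB 3 R (R + 1) (3 ^ R)) : Bnd 3 :=
  fun R => BndAt_of_DB (R₀ := R) (fun R' _ => h R') R le_rfl

end FlashRainbow
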