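import Pool.Agent.Work.MP_54723a_co.Core
import Mathlib.Data.Finset.Sort
import Mathlib.Data.Fintype.Basic

/-!
# The recursive inequality
-/

set_option autoImplicit false

namespace FlashRainbow

open Classical

/-- consecutive windows -/
theorem exists_windows (V : Finset ℕ) (M w : ℕ) (h : M * w ≤ V.card) :
    ∃ W : ℕ → Finset ℕ, (∀ m < M, W m ⊆ V) ∧ (∀ m < M, w ≤ (W m).card) ∧
      ∀ m m', m < m' → m' < M → ∀ a ∈ W m, ∀ b ∈ W m', a < b := by
  set e := V.orderEmbOfFin (rfl : V.card = V.card) with he
  set W : ℕ → Finset ℕ := fun m =>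
    (Finset.univ.filter fun i : Fin V.card => m * w ≤ i ∧ (i : ℕ) < (m + 1) * w).map
      e.toEmbedding with hW
  have hmem : ∀ m a, a ∈ W m ↔ ∃ i : Fin V.card, (m * w ≤ i ∧ (i : ℕ) < (m + 1) * w) ∧ e i = a := by
    intro m a
    simp only [hW, Finset.mem_map, Finset.mem_filter, Finset.mem_univ, true_and,
      RelEmbedding.coe_toEmbedding]
  refine ⟨W, ?_, ?_, ?_⟩
  · intro m _ a ha
    obtain ⟨i, _, rfl⟩ := (hmem m a).mp ha
    exact Finset.orderEmbOfFin_mem _ _ _
  · intro m hm
    rw [hW]
    simp only [Finset.card_map]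
    have hle : (m + 1) * w ≤ V.card := le_trans (Nat.mul_le_mul_right w hm) h
    have hexp : (m + 1) * w = m * w + w := by ring
    have hb : ∀ j < w, m * w + j < V.card := fun j hj => by omega
    have hcard : (Finset.univ : Finset (Fin w)).card = w := by simp
    rw [← hcard]
    refine le_trans (le_of_eq (by simp)) (Finset.card_le_card_of_injOn
      (s := (Finset.univ : Finset (Fin w)))
      (fun j : Fin w => (⟨m * w + j, hb j j.2⟩ : Fin V.card)) ?_ ?_)
    · intro j _
      have := j.2
      simp only [Finset.coe_filter, Finset.mem_univ, true_and, Set.mem_ofPred_eq]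
      simp only [hcard]
      omega
    · intro j _ j' _ hjj
      simp only [Fin.mk.injEq] at hjj
      exact Fin.ext (by omega)
  · intro m m' hmm _ a ha b hb
    obtain ⟨i, hi, rfl⟩ := (hmem m a).mp ha
    obtain ⟨i', hi', rfl⟩ := (hmem m' b).mp hb
    have h1 : (m + 1) * w ≤ m' * w := Nat.mul_le_mul_right w hmm
    have : i < i' := by
      rw [Fin.lt_def]; omega
    exact e.strictMono this

/-- The recursive inequality. -/
theorem recursion {c : ℕ → ℕ → ℕ} {V : Finset ℕ} {l R s F₁ F₂ : ℕ} {lev : ℕ → ℕ → ℕ}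
    (hL : Lev c V l lev) (hR : ∀ x D, RP c V x D → D.card ≤ R) (hs : 1 ≤ s) (hsR : s < R)
    (h₁ : ∀ T ⊆ V, (∀ y D', RP c T y D' → D'.card ≤ R - s - 1) → T.card ≤ F₁)
    (h₂ : ∀ T ⊆ V, (∀ y D', RP c T y D' → D'.card ≤ s - 1) → T.card ≤ F₂) :
    V.card < ((R + 1) * ((R + 2) * (R - s) + 1) + 1) *
      (2 * (R * (l ^ (s + 1) * F₁ + 1)) +
        (R + 1) * (R - s) * (R * (l ^ (s + 1) * F₁ + 1) + l * F₂) + 3 * (R * (l * F₂)) + F₂ + 1) := by
  by_contra hcon
  push Not at hcon
  set Λ := l ^ (s + 1) * F₁ + 1 with hΛ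
  set Q := l * F₂ with hQ
  set M := (R + 1) * ((R + 2) * (R - s) + 1) + 1 with hM
  obtain ⟨W, hsub, hcard, hord⟩ := exists_windows V M _ hcon
  have star : ∀ x D, RP c V x D → s ≤ D.card → ∀ γ, Pop c W M Λ x γ → γ ∈ D := by
    intro x D hP hD γ hpop
    by_contra hγ
    obtain ⟨D', hD', hcard', hP'⟩ := hP.suffix s hD
    obtain ⟨m, hm, hlater, hbig⟩ := hpop
    have := card_class_le hL hR (j := s) (N := F₁) h₁ hP' hcard' (γ := γ) (fun h => hγ (hD' h))
      (T := (W m).filter fun v => c x v = γ)
      ((Finset.filter_subset _ _).trans (hsub m hm)) (fun v hv => by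
        rw [Finset.mem_filter] at hv
        exact ⟨hlater v hv.1, hv.2⟩)
    omega
  have S : Stuck c V W R s M Λ Q F₂ := by
    refine ⟨hR, hsR, hsub, hord, star, ?_, ?_⟩
    · intro γ
      have := card_le_of_levels hL.lt F₂ {γ} (V.filter fun x => Pop c W M Λ x γ)
        (Finset.filter_subset _ _) ?_
      · simpa using this
      · intro T' hT' hconst
        have hT'V : T' ⊆ V := hT'.trans (Finset.filter_subset _ _)
        refine h₂ T' hT'V ?_
        intro y D' hD'
        by_contra hlt
        push Not at hlt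
        have hy := (Finset.mem_filter.mp (hT' hD'.mem)).2
        have h1 := star y D' (hD'.mono hT'V) (by omega) γ hy
        exact hD'.notMem_of_free (hL.free hT'V (hconst γ (Finset.mem_singleton_self γ))) h1
    · refine h₂ _ (Finset.filter_subset _ _) ?_
      intro y D' hD'
      by_contra hlt
      push Not at hlt
      obtain ⟨D'', _, hcard'', hP''⟩ := hD'.suffix s (by omega)
      exact (Finset.mem_filter.mp hD'.mem).2
        ⟨D'', hP''.mono (Finset.filter_subset _ _), hcard''⟩
  exact S.false (w := _) hcard (by omega) (by omega)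

/-- A crude bound, used for small `R`. -/
theorem crude {c : ℕ → ℕ → ℕ} {l : ℕ} {lev : ℕ → ℕ → ℕ} :
    ∀ (R : ℕ) (V : Finset ℕ), Lev c V l lev → (∀ x D, RP c V x D → D.card ≤ R) →
      V.card ≤ (l + 1) ^ R * (R + 2) ^ (2 * R) := by
  intro R
  induction R with
  | zero =>
    intro V _ hR
    rw [Nat.mul_zero, pow_zero, pow_zero, Nat.mul_one, Finset.card_le_one]
    intro a ha b hb
    by_contra hab
    rcases lt_or_gt_of_ne hab with h | h
    · have := hR _ _ (RP.step (RP.single ha) hb h (by simp))
      simp at this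
    · have := hR _ _ (RP.step (RP.single hb) ha h (by simp))
      simp at this
  | succ R ih =>
    intro V hL hR
    set N := (l + 1) ^ R * (R + 2) ^ (2 * R) with hN
    have hNpos : 1 ≤ N := Nat.one_le_iff_ne_zero.mpr (by positivity)
    have hclass : ∀ x ∈ V, ∀ γ, ∀ T ⊆ V, (∀ v ∈ T, x < v ∧ c x v = γ) → T.card ≤ l * N := by
      intro x hx γ T hTV hT
      have := card_class_le hL hR (j := 0) (N := N) (D := ∅) (x := x) (fun T' hT' h => by
        refine ih T' ⟨fun γ v hv => hL.lt γ v (hT' hv), fun u hu v hv =>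
          hL.up u (hT' hu) v (hT' hv)⟩ ?_
        intro y D' hD'
        have := h y D' hD'
        omega) (RP.single hx) rfl (γ := γ) (by simp) hTV hT
      simpa using this
    set w := (R + 1) * (l * N) + 1 with hw
    have hlt : V.card < (R + 3) * w := by
      by_contra hcon
      push Not at hcon
      obtain ⟨W, hsub, hcard, hord⟩ := exists_windows V (R + 3) w hcon
      have chain : ∀ t ≤ R + 2, ∃ x G, RP c V x G ∧ G.card = t ∧ x ∈ W t := by
        intro t
        induction t with
        | zero =>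
          intro _
          have := hcard 0 (by omega)
          obtain ⟨x, hx⟩ := Finset.card_pos.mp (show 0 < (W 0).card by omega)
          exact ⟨x, ∅, RP.single (hsub 0 (by omega) hx), rfl, hx⟩
        | succ t iht =>
          intro ht
          obtain ⟨x, G, hG, hGc, hx⟩ := iht (by omega)
          have htM : t + 1 < R + 3 := by omega
          have hGR : G.card ≤ R + 1 := hR _ _ hG
          have hlater : ∀ v ∈ W (t + 1), x < v := fun v hv =>
            hord t (t + 1) (Nat.lt_succ_self t) htM x hx v hv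
          have hc : ((W (t + 1)).filter fun v => c x v ∈ G).card ≤ (R + 1) * (l * N) := by
            refine (card_filter_mem_le (W (t + 1)) G (c x) (l * N) ?_).trans
              (Nat.mul_le_mul_right _ hGR)
            intro d _
            refine hclass x hG.mem d _ ((Finset.filter_subset _ _).trans (hsub _ htM)) ?_
            intro v hv
            rw [Finset.mem_filter] at hv
            exact ⟨hlater v hv.1, hv.2⟩
          obtain ⟨v, hv, hv'⟩ : ∃ v ∈ W (t + 1), v ∉ (W (t + 1)).filter fun v => c x v ∈ G := by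
            refine Finset.exists_mem_notMem_of_card_lt_card ?_
            have := hcard (t + 1) htM
            omega
          have hnot : c x v ∉ G := fun h => hv' (Finset.mem_filter.mpr ⟨hv, h⟩)
          exact ⟨v, _, RP.step hG (hsub _ htM hv) (hlater v hv) hnot, by
            rw [Finset.card_insert_of_notMem hnot, hGc], hv⟩
      obtain ⟨x, G, hG, hGc, _⟩ := chain (R + 2) le_rfl
      have := hR _ _ hG
      omega
    have h1 : (R + 3) * w ≤ (l + 1) * (R + 3) ^ 2 * N := by
      have h2 : w ≤ (l + 1) * (R + 3) * N := by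
        rw [hw]
        nlinarith [Nat.zero_le (l * N), Nat.zero_le (R * N), Nat.zero_le (R * (l * N))]
      calc (R + 3) * w ≤ (R + 3) * ((l + 1) * (R + 3) * N) := Nat.mul_le_mul_left _ h2
        _ = (l + 1) * (R + 3) ^ 2 * N := by ring
    have h3 : (l + 1) * (R + 3) ^ 2 * N ≤ (l + 1) ^ (R + 1) * (R + 1 + 2) ^ (2 * (R + 1)) := by
      have h4 : (R + 2) ^ (2 * R) ≤ (R + 3) ^ (2 * R) := Nat.pow_le_pow_left (by omega) _
      calc (l + 1) * (R + 3) ^ 2 * N
          ≤ (l + 1) * (R + 3) ^ 2 * ((l + 1) ^ R * (R + 3) ^ (2 * R)) := by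
            rw [hN]
            exact Nat.mul_le_mul_left _ (Nat.mul_le_mul_left _ h4)
        _ = (l + 1) ^ (R + 1) * (R + 1 + 2) ^ (2 * (R + 1)) := by ring
    omega

end FlashRainbow
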