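import Pool.Agent.Work.MP_54723a_co.TransFin

/-!
# Monotonicity of paths in the vertex set
-/

set_option autoImplicit false

namespace FlashRainbow

theorem RF.toRP {c : ℕ → ℕ → ℕ} {V W : Finset ℕ} {x v : ℕ} {D : Finset ℕ} (h : RF c V x v D)
    (hVW : V ⊆ W) : RP c W v D := by
  induction h with
  | single hx => exact RP.single (hVW hx)
  | step _ hv hlt hc ih => exact RP.step ih (hVW hv) hlt hc

theorem MP.mono {c : ℕ → ℕ → ℕ} {V W : Finset ℕ} {γ v j : ℕ} (h : MP c V γ v j)
    (hVW : V ⊆ W) : MP c W γ v j := by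
  induction h with
  | single hx => exact MP.single (hVW hx)
  | step _ hv hlt hc ih => exact MP.step ih (hVW hv) hlt hc

end FlashRainbow
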