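import Pool.Agent.Work.MP_54723a_co.Transitive

/-!
# Transitive colour classes: colourings of `Fin n`
-/

set_option autoImplicit false

namespace FlashRainbow

/-- `RF c V x v D`: there is a rainbow monotone path in `V` from `x` to `v` whose set of colours
is `D`. -/
inductive RF (c : ℕ → ℕ → ℕ) (V : Finset ℕ) (x : ℕ) : ℕ → Finset ℕ → Prop
  | single : x ∈ V → RF c V x x ∅
  | step {u v : ℕ} {D : Finset ℕ} : RF c V x u D → v ∈ V → u < v → c u v ∉ D →
      RF c V x v (insert (c u v) D)

theorem RF.mem {c : ℕ → ℕ → ℕ} {V : Finset ℕ} {x v : ℕ} {D : Finset ℕ} (h : RF c V x v D) :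
    v ∈ V := by
  cases h with
  | single hx => exact hx
  | step _ hy _ _ => exact hy

theorem RF.toFun {c : ℕ → ℕ → ℕ} {V : Finset ℕ} {x v : ℕ} {D : Finset ℕ} (h : RF c V x v D) :
    ∃ y : ℕ → ℕ, y 0 = x ∧ y D.card = v ∧ (∀ i ≤ D.card, y i ∈ V) ∧
      (∀ i < D.card, y i < y (i + 1)) ∧
      (∀ i < D.card, ∀ j < D.card, c (y i) (y (i + 1)) = c (y j) (y (j + 1)) → i = j) ∧
      D = (Finset.range D.card).image (fun i => c (y i) (y (i + 1))) := by
  induction h with
  | single hx =>
    exact ⟨fun _ => x, rfl, rfl, fun _ _ => hx, by simp, by simp, by simp⟩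
  | @step u z D h hz hlt hc ih =>
    obtain ⟨y, hx, h0, h1, h2, h4, h5⟩ := ih
    rw [Finset.card_insert_of_notMem hc]
    set j := D.card with hj
    have hupd : ∀ i ≤ j, Function.update y (j + 1) z i = y i := fun i hi =>
      Function.update_of_ne (by omega) _ _
    have hlast : Function.update y (j + 1) z (j + 1) = z := Function.update_self _ _ _
    have hmem : ∀ i < j, c (y i) (y (i + 1)) ∈ D := by
      intro i hi
      rw [h5]
      exact Finset.mem_image_of_mem _ (Finset.mem_range.mpr hi)
    refine ⟨Function.update y (j + 1) z, ?_, hlast, ?_, ?_, ?_, ?_⟩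
    · rw [hupd 0 (Nat.zero_le _)]; exact hx
    · intro i hi
      rcases Nat.lt_or_ge j i with h' | h'
      · have : i = j + 1 := by omega
        subst this
        rw [hlast]; exact hz
      · rw [hupd i h']; exact h1 i h'
    · intro i hi
      rw [hupd i (by omega)]
      rcases Nat.lt_or_ge i j with h' | h'
      · rw [hupd (i + 1) (by omega)]; exact h2 i h'
      · have : i = j := by omega
        subst this
        rw [hlast, h0]; exact hlt
    · intro i hi i' hi' heq
      rw [hupd i (by omega), hupd i' (by omega)] at heq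
      rcases Nat.lt_or_ge i j with h' | h'
      · rw [hupd (i + 1) (by omega)] at heq
        rcases Nat.lt_or_ge i' j with h'' | h''
        · rw [hupd (i' + 1) (by omega)] at heq
          exact h4 i h' i' h'' heq
        · have : i' = j := by omega
          subst this
          rw [hlast, h0] at heq
          exact absurd (heq ▸ hmem i h') hc
      · have : i = j := by omega
        subst this
        rw [hlast, h0] at heq
        rcases Nat.lt_or_ge i' j with h'' | h''
        · rw [hupd (i' + 1) (by omega)] at heq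
          exact absurd (heq.symm ▸ hmem i' h'') hc
        · omega
    · rw [Finset.range_add_one, Finset.image_insert, hupd j (le_refl _), hlast, h0]
      congr 1
      rw [h5]
      refine Finset.image_congr ?_
      intro i hi
      have hi' : i < j := Finset.mem_range.mp (Finset.mem_coe.mp hi)
      simp only
      rw [hupd i (by omega), hupd (i + 1) (by omega)]

/-- The anchored theorem for a finite set of natural numbers. -/
theorem transitive_set {c : ℕ → ℕ → ℕ} {V : Finset ℕ} {L : ℕ → ℕ}
    (hL : ∀ γ v, ¬ MP c V γ v (L γ))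
    (htr : ∀ u ∈ V, ∀ v ∈ V, ∀ w ∈ V, u < v → v < w → c v w = c u v → c u w = c u v)
    {x : ℕ} (hx : x ∈ V) (hmin : ∀ v ∈ V, x ≤ v) :
    ∃ v D, RF c V x v D ∧ V.card ≤ ∏ γ ∈ D, L γ := by
  classical
  by_contra hcon
  push Not at hcon
  have hcard : (V.erase x).card + 1 = V.card := Finset.card_erase_add_one hx
  have h := transitive_core (E := RF c V x) (fun u D h => h.mem)
    (fun u D v h hv hlt hc => RF.step h hv hlt hc) hL ∅
    (fun u hu v hv w hw huv hvw _ h => htr u hu v hv w hw huv hvw h)
    (V.erase x).card (V.erase x) (le_refl _) ∅ (fun _ => x) (V.card - 1)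
    (Finset.empty_subset _) (Finset.erase_subset _ _) ⟨x, RF.single hx⟩
    (fun _ _ _ _ _ => Finset.notMem_empty _)
    (fun q hq => ⟨RF.single hx, lt_of_le_of_ne (hmin q (Finset.mem_of_mem_erase hq))
      (Ne.symm (Finset.ne_of_mem_erase hq)), Finset.notMem_empty _⟩)
    (fun v D' hv _ => by
      have := hcon v D' hv
      rw [Finset.sdiff_empty]
      omega)
  omega

/-- The transitive case for colourings of the pairs of `Fin n`. -/
theorem transitive_fin (n : ℕ) (c : Fin n → Fin n → ℕ) (L : ℕ → ℕ)
    (htr : ∀ u v w : Fin n, u < v → v < w → c u v = c v w → c u w = c u v)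
    (hflash : ∀ γ : ℕ, ¬ ∃ x : Fin (L γ + 1) → Fin n, StrictMono x ∧
        ∀ i : Fin (L γ), c (x i.castSucc) (x i.succ) = γ) (hn : 0 < n) :
    ∃ (m : ℕ) (y : Fin (m + 1) → Fin n), StrictMono y ∧ (y 0 : ℕ) = 0 ∧
      Function.Injective (fun i : Fin m => c (y i.castSucc) (y i.succ)) ∧
      n ≤ ∏ i : Fin m, L (c (y i.castSucc) (y i.succ)) := by
  classical
  set C : ℕ → ℕ → ℕ := fun a b => if h : a < n ∧ b < n then c ⟨a, h.1⟩ ⟨b, h.2⟩ else 0 with hC
  have hCeq : ∀ (a b : ℕ) (ha : a < n) (hb : b < n), C a b = c ⟨a, ha⟩ ⟨b, hb⟩ := by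
    intro a b ha hb
    rw [hC]
    simp only [ha, hb, and_self, dite_true]
  set V := Finset.range n with hV
  have hnoflash : ∀ γ v, ¬ MP C V γ v (L γ) := by
    intro γ v hmp
    obtain ⟨y, _, h1, h2, h3⟩ := hmp.toFun
    have h1' : ∀ i ≤ L γ, y i < n := fun i hi => Finset.mem_range.mp (h1 i hi)
    apply hflash γ
    refine ⟨_, strictMono_of_lt_succ y h1' h2, fun i => ?_⟩
    have := h3 i i.2
    rw [hCeq _ _ (h1' i (by omega)) (h1' (i + 1) (by omega))] at this
    simpa using this
  have htr' : ∀ u ∈ V, ∀ v ∈ V, ∀ w ∈ V, u < v → v < w → C v w = C u v → C u w = C u v := by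
    intro u hu v hv w hw huv hvw h
    have hu' := Finset.mem_range.mp hu
    have hv' := Finset.mem_range.mp hv
    have hw' := Finset.mem_range.mp hw
    rw [hCeq u v hu' hv', hCeq v w hv' hw'] at h
    rw [hCeq u v hu' hv', hCeq u w hu' hw']
    exact htr _ _ _ huv hvw h.symm
  obtain ⟨v, D, hRF, hcard⟩ := transitive_set hnoflash htr' (x := 0) (Finset.mem_range.mpr hn)
    (fun _ _ => Nat.zero_le _)
  obtain ⟨y, hx, _, h1, h2, h4, h5⟩ := hRF.toFun
  have h1' : ∀ i ≤ D.card, y i < n := fun i hi => Finset.mem_range.mp (h1 i hi)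
  refine ⟨D.card, _, strictMono_of_lt_succ y h1' h2, ?_, ?_, ?_⟩
  · simpa using hx
  · intro i j hij
    apply Fin.ext
    apply h4 i i.2 j j.2
    rw [hCeq _ _ (h1' i (by omega)) (h1' (i + 1) (by omega)),
      hCeq _ _ (h1' j (by omega)) (h1' (j + 1) (by omega))]
    simpa using hij
  · rw [hV, Finset.card_range] at hcard
    refine hcard.trans (le_of_eq ?_)
    conv_lhs => rw [h5]
    rw [Finset.prod_image (fun i hi j hj hij => h4 i (Finset.mem_range.mp hi) j
      (Finset.mem_range.mp hj) hij), Finset.prod_range]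
    refine Finset.prod_congr rfl fun i _ => ?_
    congr 1
    rw [hCeq _ _ (h1' i (by omega)) (h1' (i + 1) (by omega))]
    simp

end FlashRainbow
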