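import Pool.Agent.Work.MP_54723a_co.Degree

/-!
# Transitive colour classes

The counting argument with stand-in roots.
-/

set_option autoImplicit false

namespace FlashRainbow

/-- Chains of colour `δ` in `U` together with a root, where the edge from the root to `q` has the
colour `c (s q) q`; `VC c U s δ q j` says that such a chain with `j` edges ends at `q`. -/
inductive VC (c : ℕ → ℕ → ℕ) (U : Finset ℕ) (s : ℕ → ℕ) (δ : ℕ) : ℕ → ℕ → Prop
  | base {q : ℕ} : q ∈ U → VC c U s δ q 0
  | root {q : ℕ} : q ∈ U → c (s q) q = δ → VC c U s δ q 1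
  | step {p q j : ℕ} : VC c U s δ p j → q ∈ U → p < q → c p q = δ → VC c U s δ q (j + 1)

theorem VC.toMP {c : ℕ → ℕ → ℕ} {U V : Finset ℕ} {s : ℕ → ℕ} {δ q j : ℕ}
    (h : VC c U s δ q j) (hUV : U ⊆ V) (hs : ∀ q ∈ U, s q ∈ V ∧ s q < q) : MP c V δ q j := by
  induction h with
  | base hq => exact MP.single (hUV hq)
  | root hq hc => exact MP.step (MP.single (hs _ hq).1) (hUV hq) (hs _ hq).2 hc
  | step _ hq hlt hc ih => exact MP.step ih (hUV hq) hlt hc

/-- `u` and `v` are joined by one edge, or by a monotone path with two edges, of colour `γ`. -/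
def Link (c : ℕ → ℕ → ℕ) (V : Finset ℕ) (u v γ : ℕ) : Prop :=
  v ∈ V ∧ u < v ∧ (c u v = γ ∨ ∃ w ∈ V, u < w ∧ w < v ∧ c u w = γ ∧ c w v = γ)

/-- The counting argument. `E v D` is a family of (ends and colour sets of) paths which is closed
under prolongation by links of new colours, and `L γ` bounds the chains of colour `γ`. -/
theorem block_core {c : ℕ → ℕ → ℕ} {V : Finset ℕ} {L : ℕ → ℕ} {E : ℕ → Finset ℕ → Prop}
    (D₀ : Finset ℕ) (hEmem : ∀ u D, E u D → u ∈ V)
    (hElink : ∀ u D v γ, D₀ ⊆ D → E u D → Link c V u v γ → γ ∉ D → E v (insert γ D))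
    (hL : ∀ γ v, ¬ MP c V γ v (L γ)) :
    ∀ (m : ℕ) (U : Finset ℕ), U.card ≤ m → ∀ (D : Finset ℕ) (s : ℕ → ℕ) (N : ℕ), D₀ ⊆ D →
      U ⊆ V → (∃ v, E v D) →
      (∀ p ∈ U, ∀ q ∈ U, p < q → c p q ∉ D) →
      (∀ q ∈ U, E (s q) D ∧ s q < q ∧ c (s q) q ∉ D) →
      (∀ v D', E v D' → D ⊆ D' → ∏ γ ∈ D' \ D, L γ ≤ N) →
      U.card + 1 ≤ N := by
  classical
  intro m
  induction m with
  | zero =>
    intro U hU D s N _ _ hE _ _ hN
    obtain ⟨v, hv⟩ := hE
    have h0 : U.card = 0 := by omega
    have := hN v D hv (Finset.Subset.refl _)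
    rw [Finset.sdiff_self, Finset.prod_empty] at this
    omega
  | succ m ih =>
    intro U hU D s N hD₀ hUV hE hfree hpar hN
    rcases U.eq_empty_or_nonempty with rfl | hne
    · obtain ⟨v, hv⟩ := hE
      have := hN v D hv (Finset.Subset.refl _)
      rw [Finset.sdiff_self, Finset.prod_empty] at this
      simpa using this
    · set y := U.min' hne with hy
      have hyU : y ∈ U := Finset.min'_mem _ hne
      have hymin : ∀ q ∈ U, y ≤ q := fun q hq => Finset.min'_le _ _ hq
      obtain ⟨hEs, hsy, hδD⟩ := hpar y hyU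
      set δ := c (s y) y with hδ
      have hEy : E y (insert δ D) := hElink _ _ _ _ hD₀ hEs ⟨hUV hyU, hsy, Or.inl rfl⟩ hδD
      have hsV : ∀ q ∈ U, s q ∈ V ∧ s q < q := fun q hq =>
        ⟨hEmem _ _ (hpar q hq).1, (hpar q hq).2.1⟩
      have hVC : ∀ q, ¬ VC c U s δ q (L δ) := fun q h => hL δ q (h.toMP hUV hsV)
      -- the number of levels
      have hL2 : 2 ≤ L δ := by
        have h0 : L δ ≠ 0 := fun h => hVC y (h ▸ VC.base hyU)
        have h1 : L δ ≠ 1 := fun h => hVC y (h ▸ VC.root hyU rfl)
        omega
      set N' := N / L δ with hN'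
      have hN'N : L δ * N' ≤ N := Nat.mul_div_le N (L δ)
      have hbound : ∀ v D', E v D' → insert δ D ⊆ D' → ∏ γ ∈ D' \ insert δ D, L γ ≤ N' := by
        intro v D' hv hsub
        have h1 := hN v D' hv ((Finset.subset_insert _ _).trans hsub)
        have h2 : D' \ D = insert δ (D' \ insert δ D) := by
          ext γ
          simp only [Finset.mem_sdiff, Finset.mem_insert, not_or]
          constructor
          · rintro ⟨h3, h4⟩
            by_cases h5 : γ = δ
            · exact Or.inl h5
            · exact Or.inr ⟨h3, h5, h4⟩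
          · rintro (h3 | ⟨h3, _, h5⟩)
            · rw [h3]
              exact ⟨hsub (Finset.mem_insert_self _ _), hδD⟩
            · exact ⟨h3, h5⟩
        have h3 : δ ∉ D' \ insert δ D := by simp
        rw [h2, Finset.prod_insert h3] at h1
        rw [hN', Nat.le_div_iff_mul_le (by omega), mul_comm]
        exact h1
      -- the children
      have hchild : ∀ T ⊆ U, (∀ p ∈ T, ∀ q ∈ T, p < q → c p q ≠ δ) → y ∉ T →
          T.card ≤ N' ∧ ((∀ q ∈ T, c y q ≠ δ) → T.card + 1 ≤ N') := by
        intro T hTU hTfree hyT
        have hlt : T.card < U.card := Finset.card_lt_card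
          ⟨hTU, fun h => hyT (h hyU)⟩
        have hylt : ∀ q ∈ T, y < q := fun q hq =>
          lt_of_le_of_ne (hymin q (hTU hq)) (fun h => hyT (h ▸ hq))
        have hfree' : ∀ p ∈ T, ∀ q ∈ T, p < q → c p q ∉ insert δ D := by
          intro p hp q hq hpq
          rw [Finset.mem_insert, not_or]
          exact ⟨hTfree p hp q hq hpq, hfree p (hTU hp) q (hTU hq) hpq⟩
        have hB : (∀ q ∈ T, c y q ≠ δ) → T.card + 1 ≤ N' := by
          intro hno
          refine ih T (by omega) (insert δ D) (fun _ => y) N'
            (hD₀.trans (Finset.subset_insert _ _)) (hTU.trans hUV) ⟨y, hEy⟩ hfree' ?_ hbound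
          intro q hq
          refine ⟨hEy, hylt q hq, ?_⟩
          rw [Finset.mem_insert, not_or]
          exact ⟨hno q hq, hfree y hyU q (hTU hq) (hylt q hq)⟩
        refine ⟨?_, hB⟩
        by_cases hno : ∀ q ∈ T, c y q ≠ δ
        · exact (Nat.le_succ _).trans (hB hno)
        · -- the stand-in root
          push Not at hno
          have hZne : (T.filter (fun q => c y q = δ)).Nonempty := by
            obtain ⟨q, hq, hc⟩ := hno
            exact ⟨q, Finset.mem_filter.mpr ⟨hq, hc⟩⟩
          set z := (T.filter (fun q => c y q = δ)).min' hZne with hz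
          have hzZ := Finset.min'_mem _ hZne
          rw [← hz] at hzZ
          obtain ⟨hzT, hcz⟩ := Finset.mem_filter.mp hzZ
          have hyz : y < z := hylt z hzT
          have hsz : s y < z := hsy.trans hyz
          have hEz : E z (insert δ D) := hElink _ _ _ _ hD₀ hEs
            ⟨hUV (hTU hzT), hsz, Or.inr ⟨y, hUV hyU, hsy, hyz, rfl, hcz⟩⟩ hδD
          have hcard : (T.erase z).card + 1 = T.card := Finset.card_erase_add_one hzT
          rw [← hcard]
          refine ih (T.erase z) (by omega) (insert δ D)
            (fun q => if c y q = δ then z else y) N'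
            (hD₀.trans (Finset.subset_insert _ _))
            ((Finset.erase_subset _ _).trans (hTU.trans hUV)) ⟨y, hEy⟩
            (fun p hp q hq => hfree' p (Finset.mem_of_mem_erase hp) q
              (Finset.mem_of_mem_erase hq)) ?_ hbound
          intro q hq
          obtain ⟨hqz, hqT⟩ := Finset.mem_erase.mp hq
          by_cases hcq : c y q = δ
          · have hzq : z < q := lt_of_le_of_ne
              (Finset.min'_le _ _ (Finset.mem_filter.mpr ⟨hqT, hcq⟩)) (Ne.symm hqz)
            simp only [hcq, if_true]
            exact ⟨hEz, hzq, hfree' z hzT q hqT hzq⟩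
          · simp only [hcq, if_false]
            refine ⟨hEy, hylt q hqT, ?_⟩
            rw [Finset.mem_insert, not_or]
            exact ⟨hcq, hfree y hyU q (hTU hqT) (hylt q hqT)⟩
      -- the levels
      set dep : ℕ → ℕ := fun q => Nat.findGreatest (fun j => VC c U s δ q j) (L δ) with hdep
      have hspec : ∀ q ∈ U, VC c U s δ q (dep q) := fun q hq =>
        Nat.findGreatest_spec (P := fun j => VC c U s δ q j) (Nat.zero_le _) (VC.base hq)
      have hdeplt : ∀ q ∈ U, dep q < L δ := by
        intro q hq
        refine lt_of_le_of_ne (Nat.findGreatest_le _) ?_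
        intro heq
        have := hspec q hq
        rw [heq] at this
        exact hVC q this
      have hle : ∀ q j, VC c U s δ q j → j ≤ L δ → j ≤ dep q := fun q j h hj =>
        Nat.le_findGreatest hj h
      have hup : ∀ p ∈ U, ∀ q ∈ U, p < q → c p q = δ → dep p < dep q := by
        intro p hp q hq hpq hc
        exact hle q _ (VC.step (hspec p hp) hq hpq hc) (hdeplt p hp)
      have hdepy : dep y = 1 := by
        apply le_antisymm
        · have h1 := hspec y hyU
          generalize hj : dep y = j at h1
          cases h1 with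
          | base _ => omega
          | root _ _ => exact le_refl _
          | step h2 _ hlt _ =>
            have : ∀ p j, VC c U s δ p j → p ∈ U := by
              intro p j h
              cases h with
              | base h => exact h
              | root h _ => exact h
              | step _ h _ _ => exact h
            exact absurd (hymin _ (this _ _ h2)) (not_le.mpr hlt)
        · exact hle y 1 (VC.root hyU rfl) (by omega)
      have hydep : ∀ q ∈ U, q ≠ y → c y q = δ → 2 ≤ dep q := by
        intro q hq hqy hc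
        have := hup y hyU q hq (lt_of_le_of_ne (hymin q hq) (Ne.symm hqy)) hc
        omega
      have hlevfree : ∀ j, ∀ p ∈ U.filter (fun q => dep q = j), ∀ q ∈ U.filter (fun q => dep q = j),
          p < q → c p q ≠ δ := by
        intro j p hp q hq hpq hc
        obtain ⟨hpU, hpj⟩ := Finset.mem_filter.mp hp
        obtain ⟨hqU, hqj⟩ := Finset.mem_filter.mp hq
        have := hup p hpU q hqU hpq hc
        omega
      have hlevel : ∀ j ∈ Finset.range (L δ),
          (U.filter (fun q => dep q = j)).card + (if j = 0 then 1 else 0) ≤ N' := by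
        intro j _
        by_cases hj0 : j = 0
        · subst hj0
          rw [if_pos rfl]
          refine (hchild _ (Finset.filter_subset _ _) (hlevfree 0) ?_).2 ?_
          · intro h
            have := (Finset.mem_filter.mp h).2
            omega
          · intro q hq hc
            obtain ⟨hqU, hq0⟩ := Finset.mem_filter.mp hq
            have := hydep q hqU (fun h => by rw [h, hdepy] at hq0; omega) hc
            omega
        · rw [if_neg hj0, Nat.add_zero]
          by_cases hj1 : j = 1
          · subst hj1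
            have hyL : y ∈ U.filter (fun q => dep q = 1) := Finset.mem_filter.mpr ⟨hyU, hdepy⟩
            rw [← Finset.card_erase_add_one hyL]
            refine (hchild _ ((Finset.erase_subset _ _).trans (Finset.filter_subset _ _))
              (fun p hp q hq => hlevfree 1 p (Finset.mem_of_mem_erase hp) q
                (Finset.mem_of_mem_erase hq)) (Finset.notMem_erase _ _)).2 ?_
            intro q hq hc
            obtain ⟨hqy, hq1⟩ := Finset.mem_erase.mp hq
            obtain ⟨hqU, hq1⟩ := Finset.mem_filter.mp hq1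
            have := hydep q hqU hqy hc
            omega
          · refine (hchild _ (Finset.filter_subset _ _) (hlevfree j) ?_).1
            intro h
            have := (Finset.mem_filter.mp h).2
            omega
      have hmaps : ∀ q ∈ U, dep q ∈ Finset.range (L δ) := fun q hq =>
        Finset.mem_range.mpr (hdeplt q hq)
      have hsum := Finset.sum_le_sum hlevel
      rw [Finset.sum_add_distrib, ← Finset.card_eq_sum_card_fiberwise hmaps,
        Finset.sum_ite_eq' (Finset.range (L δ)) 0 (fun _ => 1),
        if_pos (Finset.mem_range.mpr (by omega)), Finset.sum_const, Finset.card_range,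
        smul_eq_mul] at hsum
      exact hsum.trans hN'N

/-- The counting argument for transitive colours outside `D₀`. -/
theorem transitive_core {c : ℕ → ℕ → ℕ} {V : Finset ℕ} {L : ℕ → ℕ} {E : ℕ → Finset ℕ → Prop}
    (hEmem : ∀ u D, E u D → u ∈ V)
    (hEstep : ∀ u D v, E u D → v ∈ V → u < v → c u v ∉ D → E v (insert (c u v) D))
    (hL : ∀ γ v, ¬ MP c V γ v (L γ)) (D₀ : Finset ℕ)
    (htr : ∀ u ∈ V, ∀ v ∈ V, ∀ w ∈ V, u < v → v < w → c u v ∉ D₀ → c v w = c u v →
      c u w = c u v) :
    ∀ (m : ℕ) (U : Finset ℕ), U.card ≤ m → ∀ (D : Finset ℕ) (s : ℕ → ℕ) (N : ℕ), D₀ ⊆ D →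
      U ⊆ V → (∃ v, E v D) →
      (∀ p ∈ U, ∀ q ∈ U, p < q → c p q ∉ D) →
      (∀ q ∈ U, E (s q) D ∧ s q < q ∧ c (s q) q ∉ D) →
      (∀ v D', E v D' → D ⊆ D' → ∏ γ ∈ D' \ D, L γ ≤ N) →
      U.card + 1 ≤ N := by
  refine block_core D₀ hEmem ?_ hL
  rintro u D v γ hD₀ hE ⟨hv, huv, h⟩ hγ
  have hc : c u v = γ := by
    rcases h with h | ⟨w, hw, huw, hwv, h1, h2⟩
    · exact h
    · rw [← h1]
      exact htr u (hEmem _ _ hE) w hw v hv huw hwv (by rw [h1]; exact fun h => hγ (hD₀ h))
        (by rw [h1, h2])
  have := hEstep u D v hE hv huv (by rw [hc]; exact hγ)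
  rwa [hc] at this

end FlashRainbow
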